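import Pool.Agent.SGM.TargetsP

set_option autoImplicit false

/-! Project SGM, target tBLKP: the blocks chosen by all centres in one parallel round. -/

namespace Pool.Agent.SGM

open MeasureTheory Set Filter
open scoped ENNReal
open Pool.Agent.MEC
open Pool.Agent.MEP
open Pool.Agent.MEO

universe u

namespace BLKP_

/-- piecewise measurable functions -/
lemma meas_pieces {α β J : Type*} [MeasurableSpace α] [MeasurableSpace β] [Countable J]
    {f : α → β} (A : J → Set α) (g : J → α → β) (hA : ∀ j, MeasurableSet (A j))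
    (hg : ∀ j, Measurable (g j)) (hf : ∀ j, ∀ x ∈ A j, f x = g j x)
    (hc : ∀ x, ∃ j, x ∈ A j) : Measurable f := by
  intro s hs
  have : f ⁻¹' s = ⋃ j, A j ∩ g j ⁻¹' s := by
    ext x
    simp only [mem_preimage, mem_iUnion, mem_inter_iff]
    constructor
    · intro hx
      obtain ⟨j, hj⟩ := hc x
      exact ⟨j, hj, by rw [← hf j x hj]; exact hx⟩
    · rintro ⟨j, hj, hx⟩
      rw [hf j x hj]
      exact hx
  rw [this]
  exact MeasurableSet.iUnion fun j => (hA j).inter (hg j hs)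

/-- trivial blocks -/
def triv (ι : Type*) : Blk ι where
  q x := x
  n x := x
  r x := x
  q2 _ := rfl
  n2 _ := rfl
  r3 _ := rfl
  qn _ h := absurd rfl h
  qr _ h := absurd rfl h
  nr _ h := absurd rfl h

variable {m Δ : ℕ}

open Classical in
/-- the blocks of the player in the local state `a` -/
noncomputable def beta (τ : Fin Δ → Fin Δ) (w : List (Fin Δ → Fin Δ))
    (a : Fin m → Finset (Fin Δ)) : Blk (Fin m × Fin Δ) :=
  if h : WinP (τ :: w) a then h.choose else triv _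

lemma beta_sup (τ : Fin Δ → Fin Δ) (w : List (Fin Δ → Fin Δ)) (a : Fin m → Finset (Fin Δ)) :
    (beta τ w a).Sup (Pin τ a) := by
  unfold beta
  split_ifs with h
  · exact h.choose_spec.1
  · intro x _
    exact ⟨rfl, rfl, rfl⟩

lemma beta_win {τ : Fin Δ → Fin Δ} {w : List (Fin Δ → Fin Δ)} {a : Fin m → Finset (Fin Δ)}
    (h : WinP (τ :: w) a) {X : Set (Fin m × Fin Δ)} (hX : ∀ p, (beta τ w a).At X p) :
    WinP w (flp τ a X) := by
  unfold beta at hX
  rw [dif_pos h] at hX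
  exact h.choose_spec.2 X hX

section

variable {V : Type u} [MeasurableSpace V] {G : SimpleGraph V} {e : PCol G m} {Z : Set V}

/-- `v` is joined to a centre by the edge number `κ` -/
def Hk (e : PCol G m) (Z : Set V) (v : V) (κ : Fin m) : Prop := e.S κ v ≠ v ∧ e.S κ v ∈ Z

lemma Hk.uniq (hZ : Cen e Δ Z) {v : V} {κ κ' : Fin m} (h : Hk e Z v κ) (h' : Hk e Z v κ') :
    κ = κ' := by
  have h1 : G.Adj (e.S κ v) v := (e.adj κ v h.1).symm
  have h2 : G.Adj (e.S κ' v) v := (e.adj κ' v h'.1).symm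
  exact e.disj κ κ' v (hZ.sep _ h.2 _ h'.2 v h1 h2) h.1

open Classical in
/-- transport of a family of maps of the pins -/
noncomputable def tr (e : PCol G m) (Z : Set V) (M : V → Fin m → Finset (Fin Δ))
    (F : (Fin m → Finset (Fin Δ)) → Fin m × Fin Δ → Fin m × Fin Δ) (p : V × Fin Δ) :
    V × Fin Δ :=
  if h : ∃ κ, Hk e Z p.1 κ then
    (e.S (F (M (e.S h.choose p.1)) (h.choose, p.2)).1 (e.S h.choose p.1),
      (F (M (e.S h.choose p.1)) (h.choose, p.2)).2)
  else p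

variable {M : V → Fin m → Finset (Fin Δ)}
  {F : (Fin m → Finset (Fin Δ)) → Fin m × Fin Δ → Fin m × Fin Δ}

lemma tr_no {p : V × Fin Δ} (h : ¬ ∃ κ, Hk e Z p.1 κ) : tr e Z M F p = p := by
  unfold tr
  rw [dif_neg h]

lemma tr_eq (hZ : Cen e Δ Z) {p : V × Fin Δ} {κ : Fin m} (h : Hk e Z p.1 κ) :
    tr e Z M F p = (e.S (F (M (e.S κ p.1)) (κ, p.2)).1 (e.S κ p.1),
      (F (M (e.S κ p.1)) (κ, p.2)).2) := by
  have h0 : ∃ κ, Hk e Z p.1 κ := ⟨κ, h⟩
  have h1 : h0.choose = κ := Hk.uniq hZ h0.choose_spec h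
  unfold tr
  rw [dif_pos h0, h1]

lemma Hk_of {t : V} (ht : t ∈ Z) {κ : Fin m} (h : e.S κ t ≠ t) : Hk e Z (e.S κ t) κ := by
  refine ⟨?_, ?_⟩
  · rw [e.invol κ t]
    exact fun h' => h h'.symm
  · rw [e.invol κ t]
    exact ht

/-- the transported map on the pins of a centre -/
lemma tr_cen (hZ : Cen e Δ Z) {t : V} (ht : t ∈ Z) {κ : Fin m} (h : e.S κ t ≠ t) (k : Fin Δ) :
    tr e Z M F (e.S κ t, k) = (e.S (F (M t) (κ, k)).1 t, (F (M t) (κ, k)).2) := by
  rw [tr_eq hZ (p := (e.S κ t, k)) (Hk_of ht h)]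
  simp only [e.invol κ t]

/-- every point with a hook comes from a centre -/
lemma from_cen {p : V × Fin Δ} {κ : Fin m} (h : Hk e Z p.1 κ) :
    ∃ t ∈ Z, e.S κ t ≠ t ∧ p = (e.S κ t, p.2) := by
  refine ⟨e.S κ p.1, h.2, ?_, ?_⟩
  · rw [e.invol κ p.1]
    exact fun h' => h.1 h'.symm
  · rw [e.invol κ p.1]

lemma tr_meas [StandardBorelSpace V] (hZ : Cen e Δ Z) (hM : ∀ a, MeasurableSet {t | M t = a}) :
    Measurable (tr e Z M F) := by
  let J := Option (Fin m × (Fin m → Finset (Fin Δ)) × Fin Δ)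
  let A : J → Set (V × Fin Δ) := fun j => match j with
    | none => {p | ¬ ∃ κ, Hk e Z p.1 κ}
    | some (κ, a, k) => {p | Hk e Z p.1 κ ∧ M (e.S κ p.1) = a ∧ p.2 = k}
  let g : J → V × Fin Δ → V × Fin Δ := fun j => match j with
    | none => id
    | some (κ, a, k) => fun p => (e.S (F a (κ, k)).1 (e.S κ p.1), (F a (κ, k)).2)
  have hH : ∀ κ, MeasurableSet {v : V | Hk e Z v κ} := by
    intro κ
    have h1 : MeasurableSet {v : V | e.S κ v ≠ v} := by
      exact (measurableSet_eq_fun (e.meas κ) measurable_id).compl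
    exact h1.inter ((e.meas κ) hZ.meas)
  refine meas_pieces A g ?_ ?_ ?_ ?_
  · rintro (_ | ⟨κ, a, k⟩)
    · have : A none = (⋃ κ, Prod.fst ⁻¹' {v : V | Hk e Z v κ})ᶜ := by
        ext p
        simp [A]
      rw [this]
      exact (MeasurableSet.iUnion fun κ => measurable_fst (hH κ)).compl
    · have : A (some (κ, a, k)) = (Prod.fst ⁻¹' {v : V | Hk e Z v κ}) ∩
          ((fun p : V × Fin Δ => e.S κ p.1) ⁻¹' {t | M t = a} ∩
            (Prod.snd ⁻¹' {k})) := by
        ext p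
        simp [A]
      rw [this]
      exact (measurable_fst (hH κ)).inter ((((e.meas κ).comp measurable_fst) (hM a)).inter
        (measurable_snd (measurableSet_singleton k)))
  · rintro (_ | ⟨κ, a, k⟩)
    · exact measurable_id
    · exact ((((e.meas _).comp ((e.meas κ).comp measurable_fst))).prodMk measurable_const)
  · rintro (_ | ⟨κ, a, k⟩) p hp
    · exact tr_no hp
    · obtain ⟨h1, h2, h3⟩ := hp
      rw [tr_eq hZ h1]
      simp only [g, h2, h3]
  · intro p
    by_cases h : ∃ κ, Hk e Z p.1 κ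
    · obtain ⟨κ, hκ⟩ := h
      exact ⟨some (κ, M (e.S κ p.1), p.2), hκ, rfl, rfl⟩
    · exact ⟨none, h⟩

/-- the family `F` moves only pins -/
def Good (τ : Fin Δ → Fin Δ) (F : (Fin m → Finset (Fin Δ)) → Fin m × Fin Δ → Fin m × Fin Δ) :
    Prop := ∀ a x, x ∉ Pin τ a → F a x = x

variable {c : PCol (off G Z) Δ} {τ : Fin Δ → Fin Δ}

lemma Good.pin (hF : Good τ F) {a : Fin m → Finset (Fin Δ)} {x : Fin m × Fin Δ}
    (h : F a x ≠ x) : x ∈ Pin τ a := by
  by_contra h'
  exact h (hF a x h')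

/-- the label of a pin is a real edge -/
lemma real_of_mem (hL : LS e Z c M) {t : V} {κ : Fin m} {k : Fin Δ} (h : k ∈ M t κ) :
    e.S κ t ≠ t := by
  intro h'
  have := hL.emp t κ (Or.inr h')
  rw [this] at h
  exact absurd h (Finset.notMem_empty k)

lemma pair_inj {t : V} {κ κ' : Fin m} {k k' : Fin Δ} (h : e.S κ t ≠ t)
    (h' : (e.S κ' t, k') = (e.S κ t, k)) : (κ', k') = (κ, k) := by
  have h1 : e.S κ' t = e.S κ t := congrArg Prod.fst h'
  have h2 : k' = k := congrArg Prod.snd h'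
  have h3 : κ' = κ := (e.disj κ κ' t h1.symm h).symm
  rw [h2, h3]

/-- a map which is injective and moves only pins has its values on real edges -/
lemma real_val (hL : LS e Z c M) {t : V} {κ : Fin m} {k : Fin Δ} (h : e.S κ t ≠ t)
    {f : Fin m × Fin Δ → Fin m × Fin Δ} (hf : ∀ x, x ∉ Pin τ (M t) → f x = x)
    (hi : Function.Injective f) : e.S (f (κ, k)).1 t ≠ t := by
  by_cases h1 : f (κ, k) = (κ, k)
  · rw [h1]
    exact h
  · have h2 : f (κ, k) ∈ Pin τ (M t) := by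
      by_contra h3
      exact h1 (hi (hf _ h3))
    exact real_of_mem hL h2.1

end

end BLKP_

open BLKP_ in
/-- P2 -/
theorem allBLKP : tBLKP.{u} := by
  intro V _ _ G m Δ e Z hZ c M τ w hL
  set bt : (Fin m → Finset (Fin Δ)) → Blk (Fin m × Fin Δ) := beta τ w with hbt
  have sup : ∀ a, (bt a).Sup (Pin τ a) := fun a => beta_sup τ w a
  have iq : ∀ a, Function.Injective (bt a).q := fun a => Function.LeftInverse.injective (bt a).q2
  have inn : ∀ a, Function.Injective (bt a).n := fun a => Function.LeftInverse.injective (bt a).n2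
  have ir : ∀ a, Function.Injective (bt a).r := by
    intro a x y hxy
    rw [← (bt a).r3 x, ← (bt a).r3 y]
    have hxy : (bt a).r x = (bt a).r y := hxy
    rw [hxy]
  have gq : Good (m := m) τ fun a => (bt a).q := fun a x hx => (sup a x hx).1
  have gn : Good (m := m) τ fun a => (bt a).n := fun a x hx => (sup a x hx).2.1
  have gr : Good (m := m) τ fun a => (bt a).r := fun a x hx => (sup a x hx).2.2
  -- values
  have vq : ∀ t ∈ Z, ∀ κ k, e.S κ t ≠ t → e.S ((bt (M t)).q (κ, k)).1 t ≠ t :=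
    fun t _ κ k h => real_val hL h (gq (M t)) (iq (M t))
  have vn : ∀ t ∈ Z, ∀ κ k, e.S κ t ≠ t → e.S ((bt (M t)).n (κ, k)).1 t ≠ t :=
    fun t _ κ k h => real_val hL h (gn (M t)) (inn (M t))
  have vr : ∀ t ∈ Z, ∀ κ k, e.S κ t ≠ t → e.S ((bt (M t)).r (κ, k)).1 t ≠ t :=
    fun t _ κ k h => real_val hL h (gr (M t)) (ir (M t))
  set Q := tr e Z M fun a => (bt a).q with hQ
  set N := tr e Z M fun a => (bt a).n with hN
  set R := tr e Z M fun a => (bt a).r with hR
  have cq : ∀ t ∈ Z, ∀ κ k, e.S κ t ≠ t → Q (e.S κ t, k) =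
      (e.S ((bt (M t)).q (κ, k)).1 t, ((bt (M t)).q (κ, k)).2) :=
    fun t ht κ k h => tr_cen hZ ht h k
  have cn : ∀ t ∈ Z, ∀ κ k, e.S κ t ≠ t → N (e.S κ t, k) =
      (e.S ((bt (M t)).n (κ, k)).1 t, ((bt (M t)).n (κ, k)).2) :=
    fun t ht κ k h => tr_cen hZ ht h k
  have cr : ∀ t ∈ Z, ∀ κ k, e.S κ t ≠ t → R (e.S κ t, k) =
      (e.S ((bt (M t)).r (κ, k)).1 t, ((bt (M t)).r (κ, k)).2) :=
    fun t ht κ k h => tr_cen hZ ht h k
  -- case distinction
  have cas : ∀ p : V × Fin Δ, (Q p = p ∧ N p = p ∧ R p = p) ∨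
      ∃ t ∈ Z, ∃ κ k, e.S κ t ≠ t ∧ p = (e.S κ t, k) := by
    intro p
    by_cases h : ∃ κ, Hk e Z p.1 κ
    · obtain ⟨κ, hκ⟩ := h
      obtain ⟨t, ht, h1, h2⟩ := from_cen hκ
      exact Or.inr ⟨t, ht, κ, p.2, h1, h2⟩
    · exact Or.inl ⟨tr_no h, tr_no h, tr_no h⟩
  have mq : Measurable Q := tr_meas hZ hL.meas
  have mn : Measurable N := tr_meas hZ hL.meas
  have mr : Measurable R := tr_meas hZ hL.meas
  refine ⟨⟨Q, N, R, ?_, ?_, ?_, ?_, ?_, ?_⟩, mq, mn, mr, ?_, ?_⟩
  · intro p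
    rcases cas p with h | ⟨t, ht, κ, k, h1, rfl⟩
    · rw [h.1, h.1]
    · rw [cq t ht κ k h1, cq t ht _ _ (vq t ht κ k h1), Prod.mk.eta, (bt (M t)).q2]
  · intro p
    rcases cas p with h | ⟨t, ht, κ, k, h1, rfl⟩
    · rw [h.2.1, h.2.1]
    · rw [cn t ht κ k h1, cn t ht _ _ (vn t ht κ k h1), Prod.mk.eta, (bt (M t)).n2]
  · intro p
    rcases cas p with h | ⟨t, ht, κ, k, h1, rfl⟩
    · rw [h.2.2, h.2.2, h.2.2]
    · rw [cr t ht κ k h1, cr t ht _ _ (vr t ht κ k h1), Prod.mk.eta]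
      have h2 : e.S ((bt (M t)).r ((bt (M t)).r (κ, k))).1 t ≠ t := by
        have := vr t ht ((bt (M t)).r (κ, k)).1 ((bt (M t)).r (κ, k)).2 (vr t ht κ k h1)
        rwa [Prod.mk.eta] at this
      rw [cr t ht _ _ h2, Prod.mk.eta, (bt (M t)).r3]
  · intro p hp
    rcases cas p with h | ⟨t, ht, κ, k, h1, rfl⟩
    · exact h.2.1
    · rw [cn t ht κ k h1]
      rw [cq t ht κ k h1] at hp
      have h2 : (bt (M t)).q (κ, k) ≠ (κ, k) := fun h3 => hp (by rw [h3])
      rw [(bt (M t)).qn _ h2]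
  · intro p hp
    rcases cas p with h | ⟨t, ht, κ, k, h1, rfl⟩
    · exact h.2.2
    · rw [cr t ht κ k h1]
      rw [cq t ht κ k h1] at hp
      have h2 : (bt (M t)).q (κ, k) ≠ (κ, k) := fun h3 => hp (by rw [h3])
      rw [(bt (M t)).qr _ h2]
  · intro p hp
    rcases cas p with h | ⟨t, ht, κ, k, h1, rfl⟩
    · exact h.2.2
    · rw [cr t ht κ k h1]
      rw [cn t ht κ k h1] at hp
      have h2 : (bt (M t)).n (κ, k) ≠ (κ, k) := fun h3 => hp (by rw [h3])
      rw [(bt (M t)).nr _ h2]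
  · intro p hp
    rcases cas p with h | ⟨t, ht, κ, k, h1, rfl⟩
    · rcases hp with hp | hp | hp
      · exact absurd h.1 hp
      · exact absurd h.2.1 hp
      · exact absurd h.2.2 hp
    · have h2 : (κ, k) ∈ Pin τ (M t) := by
        rcases hp with hp | hp | hp
        · have hp : Q (e.S κ t, k) ≠ (e.S κ t, k) := hp
          rw [cq t ht κ k h1] at hp
          exact gq.pin (a := M t) fun h3 => hp (by
            have h3 : (bt (M t)).q (κ, k) = (κ, k) := h3
            rw [h3])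
        · have hp : N (e.S κ t, k) ≠ (e.S κ t, k) := hp
          rw [cn t ht κ k h1] at hp
          exact gn.pin (a := M t) fun h3 => hp (by
            have h3 : (bt (M t)).n (κ, k) = (κ, k) := h3
            rw [h3])
        · have hp : R (e.S κ t, k) ≠ (e.S κ t, k) := hp
          rw [cr t ht κ k h1] at hp
          exact gr.pin (a := M t) fun h3 => hp (by
            have h3 : (bt (M t)).r (κ, k) = (κ, k) := h3
            rw [h3])
      exact hL.mis t κ k h2.1
  · intro t ht hw X hX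
    refine beta_win hw ?_
    rintro ⟨κ, k⟩
    change (bt (M t)).At _ (κ, k)
    by_cases h1 : e.S κ t = t
    · have h2 : (κ, k) ∉ Pin τ (M t) := fun h3 => real_of_mem hL h3.1 h1
      obtain ⟨s1, s2, s3⟩ := sup (M t) (κ, k) h2
      exact ⟨fun h => by rw [s1]; exact h, fun h => absurd s2 h, fun h => absurd s3 h⟩
    · obtain ⟨a1, a2, a3⟩ := hX κ k h1
      simp only at a1 a2 a3
      rw [cq t ht κ k h1] at a1
      rw [cn t ht κ k h1] at a2
      have h2 : e.S ((bt (M t)).r (κ, k)).1 t ≠ t := vr t ht κ k h1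
      rw [cr t ht κ k h1, cr t ht _ _ h2, Prod.mk.eta] at a3
      refine ⟨a1, fun h => a2 fun h' => h (pair_inj h1 h'), fun h => ?_⟩
      exact a3 fun h' => h (pair_inj h1 h')

end Pool.Agent.SGM
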