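import Pool.Agent.SGM.TargetsP

set_option autoImplicit false

/-! MP_fff3e1_lc, reduction to a finite game, target `tBRG`: single pairs are special parallel
rounds. -/

namespace Pool.Agent.SGM

namespace BRG_

universe u

variable {ι : Type u} {Δ : ℕ}

open Classical in
/-- the pin of `κ` -/
noncomputable def g (i j : Fin Δ) (M : ι → Finset (Fin Δ)) (κ : ι) : ι × Fin Δ :=
  (κ, if i ∈ M κ then i else j)

lemma g_fst (i j : Fin Δ) (M : ι → Finset (Fin Δ)) (κ : ι) : (g i j M κ).1 = κ := rfl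

lemma g_inj (i j : Fin Δ) (M : ι → Finset (Fin Δ)) {κ κ' : ι} (h : g i j M κ = g i j M κ') :
    κ = κ' := congrArg Prod.fst h

open Classical in
/-- transport of a map along `g` -/
noncomputable def tr (g : ι → ι × Fin Δ) (f : ι → ι) (p : ι × Fin Δ) : ι × Fin Δ :=
  if p = g p.1 then g (f p.1) else p

lemma tr_g {g : ι → ι × Fin Δ} (hg : ∀ κ, (g κ).1 = κ) (f : ι → ι) (κ : ι) :
    tr g f (g κ) = g (f κ) := by
  unfold tr
  rw [hg, if_pos rfl]

lemma tr_off {g : ι → ι × Fin Δ} (f : ι → ι) {p : ι × Fin Δ} (h : p ≠ g p.1) :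
    tr g f p = p := if_neg h

lemma tr_ne {g : ι → ι × Fin Δ} (hg : ∀ κ, (g κ).1 = κ) (f : ι → ι) {p : ι × Fin Δ}
    (h : tr g f p ≠ p) : ∃ κ, p = g κ ∧ f κ ≠ κ := by
  by_cases hp : p = g p.1
  · refine ⟨p.1, hp, fun h' => h ?_⟩
    rw [hp, tr_g hg, h']
  · exact absurd (tr_off f hp) h

lemma tr_fix {g : ι → ι × Fin Δ} (hg : ∀ κ, (g κ).1 = κ) {f : ι → ι} {κ : ι} (h : f κ = κ) :
    tr g f (g κ) = g κ := by
  rw [tr_g hg, h]

/-- the transported blocks -/
noncomputable def blk {g : ι → ι × Fin Δ} (hg : ∀ κ, (g κ).1 = κ) (B : Blk ι) :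
    Blk (ι × Fin Δ) where
  q := tr g B.q
  n := tr g B.n
  r := tr g B.r
  q2 p := by
    by_cases hp : p = g p.1
    · rw [hp, tr_g hg, tr_g hg, B.q2]
    · rw [tr_off _ hp, tr_off _ hp]
  n2 p := by
    by_cases hp : p = g p.1
    · rw [hp, tr_g hg, tr_g hg, B.n2]
    · rw [tr_off _ hp, tr_off _ hp]
  r3 p := by
    by_cases hp : p = g p.1
    · rw [hp, tr_g hg, tr_g hg, tr_g hg, B.r3]
    · rw [tr_off _ hp, tr_off _ hp, tr_off _ hp]
  qn p h := by
    obtain ⟨κ, rfl, h1⟩ := tr_ne hg _ h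
    exact tr_fix hg (B.qn κ h1)
  qr p h := by
    obtain ⟨κ, rfl, h1⟩ := tr_ne hg _ h
    exact tr_fix hg (B.qr κ h1)
  nr p h := by
    obtain ⟨κ, rfl, h1⟩ := tr_ne hg _ h
    exact tr_fix hg (B.nr κ h1)

lemma at_of {g : ι → ι × Fin Δ} (hg : ∀ κ, (g κ).1 = κ) (B : Blk ι) {X : Set (ι × Fin Δ)}
    {κ : ι} (h : (blk hg B).At X (g κ)) : B.At {κ | g κ ∈ X} κ := by
  obtain ⟨h1, h2, h3⟩ := h
  have e1 : (blk hg B).q (g κ) = g (B.q κ) := tr_g hg _ _
  have e2 : (blk hg B).n (g κ) = g (B.n κ) := tr_g hg _ _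
  have e3 : (blk hg B).r (g κ) = g (B.r κ) := tr_g hg _ _
  have e4 : (blk hg B).r (g (B.r κ)) = g (B.r (B.r κ)) := tr_g hg _ _
  have hne : ∀ κ', κ' ≠ κ → g κ' ≠ g κ := by
    intro κ' hκ hh
    have := congrArg Prod.fst hh
    rw [hg, hg] at this
    exact hκ this
  rw [e1] at h1
  rw [e2] at h2
  rw [e3, e4] at h3
  exact ⟨h1, fun h => h2 (hne _ h), fun h => h3 (hne _ h)⟩

lemma mem_pin {i j : Fin Δ} {M : ι → Finset (Fin Δ)} {κ : ι} (h : κ ∈ En i j M) :
    g i j M κ ∈ Pin (Equiv.swap i j) M := by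
  unfold En at h
  rw [Set.mem_ofPred_eq] at h
  unfold Pin g
  rw [Set.mem_ofPred_eq]
  by_cases hi : i ∈ M κ
  · simp only [hi, if_true, true_and]
    rw [Equiv.swap_apply_left]
    tauto
  · simp only [hi, if_false]
    rw [Equiv.swap_apply_right]
    tauto

lemma flp_eq (i j : Fin Δ) (M : ι → Finset (Fin Δ)) (X : Set (ι × Fin Δ)) (κ : ι) :
    flp (Equiv.swap i j) M X κ = fl i j M {κ | g i j M κ ∈ X} κ := by
  classical
  ext k
  unfold flp fl
  simp only [Set.mem_ofPred_eq, Finset.mem_image]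
  by_cases hX : g i j M κ ∈ X
  · rw [if_pos hX, Finset.mem_map_equiv, Equiv.symm_swap]
    unfold g at hX
    constructor
    · rintro ⟨k', hk', rfl⟩
      split_ifs with h
      · rw [Equiv.swap_apply_self]
        exact hk'
      · by_cases h1 : (Equiv.swap i j) k' ∈ M κ
        · exact h1
        exfalso
        have h2 : (κ, k') ∉ X := fun h2 => h ⟨h2, h1⟩
        by_cases e1 : k' = i
        · subst e1
          rw [if_pos hk'] at hX
          exact h2 hX
        · by_cases e2 : k' = j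
          · subst e2
            rw [Equiv.swap_apply_right] at h1
            rw [if_neg h1] at hX
            exact h2 hX
          · rw [Equiv.swap_apply_of_ne_of_ne e1 e2] at h1
            exact h1 hk'
    · intro hk
      by_cases h1 : k ∈ M κ
      · refine ⟨k, h1, ?_⟩
        rw [if_neg]
        exact fun h => h.2 hk
      · refine ⟨(Equiv.swap i j) k, hk, ?_⟩
        rw [if_pos, Equiv.swap_apply_self]
        refine ⟨?_, by rw [Equiv.swap_apply_self]; exact h1⟩
        by_cases e1 : k = i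
        · subst e1
          rw [if_neg h1] at hX
          rw [Equiv.swap_apply_left]
          exact hX
        · by_cases e2 : k = j
          · subst e2
            rw [Equiv.swap_apply_right] at hk ⊢
            rw [if_pos hk] at hX
            exact hX
          · rw [Equiv.swap_apply_of_ne_of_ne e1 e2] at hk
            exact absurd hk h1
  · rw [if_neg hX]
    unfold g at hX
    have key : ∀ k' ∈ M κ, ¬ ((κ, k') ∈ X ∧ (Equiv.swap i j) k' ∉ M κ) := by
      rintro k' hk' ⟨h1, h2⟩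
      by_cases e1 : k' = i
      · subst e1
        rw [if_pos hk'] at hX
        exact hX h1
      · by_cases e2 : k' = j
        · subst e2
          rw [Equiv.swap_apply_right] at h2
          rw [if_neg h2] at hX
          exact hX h1
        · rw [Equiv.swap_apply_of_ne_of_ne e1 e2] at h2
          exact h2 hk'
    constructor
    · rintro ⟨k', hk', rfl⟩
      rw [if_neg (key k' hk')]
      exact hk'
    · intro hk
      exact ⟨k, hk, if_neg (key k hk)⟩

lemma win : ∀ (w : List (Fin Δ × Fin Δ)) (M : ι → Finset (Fin Δ)), Win w M →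
    WinP (w.map fun p => (Equiv.swap p.1 p.2 : Fin Δ → Fin Δ)) M
  | [], _, h => h
  | (i, j) :: w, M, h => by
    obtain ⟨B, h1, h2⟩ := h
    refine ⟨blk (g_fst i j M) B, ?_, fun X hX => ?_⟩
    · intro p hp
      by_cases h3 : p = g i j M p.1
      · have h4 : p.1 ∉ En i j M := by
          intro h4
          exact hp (h3 ▸ mem_pin h4)
        obtain ⟨c1, c2, c3⟩ := h1 _ h4
        rw [h3]
        exact ⟨tr_fix (g_fst i j M) c1, tr_fix (g_fst i j M) c2, tr_fix (g_fst i j M) c3⟩
      · exact ⟨tr_off _ h3, tr_off _ h3, tr_off _ h3⟩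
    · have h3 := win w _ (h2 {κ | g i j M κ ∈ X} fun κ => at_of (g_fst i j M) B (hX _))
      have h4 : flp (Equiv.swap i j) M X = fl i j M {κ | g i j M κ ∈ X} :=
        funext fun κ => flp_eq i j M X κ
      have h5 : flp (Equiv.swap (i, j).1 (i, j).2) M X = fl i j M {κ | g i j M κ ∈ X} := h4
      rw [h5]
      exact h3

end BRG_

theorem allBRG : tBRG := by
  intro Δ w hw
  refine ⟨?_, fun M hM hS => BRG_.win w M (hw.2 M hM hS)⟩
  intro τ hτ k
  obtain ⟨p, -, rfl⟩ := List.mem_map.1 hτ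
  exact Equiv.swap_apply_self _ _ _

end Pool.Agent.SGM
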