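import Pool.Agent.SGM.Targets

set_option autoImplicit false

/-! SGM, target A4: the constraint problem on strands. -/

namespace Pool.Agent.SGM

open MeasureTheory Set Filter
open scoped ENNReal

universe u

namespace CSP_

section

variable {V : Type u} (B : Blk V) (π : V → V)

/-- the points which lie in a triple -/
def N : Set V := {x | B.r x ≠ x}

open Classical in
/-- the link of a point of a triple -/
noncomputable def lk (x : V) : V :=
  if x ∈ N B then
    if π x ≠ x ∧ π x ∈ N B then π x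
    else if B.n (π x) ≠ π x ∧ π (B.n (π x)) ∈ N B then π (B.n (π x)) else x
  else x

/-- links inside one strand -/
def EE : Set V := {x | x ∈ N B ∧ π x ≠ x ∧ π x ∈ N B}

variable {B π}

lemma r_inj {x y : V} (h : B.r x = B.r y) : x = y := by
  rw [← B.r3 x, ← B.r3 y, h]

lemma N_r {x : V} (hx : x ∈ N B) : B.r x ∈ N B := fun h => hx (r_inj h)

lemma n_N {x : V} (hx : B.n x ≠ x) : x ∉ N B := fun h => h (B.nr x hx)

lemma nn_ne {x : V} (hx : B.n x ≠ x) : B.n (B.n x) ≠ B.n x := by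
  rw [B.n2]
  exact hx.symm

lemma lk_of_not {x : V} (hx : x ∉ N B) : lk B π x = x := by
  simp [lk, hx]

lemma lk_of_E {x : V} (hx : x ∈ EE B π) : lk B π x = π x := by
  simp [lk, hx.1, hx.2.1, hx.2.2]

lemma lk_of_n {x : V} (hx : x ∈ N B) (h1 : B.n (π x) ≠ π x)
    (h2 : π (B.n (π x)) ∈ N B) : lk B π x = π (B.n (π x)) := by
  have h3 : π x ∉ N B := n_N h1
  simp [lk, hx, h1, h2, h3]

lemma lk_lk (hπ : ∀ x, π (π x) = x) (x : V) : lk B π (lk B π x) = x := by
  by_cases hx : x ∈ N B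
  · by_cases hE : π x ≠ x ∧ π x ∈ N B
    · have hxE : x ∈ EE B π := ⟨hx, hE⟩
      rw [lk_of_E hxE]
      have : π x ∈ EE B π := ⟨hE.2, by rw [hπ]; exact hE.1.symm, by rw [hπ]; exact hx⟩
      rw [lk_of_E this, hπ]
    · by_cases hn : B.n (π x) ≠ π x ∧ π (B.n (π x)) ∈ N B
      · rw [lk_of_n hx hn.1 hn.2]
        have h1 : π (π (B.n (π x))) = B.n (π x) := hπ _
        have h2 : B.n (π (π (B.n (π x)))) ≠ π (π (B.n (π x))) := by
          rw [h1]
          exact nn_ne hn.1
        have h3 : π (B.n (π (π (B.n (π x))))) = x := by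
          rw [h1, B.n2, hπ]
        rw [lk_of_n hn.2 h2 (by rw [h3]; exact hx), h3]
      · have h0 : lk B π x = x := by
          unfold lk
          rw [if_pos hx, if_neg hE, if_neg hn]
        rw [h0, h0]
  · rw [lk_of_not hx, lk_of_not hx]

end

lemma nae_r {V : Type u} {r : V → V} (r3 : ∀ x, r (r (r x)) = x) {X : Set V} {x : V}
    (h : Nae r X (r x)) : Nae r X x := by
  unfold Nae at *
  rw [r3] at h
  tauto

end CSP_

open CSP_

theorem allCSP (h_OWN : tOWN.{u}) (h_LBL : tLBL.{u}) (h_PAR : tPAR.{u}) : tCSP.{u} := by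
  intro V _ _ μ _ s t B hs ht hss htt Bq Bn Br hfix
  obtain ⟨⟨π, hπm, hππ, hπr, hπE, hE3⟩, hsat⟩ := h_PAR V s t B.q hs ht Bq hss htt B.q2
    (fun x hx => hfix x (Or.inl hx))
  have hslot : ∀ x, B.n x ≠ x ∨ B.r x ≠ x → x ∈ E3 s t B.q := by
    intro x hx
    have hq : B.q x = x := by
      by_contra hq
      rcases hx with hx | hx
      · exact hx (B.qn x hq)
      · exact hx (B.qr x hq)
    rcases hfix x (Or.inr hx) with h | h
    · exact Or.inr (Or.inl ⟨h, hq⟩)
    · exact Or.inr (Or.inr ⟨h, hq⟩)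
  have hNm : MeasurableSet (N B) := (measurableSet_eq_fun Br measurable_id).compl
  have hEm : MeasurableSet (EE B π) := by
    have h1 : MeasurableSet {x | π x ≠ x} := (measurableSet_eq_fun hπm measurable_id).compl
    exact hNm.inter (h1.inter (hπm hNm))
  have hlm : Measurable (lk B π) := by
    have hnm : Measurable fun x => B.n (π x) := Bn.comp hπm
    have hwm : Measurable fun x => π (B.n (π x)) := hπm.comp hnm
    have h2 : MeasurableSet {x | B.n (π x) ≠ π x ∧ π (B.n (π x)) ∈ N B} :=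
      (measurableSet_eq_fun hnm hπm).compl.inter (hwm hNm)
    have h1 : MeasurableSet {x | π x ≠ x ∧ π x ∈ N B} :=
      (measurableSet_eq_fun hπm measurable_id).compl.inter (hπm hNm)
    unfold lk
    exact Measurable.ite hNm (Measurable.ite h1 hπm (Measurable.ite h2 hwm measurable_id))
      measurable_id
  have hlN : ∀ x, lk B π x ≠ x → B.r x ≠ x := fun x hx => by
    by_contra h
    exact hx (lk_of_not (fun h' => h' h))
  obtain ⟨O, hOm, hO, hOae⟩ := h_OWN V μ B.r (lk B π) Br hlm B.r3 (lk_lk hππ) hlN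
  obtain ⟨X0, hXN, hX0m, hX1, hX2, hX3⟩ := h_LBL V B.r (lk B π) O (EE B π) Br hlm B.r3
    (lk_lk hππ) hlN hOm hEm
    (fun x hx => by
      rw [lk_of_E hx]
      exact ⟨hx.2.2, by rw [hππ]; exact hx.2.1.symm, by rw [hππ]; exact hx.1⟩) hO
  have hstep : ∀ (f : V → V), (∀ x, (G3 s t B.q).Adj x (f x) ∨ f x = x) → ∀ x,
      (∃ y ∈ X0, (G3 s t B.q).Reachable x y) → ∃ y ∈ X0, (G3 s t B.q).Reachable (f x) y := by
    rintro f hf x ⟨y, hy, hxy⟩
    rcases hf x with h | h
    · exact ⟨y, hy, h.symm.reachable.trans hxy⟩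
    · rw [h]
      exact ⟨y, hy, hxy⟩
  have hsA : ∀ x, (G3 s t B.q).Adj x (s x) ∨ s x = x := fun x => by
    by_cases h : s x = x
    · exact Or.inr h
    · exact Or.inl ⟨fun h' => h h'.symm, Or.inl ⟨rfl, (hss x).symm⟩⟩
  have htA : ∀ x, (G3 s t B.q).Adj x (t x) ∨ t x = x := fun x => by
    by_cases h : t x = x
    · exact Or.inr h
    · exact Or.inl ⟨fun h' => h h'.symm, Or.inr (Or.inl ⟨rfl, (htt x).symm⟩)⟩
  have hqA : ∀ x, (G3 s t B.q).Adj x (B.q x) ∨ B.q x = x := fun x => by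
    by_cases h : B.q x = x
    · exact Or.inr h
    · exact Or.inl ⟨fun h' => h h'.symm, Or.inr (Or.inr ⟨rfl, (B.q2 x).symm⟩)⟩
  -- membership at the slots
  have hmem : ∀ x, B.n x ≠ x ∨ B.r x ≠ x → (∃ y ∈ X0, (G3 s t B.q).Reachable x y) →
      x ∈ X0 ∨ π x ∈ X0 := by
    rintro x hx ⟨y, hy, hxy⟩
    rcases hE3 x (hslot x hx) y (hslot y (Or.inr (hXN hy))) hxy with h | h
    · exact Or.inl (h ▸ hy)
    · exact Or.inr (h ▸ hy)
  have hiff : ∀ x, B.r x ≠ x → ((∃ y ∈ X0, (G3 s t B.q).Reachable x y) ↔ x ∈ X0) := by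
    intro x hx
    refine ⟨fun h => ?_, fun h => ⟨x, h, SimpleGraph.Reachable.refl x⟩⟩
    rcases hmem x (Or.inr hx) h with h1 | h1
    · exact h1
    · by_cases hπx : π x = x
      · rwa [hπx] at h1
      · have hE : π x ∈ EE B π :=
          ⟨hXN h1, by rw [hππ]; exact fun h' => hπx h'.symm, by rw [hππ]; exact hx⟩
        have h2 := hX1 _ hE h1
        rwa [lk_of_E hE, hππ] at h2
  refine ⟨{x | ∃ y ∈ X0, (G3 s t B.q).Reachable x y}, hsat X0 hX0m,
    fun x hx => ⟨hstep s hsA x hx, hstep t htA x hx⟩, ?_⟩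
  filter_upwards [hOae] with x hxO
  refine ⟨fun hx => hstep B.q hqA x hx, fun hnx hx hnX => ?_, fun hrx => ?_⟩
  · have hxN : x ∉ N B := n_N hnx
    have hnN : B.n x ∉ N B := n_N (nn_ne hnx)
    have ha : π x ∈ X0 := (hmem x (Or.inl hnx) hx).resolve_left fun h => hxN (hXN h)
    have hb : π (B.n x) ∈ X0 :=
      (hmem (B.n x) (Or.inl (nn_ne hnx)) hnX).resolve_left fun h => hnN (hXN h)
    have h1 : lk B π (π x) = π (B.n x) := by
      have h2 : π (π x) = x := hππ x
      rw [lk_of_n (hXN ha) (by rw [h2]; exact hnx) (by rw [h2]; exact hXN hb), h2]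
    have h3 : π x ∉ EE B π := fun h => hxN (by have := h.2.2; rwa [hππ] at this)
    have h4 : lk B π (π x) ≠ π x := by
      rw [h1]
      intro h5
      exact hnx (by rw [← hππ (B.n x), h5, hππ])
    exact hX2 _ h3 h4 ha (by rw [h1]; exact hb)
  · have hN1 : B.r (B.r x) ≠ B.r x := N_r hrx
    have hN2 : B.r (B.r (B.r x)) ≠ B.r (B.r x) := N_r hN1
    have h0 : Nae B.r X0 x := by
      rcases hxO hrx with h | h | h
      · exact hX3 _ h
      · exact nae_r B.r3 (hX3 _ h)
      · exact nae_r B.r3 (nae_r B.r3 (hX3 _ h))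
    have h1 := hiff x hrx
    have h2 := hiff _ hN1
    have h3 := hiff _ hN2
    unfold Nae at h0
    simp only [Set.mem_ofPred_eq]
    rw [h1, h2, h3]
    exact h0

end Pool.Agent.SGM
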