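import Pool.Agent.SGM.Targets
import Pool.Agent.MEQ.Base

set_option autoImplicit false

/-! MP_fff3e1_lc, reduction to a finite game: the end of a phase (B5). -/

namespace Pool.Agent.SGM

open MeasureTheory Set Filter
open scoped ENNReal
open Pool.Agent.MEC
open Pool.Agent.MEP
open Pool.Agent.MEO

universe u

namespace FIN_

variable {V : Type u} [MeasurableSpace V] {G : SimpleGraph V} {m Δ : ℕ} {e : PCol G m}
  {Z : Set V}

open Classical in
/-- distinct representatives -/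
noncomputable def rep (a : Fin m → Finset (Fin Δ)) (h : SDR a) : Fin m → Fin Δ := h.choose

/-- the edge number `κ` at `x` gets the colour `k` -/
def P (e : PCol G m) (Z : Set V) (M : V → Fin m → Finset (Fin Δ)) (k : Fin Δ) (κ : Fin m)
    (x : V) : Prop :=
  e.S κ x ≠ x ∧ ((x ∈ Z ∧ ∃ h : SDR (M x), rep (M x) h κ = k) ∨
    (e.S κ x ∈ Z ∧ ∃ h : SDR (M (e.S κ x)), rep (M (e.S κ x)) h κ = k))

lemma P_symm {M : V → Fin m → Finset (Fin Δ)} {k : Fin Δ} {κ : Fin m} {x : V}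
    (h : P e Z M k κ x) : P e Z M k κ (e.S κ x) := by
  obtain ⟨h1, h2⟩ := h
  refine ⟨?_, ?_⟩
  · rw [e.invol]
    exact Ne.symm h1
  · rw [e.invol]
    exact h2.symm

lemma meas_one {M : V → Fin m → Finset (Fin Δ)} (hZ : MeasurableSet Z)
    (hM : ∀ a, MeasurableSet {t | M t = a}) (k : Fin Δ) (κ : Fin m) :
    MeasurableSet {x | x ∈ Z ∧ ∃ h : SDR (M x), rep (M x) h κ = k} := by
  have : {x | x ∈ Z ∧ ∃ h : SDR (M x), rep (M x) h κ = k} =
      ⋃ a ∈ {a : Fin m → Finset (Fin Δ) | ∃ h : SDR a, rep a h κ = k}, Z ∩ {t | M t = a} := by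
    ext x
    simp only [mem_ofPred_eq, mem_iUnion, mem_inter_iff, exists_prop]
    constructor
    · rintro ⟨h1, h2⟩
      exact ⟨M x, h2, h1, rfl⟩
    · rintro ⟨a, h1, h2, rfl⟩
      exact ⟨h2, h1⟩
  rw [this]
  exact MeasurableSet.biUnion (to_countable _) fun a _ => hZ.inter (hM a)

lemma meas_P [StandardBorelSpace V] {M : V → Fin m → Finset (Fin Δ)} (hZ : MeasurableSet Z)
    (hM : ∀ a, MeasurableSet {t | M t = a}) (k : Fin Δ) (κ : Fin m) :
    MeasurableSet {x | P e Z M k κ x} := by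
  have h1 := meas_one (Δ := Δ) hZ hM k κ
  have h2 : MeasurableSet (e.S κ ⁻¹' {x | x ∈ Z ∧ ∃ h : SDR (M x), rep (M x) h κ = k}) :=
    e.meas κ h1
  exact ((measurableSet_eq_fun (e.meas κ) measurable_id).compl).inter (h1.union h2)

lemma uniq (hC : Cen e Δ Z) {c : PCol (off G Z) Δ} {M : V → Fin m → Finset (Fin Δ)}
    (hM : LS e Z c M) {k : Fin Δ} {κ κ' : Fin m} {x : V}
    (h : P e Z M k κ x) (h' : P e Z M k κ' x) : κ = κ' := by
  obtain ⟨h1, h2⟩ := h
  obtain ⟨h1', h2'⟩ := h'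
  have a1 := e.adj κ x h1
  have a2 := e.adj κ' x h1'
  rcases h2 with ⟨hx, hs, hr⟩ | ⟨hx, hs, hr⟩ <;> rcases h2' with ⟨hx', hs', hr'⟩ | ⟨hx', hs', hr'⟩
  · have n1 : (M x κ).Nonempty := by
      rw [← Finset.card_pos, hM.two x hx κ h1]
      norm_num
    have n2 : (M x κ').Nonempty := by
      rw [← Finset.card_pos, hM.two x hx κ' h1']
      norm_num
    exact hs.choose_spec.2 κ κ' n1 n2 (hr.trans hr'.symm)
  · exact absurd a2 (hC.far x hx _ hx')
  · exact absurd a1 (hC.far x hx' _ hx)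
  · have h3 := hC.sep _ hx _ hx' x a1.symm a2.symm
    exact e.disj κ κ' x h3 h1

/-- the colour of a new edge is missing at both ends -/
lemma miss (hC : Cen e Δ Z) {c : PCol (off G Z) Δ} {M : V → Fin m → Finset (Fin Δ)}
    (hM : LS e Z c M) {k : Fin Δ} {κ : Fin m} {x : V} (h : P e Z M k κ x) : c.S k x = x := by
  obtain ⟨h1, h2⟩ := h
  rcases h2 with ⟨hx, -⟩ | ⟨hx, hs, hr⟩
  · by_contra hne
    exact (c.adj k x hne).2.1 hx
  · have h3 : e.S κ (e.S κ x) ≠ e.S κ x := by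
      rw [e.invol]
      exact Ne.symm h1
    have n1 : (M (e.S κ x) κ).Nonempty := by
      rw [← Finset.card_pos, hM.two _ hx κ h3]
      norm_num
    have h4 : k ∈ M (e.S κ x) κ := by
      rw [← hr]
      exact hs.choose_spec.1 κ n1
    have h5 := hM.mis (e.S κ x) κ k h4
    rwa [e.invol] at h5

lemma inZ {M : V → Fin m → Finset (Fin Δ)} {k : Fin Δ} {κ : Fin m} {x : V}
    (h : P e Z M k κ x) : x ∈ Z ∨ e.S κ x ∈ Z := by
  rcases h.2 with h2 | h2
  · exact Or.inl h2.1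
  · exact Or.inr h2.1

open Classical in
/-- the new involutions -/
noncomputable def nS (e : PCol G m) (Z : Set V) (c : PCol (off G Z) Δ)
    (M : V → Fin m → Finset (Fin Δ)) (k : Fin Δ) (x : V) : V :=
  if h : ∃ κ, P e Z M k κ x then e.S h.choose x else c.S k x

lemma nS_P (hC : Cen e Δ Z) {c : PCol (off G Z) Δ} {M : V → Fin m → Finset (Fin Δ)}
    (hM : LS e Z c M) {k : Fin Δ} {κ : Fin m} {x : V} (h : P e Z M k κ x) :
    nS e Z c M k x = e.S κ x := by
  have h1 : ∃ κ, P e Z M k κ x := ⟨κ, h⟩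
  rw [nS, dif_pos h1, uniq hC hM h1.choose_spec h]

lemma nS_not {c : PCol (off G Z) Δ} {M : V → Fin m → Finset (Fin Δ)} {k : Fin Δ} {x : V}
    (h : ¬ ∃ κ, P e Z M k κ x) : nS e Z c M k x = c.S k x := by
  rw [nS, dif_neg h]

lemma nS_meas [StandardBorelSpace V] (hC : Cen e Δ Z) {c : PCol (off G Z) Δ}
    {M : V → Fin m → Finset (Fin Δ)} (hM : LS e Z c M) (k : Fin Δ) :
    Measurable (nS e Z c M k) := by
  intro B hB
  have : nS e Z c M k ⁻¹' B = (⋃ κ, {x | P e Z M k κ x} ∩ e.S κ ⁻¹' B) ∪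
      ((⋃ κ, {x | P e Z M k κ x})ᶜ ∩ c.S k ⁻¹' B) := by
    ext x
    simp only [mem_preimage, mem_union, mem_iUnion, mem_inter_iff, mem_ofPred_eq,
      mem_compl_iff]
    by_cases h : ∃ κ, P e Z M k κ x
    · obtain ⟨κ, hκ⟩ := h
      rw [nS_P hC hM hκ]
      constructor
      · intro hB
        exact Or.inl ⟨κ, hκ, hB⟩
      · rintro (⟨κ', h1, h2⟩ | ⟨h1, -⟩)
        · rwa [uniq hC hM hκ h1]
        · exact absurd ⟨κ, hκ⟩ h1
    · rw [nS_not h]
      constructor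
      · intro hB
        exact Or.inr ⟨h, hB⟩
      · rintro (⟨κ', h1, -⟩ | ⟨-, h2⟩)
        · exact absurd ⟨κ', h1⟩ h
        · exact h2
  rw [this]
  refine MeasurableSet.union ?_ ?_
  · exact MeasurableSet.iUnion fun κ => (meas_P hC.meas hM.meas k κ).inter (e.meas κ hB)
  · exact (MeasurableSet.iUnion fun κ => meas_P hC.meas hM.meas k κ).compl.inter
      (c.meas k hB)

/-- the new colouring -/
noncomputable def nc [StandardBorelSpace V] (hC : Cen e Δ Z) {c : PCol (off G Z) Δ}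
    {M : V → Fin m → Finset (Fin Δ)} (hM : LS e Z c M) : PCol G Δ where
  S := nS e Z c M
  meas := nS_meas hC hM
  invol := by
    intro k x
    by_cases h : ∃ κ, P e Z M k κ x
    · obtain ⟨κ, hκ⟩ := h
      rw [nS_P hC hM hκ, nS_P hC hM (P_symm hκ), e.invol]
    · rw [nS_not h]
      by_cases h1 : c.S k x = x
      · rw [h1, nS_not h, h1]
      · have h2 : ¬ ∃ κ, P e Z M k κ (c.S k x) := by
          rintro ⟨κ, hκ⟩
          have h3 := miss hC hM hκ
          rw [c.invol] at h3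
          exact h1 h3.symm
        rw [nS_not h2, c.invol]
  adj := by
    intro k x hx
    by_cases h : ∃ κ, P e Z M k κ x
    · obtain ⟨κ, hκ⟩ := h
      rw [nS_P hC hM hκ] at hx ⊢
      exact e.adj κ x hx
    · rw [nS_not h] at hx ⊢
      exact (c.adj k x hx).1
  disj := by
    intro k k' x hk hx
    by_cases h : ∃ κ, P e Z M k κ x
    · obtain ⟨κ, hκ⟩ := h
      by_cases h' : ∃ κ, P e Z M k' κ x
      · obtain ⟨κ', hκ'⟩ := h'
        rw [nS_P hC hM hκ, nS_P hC hM hκ'] at hk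
        have h1 := e.disj κ κ' x hk hκ.1
        subst h1
        have a1 := e.adj κ x hκ.1
        rcases hκ.2 with ⟨hz, hs, hr⟩ | ⟨hz, hs, hr⟩ <;>
          rcases hκ'.2 with ⟨hz', hs', hr'⟩ | ⟨hz', hs', hr'⟩
        · exact hr.symm.trans hr'
        · exact absurd a1 (hC.far x hz _ hz')
        · exact absurd a1 (hC.far x hz' _ hz)
        · exact hr.symm.trans hr'
      · rw [nS_P hC hM hκ] at hk hx
        rw [nS_not h'] at hk
        have h1 : c.S k' x ≠ x := by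
          rw [← hk]
          exact hx
        have h2 := c.adj k' x h1
        rcases inZ hκ with h3 | h3
        · exact absurd h3 h2.2.1
        · rw [hk] at h3
          exact absurd h3 h2.2.2
    · rw [nS_not h] at hk hx
      have h2 := c.adj k x hx
      by_cases h' : ∃ κ, P e Z M k' κ x
      · obtain ⟨κ', hκ'⟩ := h'
        rw [nS_P hC hM hκ'] at hk
        rcases inZ hκ' with h3 | h3
        · exact absurd h3 h2.2.1
        · rw [← hk] at h3
          exact absurd h3 h2.2.2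
      · rw [nS_not h'] at hk
        exact c.disj k k' x hk hx

end FIN_

theorem allFIN : tFIN.{u} := by
  intro V _ _ G m Δ e ν _ C Z hQ hC' hC c M hM hc hs
  refine ⟨FIN_.nc hC hM, ?_⟩
  have h1 : ∀ κ : Fin m, ∀ᵐ x ∂ν, e.S κ x ∈ Z → SDR (M (e.S κ x)) := by
    intro κ
    have h0 : ν {t | ¬ (t ∈ Z → SDR (M t))} = 0 := hs
    have h2 := Pool.Agent.MEQ.qi_S hQ e le_rfl κ {t | ¬ (t ∈ Z → SDR (M t))}
    rw [h0, mul_zero] at h2
    have h3 : ν (e.S κ ⁻¹' {t | ¬ (t ∈ Z → SDR (M t))}) = 0 := nonpos_iff_eq_zero.1 h2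
    exact h3
  filter_upwards [hc, hs, ae_all_iff.2 h1] with x hx hxs hxe y hxy
  obtain ⟨κ, rfl⟩ := hC.lab x y hxy
  by_cases hxZ : x ∈ Z
  · have hp : FIN_.P e Z M (FIN_.rep (M x) (hxs hxZ) κ) κ x :=
      ⟨hxy.ne.symm, Or.inl ⟨hxZ, hxs hxZ, rfl⟩⟩
    exact ⟨_, FIN_.nS_P hC hM hp⟩
  · by_cases hyZ : e.S κ x ∈ Z
    · have hp : FIN_.P e Z M (FIN_.rep (M (e.S κ x)) (hxe κ hyZ) κ) κ x :=
        ⟨hxy.ne.symm, Or.inr ⟨hyZ, hxe κ hyZ, rfl⟩⟩
      exact ⟨_, FIN_.nS_P hC hM hp⟩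
    · obtain ⟨k, hk⟩ := hx _ ⟨hxy, hxZ, hyZ⟩
      refine ⟨k, ?_⟩
      have h2 : ¬ ∃ κ, FIN_.P e Z M k κ x := by
        rintro ⟨κ', hκ'⟩
        have h3 := FIN_.miss hC hM hκ'
        rw [hk] at h3
        exact hxy.ne h3.symm
      exact (FIN_.nS_not h2).trans hk

end Pool.Agent.SGM
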