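import Pool.Agent.SGM.TargetsP

set_option autoImplicit false

/-! Project SGM, target tFLIP: flipping a measurable set of strands in a parallel round. -/

namespace Pool.Agent.SGM

open MeasureTheory Set Filter
open scoped ENNReal
open Pool.Agent.MEC
open Pool.Agent.MEP
open Pool.Agent.MEO

universe u

namespace FLIP_

section fin

variable {V : Type u} [MeasurableSpace V]

/-- finitely valued functions: all level sets are measurable -/
def Lm {α : Type*} (f : V → α) : Prop := ∀ a, MeasurableSet {t | f t = a}

lemma Lm.comp {α β : Type*} [Countable α] {f : V → α} (h : Lm f) (g : α → β) :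
    Lm fun t => g (f t) := by
  intro b
  have : {t | g (f t) = b} = ⋃ a ∈ {a | g a = b}, {t | f t = a} := by
    ext t
    simp
  rw [this]
  exact MeasurableSet.biUnion (to_countable _) fun a _ => h a

lemma Lm.prod {α β : Type*} {f : V → α} {f' : V → β} (h : Lm f) (h' : Lm f') :
    Lm fun t => (f t, f' t) := by
  rintro ⟨a, b⟩
  have : {t | (f t, f' t) = (a, b)} = {t | f t = a} ∩ {t | f' t = b} := by
    ext t
    simp
  rw [this]
  exact (h a).inter (h' b)

lemma Lm.pi {ι α : Type*} [Countable ι] {f : V → ι → α} (h : ∀ i, Lm fun t => f t i) :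
    Lm f := by
  intro a
  have : {t | f t = a} = ⋂ i, {t | f t i = a i} := by
    ext t
    simp [funext_iff]
  rw [this]
  exact MeasurableSet.iInter fun i => h i (a i)

open Classical in
lemma Lm.dec {p : V → Prop} (h : MeasurableSet {t | p t}) : Lm fun t => decide (p t) := by
  intro b
  cases b with
  | true =>
    have : {t | decide (p t) = true} = {t | p t} := by
      ext t
      simp
    rw [this]
    exact h
  | false =>
    have : {t | decide (p t) = false} = {t | p t}ᶜ := by
      ext t
      simp
    rw [this]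
    exact h.compl

end fin

section col

variable {V : Type u} [MeasurableSpace V] {G : SimpleGraph V} {Δ : ℕ}

open Classical in
/-- the flipped colouring -/
noncomputable def fc (c : PCol G Δ) (τ : Fin Δ → Fin Δ) (hτ : ∀ k, τ (τ k) = k)
    (X : Set (V × Fin Δ)) (hX : MeasurableSet X)
    (hc : ∀ p ∈ X, (c.S p.2 p.1, p.2) ∈ X ∧ (p.1, τ p.2) ∈ X) : PCol G Δ where
  S k x := if (x, k) ∈ X then c.S (τ k) x else c.S k x
  meas k := by
    refine Measurable.ite ?_ (c.meas _) (c.meas k)
    exact measurable_prodMk_right hX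
  invol k x := by
    by_cases h : (x, k) ∈ X
    · have h1 : (c.S (τ k) x, k) ∈ X := by
        have := (hc _ ((hc _ h).2)).1
        have h2 := (hc _ this).2
        simpa [hτ] using h2
      simp only [if_pos h, if_pos h1]
      exact c.invol _ _
    · have h1 : (c.S k x, k) ∉ X := by
        intro h1
        have := (hc _ h1).1
        simp only [c.invol] at this
        exact h this
      simp only [if_neg h, if_neg h1]
      exact c.invol _ _
  adj k x := by
    by_cases h : (x, k) ∈ X
    · simp only [if_pos h]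
      exact c.adj _ _
    · simp only [if_neg h]
      exact c.adj _ _
  disj k k' x := by
    by_cases h : (x, k) ∈ X <;> by_cases h' : (x, k') ∈ X
    · simp only [if_pos h, if_pos h']
      intro h1 h2
      have := c.disj _ _ _ h1 h2
      have h3 := congrArg τ this
      simpa [hτ] using h3
    · simp only [if_pos h, if_neg h']
      intro h1 h2
      have := c.disj _ _ _ h1 h2
      exact absurd (this ▸ (hc _ h).2) h'
    · simp only [if_neg h, if_pos h']
      intro h1 h2
      have := c.disj _ _ _ h1 h2
      exact absurd (this ▸ (hc _ h').2) h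
    · simp only [if_neg h, if_neg h']
      exact c.disj _ _ _

end col

end FLIP_

open FLIP_ in
open Classical in
theorem allFLIP : tFLIP.{u} := by
  intro V _ _ G m Δ e Z hZ c M τ hτ hL X hX hc
  refine ⟨fc c τ hτ X hX hc, ⟨?_, ?_, ?_, ?_⟩, ?_⟩
  · have h1 : Lm fun t => (M t, fun (p : Fin m × Fin Δ) => decide ((e.S p.1 t, p.2) ∈ X)) := by
      refine Lm.prod hL.meas (Lm.pi fun p => Lm.dec ?_)
      exact (measurable_prodMk_right (y := p.2)).comp (e.meas p.1) hX
    have h2 := h1.comp fun q : (Fin m → Finset (Fin Δ)) × (Fin m × Fin Δ → Bool) =>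
      flp τ q.1 {p | q.2 p = true}
    intro a
    have := h2 a
    simpa using this
  · intro t κ h
    simp [flp, hL.emp t κ h]
  · intro t ht κ hκ
    rw [← hL.two t ht κ hκ]
    refine Finset.card_image_of_injOn ?_
    intro k hk k' hk' h
    simp only [Finset.mem_coe] at hk hk'
    dsimp only at h
    split_ifs at h with h1 h2 h2
    · have := congrArg τ h
      simpa [hτ] using this
    · exact absurd (h ▸ hk') h1.2
    · exact absurd (h ▸ hk) h2.2
    · exact h
  · intro t κ k hk
    simp only [flp, Finset.mem_image] at hk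
    obtain ⟨k0, h0, rfl⟩ := hk
    have hm := hL.mis t κ
    change (if (e.S κ t, _) ∈ X then c.S _ (e.S κ t) else c.S _ (e.S κ t)) = e.S κ t
    by_cases h : (e.S κ t, k0) ∈ X
    · by_cases h' : τ k0 ∈ M t κ
      · have h1 : ¬ (((κ, k0) ∈ {p : Fin m × Fin Δ | (e.S p.1 t, p.2) ∈ X}) ∧
            τ k0 ∉ M t κ) := fun h2 => h2.2 h'
        rw [if_neg h1, if_pos h]
        exact hm _ h'
      · have h1 : ((κ, k0) ∈ {p : Fin m × Fin Δ | (e.S p.1 t, p.2) ∈ X}) ∧ τ k0 ∉ M t κ :=
          ⟨h, h'⟩
        rw [if_pos h1, if_pos (hc _ h).2, hτ]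
        exact hm _ h0
    · have h1 : ¬ (((κ, k0) ∈ {p : Fin m × Fin Δ | (e.S p.1 t, p.2) ∈ X}) ∧
          τ k0 ∉ M t κ) := fun h2 => h h2.1
      rw [if_neg h1, if_neg h]
      exact hm _ h0
  · rintro x y ⟨k, hk⟩ hxy
    by_cases h : (x, k) ∈ X
    · refine ⟨τ k, ?_⟩
      change (if (x, τ k) ∈ X then c.S (τ (τ k)) x else c.S (τ k) x) = y
      rw [if_pos (hc _ h).2, hτ, hk]
    · refine ⟨k, ?_⟩
      change (if (x, k) ∈ X then c.S (τ k) x else c.S k x) = y
      rw [if_neg h, hk]

end Pool.Agent.SGM
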