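import Pool.Agent.SGM.Targets

set_option autoImplicit false

/-! Project SGM, target tINI: the beginning of a phase. -/

namespace Pool.Agent.SGM

open MeasureTheory Set Filter
open scoped ENNReal
open Pool.Agent.MEC
open Pool.Agent.MEP
open Pool.Agent.MEO

universe u

namespace INI_

/-! ### finite valued functions -/

section fin

variable {V : Type u} [MeasurableSpace V] {α β : Type*}

/-- all level sets are measurable -/
def Lm (f : V → α) : Prop := ∀ a, MeasurableSet {t | f t = a}

lemma Lm.comp [Countable α] {f : V → α} (h : Lm f) (g : α → β) : Lm fun t => g (f t) := by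
  intro b
  have : {t | g (f t) = b} = ⋃ a ∈ {a | g a = b}, {t | f t = a} := by
    ext t
    simp
  rw [this]
  exact MeasurableSet.biUnion (to_countable _) fun a _ => h a

lemma Lm.prod {f : V → α} {f' : V → β} (h : Lm f) (h' : Lm f') : Lm fun t => (f t, f' t) := by
  rintro ⟨a, b⟩
  have : {t | (f t, f' t) = (a, b)} = {t | f t = a} ∩ {t | f' t = b} := by
    ext t
    simp
  rw [this]
  exact (h a).inter (h' b)

lemma Lm.pi {ι : Type*} [Countable ι] {f : V → ι → α} (h : ∀ i, Lm fun t => f t i) : Lm f := by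
  intro a
  have : {t | f t = a} = ⋂ i, {t | f t i = a i} := by
    ext t
    simp [funext_iff]
  rw [this]
  exact MeasurableSet.iInter fun i => h i (a i)

lemma Lm.dec {p : V → Prop} [DecidablePred p] (h : MeasurableSet {t | p t}) :
    Lm fun t => decide (p t) := by
  intro b
  cases b with
  | true =>
    have : {t | decide (p t) = true} = {t | p t} := by
      ext t
      simp
    rw [this]
    exact h
  | false =>
    have : {t | decide (p t) = false} = {t | p t}ᶜ := by
      ext t
      simp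
    rw [this]
    exact h.compl

open Classical in
lemma Lm.filter {ι : Type*} [Fintype ι] {p : ι → V → Prop}
    (h : ∀ i, MeasurableSet {t | p i t}) : Lm fun t => Finset.univ.filter fun i => p i t := by
  intro a
  have : {t | (Finset.univ.filter fun i => p i t) = a} =
      ⋂ i, (if i ∈ a then {t | p i t} else {t | p i t}ᶜ) := by
    ext t
    simp only [mem_ofPred_eq, mem_iInter, Finset.ext_iff, Finset.mem_filter, Finset.mem_univ,
      true_and]
    refine forall_congr' fun i => ?_
    by_cases hi : i ∈ a <;> simp [hi]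
  rw [this]
  refine MeasurableSet.iInter fun i => ?_
  by_cases hi : i ∈ a
  · rw [if_pos hi]
    exact h i
  · rw [if_neg hi]
    exact (h i).compl

end fin

/-! ### the choice of two missing colours -/

open Classical in
/-- two elements of `S` which contain `O ∩ S` -/
noncomputable def pick {Δ : ℕ} (O S : Finset (Fin Δ)) : Finset (Fin Δ) :=
  if h : ∃ P ⊆ S, P.card = 2 ∧ ∀ k ∈ O, k ∈ S → k ∈ P then h.choose else ∅

lemma pick_sub {Δ : ℕ} (O S : Finset (Fin Δ)) : pick O S ⊆ S := by
  unfold pick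
  split_ifs with h
  · exact h.choose_spec.1
  · exact Finset.empty_subset _

lemma pick_ex {Δ : ℕ} {O S : Finset (Fin Δ)} (hS : 2 ≤ S.card) (hO : O.card ≤ 1) :
    ∃ P ⊆ S, P.card = 2 ∧ ∀ k ∈ O, k ∈ S → k ∈ P := by
  classical
  obtain ⟨P, h1, h2, h3⟩ := Finset.exists_subsuperset_card_eq (s := O ∩ S) (t := S) (n := 2)
    Finset.inter_subset_right
    ((Finset.card_le_card Finset.inter_subset_left).trans (hO.trans (by norm_num))) hS
  exact ⟨P, h2, h3, fun k hk hk' => h1 (Finset.mem_inter.2 ⟨hk, hk'⟩)⟩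

lemma pick_card {Δ : ℕ} {O S : Finset (Fin Δ)} (hS : 2 ≤ S.card) (hO : O.card ≤ 1) :
    (pick O S).card = 2 := by
  have h := pick_ex hS hO
  unfold pick
  rw [dif_pos h]
  exact h.choose_spec.2.1

lemma pick_mem {Δ : ℕ} {O S : Finset (Fin Δ)} (hS : 2 ≤ S.card) (hO : O.card ≤ 1) {k : Fin Δ}
    (hk : k ∈ O) (hk' : k ∈ S) : k ∈ pick O S := by
  have h := pick_ex hS hO
  unfold pick
  rw [dif_pos h]
  exact h.choose_spec.2.2 k hk hk'

/-! ### the colouring `c0` -/

section col

variable {V : Type u} [MeasurableSpace V] {H G : SimpleGraph V} {Δ m : ℕ} {Z : Set V}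

open Classical in
/-- the colouring without the edges at `Z` -/
noncomputable def c0 (hHG : H ≤ G) (hZ : MeasurableSet Z) (c : PCol H Δ) :
    PCol (off G Z) Δ where
  S k x := if x ∈ Z ∨ c.S k x ∈ Z then x else c.S k x
  meas k := by
    refine Measurable.ite ?_ measurable_id (c.meas k)
    exact hZ.union (c.meas k hZ)
  invol k x := by
    by_cases h : x ∈ Z ∨ c.S k x ∈ Z
    · simp only [if_pos h]
    · simp only [if_neg h]
      rw [if_neg, c.invol]
      rw [c.invol]
      tauto
  adj k x h := by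
    by_cases h' : x ∈ Z ∨ c.S k x ∈ Z
    · simp only [if_pos h'] at h
      exact absurd rfl h
    · simp only [if_neg h'] at h ⊢
      exact ⟨hHG (c.adj k x h), fun h1 => h' (Or.inl h1), fun h1 => h' (Or.inr h1)⟩
  disj k k' x h hx := by
    by_cases h1 : x ∈ Z ∨ c.S k x ∈ Z
    · simp only [if_pos h1] at hx
      exact absurd rfl hx
    by_cases h2 : x ∈ Z ∨ c.S k' x ∈ Z
    · simp only [if_neg h1, if_pos h2] at h hx
      exact absurd h hx
    · simp only [if_neg h1, if_neg h2] at h hx
      exact c.disj k k' x h hx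

lemma c0_of (hHG : H ≤ G) (hZ : MeasurableSet Z) (c : PCol H Δ) {k : Fin Δ} {x : V}
    (h : x ∈ Z ∨ c.S k x ∈ Z) : (c0 hHG hZ c).S k x = x := if_pos h

lemma c0_off (hHG : H ≤ G) (hZ : MeasurableSet Z) (c : PCol H Δ) {k : Fin Δ} {x : V}
    (h : x ∉ Z) (h' : c.S k x ∉ Z) : (c0 hHG hZ c).S k x = c.S k x :=
  if_neg (not_or.2 ⟨h, h'⟩)

lemma nb_fin {e : PCol G m} (he : Lab e) (v : V) : (G.neighborSet v).Finite := by
  refine (finite_range fun k => e.S k v).subset ?_
  intro y hy
  obtain ⟨k, hk⟩ := he v y hy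
  exact ⟨k, hk⟩

open Classical in
/-- a neighbour of a centre misses two colours -/
lemma two_mis {e : PCol G m} (hC : Cen e Δ Z) (c : PCol (off G Z) Δ) {t v : V} (ht : t ∈ Z)
    (hv : G.Adj t v) : 2 ≤ (Finset.univ.filter fun k => c.S k v = v).card := by
  have h1 : {k : Fin Δ | c.S k v ≠ v}.ncard + 1 ≤ dg G v := by
    have h2 : (fun k => c.S k v) '' {k : Fin Δ | c.S k v ≠ v} ⊆ G.neighborSet v \ {t} := by
      rintro _ ⟨k, hk, rfl⟩
      have h3 := c.adj k v hk
      refine ⟨h3.1, ?_⟩
      intro h4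
      have h4' : c.S k v = t := h4
      have h5 := h3.2.2
      rw [h4'] at h5
      exact h5 ht
    have h3 : InjOn (fun k => c.S k v) {k : Fin Δ | c.S k v ≠ v} := by
      intro k hk k' _ hkk
      exact c.disj k k' v hkk hk
    have h4 := ncard_le_ncard h2 ((nb_fin hC.lab v).subset sdiff_subset)
    rw [h3.ncard_image] at h4
    have h5 := ncard_sdiff_singleton_add_one (show t ∈ G.neighborSet v from hv.symm)
      (nb_fin hC.lab v)
    have h6 : dg G v = (G.neighborSet v).ncard := rfl
    omega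
  have h2 := hC.nb t ht v hv
  have h3 : {k : Fin Δ | c.S k v ≠ v}.ncard =
      (Finset.univ.filter fun k => ¬ c.S k v = v).card := by
    rw [← ncard_coe_finset]
    congr 1
    ext k
    simp
  have h4 := Finset.card_filter_add_card_filter_not (s := (Finset.univ : Finset (Fin Δ)))
    (fun k => c.S k v = v)
  rw [Finset.card_univ, Fintype.card_fin] at h4
  omega

end col

end INI_

open INI_ in
open Classical in
theorem allINI : tINI.{u} := by
  intro V _ _ H G m Δ e ν _ C Z hq hCt hC hm hΔ hHG hN c hc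
  have hZ := hC.meas
  set d : PCol (off G Z) Δ := c0 hHG hZ c with hd
  let own : V → Fin m → Finset (Fin Δ) := fun t κ =>
    Finset.univ.filter fun k => c.S k t = e.S κ t
  let mis : V → Fin m → Finset (Fin Δ) := fun t κ =>
    Finset.univ.filter fun k => d.S k (e.S κ t) = e.S κ t
  let M : V → Fin m → Finset (Fin Δ) := fun t κ =>
    if t ∈ Z ∧ e.S κ t ≠ t then pick (own t κ) (mis t κ) else ∅
  have hown : ∀ t κ, e.S κ t ≠ t → (own t κ).card ≤ 1 := by
    intro t κ hne
    rw [Finset.card_le_one]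
    intro k hk k' hk'
    simp only [own, Finset.mem_filter, Finset.mem_univ, true_and] at hk hk'
    exact c.disj k k' t (hk.trans hk'.symm) (by rw [hk]; exact hne)
  have hmis : ∀ t ∈ Z, ∀ κ, e.S κ t ≠ t → 2 ≤ (mis t κ).card := by
    intro t ht κ hne
    exact two_mis hC d ht (e.adj κ t hne)
  have hLS : LS e Z d M := by
    refine ⟨?_, ?_, ?_, ?_⟩
    · refine Lm.pi (f := M) fun κ => ?_
      have h1 : Lm fun t : V => decide (t ∈ Z ∧ e.S κ t ≠ t) := by
        refine Lm.dec (p := fun t : V => t ∈ Z ∧ e.S κ t ≠ t) ?_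
        have h0 : MeasurableSet {t : V | e.S κ t = t} :=
          measurableSet_eq_fun (e.meas κ) measurable_id
        exact MeasurableSet.inter (s₁ := Z) hZ h0.compl
      have h2 : Lm fun t : V => own t κ :=
        Lm.filter fun k => measurableSet_eq_fun (c.meas k) (e.meas κ)
      have h3 : Lm fun t : V => mis t κ :=
        Lm.filter fun k => measurableSet_eq_fun ((d.meas k).comp (e.meas κ)) (e.meas κ)
      have h4 := (h1.prod (h2.prod h3)).comp
        (fun z : Bool × Finset (Fin Δ) × Finset (Fin Δ) =>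
          if z.1 = true then pick z.2.1 z.2.2 else ∅)
      intro a
      have h5 := h4 a
      simpa only [decide_eq_true_eq] using h5
    · intro t κ h
      have : ¬ (t ∈ Z ∧ e.S κ t ≠ t) := by tauto
      exact if_neg this
    · intro t ht κ hne
      have h1 : M t κ = pick (own t κ) (mis t κ) := if_pos ⟨ht, hne⟩
      rw [h1]
      exact pick_card (hmis t ht κ hne) (hown t κ hne)
    · intro t κ k hk
      by_cases h : t ∈ Z ∧ e.S κ t ≠ t
      · have h1 : M t κ = pick (own t κ) (mis t κ) := if_pos h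
        rw [h1] at hk
        have h2 := pick_sub _ _ hk
        simpa [mis] using h2
      · have h1 : M t κ = ∅ := if_neg h
        rw [h1] at hk
        exact absurd hk (Finset.notMem_empty _)
  refine ⟨d, M, hLS, ?_, ?_⟩
  · filter_upwards [hc] with x hx y hxy
    have h1 : H.Adj x y := by
      by_contra h
      rcases hN.1 x y hxy.1 h with h | h
      · exact hxy.2.1 h
      · exact hxy.2.2 h
    obtain ⟨k, hk⟩ := hx y h1
    refine ⟨k, ?_⟩
    rw [hd, c0_off hHG hZ c hxy.2.1 (by rw [hk]; exact hxy.2.2), hk]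
  · filter_upwards [hc] with t ht htZ
    -- the label of the new edge
    obtain ⟨κ0, hκ0⟩ : ∃ κ0 : Fin m, ∀ κ, κ ≠ κ0 → e.S κ t ≠ t → H.Adj t (e.S κ t) := by
      by_cases h : ∃ κ : Fin m, e.S κ t ≠ t ∧ ¬ H.Adj t (e.S κ t)
      · obtain ⟨κ0, h1, h2⟩ := h
        refine ⟨κ0, fun κ hκ hne => ?_⟩
        by_contra h3
        have h4 := hN.2 t htZ (e.S κ t) (e.S κ0 t) (e.adj κ t hne) h3 (e.adj κ0 t h1) h2
        exact hκ (e.disj κ κ0 t h4 hne)
      · push Not at h
        exact ⟨⟨0, hm⟩, fun κ _ hne => h κ hne⟩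
    refine ⟨κ0, ?_⟩
    have h1 : ∀ κ, κ ≠ κ0 → e.S κ t ≠ t → ∃ k, c.S k t = e.S κ t :=
      fun κ hκ hne => ht _ (hκ0 κ hκ hne)
    let φ : Fin m → Fin Δ := fun κ =>
      if h : ∃ k, c.S k t = e.S κ t then h.choose else ⟨0, hΔ⟩
    have h2 : ∀ κ, (rm (M t) κ0 κ).Nonempty → κ ≠ κ0 ∧ e.S κ t ≠ t ∧
        rm (M t) κ0 κ = pick (own t κ) (mis t κ) := by
      intro κ hκ
      by_cases h3 : κ = κ0
      · have : rm (M t) κ0 κ = ∅ := if_pos h3
        rw [this] at hκ
        exact absurd hκ Finset.not_nonempty_empty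
      have h4 : rm (M t) κ0 κ = M t κ := if_neg h3
      rw [h4] at hκ
      by_cases h5 : t ∈ Z ∧ e.S κ t ≠ t
      · refine ⟨h3, h5.2, ?_⟩
        rw [h4]
        exact if_pos h5
      · have : M t κ = ∅ := if_neg h5
        rw [this] at hκ
        exact absurd hκ Finset.not_nonempty_empty
    have hφ : ∀ κ, (rm (M t) κ0 κ).Nonempty → c.S (φ κ) t = e.S κ t := by
      intro κ hκ
      obtain ⟨h3, h4, -⟩ := h2 κ hκ
      have h5 := h1 κ h3 h4
      have h6 : φ κ = h5.choose := dif_pos h5
      rw [h6]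
      exact h5.choose_spec
    refine ⟨φ, ?_, ?_⟩
    · intro κ hκ
      have h3 := hφ κ hκ
      obtain ⟨h4, h5, h6⟩ := h2 κ hκ
      rw [h6]
      refine pick_mem (hmis t htZ κ h5) (hown t κ h5) ?_ ?_
      · simp only [own, Finset.mem_filter, Finset.mem_univ, true_and]
        exact h3
      · simp only [mis, Finset.mem_filter, Finset.mem_univ, true_and]
        rw [hd]
        refine c0_of hHG hZ c (Or.inr ?_)
        rw [← h3, c.invol]
        exact htZ
    · intro κ κ' hκ hκ' hkk
      have h3 := hφ κ hκ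
      have h4 := hφ κ' hκ'
      rw [hkk] at h3
      exact e.disj κ κ' t (h3.symm.trans h4) (h2 κ hκ).2.1

end Pool.Agent.SGM
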