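import Pool.Agent.SGM.Targets

set_option autoImplicit false

/-! SGM, target A2: labels. -/

namespace Pool.Agent.SGM

open MeasureTheory Set Filter
open scoped ENNReal

universe u

namespace LBL_

variable {V : Type u}

/-- slots which are linked in `E` to an owned slot -/
def Ti (l : V → V) (O E : Set V) : Set V := {a | l a ≠ a ∧ a ∈ E ∧ l a ∈ O}

def D (r l : V → V) (O E : Set V) : ℕ → Set V
  | 0 => {o | o ∈ O ∧ (r o ∉ Ti l O E ∨ r (r o) ∉ Ti l O E)}
  | k + 1 => {o | o ∈ O ∧ ((r o ∈ Ti l O E ∧ l (r o) ∈ D r l O E k) ∨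
      (r (r o) ∈ Ti l O E ∧ l (r (r o)) ∈ D r l O E k))}

def Nf (r l : V → V) (O E : Set V) : Set V := {o | ∀ k, o ∉ D r l O E k}

def Yf (r l : V → V) (O E : Set V) : Set V :=
  {o | ∃ k, Even k ∧ o ∈ D r l O E k ∧ ∀ j, j < k → o ∉ D r l O E j}

def Yi (r l : V → V) (O E : Set V) : Set V :=
  {o | o ∈ O ∧ o ∈ Nf r l O E ∧ l o ≠ o ∧ l o ∈ E ∧ r (l o) ∈ O ∧ r (l o) ∈ Nf r l O E}

def Y (r l : V → V) (O E : Set V) : Set V := Yf r l O E ∪ Yi r l O E

def X (r l : V → V) (O E : Set V) : Set V :=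
  Y r l O E ∪ {a | a ∉ O ∧ a ∈ Ti l O E ∧ l a ∈ Y r l O E ∧ r a ≠ a}

section meas

variable [MeasurableSpace V] [StandardBorelSpace V] {r l : V → V} {O E : Set V}

theorem mTi (hl : Measurable l) (hO : MeasurableSet O) (hE : MeasurableSet E) :
    MeasurableSet (Ti l O E) := by
  have h : Ti l O E = {a | l a = a}ᶜ ∩ (E ∩ l ⁻¹' O) := rfl
  rw [h]
  exact (measurableSet_eq_fun hl measurable_id).compl.inter (hE.inter (hl hO))

theorem mD (hr : Measurable r) (hl : Measurable l) (hO : MeasurableSet O)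
    (hE : MeasurableSet E) (k : ℕ) : MeasurableSet (D r l O E k) := by
  have hT := mTi hl hO hE
  induction k with
  | zero =>
    have h : D r l O E 0 = O ∩ (r ⁻¹' (Ti l O E)ᶜ ∪ (r ∘ r) ⁻¹' (Ti l O E)ᶜ) := rfl
    rw [h]
    exact hO.inter ((hr hT.compl).union ((hr.comp hr) hT.compl))
  | succ k ih =>
    have h : D r l O E (k + 1) = O ∩ ((r ⁻¹' (Ti l O E) ∩ (l ∘ r) ⁻¹' (D r l O E k)) ∪
        ((r ∘ r) ⁻¹' (Ti l O E) ∩ (l ∘ r ∘ r) ⁻¹' (D r l O E k))) := rfl
    rw [h]
    exact hO.inter (((hr hT).inter ((hl.comp hr) ih)).union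
      (((hr.comp hr) hT).inter ((hl.comp (hr.comp hr)) ih)))

theorem mNf (hr : Measurable r) (hl : Measurable l) (hO : MeasurableSet O)
    (hE : MeasurableSet E) : MeasurableSet (Nf r l O E) := by
  have h : Nf r l O E = ⋂ k, (D r l O E k)ᶜ := by
    ext x
    simp only [Nf, mem_ofPred_eq, mem_iInter, mem_compl_iff]
  rw [h]
  exact MeasurableSet.iInter fun k => (mD hr hl hO hE k).compl

theorem mYf (hr : Measurable r) (hl : Measurable l) (hO : MeasurableSet O)
    (hE : MeasurableSet E) : MeasurableSet (Yf r l O E) := by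
  have h : Yf r l O E = ⋃ k, ⋃ (_ : Even k), (D r l O E k ∩
      ⋂ j, ⋂ (_ : j < k), (D r l O E j)ᶜ) := by
    ext x
    simp only [Yf, mem_ofPred_eq, mem_iInter, mem_compl_iff, mem_iUnion, mem_inter_iff,
      exists_prop]
  rw [h]
  exact MeasurableSet.iUnion fun k => MeasurableSet.iUnion fun _ =>
    (mD hr hl hO hE k).inter (MeasurableSet.iInter fun j => MeasurableSet.iInter fun _ =>
      (mD hr hl hO hE j).compl)

theorem mYi (hr : Measurable r) (hl : Measurable l) (hO : MeasurableSet O)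
    (hE : MeasurableSet E) : MeasurableSet (Yi r l O E) := by
  have h : Yi r l O E = O ∩ (Nf r l O E ∩ ({a | l a = a}ᶜ ∩ (l ⁻¹' E ∩
      ((r ∘ l) ⁻¹' O ∩ (r ∘ l) ⁻¹' (Nf r l O E))))) := rfl
  rw [h]
  have hN := mNf hr hl hO hE
  exact hO.inter (hN.inter ((measurableSet_eq_fun hl measurable_id).compl.inter
    ((hl hE).inter (((hr.comp hl) hO).inter ((hr.comp hl) hN)))))

theorem mY (hr : Measurable r) (hl : Measurable l) (hO : MeasurableSet O)
    (hE : MeasurableSet E) : MeasurableSet (Y r l O E) :=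
  (mYf hr hl hO hE).union (mYi hr hl hO hE)

theorem mX (hr : Measurable r) (hl : Measurable l) (hO : MeasurableSet O)
    (hE : MeasurableSet E) : MeasurableSet (X r l O E) := by
  have h : X r l O E = Y r l O E ∪ (Oᶜ ∩ (Ti l O E ∩ (l ⁻¹' (Y r l O E) ∩
      {a | r a = a}ᶜ))) := rfl
  rw [h]
  have hY := mY hr hl hO hE
  exact hY.union (hO.compl.inter ((mTi hl hO hE).inter ((hl hY).inter
    (measurableSet_eq_fun hr measurable_id).compl)))

end meas

variable {r l : V → V} {O E : Set V}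

theorem D_sub (k : ℕ) : D r l O E k ⊆ O := by
  intro x hx
  cases k with
  | zero => exact hx.1
  | succ k => exact hx.1

theorem Y_sub : Y r l O E ⊆ O := by
  rintro x (⟨k, _, hk, _⟩ | hx)
  · exact D_sub k hk
  · exact hx.1

/-- the least index -/
theorem least {x : V} (hx : x ∉ Nf r l O E) :
    ∃ k, x ∈ D r l O E k ∧ ∀ j, j < k → x ∉ D r l O E j := by
  classical
  have h : ∃ k, x ∈ D r l O E k := by
    by_contra h
    exact hx fun k hk => h ⟨k, hk⟩
  exact ⟨Nat.find h, Nat.find_spec h, fun j hj => Nat.find_min h hj⟩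

theorem memY {x : V} {k : ℕ} (hk : x ∈ D r l O E k) (hm : ∀ j, j < k → x ∉ D r l O E j) :
    x ∈ Y r l O E ↔ Even k := by
  constructor
  · rintro (⟨k', he, hk', hm'⟩ | h)
    · have h1 : k = k' := by
        rcases lt_trichotomy k k' with h | h | h
        · exact absurd hk (hm' k h)
        · exact h
        · exact absurd hk' (hm k' h)
      rw [h1]
      exact he
    · exact absurd hk (h.2.1 k)
  · intro he
    exact Or.inl ⟨k, he, hk, hm⟩

theorem memY_inf {x : V} (hx : x ∈ Nf r l O E) :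
    x ∈ Y r l O E ↔ (x ∈ O ∧ l x ≠ x ∧ l x ∈ E ∧ r (l x) ∈ O ∧ r (l x) ∈ Nf r l O E) := by
  constructor
  · rintro (⟨k', he, hk', hm'⟩ | h)
    · exact absurd hk' (hx k')
    · exact ⟨h.1, h.2.2⟩
  · intro h
    exact Or.inr ⟨h.1, hx, h.2⟩

theorem memX_not {a : V} (ha : a ∉ O) (hra : r a ≠ a) :
    a ∈ X r l O E ↔ a ∈ Ti l O E ∧ l a ∈ Y r l O E := by
  constructor
  · rintro (h | h)
    · exact absurd (Y_sub h) ha
    · exact ⟨h.2.1, h.2.2.1⟩
  · intro h
    exact Or.inr ⟨ha, h.1, h.2, hra⟩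

theorem memX_own {a : V} (ha : a ∈ O) : a ∈ X r l O E ↔ a ∈ Y r l O E := by
  constructor
  · rintro (h | h)
    · exact h
    · exact absurd ha h.1
  · intro h
    exact Or.inl h

theorem nae (h3 : ∀ x, r (r (r x)) = x) (hl2 : ∀ x, l (l x) = x) (hO : Own r l O)
    (x : V) (hx : x ∈ O) : Nae r (X r l O E) x := by
  obtain ⟨hrx, h1, h2, h4⟩ := hO x hx
  have n1 : r (r x) ≠ r x := by
    intro h
    apply hrx
    have := h3 x
    rw [h, h] at this
    exact this
  have n2 : r (r (r x)) ≠ r (r x) := by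
    intro h
    rw [h3 x] at h
    apply n1
    have h5 := congrArg r h
    rw [h3 x] at h5
    rw [← h]
    exact h5.symm
  have e0 := memX_own (r := r) (l := l) (E := E) hx
  have e1 := memX_not (r := r) (l := l) (E := E) h1 n1
  have e2 := memX_not (r := r) (l := l) (E := E) h2 n2
  unfold Nae
  rw [e0, e1, e2]
  by_cases hN : x ∈ Nf r l O E
  · -- infinite distance
    have t1 : r x ∈ Ti l O E := by
      by_contra h
      exact hN 0 ⟨hx, Or.inl h⟩
    have t2 : r (r x) ∈ Ti l O E := by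
      by_contra h
      exact hN 0 ⟨hx, Or.inr h⟩
    have i1 : l (r x) ∈ Nf r l O E := fun k hk => hN (k + 1) ⟨hx, Or.inl ⟨t1, hk⟩⟩
    have i2 : l (r (r x)) ∈ Nf r l O E := fun k hk => hN (k + 1) ⟨hx, Or.inr ⟨t2, hk⟩⟩
    have y1 : l (r x) ∉ Y r l O E := by
      rw [memY_inf i1]
      rintro ⟨_, _, _, h, _⟩
      rw [hl2] at h
      exact h2 h
    have y2 : l (r (r x)) ∈ Y r l O E := by
      rw [memY_inf i2, hl2, h3]
      exact ⟨t2.2.2, t2.1.symm, t2.2.1, hx, hN⟩
    constructor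
    · rintro ⟨_, h, _⟩
      exact y1 h.2
    · exact Or.inr (Or.inr ⟨t2, y2⟩)
  · obtain ⟨k, hk, hm⟩ := least hN
    rw [memY hk hm]
    cases k with
    | zero =>
      constructor
      · rintro ⟨_, h, h'⟩
        rcases hk.2 with h5 | h5
        · exact h5 h.1
        · exact h5 h'.1
      · exact Or.inl (by simp)
    | succ k =>
      have t1 : r x ∈ Ti l O E := by
        by_contra h
        exact hm 0 (Nat.succ_pos k) ⟨hx, Or.inl h⟩
      have t2 : r (r x) ∈ Ti l O E := by
        by_contra h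
        exact hm 0 (Nat.succ_pos k) ⟨hx, Or.inr h⟩
      rcases hk.2 with h5 | h5
      · have hm' : ∀ j, j < k → l (r x) ∉ D r l O E j := fun j hj hd =>
          hm (j + 1) (Nat.succ_lt_succ hj) ⟨hx, Or.inl ⟨t1, hd⟩⟩
        rw [memY h5.2 hm', Nat.even_add_one]
        constructor
        · rintro ⟨h, h', _⟩
          exact h h'.2
        · by_cases he : Even k
          · exact Or.inr (Or.inl ⟨t1, he⟩)
          · exact Or.inl he
      · have hm' : ∀ j, j < k → l (r (r x)) ∉ D r l O E j := fun j hj hd =>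
          hm (j + 1) (Nat.succ_lt_succ hj) ⟨hx, Or.inr ⟨t2, hd⟩⟩
        rw [memY h5.2 hm', Nat.even_add_one]
        constructor
        · rintro ⟨h, _, h'⟩
          exact h h'.2
        · by_cases he : Even k
          · exact Or.inr (Or.inr ⟨t2, he⟩)
          · exact Or.inl he

end LBL_

open LBL_ in
theorem allLBL : tLBL.{u} := by
  intro V _ _ r l O E hr hl h3 hl2 hlr hO hE hEl hown
  refine ⟨X r l O E, ?_, mX hr hl hO hE, ?_, ?_, ?_⟩
  · rintro x (h | h)
    · exact (hown x (Y_sub h)).1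
    · exact h.2.2.2
  · intro x hxE hx
    by_cases hlx : l x = x
    · rw [hlx]
      exact hx
    · rcases hx with h | h
      · have hxO := Y_sub h
        have hlO := (hown x hxO).2.2.2 hlx
        have h6 : l (l x) ≠ l x := by
          rw [hl2]
          exact fun h => hlx h.symm
        refine Or.inr ⟨hlO, ⟨h6, hEl x hxE, ?_⟩, ?_, hlr _ h6⟩
        · rw [hl2]
          exact hxO
        · rw [hl2]
          exact h
      · exact Or.inl h.2.2.1
  · intro x hxE hlx hx hx'
    have h : x ∈ Y r l O E := by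
      rcases hx with h | h
      · exact h
      · exact absurd h.2.1.2.1 hxE
    have hlO := (hown x (Y_sub h)).2.2.2 hlx
    rcases hx' with h' | h'
    · exact hlO (Y_sub h')
    · have h7 := hEl _ h'.2.1.2.1
      rw [hl2] at h7
      exact hxE h7
  · intro x hx
    exact nae h3 hl2 hown x hx

end Pool.Agent.SGM
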