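import Pool.Agent.SGM.Targets

set_option autoImplicit false

/-! SGM, target A3: strands and their ends. -/

namespace Pool.Agent.SGM

open MeasureTheory Set Filter
open scoped ENNReal

universe u

namespace PAR_

/-! ### Paths in graphs of degree at most two -/

section Paths

variable {V : Type u} {G : SimpleGraph V}

def D2 (G : SimpleGraph V) : Prop :=
  ∀ v a b c, G.Adj v a → G.Adj v b → G.Adj v c → a = b ∨ b = c ∨ a = c

def D1 (G : SimpleGraph V) (v : V) : Prop := ∀ a b, G.Adj v a → G.Adj v b → a = b

theorem closed (h2 : D2 G) {x y : V} (p : G.Walk x y) (hp : p.IsPath) (hy : D1 G y) :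
    ∀ v ∈ p.support, ∀ u, G.Adj v u → u ∈ p.support ∨ v = x := by
  induction p with
  | nil =>
    intro v hv u _
    right
    simpa using hv
  | @cons x x' y h p ih =>
    intro v hv u hu
    rw [SimpleGraph.Walk.cons_isPath_iff] at hp
    rw [SimpleGraph.Walk.support_cons, List.mem_cons] at hv
    rcases hv with hv | hv
    · exact Or.inr hv
    · left
      rw [SimpleGraph.Walk.support_cons, List.mem_cons]
      rcases ih hp.1 hy v hv u hu with h1 | h1
      · exact Or.inr h1
      · subst h1
        cases p with
        | nil => exact Or.inl (hy u x hu h.symm)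
        | @cons _ x2 _ h' p' =>
          have hx2 : x2 ∈ (SimpleGraph.Walk.cons h' p').support := by
            rw [SimpleGraph.Walk.support_cons]
            exact List.mem_cons_of_mem _ p'.start_mem_support
          rcases h2 v x u x2 h.symm hu h' with h3 | h3 | h3
          · exact Or.inl h3.symm
          · right
            rw [h3]
            exact hx2
          · exfalso
            apply hp.2
            rw [h3]
            exact hx2

theorem interior {x y : V} (p : G.Walk x y) (hp : p.IsPath) :
    ∀ v ∈ p.support, v ≠ x → v ≠ y → ∃ a b, a ≠ b ∧ G.Adj v a ∧ G.Adj v b := by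
  induction p with
  | nil =>
    intro v hv hx _
    exact absurd (by simpa using hv) hx
  | @cons x x' y h p ih =>
    intro v hv hx hy
    rw [SimpleGraph.Walk.cons_isPath_iff] at hp
    rw [SimpleGraph.Walk.support_cons, List.mem_cons] at hv
    rcases hv with hv | hv
    · exact absurd hv hx
    · by_cases hvx : v = x'
      · subst hvx
        cases p with
        | nil => exact absurd rfl hy
        | @cons _ x2 _ h' p' =>
          refine ⟨x, x2, ?_, h.symm, h'⟩
          intro h3
          apply hp.2
          rw [h3, SimpleGraph.Walk.support_cons]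
          exact List.mem_cons_of_mem _ p'.start_mem_support
      · exact ih hp.1 v hv hvx hy

theorem two_ends (h2 : D2 G) {x y z : V} (hx : D1 G x) (hy : D1 G y) (hz : D1 G z)
    (hxy : G.Reachable x y) (hxz : G.Reachable x z) (h1 : y ≠ x) (h3 : z ≠ x) : y = z := by
  classical
  obtain ⟨p, hp⟩ := hxy.exists_isPath
  have hcl : ∀ v ∈ p.support, ∀ u, G.Adj v u → u ∈ p.support := by
    intro v hv u hu
    rcases closed h2 p hp hy v hv u hu with h4 | h4
    · exact h4
    · subst h4
      cases p with
      | nil => exact absurd rfl h1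
      | @cons _ x' _ h' p' =>
        rw [hx u x' hu h', SimpleGraph.Walk.support_cons]
        exact List.mem_cons_of_mem _ p'.start_mem_support
  have hzs : z ∈ p.support := by
    obtain ⟨w⟩ := hxz
    have : ∀ {a b : V} (w : G.Walk a b), a ∈ p.support → b ∈ p.support := by
      intro a b w
      induction w with
      | nil => exact id
      | cons h w ih => intro ha; exact ih (hcl _ ha _ h)
    exact this w p.start_mem_support
  by_contra hyz
  obtain ⟨a, b, hab, ha, hb⟩ := interior p hp z hzs h3 (fun h => hyz h.symm)
  exact hab (hz a b ha hb)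

end Paths

/-! ### Words -/

section Words

variable {V : Type u} (s t q : V → V)

def gen (k : Fin 3) : V → V := if k = 0 then s else if k = 1 then t else q

def ev : List (Fin 3) → V → V
  | [], x => x
  | k :: w, x => ev w (gen s t q k x)

variable {s t q}

theorem gen_adj (hs : ∀ x, s (s x) = x) (ht : ∀ x, t (t x) = x) (hq : ∀ x, q (q x) = x)
    (k : Fin 3) (x : V) : (G3 s t q).Reachable x (gen s t q k x) := by
  by_cases h : x = gen s t q k x
  · rw [← h]
  · apply SimpleGraph.Adj.reachable
    refine ⟨h, ?_⟩
    unfold gen at h ⊢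
    split_ifs at h ⊢ with h0 h1
    · exact Or.inl ⟨rfl, (hs x).symm⟩
    · exact Or.inr (Or.inl ⟨rfl, (ht x).symm⟩)
    · exact Or.inr (Or.inr ⟨rfl, (hq x).symm⟩)

theorem ev_reach (hs : ∀ x, s (s x) = x) (ht : ∀ x, t (t x) = x) (hq : ∀ x, q (q x) = x)
    (w : List (Fin 3)) : ∀ x : V, (G3 s t q).Reachable x (ev s t q w x) := by
  induction w with
  | nil => intro x; exact SimpleGraph.Reachable.refl _
  | cons k w ih => intro x; exact (gen_adj hs ht hq k x).trans (ih _)

theorem reach_ev {x y : V} (h : (G3 s t q).Reachable x y) : ∃ w, ev s t q w x = y := by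
  obtain ⟨p⟩ := h
  induction p with
  | nil => exact ⟨[], rfl⟩
  | @cons a b c h p ih =>
    obtain ⟨w, hw⟩ := ih
    rcases h.2 with h1 | h1 | h1
    · refine ⟨0 :: w, ?_⟩
      have : gen s t q 0 a = b := by unfold gen; rw [if_pos rfl]; exact h1.1.symm
      show ev s t q w (gen s t q 0 a) = c
      rw [this, hw]
    · refine ⟨1 :: w, ?_⟩
      have : gen s t q 1 a = b := by
        unfold gen; rw [if_neg (by decide), if_pos rfl]; exact h1.1.symm
      show ev s t q w (gen s t q 1 a) = c
      rw [this, hw]
    · refine ⟨2 :: w, ?_⟩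
      have : gen s t q 2 a = b := by
        unfold gen; rw [if_neg (by decide), if_neg (by decide)]; exact h1.1.symm
      show ev s t q w (gen s t q 2 a) = c
      rw [this, hw]

theorem gen_meas [MeasurableSpace V] (hs : Measurable s) (ht : Measurable t)
    (hq : Measurable q) (k : Fin 3) : Measurable (gen s t q k) := by
  unfold gen
  split_ifs
  · exact hs
  · exact ht
  · exact hq

theorem ev_meas [MeasurableSpace V] (hs : Measurable s) (ht : Measurable t)
    (hq : Measurable q) (w : List (Fin 3)) : Measurable (ev s t q w) := by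
  induction w with
  | nil => exact measurable_id
  | cons k w ih => exact ih.comp (gen_meas hs ht hq k)

theorem d2 (h : ∀ x, q x ≠ x → s x = x ∨ t x = x) : D2 (G3 s t q) := by
  intro v a b c ha hb hc
  have e : ∀ u, (G3 s t q).Adj v u → u ≠ v ∧ (u = s v ∨ u = t v ∨ u = q v) := fun u hu =>
    ⟨hu.1.symm, hu.2.imp And.left (Or.imp And.left And.left)⟩
  obtain ⟨a0, ha⟩ := e a ha
  obtain ⟨b0, hb⟩ := e b hb
  obtain ⟨c0, hc⟩ := e c hc
  by_contra hn
  push Not at hn
  obtain ⟨h1, h2, h3⟩ := hn
  by_cases hqv : q v = v
  · rcases ha with ha | ha | ha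
    · rcases hb with hb | hb | hb
      · exact h1 (ha.trans hb.symm)
      · rcases hc with hc | hc | hc
        · exact h3 (ha.trans hc.symm)
        · exact h2 (hb.trans hc.symm)
        · exact c0 (hc.trans hqv)
      · exact b0 (hb.trans hqv)
    · rcases hb with hb | hb | hb
      · rcases hc with hc | hc | hc
        · exact h2 (hb.trans hc.symm)
        · exact h3 (ha.trans hc.symm)
        · exact c0 (hc.trans hqv)
      · exact h1 (ha.trans hb.symm)
      · exact b0 (hb.trans hqv)
    · exact a0 (ha.trans hqv)
  · rcases h v hqv with hsv | htv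
    · rcases ha with ha | ha | ha
      · exact a0 (ha.trans hsv)
      · rcases hb with hb | hb | hb
        · exact b0 (hb.trans hsv)
        · exact h1 (ha.trans hb.symm)
        · rcases hc with hc | hc | hc
          · exact c0 (hc.trans hsv)
          · exact h3 (ha.trans hc.symm)
          · exact h2 (hb.trans hc.symm)
      · rcases hb with hb | hb | hb
        · exact b0 (hb.trans hsv)
        · rcases hc with hc | hc | hc
          · exact c0 (hc.trans hsv)
          · exact h2 (hb.trans hc.symm)
          · exact h3 (ha.trans hc.symm)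
        · exact h1 (ha.trans hb.symm)
    · rcases ha with ha | ha | ha
      · rcases hb with hb | hb | hb
        · exact h1 (ha.trans hb.symm)
        · exact b0 (hb.trans htv)
        · rcases hc with hc | hc | hc
          · exact h3 (ha.trans hc.symm)
          · exact c0 (hc.trans htv)
          · exact h2 (hb.trans hc.symm)
      · exact a0 (ha.trans htv)
      · rcases hb with hb | hb | hb
        · rcases hc with hc | hc | hc
          · exact h2 (hb.trans hc.symm)
          · exact c0 (hc.trans htv)
          · exact h3 (ha.trans hc.symm)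
        · exact b0 (hb.trans htv)
        · exact h1 (ha.trans hb.symm)

theorem d1 {x : V} (hx : x ∈ E3 s t q) : D1 (G3 s t q) x := by
  intro a b ha hb
  have e : ∀ u, (G3 s t q).Adj x u → u ≠ x ∧ (u = s x ∨ u = t x ∨ u = q x) := fun u hu =>
    ⟨hu.1.symm, hu.2.imp And.left (Or.imp And.left And.left)⟩
  obtain ⟨a0, ha⟩ := e a ha
  obtain ⟨b0, hb⟩ := e b hb
  rcases hx with ⟨h1, h2⟩ | ⟨h1, h2⟩ | ⟨h1, h2⟩
  · rcases ha with ha | ha | ha
    · exact absurd (ha.trans h1) a0
    · exact absurd (ha.trans h2) a0
    · rcases hb with hb | hb | hb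
      · exact absurd (hb.trans h1) b0
      · exact absurd (hb.trans h2) b0
      · exact ha.trans hb.symm
  · rcases ha with ha | ha | ha
    · exact absurd (ha.trans h1) a0
    · rcases hb with hb | hb | hb
      · exact absurd (hb.trans h1) b0
      · exact ha.trans hb.symm
      · exact absurd (hb.trans h2) b0
    · exact absurd (ha.trans h2) a0
  · rcases ha with ha | ha | ha
    · rcases hb with hb | hb | hb
      · exact ha.trans hb.symm
      · exact absurd (hb.trans h1) b0
      · exact absurd (hb.trans h2) b0
    · exact absurd (ha.trans h1) a0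
    · exact absurd (ha.trans h2) a0

end Words

end PAR_

open PAR_ in
theorem allPAR : tPAR.{u} := by
  classical
  intro V _ _ s t q hs ht hq hs2 ht2 hq2 hqst
  have hE : MeasurableSet (E3 s t q) := by
    have a1 : MeasurableSet {x | s x = x} := measurableSet_eq_fun hs measurable_id
    have a2 : MeasurableSet {x | t x = x} := measurableSet_eq_fun ht measurable_id
    have a3 : MeasurableSet {x | q x = x} := measurableSet_eq_fun hq measurable_id
    exact (a1.inter a2).union ((a1.inter a3).union (a2.inter a3))
  refine ⟨?_, ?_⟩
  · -- the partner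
    let good : V → V → Prop := fun x y =>
      x ∈ E3 s t q ∧ y ∈ E3 s t q ∧ y ≠ x ∧ (G3 s t q).Reachable x y
    have uniq : ∀ x y z, good x y → good x z → y = z := fun x y z h1 h2 =>
      two_ends (d2 hqst) (d1 h1.1) (d1 h1.2.1) (d1 h2.2.1) h1.2.2.2 h2.2.2.2 h1.2.2.1 h2.2.2.1
    let π : V → V := fun x => if h : ∃ y, good x y then h.choose else x
    have π_pos : ∀ x, (∃ y, good x y) → good x (π x) := by
      intro x h
      show good x (if h : ∃ y, good x y then h.choose else x)
      rw [dif_pos h]
      exact h.choose_spec
    have π_neg : ∀ x, (¬ ∃ y, good x y) → π x = x := by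
      intro x h
      show (if h : ∃ y, good x y then h.choose else x) = x
      rw [dif_neg h]
    have π_eq : ∀ x y, good x y → π x = y := fun x y h => uniq x _ _ (π_pos x ⟨y, h⟩) h
    have gm : ∀ A : Set V, MeasurableSet A → MeasurableSet {x | ∃ y ∈ A, good x y} := by
      intro A hA
      have : {x | ∃ y ∈ A, good x y} = ⋃ w : List (Fin 3),
          (E3 s t q ∩ (ev s t q w) ⁻¹' (E3 s t q) ∩ {x | ev s t q w x = x}ᶜ ∩
            (ev s t q w) ⁻¹' A) := by
        ext x
        simp only [mem_setOf_eq, mem_iUnion, mem_inter_iff, mem_preimage, mem_compl_iff]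
        constructor
        · rintro ⟨y, hyA, h1, h2, h3, h4⟩
          obtain ⟨w, hw⟩ := reach_ev h4
          subst hw
          exact ⟨w, ⟨⟨h1, h2⟩, h3⟩, hyA⟩
        · rintro ⟨w, ⟨⟨h1, h2⟩, h3⟩, h4⟩
          exact ⟨_, h4, h1, h2, h3, ev_reach hs2 ht2 hq2 w x⟩
      rw [this]
      refine MeasurableSet.iUnion fun w => ?_
      have hw := ev_meas hs ht hq w
      exact ((hE.inter (hw hE)).inter (measurableSet_eq_fun hw measurable_id).compl).inter
        (hw hA)
    refine ⟨π, ?_, ?_, ?_, ?_, ?_⟩
    · intro A hA
      have : π ⁻¹' A = {x | ∃ y ∈ A, good x y} ∪ ({x | ∃ y ∈ univ, good x y}ᶜ ∩ A) := by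
        ext x
        simp only [mem_preimage, mem_union, mem_setOf_eq, mem_inter_iff, mem_compl_iff,
          mem_univ, true_and]
        by_cases h : ∃ y, good x y
        · constructor
          · intro h1
            exact Or.inl ⟨π x, h1, π_pos x h⟩
          · rintro (⟨y, h1, h2⟩ | h1)
            · rw [π_eq x y h2]
              exact h1
            · exact absurd h h1.1
        · constructor
          · intro h1
            rw [π_neg x h] at h1
            exact Or.inr ⟨h, h1⟩
          · rintro (⟨y, _, h2⟩ | h1)
            · exact absurd ⟨y, h2⟩ h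
            · rw [π_neg x h]
              exact h1.2
      rw [this]
      exact (gm A hA).union ((gm univ MeasurableSet.univ).compl.inter hA)
    · intro x
      by_cases h : ∃ y, good x y
      · have h1 := π_pos x h
        exact π_eq _ _ ⟨h1.2.1, h1.1, h1.2.2.1.symm, h1.2.2.2.symm⟩
      · rw [π_neg x h, π_neg x h]
    · intro x
      by_cases h : ∃ y, good x y
      · exact (π_pos x h).2.2.2
      · rw [π_neg x h]
    · intro x hx
      by_cases h : ∃ y, good x y
      · exact (π_pos x h).1
      · exact absurd (π_neg x h) hx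
    · intro x hx y hy hxy
      by_cases h : y = x
      · exact Or.inl h
      · exact Or.inr (π_eq x y ⟨hx, hy, h, hxy⟩).symm
  · intro X hX
    have : {x | ∃ y ∈ X, (G3 s t q).Reachable x y} = ⋃ w : List (Fin 3),
        (ev s t q w) ⁻¹' X := by
      ext x
      simp only [mem_setOf_eq, mem_iUnion, mem_preimage]
      constructor
      · rintro ⟨y, hy, h⟩
        obtain ⟨w, hw⟩ := reach_ev h
        exact ⟨w, by rw [hw]; exact hy⟩
      · rintro ⟨w, hw⟩
        exact ⟨_, hw, ev_reach hs2 ht2 hq2 w x⟩
    rw [this]
    exact MeasurableSet.iUnion fun w => ev_meas hs ht hq w hX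

end Pool.Agent.SGM
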