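import Pool.Agent.SGM.Targets

set_option autoImplicit false

/-! MP_fff3e1_lc, reduction to a finite game: one phase (B6). -/

namespace Pool.Agent.SGM

open MeasureTheory Set Filter
open scoped ENNReal
open Pool.Agent.MEC
open Pool.Agent.MEP
open Pool.Agent.MEO

universe u

namespace PHS_

/-- at most `Δ` labels are nonempty at a centre -/
lemma ncard_le {V : Type u} [MeasurableSpace V] {G : SimpleGraph V} {m Δ : ℕ} {e : PCol G m}
    {Z : Set V} (hZ : Cen e Δ Z) {c : PCol (off G Z) Δ} {M : V → Fin m → Finset (Fin Δ)}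
    (hM : LS e Z c M) {t : V} (ht : t ∈ Z) : {κ | (M t κ).Nonempty}.ncard ≤ Δ := by
  have hfin : (G.neighborSet t).Finite := by
    refine (Set.finite_range fun k => e.S k t).subset ?_
    intro y hy
    obtain ⟨k, hk⟩ := hZ.lab t y hy
    exact ⟨k, hk⟩
  have hne : ∀ κ, (M t κ).Nonempty → e.S κ t ≠ t := by
    intro κ hκ h
    rw [hM.emp t κ (Or.inr h)] at hκ
    exact Finset.not_nonempty_empty hκ
  refine le_trans ?_ (hZ.deg t ht)
  refine Set.ncard_le_ncard_of_injOn (fun κ => e.S κ t) ?_ ?_ hfin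
  · intro κ hκ
    exact e.adj κ t (hne κ hκ)
  · intro κ hκ κ' _ h
    exact e.disj κ κ' t h (hne κ hκ)

/-- the rounds of a word -/
lemma play (h_RD1 : tRD1.{u}) {V : Type u} [MeasurableSpace V] [StandardBorelSpace V]
    {G : SimpleGraph V} {m Δ : ℕ} (e : PCol G m) (ν : Measure V) [IsFiniteMeasure ν]
    (C : ℝ≥0∞) (Z : Set V) (hQ : QInv G ν C) (hC : C ≠ ⊤) (hZ : Cen e Δ Z) :
    ∀ (w : List (Fin Δ × Fin Δ)), (∀ p ∈ w, p.1 ≠ p.2) →
    ∀ (c : PCol (off G Z) Δ) (M : V → Fin m → Finset (Fin Δ)), LS e Z c M → Cov ν c →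
    (∀ᵐ t ∂ν, t ∈ Z → Win w (M t)) →
    ∃ (c' : PCol (off G Z) Δ) (M' : V → Fin m → Finset (Fin Δ)), LS e Z c' M' ∧ Cov ν c' ∧
      ∀ᵐ t ∂ν, t ∈ Z → SDR (M' t) := by
  intro w
  induction w with
  | nil =>
    intro _ c M hM hc hw
    exact ⟨c, M, hM, hc, hw⟩
  | cons p w ih =>
    intro hp c M hM hc hw
    obtain ⟨c', M', h1, h2, h3⟩ := h_RD1 V G m Δ e ν C Z hQ hC hZ c M p.1 p.2 w
      (hp p (by simp)) hM hc hw
    exact ih (fun q hq => hp q (by simp [hq])) c' M' h1 h2 h3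

end PHS_

theorem allPHS (h_WIN : tWIN) (h_INI : tINI.{u}) (h_RD1 : tRD1.{u}) (h_FIN : tFIN.{u}) :
    tPHS.{u} := by
  intro Δ w hw V _ _ H G m e ν _ C Z hQ hC hZ hm hΔ hHG hN c hc
  obtain ⟨c0, M, hM, hc0, hn⟩ := h_INI V H G m Δ e ν C Z hQ hC hZ hm hΔ hHG hN c hc
  have h1 : ∀ᵐ t ∂ν, t ∈ Z → Win w (M t) := by
    filter_upwards [hn] with t ht htZ
    refine h_WIN Δ w hw m (M t) ?_ (PHS_.ncard_le hZ hM htZ) (ht htZ)
    intro κ
    by_cases h : e.S κ t = t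
    · left
      rw [hM.emp t κ (Or.inr h), Finset.card_empty]
    · right
      exact hM.two t htZ κ h
  obtain ⟨c1, M1, hM1, hc1, hs⟩ := PHS_.play h_RD1 e ν C Z hQ hC hZ w hw.1 c0 M hM hc0 h1
  exact h_FIN V G m Δ e ν C Z hQ hC hZ c1 M1 hM1 hc1 hs

end Pool.Agent.SGM
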