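import Pool.Agent.SGM.TargetsP
import Pool.Agent.SGM.PHS

set_option autoImplicit false

/-! MP_fff3e1_lc, parallel rounds: one phase (P5). -/

namespace Pool.Agent.SGM

open MeasureTheory Set Filter
open scoped ENNReal
open Pool.Agent.MEC
open Pool.Agent.MEP
open Pool.Agent.MEO

universe u

namespace PHSP_

/-- the rounds of a word -/
lemma play (h_RDP : tRDP.{u}) {V : Type u} [MeasurableSpace V] [StandardBorelSpace V]
    {G : SimpleGraph V} {m Δ : ℕ} (e : PCol G m) (ν : Measure V) [IsFiniteMeasure ν]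
    (C : ℝ≥0∞) (Z : Set V) (hQ : QInv G ν C) (hC : C ≠ ⊤) (hZ : Cen e Δ Z) :
    ∀ (w : List (Fin Δ → Fin Δ)), (∀ τ ∈ w, ∀ k, τ (τ k) = k) →
    ∀ (c : PCol (off G Z) Δ) (M : V → Fin m → Finset (Fin Δ)), LS e Z c M → Cov ν c →
    (∀ᵐ t ∂ν, t ∈ Z → WinP w (M t)) →
    ∃ (c' : PCol (off G Z) Δ) (M' : V → Fin m → Finset (Fin Δ)), LS e Z c' M' ∧ Cov ν c' ∧
      ∀ᵐ t ∂ν, t ∈ Z → SDR (M' t) := by
  intro w
  induction w with
  | nil =>
    intro _ c M hM hc hw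
    exact ⟨c, M, hM, hc, hw⟩
  | cons τ w ih =>
    intro hp c M hM hc hw
    obtain ⟨c', M', h1, h2, h3⟩ := h_RDP V G m Δ e ν C Z hQ hC hZ c M τ w
      (hp τ (by simp)) hM hc hw
    exact ih (fun q hq => hp q (by simp [hq])) c' M' h1 h2 h3

end PHSP_

theorem allPHSP (h_WINP : tWINP) (h_INI : tINI.{u}) (h_RDP : tRDP.{u}) (h_FIN : tFIN.{u}) :
    tPHSP.{u} := by
  intro Δ w hw V _ _ H G m e ν _ C Z hQ hC hZ hm hΔ hHG hN c hc
  obtain ⟨c0, M, hM, hc0, hn⟩ := h_INI V H G m Δ e ν C Z hQ hC hZ hm hΔ hHG hN c hc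
  have h1 : ∀ᵐ t ∂ν, t ∈ Z → WinP w (M t) := by
    filter_upwards [hn] with t ht htZ
    refine h_WINP Δ w hw m (M t) ?_ (PHS_.ncard_le hZ hM htZ) (ht htZ)
    intro κ
    by_cases h : e.S κ t = t
    · left
      rw [hM.emp t κ (Or.inr h), Finset.card_empty]
    · right
      exact hM.two t htZ κ h
  obtain ⟨c1, M1, hM1, hc1, hs⟩ := PHSP_.play h_RDP e ν C Z hQ hC hZ w hw.1 c0 M hM hc0 h1
  exact h_FIN V G m Δ e ν C Z hQ hC hZ c1 M1 hM1 hc1 hs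

end Pool.Agent.SGM
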