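import Pool.Agent.SGM.TargetsP
import Pool.Agent.MEQ.Base

set_option autoImplicit false

/-! MP_fff3e1_lc, parallel rounds: one round (P4). -/

namespace Pool.Agent.SGM

open MeasureTheory Set Filter
open scoped ENNReal
open Pool.Agent.MEC
open Pool.Agent.MEP
open Pool.Agent.MEO

universe u

namespace RDP_

variable {V : Type u} [MeasurableSpace V] {Δ : ℕ}

/-- the measure on the pairs (point, colour) -/
noncomputable def pm (Δ : ℕ) (ν : Measure V) : Measure (V × Fin Δ) :=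
  ∑ k : Fin Δ, ν.map fun x => (x, k)

lemma pm_fin (ν : Measure V) [IsFiniteMeasure ν] : IsFiniteMeasure (pm Δ ν) := by
  unfold pm
  infer_instance

lemma ae_pm (ν : Measure V) {p : V × Fin Δ → Prop} (h : ∀ᵐ q ∂(pm Δ ν), p q) (k : Fin Δ) :
    ∀ᵐ x ∂ν, p (x, k) := by
  have hle : ν.map (fun x => (x, k)) ≤ pm Δ ν :=
    Finset.single_le_sum (f := fun k : Fin Δ => ν.map fun x => (x, k))
      (fun _ _ => Measure.zero_le _) (Finset.mem_univ k)
  have h1 : ∀ᵐ q ∂(ν.map fun x => (x, k)), p q := Measure.absolutelyContinuous_of_le hle h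
  exact ae_of_ae_map (measurable_prodMk_right (y := k)).aemeasurable h1

end RDP_

theorem allRDP (h_CSP : tCSP.{u}) (h_BLKP : tBLKP.{u}) (h_FLIP : tFLIP.{u}) : tRDP.{u} := by
  intro V _ _ G m Δ e ν _ C Z hQ _ hZ c M τ w hτ hL hc hW
  obtain ⟨B, Bq, Bn, Br, hfix, hwin⟩ := h_BLKP V G m Δ e Z hZ c M τ w hL
  have := RDP_.pm_fin (Δ := Δ) ν
  have hs : Measurable fun p : V × Fin Δ => (c.S p.2 p.1, p.2) :=
    measurable_from_prod_countable_left fun k =>
      (measurable_prodMk_right (y := k)).comp (c.meas k)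
  have ht : Measurable fun p : V × Fin Δ => (p.1, τ p.2) :=
    measurable_fst.prodMk ((measurable_from_top (f := τ)).comp measurable_snd)
  obtain ⟨X, hX, hcl, hat⟩ := h_CSP (V × Fin Δ) (RDP_.pm Δ ν)
    (fun p => (c.S p.2 p.1, p.2)) (fun p => (p.1, τ p.2)) B hs ht
    (fun p => by simp [c.invol]) (fun p => by simp [hτ]) Bq Bn Br
    (fun p hp => Or.inl (by rw [hfix p hp]))
  obtain ⟨c', hL', hcc⟩ := h_FLIP V G m Δ e Z hZ c M τ hτ hL X hX hcl
  refine ⟨c', _, hL', ?_, ?_⟩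
  · unfold Cov at hc ⊢
    filter_upwards [hc] with x hx y hxy
    exact hcc x y (hx y hxy) hxy.ne
  · have h1 : ∀ κ : Fin m, ∀ k : Fin Δ, ∀ᵐ t ∂ν, B.At X (e.S κ t, k) := by
      intro κ k
      have h2 : ν {x | ¬ B.At X (x, k)} = 0 := RDP_.ae_pm ν hat k
      have h3 := MEQ.qi_S hQ e le_rfl κ {x | ¬ B.At X (x, k)}
      rw [h2, mul_zero] at h3
      exact nonpos_iff_eq_zero.1 h3
    filter_upwards [hW, ae_all_iff.2 fun κ => ae_all_iff.2 (h1 κ)] with t ht1 ht2 htZ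
    exact hwin t htZ (ht1 htZ) X fun κ k _ => ht2 κ k

end Pool.Agent.SGM
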