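import Pool.Agent.SGM.Targets
import Pool.Agent.MEO.LAB
import Pool.Agent.MEO.MES
import Pool.Agent.MEQ.VCL

set_option autoImplicit false

/-! MP_fff3e1_lc: the sequence of sparse phases (target `tSEQ`). -/

namespace Pool.Agent.SGM

open MeasureTheory Set Filter
open scoped ENNReal
open Pool.Agent.MEC
open Pool.Agent.MEP
open Pool.Agent.MEO

universe u

namespace SEQ_

variable {V : Type u} {G : SimpleGraph V} {m N P : ℕ}

/-- the centres of the phase `b`, `p` -/
def Cn (S : Fin m → V → V) (col : V → Fin N) (A : Set V) (b : Bool) (p : Fin m × Fin N) :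
    Set V :=
  {x | S p.1 x ≠ x ∧ col x = p.2 ∧
    (b = false → x ∉ A ∧ S p.1 x ∉ A ∧ col x < col (S p.1 x)) ∧ (b = true → x ∈ A)}

/-- the number of the phase `b`, `p` -/
def ix (φ : Fin m × Fin N ≃ Fin P) (b : Bool) (p : Fin m × Fin N) : ℕ :=
  if b then P + (φ p : ℕ) else (φ p : ℕ)

lemma ix_inj (φ : Fin m × Fin N ≃ Fin P) {b b' : Bool} {p p' : Fin m × Fin N}
    (h : ix φ b p = ix φ b' p') : b = b' ∧ p = p' := by
  have h1 := (φ p).isLt
  have h2 := (φ p').isLt
  unfold ix at h
  cases b <;> cases b' <;> simp only [Bool.false_eq_true, if_false, if_true] at h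
  · exact ⟨rfl, φ.injective (Fin.ext h)⟩
  · omega
  · omega
  · exact ⟨rfl, φ.injective (Fin.ext (by omega))⟩

/-- the edges of phase `k`, from the centre -/
def Ed (S : Fin m → V → V) (col : V → Fin N) (A : Set V) (φ : Fin m × Fin N ≃ Fin P) (k : ℕ)
    (x y : V) : Prop :=
  ∃ b p, k = ix φ b p ∧ x ∈ Cn S col A b p ∧ S p.1 x = y

/-- the edges of the first `k` phases -/
def HH (e : PC G m) (col : V → Fin N) (A : Set V) (φ : Fin m × Fin N ≃ Fin P) (k : ℕ) :
    SimpleGraph V where
  Adj x y := ∃ k' < k, Ed e.S col A φ k' x y ∨ Ed e.S col A φ k' y x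
  symm := ⟨fun _ _ ⟨k', h1, h2⟩ => ⟨k', h1, h2.symm⟩⟩
  loopless := ⟨by
    rintro x ⟨k', -, h | h⟩ <;>
    · obtain ⟨b, p, -, h1, h2⟩ := h
      exact h1.1 h2⟩

lemma HH_adj {e : PC G m} {col : V → Fin N} {A : Set V} {φ : Fin m × Fin N ≃ Fin P} {k : ℕ}
    {x y : V} : (HH e col A φ k).Adj x y ↔
      ∃ k' < k, Ed e.S col A φ k' x y ∨ Ed e.S col A φ k' y x := Iff.rfl

lemma Ed_adj {e : PC G m} {col : V → Fin N} {A : Set V} {φ : Fin m × Fin N ≃ Fin P} {k : ℕ}
    {x y : V} (h : Ed e.S col A φ k x y) : G.Adj x y := by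
  obtain ⟨b, p, -, h1, rfl⟩ := h
  exact e.adj _ _ h1.1

lemma HH_le (e : PC G m) (col : V → Fin N) (A : Set V) (φ : Fin m × Fin N ≃ Fin P) (k : ℕ) :
    HH e col A φ k ≤ G := by
  rintro x y ⟨k', -, h | h⟩
  · exact Ed_adj h
  · exact (Ed_adj h).symm

section res

variable [MeasurableSpace V]

open Classical in
/-- the labels of a subgraph -/
noncomputable def res (e : PCol G m) (H : SimpleGraph V)
    (hm : ∀ k, MeasurableSet {x | H.Adj x (e.S k x)}) : PCol H m where
  S k x := if H.Adj x (e.S k x) then e.S k x else x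
  meas k := Measurable.ite (hm k) (e.meas k) measurable_id
  invol k x := by
    by_cases h : H.Adj x (e.S k x)
    · have h' : H.Adj (e.S k x) (e.S k (e.S k x)) := by
        rw [e.invol]
        exact h.symm
      rw [if_pos h, if_pos h', e.invol]
    · rw [if_neg h, if_neg h]
  adj k x h := by
    by_cases h1 : H.Adj x (e.S k x)
    · rwa [if_pos h1]
    · rw [if_neg h1] at h
      exact absurd rfl h
  disj k k' x h h' := by
    by_cases h1 : H.Adj x (e.S k x)
    · rw [if_pos h1] at h h'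
      by_cases h2 : H.Adj x (e.S k' x)
      · rw [if_pos h2] at h
        exact e.disj k k' x h h'
      · rw [if_neg h2] at h
        exact absurd h h'
    · rw [if_neg h1] at h'
      exact absurd rfl h'

lemma res_lab {e : PCol G m} {H : SimpleGraph V}
    {hm : ∀ k, MeasurableSet {x | H.Adj x (e.S k x)}} (hH : H ≤ G) (he : Lab e) :
    Lab (res e H hm) := by
  intro x y h
  obtain ⟨k, rfl⟩ := he x y (hH h)
  refine ⟨k, ?_⟩
  unfold res
  simp only [if_pos h]

end res

/-- words of length at most two -/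
def WW2 (m : ℕ) : Finset (List (Fin m)) :=
  (Finset.univ.image fun k => [k]) ∪
    (Finset.univ.image fun p : Fin m × Fin m => [p.1, p.2])

end SEQ_

open SEQ_ in
/-- B7 the sequence of phases -/
theorem allSEQ : tSEQ.{u} := by
  intro V _ _ G Δ hΔ hG hd hi
  classical
  obtain ⟨e, he⟩ := allLAB V G Δ hG hd
  obtain ⟨N, col, hcol, hc⟩ := Pool.Agent.MEQ.allVCL V G (2 * Δ) e (WW2 (2 * Δ))
  have hc1 : ∀ (k : Fin (2 * Δ)) (x : V), e.S k x ≠ x → col (e.S k x) ≠ col x := by
    intro k x h
    have := hc x [k] (by simp [WW2])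
    simp only [wd_cons, wd_nil] at this
    exact this h
  have hc2 : ∀ (k k' : Fin (2 * Δ)) (x : V), e.S k' (e.S k x) ≠ x →
      col (e.S k' (e.S k x)) ≠ col x := by
    intro k k' x h
    have := hc x [k, k'] (by
      unfold WW2
      rw [Finset.mem_union]
      right
      rw [Finset.mem_image]
      exact ⟨(k, k'), Finset.mem_univ _, rfl⟩)
    simp only [wd_cons, wd_nil] at this
    exact this h
  have hfin : ∀ x, (G.neighborSet x).Finite := fun x =>
    Set.finite_of_encard_le_coe (hd x)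
  have hdg : ∀ x, ((dg G x : ℕ) : ℕ∞) = (G.neighborSet x).encard := fun x => by
    unfold dg
    exact (hfin x).cast_ncard_eq
  have hdg1 : ∀ x, dg G x ≤ Δ := fun x => by
    have := hd x
    rw [← hdg] at this
    exact_mod_cast this
  have hdg2 : ∀ x y, G.Adj x y → dg G x < Δ ∨ dg G y < Δ := fun x y h => by
    rcases hi x y h with h1 | h1
    · left
      rw [← hdg] at h1
      exact_mod_cast h1
    · right
      rw [← hdg] at h1
      exact_mod_cast h1
  set A : Set V := {x | dg G x = Δ} with hA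
  have hAm : MeasurableSet A :=
    ((allMES V G (2 * Δ) (2 * Δ) e e he).2.1 G le_rfl hG).1 Δ
  obtain ⟨P, hP⟩ : ∃ P, Fintype.card (Fin (2 * Δ) × Fin N) = P := ⟨_, rfl⟩
  let φ : Fin (2 * Δ) × Fin N ≃ Fin P := Fintype.equivFinOfCardEq hP
  set ec : PC G (2 * Δ) := toPC e with hec
  have hS : ec.S = e.S := rfl
  have hCm : ∀ b p, MeasurableSet (Cn e.S col A b p) := by
    intro b p
    have h1 : MeasurableSet {x | e.S p.1 x ≠ x} :=
      (measurableSet_eq_fun (e.meas p.1) measurable_id).compl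
    have h2 : MeasurableSet {x | col x = p.2} := hcol (measurableSet_singleton _)
    have h3 : MeasurableSet {x | x ∉ A ∧ e.S p.1 x ∉ A ∧ col x < col (e.S p.1 x)} := by
      have h4 : MeasurableSet {x | col x < col (e.S p.1 x)} := by
        have h5 : {x | col x < col (e.S p.1 x)} =
            (fun x => (col x, col (e.S p.1 x))) ⁻¹' {q : Fin N × Fin N | q.1 < q.2} := rfl
        rw [h5]
        exact (hcol.prodMk (hcol.comp (e.meas p.1))) (Set.toFinite _).measurableSet
      exact hAm.compl.inter (((e.meas p.1) hAm.compl).inter h4)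
    cases b
    · have h6 : Cn e.S col A false p = {x | e.S p.1 x ≠ x} ∩ ({x | col x = p.2} ∩
          {x | x ∉ A ∧ e.S p.1 x ∉ A ∧ col x < col (e.S p.1 x)}) := by
        ext x
        simp [Cn]
      rw [h6]
      exact h1.inter (h2.inter h3)
    · have h6 : Cn e.S col A true p = {x | e.S p.1 x ≠ x} ∩ ({x | col x = p.2} ∩ A) := by
        ext x
        simp [Cn]
      rw [h6]
      exact h1.inter (h2.inter hAm)
  have hEm : ∀ (k : ℕ) (κ : Fin (2 * Δ)), MeasurableSet {x | Ed e.S col A φ k x (e.S κ x)} := by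
    intro k κ
    have h1 : {x | Ed e.S col A φ k x (e.S κ x)} = ⋃ b, ⋃ p,
        {x | k = ix φ b p ∧ x ∈ Cn e.S col A b p ∧ e.S p.1 x = e.S κ x} := by
      ext x
      simp [Ed]
    rw [h1]
    refine MeasurableSet.iUnion fun b => MeasurableSet.iUnion fun p => ?_
    by_cases h2 : k = ix φ b p
    · simp only [h2, true_and]
      exact (hCm b p).inter (measurableSet_eq_fun (e.meas _) (e.meas _))
    · simp only [h2, false_and, ofPred_false, MeasurableSet.empty]
  have hHm : ∀ (k : ℕ) (κ : Fin (2 * Δ)),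
      MeasurableSet {x | (HH ec col A φ k).Adj x (e.S κ x)} := by
    intro k κ
    have h1 : {x | (HH ec col A φ k).Adj x (e.S κ x)} = ⋃ k' : ℕ, {x | k' < k ∧
        (x ∈ {x | Ed e.S col A φ k' x (e.S κ x)} ∨
          x ∈ e.S κ ⁻¹' {x | Ed e.S col A φ k' x (e.S κ x)})} := by
      ext x
      simp only [mem_ofPred_eq, mem_iUnion, HH_adj, mem_preimage, e.invol, hS]
    rw [h1]
    refine MeasurableSet.iUnion fun k' => ?_
    by_cases h2 : k' < k
    · simp only [h2, true_and]
      exact (hEm k' κ).union ((e.meas κ) (hEm k' κ))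
    · simp only [h2, false_and, ofPred_false, MeasurableSet.empty]
  let Z : ℕ → Set V := fun k => {x | ∃ b p, k = ix φ b p ∧ x ∈ Cn e.S col A b p}
  -- two centres
  have hZcol : ∀ k, ∀ t ∈ Z k, ∀ t' ∈ Z k, col t = col t' := by
    rintro k t ⟨b, p, h1, h2⟩ t' ⟨b', p', h1', h2'⟩
    obtain ⟨-, rfl⟩ := ix_inj φ (h1.symm.trans h1')
    rw [h2.2.1, h2'.2.1]
  have hfar : ∀ k, ∀ t ∈ Z k, ∀ t' ∈ Z k, ¬ G.Adj t t' := by
    intro k t ht t' ht' h
    obtain ⟨κ, rfl⟩ := he _ _ h
    exact hc1 κ t (fun h' => h.ne h'.symm) (hZcol k _ ht' _ ht)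
  have hsep : ∀ k, ∀ t ∈ Z k, ∀ t' ∈ Z k, ∀ v, G.Adj t v → G.Adj t' v → t = t' := by
    intro k t ht t' ht' v h h'
    by_contra hne
    obtain ⟨κ, rfl⟩ := he _ _ h
    obtain ⟨κ', rfl⟩ := he _ _ h'.symm
    exact hc2 κ κ' t (fun h'' => hne h''.symm) (hZcol k _ ht' _ ht)
  refine ⟨2 * P, HH ec col A φ, Z, ?_, ?_, ?_⟩
  · ext x y
    rw [HH_adj]
    simp
  · apply le_antisymm (HH_le _ _ _ _ _)
    intro x y hxy
    rw [HH_adj, hS]
    obtain ⟨κ, hκ⟩ := he _ _ hxy
    have hκ' : e.S κ y = x := by rw [← hκ, e.invol]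
    have hxy' : e.S κ x ≠ x := fun h => hxy.ne (by rw [← hκ, h])
    have hyx' : e.S κ y ≠ y := fun h => hxy.ne (by rw [← hκ', h])
    have hlt : ∀ b p, ix φ b p < 2 * P := by
      intro b p
      have := (φ p).isLt
      unfold ix
      split_ifs <;> omega
    by_cases hx : x ∈ A
    · exact ⟨_, hlt true (κ, col x), Or.inl ⟨true, (κ, col x), rfl,
        ⟨hxy', rfl, fun h => absurd h (by simp), fun _ => hx⟩, hκ⟩⟩
    by_cases hy : y ∈ A
    · exact ⟨_, hlt true (κ, col y), Or.inr ⟨true, (κ, col y), rfl,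
        ⟨hyx', rfl, fun h => absurd h (by simp), fun _ => hy⟩, hκ'⟩⟩
    have hne : col x ≠ col y := fun h => hc1 κ x hxy' (by rw [hκ, h])
    rcases lt_or_gt_of_ne hne with h | h
    · exact ⟨_, hlt false (κ, col x), Or.inl ⟨false, (κ, col x), rfl,
        ⟨hxy', rfl, fun _ => ⟨hx, by rwa [hκ], by rwa [hκ]⟩,
          fun h => absurd h (by simp)⟩, hκ⟩⟩
    · exact ⟨_, hlt false (κ, col y), Or.inr ⟨false, (κ, col y), rfl,
        ⟨hyx', rfl, fun _ => ⟨hy, by rwa [hκ'], by rwa [hκ']⟩,
          fun h => absurd h (by simp)⟩, hκ'⟩⟩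
  · intro k
    have hmono : HH ec col A φ k ≤ HH ec col A φ (k + 1) := by
      rintro x y ⟨k', h1, h2⟩
      exact ⟨k', by omega, h2⟩
    have hEZ : ∀ x y, Ed e.S col A φ k x y → x ∈ Z k := by
      rintro x y ⟨b, p, h1, h2, -⟩
      exact ⟨b, p, h1, h2⟩
    have hnew : ∀ x y, (HH ec col A φ (k + 1)).Adj x y → ¬ (HH ec col A φ k).Adj x y →
        Ed e.S col A φ k x y ∨ Ed e.S col A φ k y x := by
      rintro x y ⟨k', h1, h2⟩ h3
      have : k' = k := by
        by_contra h4
        exact h3 ⟨k', by omega, h2⟩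
      subst this
      exact h2
    refine ⟨hmono, HH_le _ _ _ _ _, ⟨?_, ?_⟩, ?_⟩
    · intro x y h1 h2
      rcases hnew x y h1 h2 with h | h
      · exact Or.inl (hEZ _ _ h)
      · exact Or.inr (hEZ _ _ h)
    · intro t ht y y' h1 h2 h3 h4
      have key : ∀ z, (HH ec col A φ (k + 1)).Adj t z → ¬ (HH ec col A φ k).Adj t z →
          Ed e.S col A φ k t z := by
        intro z h5 h6
        rcases hnew t z h5 h6 with h | h
        · exact h
        · exact absurd (Ed_adj (e := ec) h) (hfar k z (hEZ _ _ h) t ht)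
      obtain ⟨b, p, h5, -, rfl⟩ := key y h1 h2
      obtain ⟨b', p', h5', -, rfl⟩ := key y' h3 h4
      obtain ⟨-, rfl⟩ := ix_inj φ (h5.symm.trans h5')
      rfl
    · have hle : HH ec col A φ (k + 1) ≤ G := HH_le _ _ _ _ _
      have hdle : ∀ x, dg (HH ec col A φ (k + 1)) x ≤ dg G x := fun x =>
        dg_mono (fun y hy => hle hy) (hfin x)
      refine ⟨res e _ (hHm (k + 1)), ?_⟩
      refine ⟨?_, res_lab hle he, ?_, ?_, ?_, ?_⟩
      · have h1 : Z k = ⋃ b, ⋃ p, {x | k = ix φ b p ∧ x ∈ Cn e.S col A b p} := by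
          ext x
          simp [Z]
        rw [h1]
        refine MeasurableSet.iUnion fun b => MeasurableSet.iUnion fun p => ?_
        by_cases h2 : k = ix φ b p
        · simp only [h2, true_and]
          exact hCm b p
        · simp only [h2, false_and, ofPred_false, MeasurableSet.empty]
      · intro t ht t' ht' h
        exact hfar k t ht t' ht' (hle h)
      · intro t ht t' ht' v h h'
        exact hsep k t ht t' ht' v (hle h) (hle h')
      · intro t _
        exact (hdle t).trans (hdg1 t)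
      · intro t ht v hv
        refine lt_of_le_of_lt (hdle v) ?_
        have hvG := hle hv
        have hlt : ∀ z, z ∉ A → dg G z < Δ := fun z hz => lt_of_le_of_ne (hdg1 z) hz
        by_cases htA : t ∈ A
        · rcases hdg2 t v hvG with h | h
          · exact absurd htA (ne_of_lt h)
          · exact h
        · apply hlt
          intro hvA
          -- all edges of the first `k + 1` phases avoid `A`
          obtain ⟨b, p, h1, h2⟩ := ht
          cases b with
          | true => exact htA (h2.2.2.2 rfl)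
          | false =>
            obtain ⟨k', h3, h4⟩ := hv
            have hkP : k < P := by
              rw [h1]
              exact (φ p).isLt
            have h5 : ∀ x y, Ed e.S col A φ k' x y → x ∉ A ∧ y ∉ A := by
              rintro x y ⟨b', p', h6, h7, rfl⟩
              cases b' with
              | false => exact ⟨(h7.2.2.1 rfl).1, (h7.2.2.1 rfl).2.1⟩
              | true =>
                exfalso
                have : ix φ true p' = P + (φ p' : ℕ) := rfl
                omega
            rcases h4 with h4 | h4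
            · exact (h5 _ _ h4).2 hvA
            · exact (h5 _ _ h4).1 hvA

end Pool.Agent.SGM
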