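import Pool.Agent.SGM.TargetsP
import Pool.Agent.SGM.SGM

set_option autoImplicit false

/-! MP_fff3e1_lc, parallel rounds: the theorem (P6). -/

namespace Pool.Agent.SGM

open MeasureTheory Set Filter
open scoped ENNReal
open Pool.Agent.MEC
open Pool.Agent.MEP
open Pool.Agent.MEO

universe u

namespace SGMP_

/-- the phases one after the other -/
lemma phases (h_PHSP : tPHSP.{u}) {V : Type u} [MeasurableSpace V] [StandardBorelSpace V]
    {G : SimpleGraph V} {Δ : ℕ} (w : List (Fin Δ → Fin Δ)) (hw : UnivP Δ w) (hΔ : 0 < Δ)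
    (ν : Measure V) [IsFiniteMeasure ν] {C : ℝ≥0∞} (hq : QInv G ν C) (hC : C ≠ ⊤)
    (H : ℕ → SimpleGraph V) (Z : ℕ → Set V) (h0 : H 0 = ⊥)
    (hs : ∀ k, H k ≤ H (k + 1) ∧ H (k + 1) ≤ G ∧ New (H k) (H (k + 1)) (Z k) ∧
      ∃ e : PCol (H (k + 1)) (2 * Δ), Cen e Δ (Z k)) (k : ℕ) :
    ∃ c : PCol (H k) Δ, Cov ν c := by
  induction k with
  | zero =>
    rw [h0]
    exact ⟨PCol.empty ⊥ Δ, Eventually.of_forall fun x y h => absurd h (by simp)⟩
  | succ k ih =>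
    obtain ⟨c, hc⟩ := ih
    obtain ⟨h1, h2, h3, e, h4⟩ := hs k
    exact h_PHSP Δ w hw V (H k) (H (k + 1)) (2 * Δ) e ν C (Z k) (SGM_.qinv_mono hq h2) hC h4
      (by omega) hΔ h1 h3 c hc

end SGMP_

theorem allSGMP (h_PHSP : tPHSP.{u}) (h_SEQ : tSEQ.{u}) : tSGMP.{u} := by
  intro Δ w hw V _ _ G μ _ hG hd hi
  rcases Nat.eq_zero_or_pos Δ with h0 | h0
  · subst h0
    refine ⟨PCol.empty G 0, Eventually.of_forall fun x y hxy => ?_⟩
    have h1 := hd x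
    have h2 : (G.neighborSet x).encard = 0 := by
      simpa using h1
    rw [Set.encard_eq_zero] at h2
    have h3 : y ∈ G.neighborSet x := hxy
    rw [h2] at h3
    exact absurd h3 (Set.notMem_empty y)
  · obtain ⟨N, H, Z, hH0, hHN, hs⟩ := h_SEQ V G Δ h0 hG hd hi
    obtain ⟨g⟩ := exists_gen hG hd
    have : IsFiniteMeasure (g.nu μ) := ⟨g.nu_univ_lt_top μ⟩
    have hq : QInv G (g.nu μ) (Gen.CC Δ) := g.qinv_nu μ
    have hC : Gen.CC Δ ≠ ⊤ := by
      unfold Gen.CC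
      exact ENNReal.add_ne_top.2 ⟨ENNReal.mul_ne_top (by simp) (by simp), by simp⟩
    have hac : μ ≪ g.nu μ := Measure.absolutelyContinuous_of_le (g.le_nu μ)
    obtain ⟨c, hc⟩ := SGMP_.phases h_PHSP w hw h0 (g.nu μ) hq hC H Z hH0 hs N
    subst hHN
    exact ⟨c, hac.ae_le hc⟩

end Pool.Agent.SGM
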