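import Pool.Agent.SGM.Check

set_option autoImplicit false
set_option maxRecDepth 100000

/-! MP_fff3e1_lc: certificate for a universal word, 3 colours. -/

namespace Pool.Agent.SGM.Chk

/-- weights -/
def WT3 : ℕ := 0x180027002d

/-- smaller colour of a pair -/
def AT3 : ℕ := 0x40

/-- larger colour of a pair -/
def BT3 : ℕ := 0x91

/-- binomial coefficients -/
def RK3 : ℕ := joinL 320 [
  0x00000003000100000000000000000000000000000000000000000000000000000000000200010000,
  0x400010000000000000000000000000000000000000000000000000000]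

/-- weight of a pair -/
def wt3 (x : ℕ) : ℕ := dig WT3 16 65536 x

/-- the pairs -/
def ps3 (x : ℕ) : Finset (Fin 3) :=
  Finset.univ.filter fun k => k.val = dig AT3 3 8 x ∨ k.val = dig BT3 3 8 x

/-- the families used -/
def FT3 : List Fm := [
  ⟨[false, false, false], [0, 1, 2], [0, 1, 2], [0, 1, 2],
    [[false, false, false]]⟩,
  ⟨[false, true, true], [0, 2, 1], [0, 1, 2], [0, 1, 2],
    [[false, false, false],
    [false, true, true]]⟩,
  ⟨[false, false, true], [0, 1, 2], [0, 1, 2], [0, 1, 2],
    [[false, false, false],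
    [false, false, true]]⟩,
  ⟨[true, true, true], [0, 1, 2], [0, 1, 2], [1, 2, 0],
    [[true, false, false],
    [false, true, false],
    [true, true, false],
    [false, false, true],
    [true, false, true],
    [false, true, true]]⟩,
  ⟨[true, true, true], [0, 2, 1], [0, 1, 2], [0, 1, 2],
    [[false, false, false],
    [true, false, false],
    [false, true, true],
    [true, true, true]]⟩,
  ⟨[true, true, true], [1, 0, 2], [0, 1, 2], [0, 1, 2],
    [[false, false, false],
    [true, true, false],
    [false, false, true],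
    [true, true, true]]⟩,
  ⟨[true, true, true], [0, 1, 2], [0, 2, 1], [0, 1, 2],
    [[false, false, false],
    [true, false, false],
    [false, true, false],
    [true, true, false],
    [false, false, true],
    [true, false, true]]⟩,
  ⟨[true, true, false], [1, 0, 2], [0, 1, 2], [0, 1, 2],
    [[false, false, false],
    [true, true, false]]⟩,
  ⟨[true, false, false], [0, 1, 2], [0, 1, 2], [0, 1, 2],
    [[false, false, false],
    [true, false, false]]⟩,
  ⟨[true, false, true], [2, 1, 0], [0, 1, 2], [0, 1, 2],
    [[false, false, false],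
    [true, false, true]]⟩]

/-- the trivial family -/
def G3 : Fm := ⟨[false, false, false], [0, 1, 2], [0, 1, 2], [0, 1, 2], [[false, false, false]]⟩

/-- the family for a list of pairs -/
def fm3 (S : ℕ) (l : List ℕ) : Fm := getF G3 FT3 (dig S 8 256 (rank RK3 0 l))

lemma fm3_ok (S : ℕ) (l : List ℕ) : FmOK 3 (fm3 S l) :=
  getF_ok (by decide +kernel) (by decide +kernel) _

/-- hashes of the states won at level 0 -/
def H3_0 : ℕ := 0x8208241040208001000000000000000000

/-- hashes of the states won at level 1 -/
def H3_1 : ℕ := 0x8208041040208001000000000000000000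

/-- hashes of the states won at level 2 -/
def H3_2 : ℕ := 0x208041040208000000000000000000000

/-- strategy -/
def S3_0 : ℕ := 0x6050104010203010200

/-- exchange of two colours -/
def T3_01 : ℕ := 0x120

lemma tb3_01 : TbOK 3 ps3 0 1 (dig T3_01 4 16) := by
  unfold TbOK
  decide +kernel

/-- strategy -/
def S3_1 : ℕ := 0x3010502090400080703

/-- exchange of two colours -/
def T3_02 : ℕ := 0x12

lemma tb3_02 : TbOK 3 ps3 0 2 (dig T3_02 4 16) := by
  unfold TbOK
  decide +kernel

lemma lv3_2 : Lvl 3 ps3 wt3 (bit H3_2) [] :=
  Lvl.last (a := dig AT3 3 8) (b := dig BT3 3 8) (by decide +kernel) (by decide +kernel)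

lemma lv3_1 : Lvl 3 ps3 wt3 (bit H3_1)
    [(0, 2)] :=
  Lvl.step tb3_02 (fm3_ok S3_1) lv3_2 (by decide +kernel)

lemma lv3_0 : Lvl 3 ps3 wt3 (bit H3_0)
    [(0, 1), (0, 2)] :=
  Lvl.step tb3_01 (fm3_ok S3_0) lv3_1 (by decide +kernel)

theorem univ3 : Univ 3 [(0, 1), (0, 2)] :=
  Lvl.univ lv3_0 (by decide +kernel) (by decide +kernel)
    []
    (by decide +kernel) (by decide +kernel) (by decide +kernel)

end Pool.Agent.SGM.Chk
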