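import Pool.Agent.SGM.Check

set_option autoImplicit false
set_option maxRecDepth 100000

/-! MP_fff3e1_lc: certificate for a universal word, 4 colours. -/

namespace Pool.Agent.SGM.Chk

/-- weights -/
def WT4 : ℕ := 0x139000d0170027001850253

/-- smaller colour of a pair -/
def AT4 : ℕ := 0x11040

/-- larger colour of a pair -/
def BT4 : ℕ := 0x1b691

/-- binomial coefficients -/
def RK4 : ℕ := joinL 320 [
  0x00060003000100000000000000000000000000000000000000000000000500040003000200010000,
  0x0000000000230014000a0004000100000000000000000000000000000000000000000000000f000a,
  0x460023000f00050001000000000000000000000000000000000000]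

/-- weight of a pair -/
def wt4 (x : ℕ) : ℕ := dig WT4 16 65536 x

/-- the pairs -/
def ps4 (x : ℕ) : Finset (Fin 4) :=
  Finset.univ.filter fun k => k.val = dig AT4 3 8 x ∨ k.val = dig BT4 3 8 x

/-- the families used -/
def FT4 : List Fm := [
  ⟨[false, false, false, false], [0, 1, 2, 3], [0, 1, 2, 3], [0, 1, 2, 3],
    [[false, false, false, false]]⟩,
  ⟨[true, true, true, true], [2, 3, 0, 1], [0, 1, 2, 3], [0, 1, 2, 3],
    [[false, false, false, false],
    [true, false, true, false],
    [false, true, false, true],
    [true, true, true, true]]⟩,
  ⟨[true, true, true, false], [0, 2, 1, 3], [0, 1, 2, 3], [0, 1, 2, 3],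
    [[false, false, false, false],
    [true, false, false, false],
    [false, true, true, false],
    [true, true, true, false]]⟩,
  ⟨[false, true, true, true], [0, 1, 3, 2], [0, 1, 2, 3], [0, 1, 2, 3],
    [[false, false, false, false],
    [false, true, false, false],
    [false, false, true, true],
    [false, true, true, true]]⟩,
  ⟨[true, true, false, true], [0, 3, 2, 1], [0, 1, 2, 3], [0, 1, 2, 3],
    [[false, false, false, false],
    [true, false, false, false],
    [false, true, false, true],
    [true, true, false, true]]⟩,
  ⟨[true, false, false, true], [3, 1, 2, 0], [0, 1, 2, 3], [0, 1, 2, 3],
    [[false, false, false, false],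
    [true, false, false, true]]⟩,
  ⟨[true, true, false, false], [1, 0, 2, 3], [0, 1, 2, 3], [0, 1, 2, 3],
    [[false, false, false, false],
    [true, true, false, false]]⟩,
  ⟨[true, false, true, true], [0, 1, 3, 2], [0, 1, 2, 3], [0, 1, 2, 3],
    [[false, false, false, false],
    [true, false, false, false],
    [false, false, true, true],
    [true, false, true, true]]⟩,
  ⟨[false, false, true, true], [0, 1, 3, 2], [0, 1, 2, 3], [0, 1, 2, 3],
    [[false, false, false, false],
    [false, false, true, true]]⟩,
  ⟨[true, true, true, true], [0, 1, 2, 3], [0, 1, 2, 3], [1, 3, 2, 0],
    [[true, false, false, false],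
    [false, true, false, false],
    [true, true, false, false],
    [true, false, true, false],
    [false, true, true, false],
    [true, true, true, false],
    [false, false, false, true],
    [true, false, false, true],
    [false, true, false, true],
    [false, false, true, true],
    [true, false, true, true],
    [false, true, true, true]]⟩,
  ⟨[true, false, false, false], [0, 1, 2, 3], [0, 1, 2, 3], [0, 1, 2, 3],
    [[false, false, false, false],
    [true, false, false, false]]⟩,
  ⟨[false, false, false, true], [0, 1, 2, 3], [0, 1, 2, 3], [0, 1, 2, 3],
    [[false, false, false, false],
    [false, false, false, true]]⟩,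
  ⟨[false, true, true, false], [0, 2, 1, 3], [0, 1, 2, 3], [0, 1, 2, 3],
    [[false, false, false, false],
    [false, true, true, false]]⟩,
  ⟨[false, true, true, true], [0, 1, 2, 3], [0, 1, 2, 3], [0, 2, 3, 1],
    [[false, true, false, false],
    [false, false, true, false],
    [false, true, true, false],
    [false, false, false, true],
    [false, true, false, true],
    [false, false, true, true]]⟩,
  ⟨[false, false, true, false], [0, 1, 2, 3], [0, 1, 2, 3], [0, 1, 2, 3],
    [[false, false, false, false],
    [false, false, true, false]]⟩,
  ⟨[false, true, false, false], [0, 1, 2, 3], [0, 1, 2, 3], [0, 1, 2, 3],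
    [[false, false, false, false],
    [false, true, false, false]]⟩,
  ⟨[true, true, true, false], [0, 1, 2, 3], [0, 1, 2, 3], [1, 2, 0, 3],
    [[true, false, false, false],
    [false, true, false, false],
    [true, true, false, false],
    [false, false, true, false],
    [true, false, true, false],
    [false, true, true, false]]⟩,
  ⟨[false, true, true, true], [0, 2, 1, 3], [0, 1, 2, 3], [0, 1, 2, 3],
    [[false, false, false, false],
    [false, true, true, false],
    [false, false, false, true],
    [false, true, true, true]]⟩,
  ⟨[true, true, true, false], [1, 0, 2, 3], [0, 1, 2, 3], [0, 1, 2, 3],
    [[false, false, false, false],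
    [true, true, false, false],
    [false, false, true, false],
    [true, true, true, false]]⟩,
  ⟨[true, true, true, true], [0, 1, 2, 3], [0, 1, 2, 3], [1, 2, 0, 3],
    [[true, false, false, false],
    [false, true, false, false],
    [true, true, false, false],
    [false, false, true, false],
    [true, false, true, false],
    [false, true, true, false],
    [true, false, false, true],
    [false, true, false, true],
    [true, true, false, true],
    [false, false, true, true],
    [true, false, true, true],
    [false, true, true, true]]⟩,
  ⟨[true, true, true, true], [0, 1, 2, 3], [0, 1, 2, 3], [0, 2, 3, 1],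
    [[false, true, false, false],
    [true, true, false, false],
    [false, false, true, false],
    [true, false, true, false],
    [false, true, true, false],
    [true, true, true, false],
    [false, false, false, true],
    [true, false, false, true],
    [false, true, false, true],
    [true, true, false, true],
    [false, false, true, true],
    [true, false, true, true]]⟩,
  ⟨[true, false, true, true], [2, 1, 0, 3], [0, 1, 2, 3], [0, 1, 2, 3],
    [[false, false, false, false],
    [true, false, true, false],
    [false, false, false, true],
    [true, false, true, true]]⟩,
  ⟨[true, false, true, false], [2, 1, 0, 3], [0, 1, 2, 3], [0, 1, 2, 3],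
    [[false, false, false, false],
    [true, false, true, false]]⟩,
  ⟨[false, false, true, true], [0, 1, 2, 3], [0, 1, 3, 2], [0, 1, 2, 3],
    [[false, false, false, false],
    [false, false, true, false],
    [false, false, false, true]]⟩,
  ⟨[false, true, false, true], [0, 3, 2, 1], [0, 1, 2, 3], [0, 1, 2, 3],
    [[false, false, false, false],
    [false, true, false, true]]⟩,
  ⟨[true, true, false, false], [0, 1, 2, 3], [1, 0, 2, 3], [0, 1, 2, 3],
    [[false, false, false, false],
    [true, false, false, false],
    [false, true, false, false]]⟩,
  ⟨[true, true, true, true], [3, 1, 2, 0], [0, 2, 1, 3], [0, 1, 2, 3],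
    [[false, false, false, false],
    [false, true, false, false],
    [false, false, true, false],
    [true, false, false, true],
    [true, true, false, true],
    [true, false, true, true]]⟩,
  ⟨[true, true, true, true], [3, 2, 1, 0], [0, 1, 2, 3], [0, 1, 2, 3],
    [[false, false, false, false],
    [false, true, true, false],
    [true, false, false, true],
    [true, true, true, true]]⟩,
  ⟨[true, true, true, false], [0, 1, 2, 3], [0, 2, 1, 3], [0, 1, 2, 3],
    [[false, false, false, false],
    [true, false, false, false],
    [false, true, false, false],
    [true, true, false, false],
    [false, false, true, false],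
    [true, false, true, false]]⟩,
  ⟨[true, false, true, true], [0, 1, 2, 3], [0, 1, 2, 3], [2, 1, 3, 0],
    [[true, false, false, false],
    [false, false, true, false],
    [true, false, true, false],
    [false, false, false, true],
    [true, false, false, true],
    [false, false, true, true]]⟩,
  ⟨[true, true, false, true], [0, 1, 2, 3], [0, 1, 2, 3], [1, 3, 2, 0],
    [[true, false, false, false],
    [false, true, false, false],
    [true, true, false, false],
    [false, false, false, true],
    [true, false, false, true],
    [false, true, false, true]]⟩,
  ⟨[true, true, false, true], [1, 0, 2, 3], [0, 1, 2, 3], [0, 1, 2, 3],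
    [[false, false, false, false],
    [true, true, false, false],
    [false, false, false, true],
    [true, true, false, true]]⟩,
  ⟨[true, true, false, true], [0, 1, 2, 3], [0, 3, 2, 1], [0, 1, 2, 3],
    [[false, false, false, false],
    [true, false, false, false],
    [false, true, false, false],
    [true, true, false, false],
    [false, false, false, true],
    [true, false, false, true]]⟩]

/-- the trivial family -/
def G4 : Fm := ⟨[false, false, false, false], [0, 1, 2, 3], [0, 1, 2, 3], [0, 1, 2, 3], [[false,
      false, false, false]]⟩

/-- the family for a list of pairs -/
def fm4 (S : ℕ) (l : List ℕ) : Fm := getF G4 FT4 (dig S 8 256 (rank RK4 0 l))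

lemma fm4_ok (S : ℕ) (l : List ℕ) : FmOK 4 (fm4 S l) :=
  getF_ok (by decide +kernel) (by decide +kernel) _

/-- hashes of the states won at level 0 -/
def H4_0 : ℕ := joinL 320 [
  0x00000000000000000000000000000000000000000000000000000000000000000010000000000000,
  0x04000000000000000000000000000000000000000000000000001000008000000000000100000000,
  0x01000040000000000000000000000000000000100000800004000000010000080000000000801000,
  0x04008010200400010000000010000080000400002001000008000040000080100404800020000008,
  0x0120004808100200c000140000200101000800004000028010040480202400010801004048000200,
  0x00001010200480010020000801000040800004040020200101080008404002020004108020240401,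
  0x01000008080002404000120000008000000400000000000000000400002020010101000848000242,
  0x10000000800000040000002000000100000000000000000000000000000200001]

/-- hashes of the states won at level 1 -/
def H4_1 : ℕ := joinL 320 [
  0x00000000000000000000000000000000000000000000000000000000000000000000000000000000,
  0x04000000000000000000000000000000000000000000000000001000008000000000000100000000,
  0x01000040000000000000000000000000000000100000800004000000010000080000000000801000,
  0x04008000200400000000000010000080000400002001000008000040000080100404800020000008,
  0x0120004808000200c000140000200101000800004000028000040480202400010801004048000200,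
  0x00001010200480010020000801000040800004040020200101080008404002020004108020240401,
  0x01000008080002404000120000008000000400000000000000000400002020010101000848000242,
  0x10000000800000040000002000000000000000000000000000000000000200001]

/-- hashes of the states won at level 2 -/
def H4_2 : ℕ := joinL 320 [
  0x00000000000000000000000000000000000000000000000000000000000000000010000000000000,
  0x04000000000000000000000000000000000000000000000000001000008000000000000100000000,
  0x01000040000000000000000000000000000000100000800004000000010000080000000000800000,
  0x04008010200400000000000010000080000400002001000008000040000080100404800020000008,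
  0x0120004808100200c000140000200101000800004000028000040480202400010801004048000200,
  0x00001010200480010020000801000040800004040020200101080008404002020004108020240401,
  0x01000008080002404000120000008000000400000000000000000400002020010100000848000242,
  0x10000000800000040000002000000100000000000000000000000000000200001]

/-- hashes of the states won at level 3 -/
def H4_3 : ℕ := joinL 320 [
  0x00000000000000000000000000000000000000000000000000000000000000000010000000000000,
  0x04000000000000000000000000000000000000000000000000001000008000000000000100000000,
  0x01000040000000000000000000000000000000100000800004000000010000080000000000800000,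
  0x04008000200400000000000010000080000400002001000008000040000080100404800020000008,
  0x0120004808100200c000140000000100000800000000008000040400202000010800004040000200,
  0x00001010200480010020000801000040800004040020200101080008404002020004108020240401,
  0x00000008000002400000120000008000000400000000000000000400002020010100000848000242,
  0x1]

/-- hashes of the states won at level 4 -/
def H4_4 : ℕ := joinL 320 [
  0x00000000000000000000000000000000000000000000000000000000000000000010000000000000,
  0x04000000000000000000000000000000000000000000000000001000008000000000000100000000,
  0x00000040000000000000000000000000000000100000800004000000010000080000000000800000,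
  0x04000000200400000000000010000080000400002001000008000040000080100404800020000008,
  0x01200040001002008000140000200101000800004000028000040400202000010800004040000200,
  0x00001010200080010020000801000000800004040020200101080008404002020004108020240401,
  0x01000008000002400000100000008000000000000000000000000400002020010100000848000202,
  0x10000000800000000000000000000000000000000000000000000000000200001]

/-- hashes of the states won at level 5 -/
def H4_5 : ℕ := joinL 320 [
  0x00000000000000000000000000000000000000000000000000000000000000000000000000000000,
  0x00000000000000000000000000000000000000000000000000001000000000000000000100000000,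
  0x00000040000000000000000000000000000000100000800000000000010000080000000000800000,
  0x04000000200400000000000010000080000400000001000008000040000080100404800000000008,
  0x01200040000002008000140000200100000800004000028000040400202000000800004040000200,
  0x00001010200080010020000801000000000004000020200101080000404002020004108020240401,
  0x00000008000002400000100000008000000000000000000000000000002000010100000848000202,
  0x1]

/-- hashes of the states won at level 6 -/
def H4_6 : ℕ := joinL 320 [
  0x00000000000000000000000000000000000000000000000000000000000000000000000000000000,
  0x00000000000000000000000000000000000000000000000000000000000000000000000000000000,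
  0x00000040000000000000000000000000000000100000800000000000010000080000000000000000,
  0x00000000200400000000000000000080000400000001000008000040000080100404800000000000,
  0x01200000000002000000100000000000000000000000008000040400202000000800004040000200,
  0x00001010000080010020000801000000000004000020200001080000404002020004108020240401,
  0x8000000400000100000008000000000000000000000000000002000010100000848000202]

/-- strategy -/
def S4_0 : ℕ := joinL 320 [
  0x040101010100000a0a000a0a060606000a0a06060602020202000a0a060606020202020901010109,
  0x0b0505040404010101010903030101080807070807070101090b0b05050b05050404040b05050404,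
  0x010303010108080707080707090101010303010108080707080707011b010b0b05050b0505040404,
  0x90103030101]

/-- exchange of two colours -/
def T4_12 : ℕ := 0x453201

lemma tb4_12 : TbOK 6 ps4 1 2 (dig T4_12 4 16) := by
  unfold TbOK
  decide +kernel

/-- strategy -/
def S4_1 : ℕ := joinL 320 [
  0x040101010100000a0a000a0a060606000a0a06060602020202000a0a060606020202020001090100,
  0x0b0505040404010101010003030101080807070807070101000b0b05050b05050404040b05050404,
  0x0903030101080807070807070001010103030101080807070807070101010b0b05050b0505040404,
  0x103030101]

/-- exchange of two colours -/
def T4_03 : ℕ := 0x103254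

lemma tb4_03 : TbOK 6 ps4 0 3 (dig T4_03 4 16) := by
  unfold TbOK
  decide +kernel

/-- strategy -/
def S4_2 : ℕ := joinL 320 [
  0x02000a060209010d010111011715010103010807010b050401090d09171d090b051e09000a001009,
  0x0103010807010b050401000a0a000a19060f06190f06000a0002020c02020c020e1602020c020e16,
  0x000707080709010d010111010015010b05050b05040418040418040b050409010d01011101081501,
  0x90309010d01]

/-- exchange of two colours -/
def T4_13 : ℕ := 0x240513

lemma tb4_13 : TbOK 6 ps4 1 3 (dig T4_13 4 16) := by
  unfold TbOK
  decide +kernel

/-- strategy -/
def S4_3 : ℕ := joinL 320 [
  0x02000a0610001a001a0103011707091a03010807010b0504130000001700000b050000000a000000,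
  0x1a03010807010b050413000a0a000a19060f06190f06000a001c120c1c020c020e16101c0c120e16,
  0x00151d0815000100010903010007010b05050b050404180420181f0b05040001000101031b080701,
  0xd00140014]

/-- exchange of two colours -/
def T4_02 : ℕ := 0x345012

lemma tb4_02 : TbOK 6 ps4 0 2 (dig T4_02 4 16) := by
  unfold TbOK
  decide +kernel

/-- strategy -/
def S4_4 : ℕ := joinL 320 [
  0x08010308000901010d0101110111000101030103080103080009090d090d00090d0000090d000000,
  0x02020c020c0e020c0e00090901010d0901010d0101110111000901010d0101110111000101030103,
  0x600060f0006000f00060f000f00020202020c0202020c02020c020c0e0202020c02020c020c0e]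

/-- exchange of two colours -/
def T4_23 : ℕ := 0x521430

lemma tb4_23 : TbOK 6 ps4 2 3 (dig T4_23 4 16) := by
  unfold TbOK
  decide +kernel

/-- strategy -/
def S4_5 : ℕ := joinL 320 [
  0x08130308000014140001010309030013010301030813030800000000000000000000000000000000,
  0x10120c020c0e100c0e0000001414000001010009010301030000010100011b030103001301030103,
  0x600060f0006000f00060f000f00101210120c0202020c10120c020c0e1012100c02020c100c0e]

/-- exchange of two colours -/
def T4_01 : ℕ := 0x534120

lemma tb4_01 : TbOK 6 ps4 0 1 (dig T4_01 4 16) := by
  unfold TbOK
  decide +kernel

lemma lv4_6 : Lvl 6 ps4 wt4 (bit H4_6) [] :=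
  Lvl.last (a := dig AT4 3 8) (b := dig BT4 3 8) (by decide +kernel) (by decide +kernel)

lemma lv4_5 : Lvl 6 ps4 wt4 (bit H4_5)
    [(0, 1)] :=
  Lvl.step tb4_01 (fm4_ok S4_5) lv4_6 (by decide +kernel)

lemma lv4_4 : Lvl 6 ps4 wt4 (bit H4_4)
    [(2, 3), (0, 1)] :=
  Lvl.step tb4_23 (fm4_ok S4_4) lv4_5 (by decide +kernel)

lemma lv4_3 : Lvl 6 ps4 wt4 (bit H4_3)
    [(0, 2), (2, 3), (0, 1)] :=
  Lvl.step tb4_02 (fm4_ok S4_3) lv4_4 (by decide +kernel)

lemma lv4_2 : Lvl 6 ps4 wt4 (bit H4_2)
    [(1, 3), (0, 2), (2, 3), (0, 1)] :=
  Lvl.step tb4_13 (fm4_ok S4_2) lv4_3 (by decide +kernel)

lemma lv4_1 : Lvl 6 ps4 wt4 (bit H4_1)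
    [(0, 3), (1, 3), (0, 2), (2, 3), (0, 1)] :=
  Lvl.step tb4_03 (fm4_ok S4_1) lv4_2 (by decide +kernel)

lemma lv4_0 : Lvl 6 ps4 wt4 (bit H4_0)
    [(1, 2), (0, 3), (1, 3), (0, 2), (2, 3), (0, 1)] :=
  Lvl.step tb4_12 (fm4_ok S4_0) lv4_1 (by decide +kernel)

theorem univ4 : Univ 4 [(1, 2), (0, 3), (1, 3), (0, 2), (2, 3), (0, 1)] :=
  Lvl.univ lv4_0 (by decide +kernel) (by decide +kernel)
    []
    (by decide +kernel) (by decide +kernel) (by decide +kernel)

end Pool.Agent.SGM.Chk
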