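import Pool.Agent.SGM.Targets
import Pool.Agent.SGM.U3
import Pool.Agent.SGM.U4
import Pool.Agent.SGM.U5

set_option autoImplicit false

/-! MP_fff3e1_lc, G2: universal words for 3, 4 and 5 colours. -/

namespace Pool.Agent.SGM

theorem allU3 : tU3 := ⟨_, Chk.univ3⟩

theorem allU4 : tU4 := ⟨_, Chk.univ4⟩

theorem allU5 : tU5 := ⟨_, Chk.univ5⟩

end Pool.Agent.SGM
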