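import Pool.Agent.SGM.Defs

set_option autoImplicit false

/-! MP_fff3e1_lc: parallel rounds (idea row 3398): a round is a matching of the colours, all its
pairs are played at the same time, blocks may mix pins of different pairs. -/

namespace Pool.Agent.SGM

open MeasureTheory Set Filter
open scoped ENNReal
open Pool.Agent.MEC
open Pool.Agent.MEP
open Pool.Agent.MEO

universe u

variable {ι : Type u} {Δ : ℕ}

/-- the pins of the parallel round `τ` (an involution of the colours) -/
def Pin (τ : Fin Δ → Fin Δ) (M : ι → Finset (Fin Δ)) : Set (ι × Fin Δ) :=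
  {p | p.2 ∈ M p.1 ∧ τ p.2 ∉ M p.1}

open Classical in
/-- replace `k` by `τ k` in `M κ` for all pins `(κ, k) ∈ X` -/
noncomputable def flp (τ : Fin Δ → Fin Δ) (M : ι → Finset (Fin Δ)) (X : Set (ι × Fin Δ))
    (κ : ι) : Finset (Fin Δ) :=
  (M κ).image fun k => if (κ, k) ∈ X ∧ τ k ∉ M κ then τ k else k

/-- the state `M` is won when the parallel rounds of the word are played one after the other -/
def WinP : List (Fin Δ → Fin Δ) → (ι → Finset (Fin Δ)) → Prop
  | [], M => SDR M
  | τ :: w, M => ∃ B : Blk (ι × Fin Δ), B.Sup (Pin τ M) ∧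
      ∀ X : Set (ι × Fin Δ), (∀ p, B.At X p) → WinP w (flp τ M X)

/-- a universal word of parallel rounds for `Δ` -/
def UnivP (Δ : ℕ) (w : List (Fin Δ → Fin Δ)) : Prop :=
  (∀ τ ∈ w, ∀ k, τ (τ k) = k) ∧ ∀ M : Fin Δ → Finset (Fin Δ), (∀ κ, (M κ).card = 2) →
    (∃ κ0, SDR (rm M κ0)) → WinP w M

end Pool.Agent.SGM
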