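import Pool.Agent.SGM.Targets
import Pool.Agent.SGM.DefsP

set_option autoImplicit false

/-! MP_fff3e1_lc, parallel rounds: targets.  They replace tWIN, tBLK, tFLI, tRD1, tPHS, tSGM. -/

namespace Pool.Agent.SGM

open MeasureTheory Set Filter
open scoped ENNReal
open Pool.Agent.MEC
open Pool.Agent.MEP
open Pool.Agent.MEO

universe u

/-- P0 single pairs are special parallel rounds -/
def tBRG : Prop := ∀ (Δ : ℕ) (w : List (Fin Δ × Fin Δ)), Univ Δ w →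
  UnivP Δ (w.map fun p => (Equiv.swap p.1 p.2 : Fin Δ → Fin Δ))

/-- P1 a universal word also wins with at most `Δ` sets and any index set `Fin m` -/
def tWINP : Prop := ∀ (Δ : ℕ) (w : List (Fin Δ → Fin Δ)), UnivP Δ w →
  ∀ (m : ℕ) (M : Fin m → Finset (Fin Δ)), (∀ κ, (M κ).card = 0 ∨ (M κ).card = 2) →
    {κ | (M κ).Nonempty}.ncard ≤ Δ → (∃ κ0, SDR (rm M κ0)) → WinP w M

/-- P2 the blocks chosen by all centres -/
def tBLKP : Prop := ∀ (V : Type u) [MeasurableSpace V] [StandardBorelSpace V]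
    (G : SimpleGraph V) (m Δ : ℕ) (e : PCol G m) (Z : Set V), Cen e Δ Z →
  ∀ (c : PCol (off G Z) Δ) (M : V → Fin m → Finset (Fin Δ)) (τ : Fin Δ → Fin Δ)
    (w : List (Fin Δ → Fin Δ)), LS e Z c M →
  ∃ B : Blk (V × Fin Δ), Measurable B.q ∧ Measurable B.n ∧ Measurable B.r ∧
    (∀ p, (B.q p ≠ p ∨ B.n p ≠ p ∨ B.r p ≠ p) → c.S p.2 p.1 = p.1) ∧
    ∀ t ∈ Z, WinP (τ :: w) (M t) →
      ∀ X : Set (V × Fin Δ), (∀ κ k, e.S κ t ≠ t → B.At X (e.S κ t, k)) →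
        WinP w (flp τ (M t) {p | (e.S p.1 t, p.2) ∈ X})

/-- P3 flipping a measurable set of strands -/
def tFLIP : Prop := ∀ (V : Type u) [MeasurableSpace V] [StandardBorelSpace V]
    (G : SimpleGraph V) (m Δ : ℕ) (e : PCol G m) (Z : Set V), Cen e Δ Z →
  ∀ (c : PCol (off G Z) Δ) (M : V → Fin m → Finset (Fin Δ)) (τ : Fin Δ → Fin Δ),
    (∀ k, τ (τ k) = k) → LS e Z c M → ∀ X : Set (V × Fin Δ), MeasurableSet X →
    (∀ p ∈ X, (c.S p.2 p.1, p.2) ∈ X ∧ (p.1, τ p.2) ∈ X) →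
  ∃ c' : PCol (off G Z) Δ, LS e Z c' (fun t => flp τ (M t) {p | (e.S p.1 t, p.2) ∈ X}) ∧
    ∀ x y, (∃ k, c.S k x = y) → x ≠ y → ∃ k, c'.S k x = y

/-- P4 one round -/
def tRDP : Prop := ∀ (V : Type u) [MeasurableSpace V] [StandardBorelSpace V]
    (G : SimpleGraph V) (m Δ : ℕ) (e : PCol G m) (ν : Measure V) [IsFiniteMeasure ν]
    (C : ℝ≥0∞) (Z : Set V), QInv G ν C → C ≠ ⊤ → Cen e Δ Z →
  ∀ (c : PCol (off G Z) Δ) (M : V → Fin m → Finset (Fin Δ)) (τ : Fin Δ → Fin Δ)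
    (w : List (Fin Δ → Fin Δ)), (∀ k, τ (τ k) = k) → LS e Z c M → Cov ν c →
    (∀ᵐ t ∂ν, t ∈ Z → WinP (τ :: w) (M t)) →
  ∃ (c' : PCol (off G Z) Δ) (M' : V → Fin m → Finset (Fin Δ)), LS e Z c' M' ∧ Cov ν c' ∧
    ∀ᵐ t ∂ν, t ∈ Z → WinP w (M' t)

/-- P5 one phase -/
def tPHSP : Prop := ∀ (Δ : ℕ) (w : List (Fin Δ → Fin Δ)), UnivP Δ w →
  ∀ (V : Type u) [MeasurableSpace V] [StandardBorelSpace V]
    (H G : SimpleGraph V) (m : ℕ) (e : PCol G m) (ν : Measure V) [IsFiniteMeasure ν]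
    (C : ℝ≥0∞) (Z : Set V), QInv G ν C → C ≠ ⊤ → Cen e Δ Z → 0 < m → 0 < Δ → H ≤ G →
  New H G Z → ∀ c : PCol H Δ, Cov ν c → ∃ c' : PCol G Δ, Cov ν c'

/-- P6 the reduction -/
def tSGMP : Prop := ∀ (Δ : ℕ) (w : List (Fin Δ → Fin Δ)), UnivP Δ w →
  ∀ (V : Type u) [MeasurableSpace V] [StandardBorelSpace V] (G : SimpleGraph V)
    (μ : Measure V) [IsFiniteMeasure μ],
  MeasurableSet {p : V × V | G.Adj p.1 p.2} → (∀ x, (G.neighborSet x).encard ≤ Δ) →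
  (∀ x y, G.Adj x y → (G.neighborSet x).encard < Δ ∨ (G.neighborSet y).encard < Δ) →
  ∃ c : PCol G Δ, ∀ᵐ x ∂μ, ∀ y, G.Adj x y → ∃ k, c.S k x = y

end Pool.Agent.SGM
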