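import Pool.Agent.SGM.WIN
import Pool.Agent.SGM.TargetsP

set_option autoImplicit false

/-! MP_fff3e1_lc, reduction to a finite game, parallel rounds: target `tWINP`.  A universal word
also wins when the sets are indexed by any `Fin m` and at most `Δ` of them are nonempty. -/

namespace Pool.Agent.SGM

namespace WINP_

universe u v

variable {ι : Type u} {ι' : Type v} {Δ : ℕ}

/-- `WIN_.exists_blk` without an order -/
lemma exists_blk' (f : ι → ι') (S : Set ι) (hf : Set.InjOn f S) (B' : Blk ι') :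
    ∃ B : Blk ι, (∀ x, x ∉ S → B.q x = x ∧ B.n x = x ∧ B.r x = x) ∧
      (∀ x, B'.q (f x) = f x → B.q x = x) ∧ (∀ x, B'.n (f x) = f x → B.n x = x) ∧
      (∀ x, B'.r (f x) = f x → B.r x = x) ∧
      ∀ X : Set ι, (∀ κ, B.At X κ) → ∃ X' : Set ι', (∀ y, B'.At X' y) ∧
        ∀ κ ∈ S, (f κ ∈ X' ↔ κ ∈ X) := by
  classical
  exact @WIN_.exists_blk ι ι' (linearOrderOfSTO WellOrderingRel) f S hf B'

lemma flp_nonempty (τ : Fin Δ → Fin Δ) (M : ι → Finset (Fin Δ)) (X : Set (ι × Fin Δ)) (κ : ι) :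
    (flp τ M X κ).Nonempty ↔ (M κ).Nonempty := by
  unfold flp
  exact Finset.image_nonempty

/-- monotonicity -/
lemma mono (f : ι → ι') : ∀ (w : List (Fin Δ → Fin Δ))
    (M : ι → Finset (Fin Δ)) (M' : ι' → Finset (Fin Δ)),
    Set.InjOn f {κ | (M κ).Nonempty} → (∀ κ, (M κ).Nonempty → M' (f κ) = M κ) →
    WinP w M' → WinP w M
  | [], M, M', hf, hM, h => by
    obtain ⟨φ, h1, h2⟩ := h
    refine ⟨fun κ => φ (f κ), fun κ hκ => ?_, fun κ κ' hκ hκ' h3 => ?_⟩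
    · have := h1 (f κ) (by rw [hM κ hκ]; exact hκ)
      rwa [hM κ hκ] at this
    · exact hf hκ hκ' (h2 _ _ (by rw [hM κ hκ]; exact hκ) (by rw [hM κ' hκ']; exact hκ') h3)
  | τ :: w, M, M', hf, hM, h => by
    classical
    obtain ⟨B', h1, h2⟩ := h
    obtain ⟨B, b1, b2, b3, b4, b5⟩ := exists_blk' (fun p : ι × Fin Δ => (f p.1, p.2))
      {p | (M p.1).Nonempty} (fun p hp p' hp' hh => by
        have e := Prod.mk.injEq (f p.1) p.2 (f p'.1) p'.2 ▸ hh
        exact Prod.ext (hf hp hp' e.1) e.2) B'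
    refine ⟨B, ?_, fun X hX => ?_⟩
    · intro x hx
      by_cases hS : (M x.1).Nonempty
      · have h3 : (f x.1, x.2) ∉ Pin τ M' := by
          intro h4
          refine hx ?_
          simp only [Pin, Set.mem_ofPred_eq] at h4 ⊢
          rw [hM x.1 hS] at h4
          exact h4
        obtain ⟨c1, c2, c3⟩ := h1 _ h3
        exact ⟨b2 x c1, b3 x c2, b4 x c3⟩
      · exact b1 x hS
    · obtain ⟨X', x1, x2⟩ := b5 X hX
      refine mono f w _ (flp τ M' X') ?_ ?_ (h2 X' x1)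
      · intro κ hκ κ' hκ' hh
        exact hf ((flp_nonempty _ _ _ _).1 hκ) ((flp_nonempty _ _ _ _).1 hκ') hh
      · intro κ hκ
        have h3 : (M κ).Nonempty := (flp_nonempty _ _ _ _).1 hκ
        unfold flp
        rw [hM κ h3]
        refine Finset.image_congr fun k _ => ?_
        have h4 : ((f κ, k) ∈ X' ↔ (κ, k) ∈ X) := x2 (κ, k) h3
        simp only [h4]

/-- only empty sets -/
lemma win_empty : ∀ (w : List (Fin Δ → Fin Δ)) (M : ι → Finset (Fin Δ)), ι → (ι → Fin Δ) →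
    (∀ κ, ¬ (M κ).Nonempty) → WinP w M
  | [], _, _, φ, h => ⟨φ, fun κ hκ => absurd hκ (h κ), fun κ _ hκ => absurd hκ (h κ)⟩
  | τ :: w, M, κ0, φ, h => by
    refine ⟨⟨id, id, id, fun _ => rfl, fun _ => rfl, fun _ => rfl, fun _ _ => rfl,
      fun _ _ => rfl, fun _ _ => rfl⟩, fun _ _ => ⟨rfl, rfl, rfl⟩, fun X _ => ?_⟩
    exact win_empty w _ κ0 φ fun κ hκ => h κ ((flp_nonempty _ _ _ _).1 hκ)

/-- embedding into a family of `Δ` sets with two elements -/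
lemma embed {m : ℕ} (hΔ : 2 ≤ Δ) (M : Fin m → Finset (Fin Δ))
    (hM : ∀ κ, (M κ).card = 0 ∨ (M κ).card = 2) (hc : {κ | (M κ).Nonempty}.ncard ≤ Δ)
    (hS : ∃ κ0, SDR (rm M κ0)) : ∃ (f : Fin m → Fin Δ) (M' : Fin Δ → Finset (Fin Δ)),
      Set.InjOn f {κ | (M κ).Nonempty} ∧ (∀ κ, (M κ).Nonempty → M' (f κ) = M κ) ∧
      (∀ c, (M' c).card = 2) ∧ ∃ c0, SDR (rm M' c0) := by
  classical
  obtain ⟨κ0, φ, h1, h2⟩ := hS
  have : Nontrivial (Fin Δ) := Fin.nontrivial_iff_two_le.2 hΔ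
  set S : Set (Fin m) := {κ | (M κ).Nonempty} with hSdef
  have hrm : ∀ κ ∈ S, κ ≠ κ0 → (rm M κ0 κ) = M κ := fun κ _ h => if_neg h
  have hφ1 : ∀ κ ∈ S, κ ≠ κ0 → φ κ ∈ M κ := fun κ hκ h => by
    have := h1 κ (by rw [hrm κ hκ h]; exact hκ)
    rwa [hrm κ hκ h] at this
  have hφ2 : ∀ κ ∈ S, κ ≠ κ0 → ∀ κ' ∈ S, κ' ≠ κ0 → φ κ = φ κ' → κ = κ' :=
    fun κ hκ h κ' hκ' h' hh => h2 κ κ' (by rw [hrm κ hκ h]; exact hκ)
      (by rw [hrm κ' hκ' h']; exact hκ') hh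
  obtain ⟨c0, hc0⟩ : ∃ c0 : Fin Δ, κ0 ∈ S → ∀ κ ∈ S, κ ≠ κ0 → φ κ ≠ c0 := by
    by_cases h0 : κ0 ∈ S
    · have h3 : (S \ {κ0}).ncard < S.ncard := Set.ncard_sdiff_singleton_lt_of_mem h0
      have h4 : (φ '' (S \ {κ0})).ncard ≤ (S \ {κ0}).ncard := Set.ncard_image_le
      have h5 : φ '' (S \ {κ0}) ≠ Set.univ := by
        intro h
        rw [h, Set.ncard_univ, Nat.card_eq_fintype_card, Fintype.card_fin] at h4
        omega
      obtain ⟨c0, hc0⟩ := (Set.ne_univ_iff_exists_notMem _).1 h5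
      exact ⟨c0, fun _ κ hκ h h' => hc0 ⟨κ, ⟨hκ, h⟩, h'⟩⟩
    · exact ⟨⟨0, by omega⟩, fun h => absurd h h0⟩
  set f : Fin m → Fin Δ := fun κ => if κ = κ0 then c0 else φ κ with hfdef
  have f0 : f κ0 = c0 := if_pos rfl
  have f1 : ∀ κ, κ ≠ κ0 → f κ = φ κ := fun κ h => if_neg h
  have hinj : Set.InjOn f S := by
    intro κ hκ κ' hκ' hh
    by_cases e1 : κ = κ0
    · by_cases e2 : κ' = κ0
      · rw [e1, e2]
      · rw [e1, f0, f1 κ' e2] at hh
        exact absurd hh.symm (hc0 (e1 ▸ hκ) κ' hκ' e2)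
    · by_cases e2 : κ' = κ0
      · rw [e2, f0, f1 κ e1] at hh
        exact absurd hh (hc0 (e2 ▸ hκ') κ hκ e1)
      · rw [f1 κ e1, f1 κ' e2] at hh
        exact hφ2 κ hκ e1 κ' hκ' e2 hh
  choose oth hoth using fun c : Fin Δ => exists_ne c
  set M' : Fin Δ → Finset (Fin Δ) := fun c =>
    if h : ∃ κ, κ ∈ S ∧ f κ = c then M h.choose else {c, oth c} with hM'
  have hM'1 : ∀ κ ∈ S, M' (f κ) = M κ := by
    intro κ hκ
    have h : ∃ κ', κ' ∈ S ∧ f κ' = f κ := ⟨κ, hκ, rfl⟩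
    have h3 : M' (f κ) = M h.choose := by simp only [hM']; rw [dif_pos h]
    rw [h3, hinj h.choose_spec.1 hκ h.choose_spec.2]
  have hM'2 : ∀ c, (¬ ∃ κ, κ ∈ S ∧ f κ = c) → M' c = {c, oth c} := by
    intro c hc
    simp only [hM']
    rw [dif_neg hc]
  refine ⟨f, M', hinj, fun κ hκ => hM'1 κ hκ, ?_, c0, id, ?_, fun c c' _ _ h => h⟩
  · intro c
    by_cases h : ∃ κ, κ ∈ S ∧ f κ = c
    · obtain ⟨κ, hκ, rfl⟩ := h
      rw [hM'1 κ hκ]
      rcases hM κ with h | h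
      · have h5 : (M κ).Nonempty := hκ
        rw [Finset.card_eq_zero.1 h] at h5
        exact absurd h5 Finset.not_nonempty_empty
      · exact h
    · rw [hM'2 c h]
      exact Finset.card_pair (hoth c).symm
  · intro c hcn
    by_cases e : c = c0
    · rw [e, rm, if_pos rfl] at hcn
      exact absurd hcn Finset.not_nonempty_empty
    · have hr : rm M' c0 c = M' c := if_neg e
      rw [hr]
      by_cases h : ∃ κ, κ ∈ S ∧ f κ = c
      · obtain ⟨κ, hκ, rfl⟩ := h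
        rw [hM'1 κ hκ]
        have e1 : κ ≠ κ0 := by
          rintro rfl
          exact e f0
        show f κ ∈ M κ
        rw [f1 κ e1]
        exact hφ1 κ hκ e1
      · rw [hM'2 c h]
        exact Finset.mem_insert_self _ _

end WINP_

open WINP_ in
theorem allWINP : tWINP := by
  intro Δ w hw m M hM hc hS
  rcases Nat.lt_or_ge Δ 2 with hΔ | hΔ
  · obtain ⟨κ0, φ, -, -⟩ := hS
    have he : ∀ κ, ¬ (M κ).Nonempty := by
      intro κ hκ
      rcases hM κ with h | h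
      · rw [Finset.card_eq_zero.1 h] at hκ
        exact Finset.not_nonempty_empty hκ
      · have := Finset.card_le_univ (M κ)
        rw [h, Fintype.card_fin] at this
        omega
    exact win_empty w M κ0 φ he
  · obtain ⟨f, M', h1, h2, h3, h4⟩ := embed hΔ M hM hc hS
    exact mono f w M M' h1 h2 (hw.2 M' h3 h4)

end Pool.Agent.SGM
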