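import Pool.Agent.SGM.OWN
import Pool.Agent.SGM.LBL
import Pool.Agent.SGM.PAR
import Pool.Agent.SGM.CSP
import Pool.Agent.SGM.BLKP
import Pool.Agent.SGM.FLIP
import Pool.Agent.SGM.RDP
import Pool.Agent.SGM.INI
import Pool.Agent.SGM.FIN
import Pool.Agent.SGM.WINP
import Pool.Agent.SGM.BRG
import Pool.Agent.SGM.PHSP
import Pool.Agent.SGM.SEQ
import Pool.Agent.SGM.SGMP
import Pool.Agent.SGM.USM

set_option autoImplicit false

/-! MP_fff3e1_lc, all graphs, every Borel probability measure: a universal word for `Δ` gives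
Q1 for `Δ`; this is the case for `Δ ≤ 5`. -/

namespace Pool.Agent.SGM

open MeasureTheory Set Filter
open scoped ENNReal
open Pool.Agent.MEC
open Pool.Agent.MEP
open Pool.Agent.MEO

universe u

theorem fin_CSP : tCSP.{u} := allCSP allOWN allLBL allPAR
theorem fin_RDP : tRDP.{u} := allRDP fin_CSP allBLKP allFLIP
theorem fin_FIN : tFIN.{u} := allFIN
theorem fin_PHSP : tPHSP.{u} := allPHSP allWINP allINI fin_RDP fin_FIN
/-- a universal word of parallel rounds for `Δ` gives the theorem for `Δ` -/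
theorem fin_SGMP : tSGMP.{u} := allSGMP fin_PHSP allSEQ

/-- for `Δ ≤ 5` there is a universal word -/
theorem univP_le_five (Δ : ℕ) (h : Δ ≤ 5) : ∃ w, UnivP Δ w := by
  rcases (by omega : Δ = 0 ∨ Δ = 1 ∨ Δ = 2 ∨ Δ = 3 ∨ Δ = 4 ∨ Δ = 5) with
    h | h | h | h | h | h <;> subst h
  · exact ⟨[], by simp, fun M _ ⟨κ0, _⟩ => κ0.elim0⟩
  · refine ⟨[], by simp, fun M hM _ => ?_⟩
    have h1 := hM 0
    have h2 := Finset.card_le_univ (M 0)
    rw [Fintype.card_fin] at h2
    omega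
  · refine ⟨[], by simp, fun M hM _ => ⟨id, fun κ _ => ?_, fun κ κ' _ _ h => h⟩⟩
    have h1 : M κ = Finset.univ := by
      apply Finset.eq_univ_of_card
      rw [hM κ, Fintype.card_fin]
    rw [h1]
    exact Finset.mem_univ _
  · obtain ⟨w, hw⟩ := allU3
    exact ⟨_, allBRG 3 w hw⟩
  · obtain ⟨w, hw⟩ := allU4
    exact ⟨_, allBRG 4 w hw⟩
  · obtain ⟨w, hw⟩ := allU5
    exact ⟨_, allBRG 5 w hw⟩

end Pool.Agent.SGM
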