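import Pool.Agent.SGM.Defs

set_option autoImplicit false

/-! MP_fff3e1_lc: a checker for universal words, by backward induction over all states, with
the winning states of each level given by a hash table and the strategy given by a hint. -/

namespace Pool.Agent.SGM

universe u v

namespace Chk

section perm

variable {E : Type u} {E' : Type v} {Δ : ℕ}

/-- relabelling the slots of the blocks -/
def tr (g : E' ≃ E) (B : Blk E) : Blk E' where
  q := fun x => g.symm (B.q (g x))
  n := fun x => g.symm (B.n (g x))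
  r := fun x => g.symm (B.r (g x))
  q2 := fun x => by simp [B.q2]
  n2 := fun x => by simp [B.n2]
  r3 := fun x => by simp [B.r3]
  qn := fun x hx => by
    have h := B.qn (g x) (fun h => hx (by simp [h]))
    simp [h]
  qr := fun x hx => by
    have h := B.qr (g x) (fun h => hx (by simp [h]))
    simp [h]
  nr := fun x hx => by
    have h := B.nr (g x) (fun h => hx (by simp [h]))
    simp [h]

lemma tr_at (g : E' ≃ E) (B : Blk E) (X : Set E') (x : E) :
    (tr g B).At X (g.symm x) ↔ B.At (g.symm ⁻¹' X) x := by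
  unfold Blk.At tr
  simp only [Equiv.apply_symm_apply, Set.mem_preimage, ne_eq, EmbeddingLike.apply_eq_iff_eq]

/-- a bijection of the slots does not change the game -/
lemma win_comp (g : E' ≃ E) {w : List (Fin Δ × Fin Δ)} {M : E → Finset (Fin Δ)}
    (h : Win w M) : Win w (M ∘ g) := by
  induction w generalizing M with
  | nil =>
    obtain ⟨σ, h1, h2⟩ := h
    exact ⟨σ ∘ g, fun k hk => h1 (g k) hk, fun k k' hk hk' h3 =>
      g.injective (h2 _ _ hk hk' h3)⟩
  | cons p w ih =>
    obtain ⟨B, h1, h3⟩ := h
    refine ⟨tr g B, ?_, ?_⟩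
    · intro x hx
      obtain ⟨g1, g2, g3⟩ := h1 (g x) hx
      simp [tr, g1, g2, g3]
    · intro X hX
      have h4 : Win w (fl p.1 p.2 M (g.symm ⁻¹' X)) := by
        refine h3 _ fun x => ?_
        rw [← tr_at]
        exact hX _
      have h5 := ih h4
      convert h5 using 1
      funext k
      unfold fl
      have h6 : g k ∈ g.symm ⁻¹' X ↔ k ∈ X := by simp
      by_cases hk : k ∈ X
      · rw [if_pos hk]
        exact (if_pos (h6.2 hk)).symm
      · rw [if_neg hk]
        exact (if_neg (fun h7 => hk (h6.1 h7))).symm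

lemma win_of_comp (g : E' ≃ E) {w : List (Fin Δ × Fin Δ)} {M : E → Finset (Fin Δ)}
    (h : Win w (M ∘ g)) : Win w M := by
  have h1 := win_comp g.symm h
  have h2 : (M ∘ g) ∘ g.symm = M := by
    funext k
    simp
  rwa [h2] at h1

end perm

/-! ### Enumeration of the sorted lists -/

/-- `[n - 1, .., 0]` -/
def down : ℕ → List ℕ
  | 0 => []
  | n + 1 => n :: down n

/-- try all heads of `cs` -/
def msAux (g : List ℕ → List ℕ → Bool) : List ℕ → List ℕ → Bool
  | [], _ => true
  | c :: cs, acc => bif g (c :: cs) (c :: acc) then msAux g cs acc else false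

/-- check all lists `l ++ acc` where `l` is increasing of length `n`, with entries in `cs` -/
def ms (leaf : List ℕ → Bool) : ℕ → List ℕ → List ℕ → Bool
  | 0 => fun _ acc => leaf acc
  | n + 1 => msAux (ms leaf n)

lemma msAux_down {g : List ℕ → List ℕ → Bool} {m : ℕ} {acc : List ℕ}
    (h : msAux g (down m) acc = true) {c : ℕ} (hc : c < m) :
    g (down (c + 1)) (c :: acc) = true := by
  induction m with
  | zero => omega
  | succ m ih =>
    unfold down msAux at h
    rw [Bool.cond_false_right, Bool.and_eq_true] at h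
    rcases Nat.lt_succ_iff_lt_or_eq.1 hc with h1 | h1
    · exact ih h.2 h1
    · subst h1
      exact h.1

lemma ms_down {leaf : List ℕ → Bool} {n m : ℕ} {acc : List ℕ}
    (h : ms leaf n (down m) acc = true) {l : List ℕ} (hl : l.length = n)
    (hs : l.Pairwise (· ≤ ·)) (hm : ∀ x ∈ l, x < m) : leaf (l ++ acc) = true := by
  induction n generalizing m acc l with
  | zero =>
    rw [List.length_eq_zero_iff] at hl
    subst hl
    exact h
  | succ n ih =>
    rcases List.eq_nil_or_concat l with h1 | ⟨l', c, h1⟩
    · rw [h1] at hl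
      simp at hl
    · rw [List.concat_eq_append] at h1
      subst h1
      have h2 : (l' ++ [c]) ++ acc = l' ++ (c :: acc) := by simp
      rw [h2]
      have hc : c < m := hm c (by simp)
      refine ih (msAux_down h hc) ?_ ?_ ?_
      · simpa using hl
      · exact (List.pairwise_append.1 hs).1
      · intro x hx
        have := (List.pairwise_append.1 hs).2.2 x hx c (by simp)
        omega

/-! ### The checker -/

/-- a family of blocks, the ends, and all values which satisfy the blocks -/
structure Fm where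
  mask : List Bool
  q : List ℕ
  n : List ℕ
  r : List ℕ
  sats : List (List Bool)

/-- hash of a list of pairs -/
def sumw (wt : ℕ → ℕ) : List ℕ → ℕ
  | [] => 0
  | x :: l => Nat.add (wt x) (sumw wt l)

/-- hash after a flip -/
def sumv (wt tb : ℕ → ℕ) : List Bool → List ℕ → ℕ
  | b :: v, x :: l => Nat.add (bif b then wt (tb x) else wt x) (sumv wt tb v l)
  | _, _ => 0

/-- which slots are ends -/
def maskL (tb : ℕ → ℕ) : List ℕ → List Bool
  | [] => []
  | x :: l => (bif Nat.beq (tb x) x then false else true) :: maskL tb l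

/-- equality of Boolean lists -/
def beqL : List Bool → List Bool → Bool
  | [], [] => true
  | a :: v, b :: w => bif (bif a then b else (bif b then false else true)) then beqL v w else false
  | _, _ => false

lemma beqL_eq {v w : List Bool} (h : beqL v w = true) : v = w := by
  induction v generalizing w with
  | nil => cases w <;> simp_all [beqL]
  | cons a v ih =>
    cases w with
    | nil => simp [beqL] at h
    | cons b w =>
      unfold beqL at h
      rw [Bool.cond_false_right, Bool.and_eq_true] at h
      rw [ih h.2]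
      cases a <;> cases b <;> simp_all

/-- all entries satisfy the test -/
def allL {α : Type u} (p : α → Bool) : List α → Bool
  | [] => true
  | a :: l => bif p a then allL p l else false

lemma allL_mem {α : Type u} {p : α → Bool} {l : List α} (h : allL p l = true) {a : α}
    (ha : a ∈ l) : p a = true := by
  induction l with
  | nil => simp at ha
  | cons b l ih =>
    unfold allL at h
    rw [Bool.cond_false_right, Bool.and_eq_true] at h
    rcases List.mem_cons.1 ha with h1 | h1
    · rw [h1]
      exact h.1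
    · exact ih h.2 h1

/-- some entry is equal to `v` -/
def anyL (v : List Bool) : List (List Bool) → Bool
  | [] => false
  | a :: l => bif beqL v a then true else anyL v l

lemma anyL_mem {v : List Bool} {l : List (List Bool)} (h : anyL v l = true) : v ∈ l := by
  induction l with
  | nil => simp [anyL] at h
  | cons b l ih =>
    unfold anyL at h
    rw [Bool.cond_true_left, Bool.or_eq_true] at h
    rcases h with h | h
    · rw [beqL_eq h]
      exact List.mem_cons_self
    · exact List.mem_cons_of_mem _ (ih h)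

/-- the check of one state: `h0`, `h1` are the hash tables of the winning states before and
after the round, `fm` is the strategy -/
def leafB (wt tb : ℕ → ℕ) (h0 h1 : ℕ → Bool) (fm : List ℕ → Fm) (l : List ℕ) :
    Bool :=
  bif h0 (sumw wt l) then
    bif beqL (maskL tb l) (fm l).mask then allL (fun v => h1 (sumv wt tb v l)) (fm l).sats
    else false
  else true

/-- the family is correct -/
def FmOK (Δ : ℕ) (F : Fm) : Prop :=
  ∃ B : Blk (Fin Δ), (∀ k : Fin Δ, F.mask[k.val]? ≠ some true → B.q k = k ∧ B.n k = k ∧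
    B.r k = k) ∧ ∀ s : Fin Δ → Bool, (∀ k, B.At {x | s x = true} k) →
      (List.ofFn fun k : Fin Δ => s k && (F.mask[k.val]?).getD false) ∈ F.sats

variable {Δ : ℕ}

lemma sumw_ofFn (wt : ℕ → ℕ) {n : ℕ} (f : Fin n → ℕ) :
    sumw wt (List.ofFn f) = ∑ k, wt (f k) := by
  induction n with
  | zero => simp [sumw]
  | succ n ih =>
    rw [List.ofFn_succ, Fin.sum_univ_succ]
    unfold sumw
    rw [ih]
    rfl

lemma sumv_ofFn (wt tb : ℕ → ℕ) {n : ℕ} (v : Fin n → Bool) (f : Fin n → ℕ) :
    sumv wt tb (List.ofFn v) (List.ofFn f) = ∑ k, wt (if v k = true then tb (f k) else f k) := by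
  induction n with
  | zero => simp [sumv]
  | succ n ih =>
    rw [List.ofFn_succ, List.ofFn_succ, Fin.sum_univ_succ]
    unfold sumv
    rw [ih]
    cases v 0 <;> rfl

lemma maskL_ofFn (tb : ℕ → ℕ) {n : ℕ} (f : Fin n → ℕ) (k : Fin n) :
    (maskL tb (List.ofFn f))[k.val]? = some (!(Nat.beq (tb (f k)) (f k))) := by
  induction n with
  | zero => exact k.elim0
  | succ n ih =>
    rw [List.ofFn_succ]
    unfold maskL
    refine Fin.cases ?_ (fun k => ?_) k
    · simp only [Fin.val_zero, List.getElem?_cons_zero]
      cases Nat.beq (tb (f 0)) (f 0) <;> rfl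
    · simp only [Fin.val_succ, List.getElem?_cons_succ]
      exact ih (fun k => f k.succ) k

/-- the tables of a round are correct -/
def TbOK (P : ℕ) (ps : ℕ → Finset (Fin Δ)) (i j : Fin Δ) (tb : ℕ → ℕ) : Prop :=
  ∀ x < P, tb x < P ∧ (ps x).map (Equiv.swap i j).toEmbedding = ps (tb x) ∧
    (tb x ≠ x → ¬ (i ∈ ps x ↔ j ∈ ps x))

/-- all states with the hash value in `h` are won -/
def Lvl (P : ℕ) (ps : ℕ → Finset (Fin Δ)) (wt : ℕ → ℕ) (h : ℕ → Bool)
    (w : List (Fin Δ × Fin Δ)) : Prop :=
  ∀ f : Fin Δ → ℕ, (∀ k, f k < P) → h (∑ k, wt (f k)) = true → Win w (ps ∘ f)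

lemma sorted_ofFn {n : ℕ} {f : Fin n → ℕ} (h : Monotone f) :
    (List.ofFn f).Pairwise (· ≤ ·) := by
  rw [List.pairwise_ofFn]
  intro i j hij
  exact h hij.le

/-- reduction to increasing states -/
lemma Lvl.of_mono {P : ℕ} {ps : ℕ → Finset (Fin Δ)} {wt : ℕ → ℕ} {h : ℕ → Bool}
    {w : List (Fin Δ × Fin Δ)}
    (H : ∀ f : Fin Δ → ℕ, Monotone f → (∀ k, f k < P) → h (∑ k, wt (f k)) = true →
      Win w (ps ∘ f)) : Lvl P ps wt h w := by
  intro f hf hh
  refine win_of_comp (Tuple.sort f) ?_
  refine H (f ∘ Tuple.sort f) (Tuple.monotone_sort f) (fun k => hf _) ?_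
  have h1 : ∑ k, wt ((f ∘ Tuple.sort f) k) = ∑ k, wt (f k) :=
    Equiv.sum_comp (Tuple.sort f) fun k => wt (f k)
  rw [h1]
  exact hh

lemma nbeq_iff {a b : ℕ} : Nat.beq a b = true ↔ a = b :=
  ⟨Nat.eq_of_beq_eq_true, fun h => by rw [h]; exact Nat.beq_refl b⟩

lemma nbeq_false {a b : ℕ} (h : a ≠ b) : Nat.beq a b = false := by
  rw [← Bool.not_eq_true, nbeq_iff]
  exact h

/-- one round -/
theorem Lvl.step {P : ℕ} {ps : ℕ → Finset (Fin Δ)} {wt tb : ℕ → ℕ} {h0 h1 : ℕ → Bool}
    {i j : Fin Δ} {w : List (Fin Δ × Fin Δ)} {fm : List ℕ → Fm}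
    (htb : TbOK P ps i j tb) (hfm : ∀ l, FmOK Δ (fm l)) (H : Lvl P ps wt h1 w)
    (hc : ms (leafB wt tb h0 h1 fm) Δ (down P) [] = true) :
    Lvl P ps wt h0 ((i, j) :: w) := by
  classical
  refine Lvl.of_mono fun f hmono hf hh => ?_
  have h2 := ms_down hc (l := List.ofFn f) (by simp) (sorted_ofFn hmono)
    (by
      intro x hx
      obtain ⟨k, rfl⟩ := (List.mem_ofFn' f x).1 hx
      exact hf k)
  rw [List.append_nil] at h2
  unfold leafB at h2
  rw [sumw_ofFn, hh, cond_true, Bool.cond_false_right, Bool.and_eq_true] at h2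
  obtain ⟨h3, h4⟩ := h2
  have h5 := beqL_eq h3
  obtain ⟨B, g2, g3⟩ := hfm (List.ofFn f)
  have hm : ∀ k : Fin Δ, (fm (List.ofFn f)).mask[k.val]? = some (!(Nat.beq (tb (f k)) (f k))) := by
    intro k
    rw [← h5]
    exact maskL_ofFn tb f k
  refine ⟨B, ?_, ?_⟩
  · intro k hk
    refine g2 k ?_
    rw [hm k]
    intro h6
    apply hk
    refine (htb (f k) (hf k)).2.2 ?_
    intro h7
    rw [h7, Nat.beq_refl] at h6
    simp at h6
  · intro X hs
    have h6 := allL_mem h4 (g3 (fun k => decide (k ∈ X)) (by
      intro k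
      convert hs k using 2
      ext x
      simp))
    simp only [hm, Option.getD_some] at h6
    rw [sumv_ofFn] at h6
    have h7 := H (fun k => if (decide (k ∈ X) && !(Nat.beq (tb (f k)) (f k))) = true then
        tb (f k) else f k)
      (by
        intro k
        split_ifs
        · exact (htb (f k) (hf k)).1
        · exact hf k) h6
    convert h7 using 1
    funext k
    unfold fl
    simp only [Function.comp]
    by_cases hsk : k ∈ X
    · rw [if_pos hsk, decide_eq_true hsk, Bool.true_and, (htb (f k) (hf k)).2.1]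
      by_cases hb : tb (f k) = f k
      · rw [hb]
        simp
      · rw [nbeq_false hb]
        simp
    · rw [if_neg hsk, decide_eq_false hsk]
      simp

/-! ### Representatives -/

/-- find different representatives of the pairs -/
def sdrB (a b : ℕ → ℕ) : List ℕ → List ℕ → Bool
  | [], _ => true
  | x :: l, u =>
    bif (bif u.contains (a x) then false else sdrB a b l (a x :: u)) then true else
      (bif u.contains (b x) then false else sdrB a b l (b x :: u))

lemma sdrB_spec {a b : ℕ → ℕ} {n : ℕ} {f : Fin n → ℕ} {u : List ℕ}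
    (h : sdrB a b (List.ofFn f) u = true) :
    ∃ σ : Fin n → ℕ, Function.Injective σ ∧ (∀ k, σ k = a (f k) ∨ σ k = b (f k)) ∧
      ∀ k, σ k ∉ u := by
  induction n generalizing u with
  | zero => exact ⟨fun k => k.elim0, fun k => k.elim0, fun k => k.elim0, fun k => k.elim0⟩
  | succ n ih =>
    rw [List.ofFn_succ] at h
    unfold sdrB at h
    have key : ∀ y : ℕ, (y = a (f 0) ∨ y = b (f 0)) → (bif u.contains y then false else
        sdrB a b (List.ofFn fun k : Fin n => f k.succ) (y :: u)) = true →
        ∃ σ : Fin (n + 1) → ℕ, Function.Injective σ ∧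
          (∀ k, σ k = a (f k) ∨ σ k = b (f k)) ∧ ∀ k, σ k ∉ u := by
      intro y hy hh
      rw [Bool.cond_false_left, Bool.and_eq_true] at hh
      obtain ⟨h1, h2⟩ := hh
      obtain ⟨σ, g1, g2, g3⟩ := ih h2
      have h3 : y ∉ u := by
        intro h'
        rw [← List.contains_iff_mem] at h'
        rw [h'] at h1
        exact absurd h1 (by decide)
      refine ⟨Fin.cons y σ, ?_, ?_, ?_⟩
      · rw [Fin.cons_injective_iff]
        refine ⟨?_, g1⟩
        rintro ⟨k, hk⟩
        exact g3 k (by rw [hk]; simp)
      · intro k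
        refine Fin.cases ?_ (fun k => ?_) k
        · rw [Fin.cons_zero]
          exact hy
        · rw [Fin.cons_succ]
          exact g2 k
      · intro k
        refine Fin.cases ?_ (fun k => ?_) k
        · rw [Fin.cons_zero]
          exact h3
        · rw [Fin.cons_succ]
          exact fun h' => g3 k (List.mem_cons_of_mem _ h')
    rw [Bool.cond_true_left, Bool.or_eq_true] at h
    rcases h with h | h
    · exact key _ (Or.inl rfl) h
    · exact key _ (Or.inr rfl) h

/-- the last level -/
theorem Lvl.last {P : ℕ} {ps : ℕ → Finset (Fin Δ)} {wt a b : ℕ → ℕ} {h : ℕ → Bool}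
    (hab : ∀ x < P, ∃ y ∈ ps x, ∃ z ∈ ps x, a x = y.val ∧ b x = z.val)
    (hc : ms (fun l => bif h (sumw wt l) then sdrB a b l [] else true) Δ (down P) [] = true) :
    Lvl P ps wt h [] := by
  refine Lvl.of_mono fun f hmono hf hh => ?_
  have h2 := ms_down hc (l := List.ofFn f) (by simp) (sorted_ofFn hmono)
    (by
      intro x hx
      obtain ⟨k, rfl⟩ := (List.mem_ofFn' f x).1 hx
      exact hf k)
  rw [List.append_nil, sumw_ofFn, hh, cond_true] at h2
  obtain ⟨σ, h3, h4, -⟩ := sdrB_spec h2
  have h5 : ∀ k, ∃ y ∈ ps (f k), σ k = y.val := by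
    intro k
    obtain ⟨y, hy, z, hz, h6, h7⟩ := hab (f k) (hf k)
    rcases h4 k with h8 | h8
    · exact ⟨y, hy, h8.trans h6⟩
    · exact ⟨z, hz, h8.trans h7⟩
  choose τ hτ1 hτ2 using h5
  refine ⟨τ, fun k _ => hτ1 k, ?_⟩
  intro k k' _ _ hk
  apply h3
  rw [hτ2 k, hτ2 k', hk]

/-! ### The initial states -/

/-- too many pairs inside a set of colours: there are no representatives of all pairs but one;
`inn` lists the pairs inside the set, the second argument is the number of colours plus one -/
def overB (inn : List ℕ) : List ℕ → ℕ → Bool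
  | [], _ => false
  | x :: l, n => bif inn.contains x then (bif Nat.beq n 0 then true else overB inn l (n - 1))
      else overB inn l n

lemma overB_spec {inn l : List ℕ} {n : ℕ} (h : overB inn l n = true) :
    n + 1 ≤ (l.filter fun x => inn.contains x).length := by
  induction l generalizing n with
  | nil => simp [overB] at h
  | cons x l ih =>
    unfold overB at h
    by_cases hx : inn.contains x = true
    · rw [hx, cond_true] at h
      rw [List.filter_cons_of_pos (p := fun x => inn.contains x) hx, List.length_cons]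
      by_cases hn : n = 0
      · omega
      · rw [nbeq_false hn, cond_false] at h
        have := ih h
        omega
    · rw [Bool.not_eq_true] at hx
      rw [hx, cond_false] at h
      rw [List.filter_cons_of_neg (p := fun x => inn.contains x) (by rw [hx]; decide)]
      exact ih h

/-- the list of pairs is covered by some witness in the table -/
def badB (T : List (List ℕ × ℕ)) (l : List ℕ) : Bool :=
  match T with
  | [] => false
  | t :: T => bif overB t.1 l (t.2 + 1) then true else badB T l

/-- the initial level: every state which has representatives for all pairs but one is in `h` -/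
theorem Lvl.univ {P : ℕ} {ps : ℕ → Finset (Fin Δ)} {wt : ℕ → ℕ} {h : ℕ → Bool}
    {w : List (Fin Δ × Fin Δ)} (H : Lvl P ps wt h w) (hw : ∀ p ∈ w, p.1 ≠ p.2)
    (hps : ∀ A : Finset (Fin Δ), A.card = 2 → ∃ x < P, ps x = A)
    (T : List (List ℕ × ℕ))
    (hT : ∀ t ∈ T, ∃ S : Finset (Fin Δ), S.card ≤ t.2 ∧ ∀ x ∈ t.1, ps x ⊆ S)
    (hne : ∀ x < P, (ps x).Nonempty)
    (hc : ms (fun l => bif h (sumw wt l) then true else badB T l) Δ (down P) [] = true) :
    Univ Δ w := by
  classical
  refine ⟨hw, ?_⟩
  rintro M h1 h2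
  choose f hf1 hf2 using fun k => hps (M k) (h1 k)
  have h3 : ps ∘ f = M := funext hf2
  rw [← h3]
  refine H f hf1 ?_
  by_contra hh
  rw [Bool.not_eq_true] at hh
  have h4 := ms_down hc (l := List.ofFn (f ∘ Tuple.sort f)) (by simp)
    (sorted_ofFn (Tuple.monotone_sort f))
    (by
      intro x hx
      obtain ⟨k, rfl⟩ := (List.mem_ofFn' _ x).1 hx
      exact hf1 _)
  have h5 : ∑ k, wt ((f ∘ Tuple.sort f) k) = ∑ k, wt (f k) :=
    Equiv.sum_comp (Tuple.sort f) fun k => wt (f k)
  rw [List.append_nil, sumw_ofFn, h5, hh, cond_false] at h4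
  have key : ∃ t ∈ T, overB t.1 (List.ofFn (f ∘ Tuple.sort f)) (t.2 + 1) = true := by
    clear hT hc
    induction T with
    | nil => simp [badB] at h4
    | cons t T ih =>
      unfold badB at h4
      rw [Bool.cond_true_left, Bool.or_eq_true] at h4
      rcases h4 with h4 | h4
      · exact ⟨t, by simp, h4⟩
      · obtain ⟨t', h6, h7⟩ := ih h4
        exact ⟨t', by simp [h6], h7⟩
  obtain ⟨t, ht, h6⟩ := key
  obtain ⟨S, hS1, hS2⟩ := hT t ht
  have h7 := overB_spec h6
  have h8 : ((List.ofFn (f ∘ Tuple.sort f)).filter fun x => t.1.contains x).length =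
      (Finset.univ.filter fun k : Fin Δ => f k ∈ t.1).card := by
    rw [← List.countP_eq_length_filter, List.ofFn_eq_map, List.countP_map]
    have h9 : List.countP ((fun x => t.1.contains x) ∘ (f ∘ Tuple.sort f)) (List.finRange Δ) =
        (Finset.univ.filter fun k : Fin Δ => (f ∘ Tuple.sort f) k ∈ t.1).card := by
      rw [List.countP_eq_length_filter, ← List.toFinset_card_of_nodup]
      · congr 1
        ext k
        simp
      · exact (List.nodup_finRange Δ).filter _
    rw [h9]
    refine Finset.card_bij (fun k _ => Tuple.sort f k) ?_ ?_ ?_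
    · intro k hk
      simpa using hk
    · intro k _ k' _ hkk
      exact (Tuple.sort f).injective hkk
    · intro k hk
      refine ⟨(Tuple.sort f).symm k, ?_, by simp⟩
      simpa using hk
  rw [h8] at h7
  obtain ⟨κ0, σ, g1, g2⟩ := h2
  have g3 : ∀ k, k ≠ κ0 → (rm M κ0 k).Nonempty := by
    intro k hk
    unfold rm
    rw [if_neg hk, ← hf2 k]
    exact hne _ (hf1 k)
  have g4 : ((Finset.univ.filter fun k : Fin Δ => f k ∈ t.1).erase κ0).card ≤ S.card := by
    refine Finset.card_le_card_of_injOn σ ?_ ?_
    · intro k hk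
      rw [Finset.mem_coe, Finset.mem_erase, Finset.mem_filter] at hk
      have g5 := g1 k (g3 k hk.1)
      unfold rm at g5
      rw [if_neg hk.1, ← hf2 k] at g5
      exact hS2 _ hk.2.2 g5
    · intro k hk k' hk' hkk
      rw [Finset.mem_coe, Finset.mem_erase] at hk hk'
      exact g2 _ _ (g3 k hk.1) (g3 k' hk'.1) hkk
  have g6 := Finset.pred_card_le_card_erase
    (s := Finset.univ.filter fun k : Fin Δ => f k ∈ t.1) (a := κ0)
  omega

/-! ### Correct families -/

/-- a list of numbers as a function -/
def toF (Δ : ℕ) (L : List ℕ) (k : Fin Δ) : Fin Δ :=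
  if h : L.getD k.val k.val < Δ then ⟨L.getD k.val k.val, h⟩ else k

/-- `Blk.At` for Boolean functions -/
def AtB (q n r : Fin Δ → Fin Δ) (s : Fin Δ → Bool) (x : Fin Δ) : Prop :=
  (s x = true → s (q x) = true) ∧ (n x ≠ x → s x = true → ¬ s (n x) = true) ∧
  (r x ≠ x → ¬ (s x = true ∧ s (r x) = true ∧ s (r (r x)) = true) ∧
    (s x = true ∨ s (r x) = true ∨ s (r (r x)) = true))

instance (q n r : Fin Δ → Fin Δ) (s : Fin Δ → Bool) (x : Fin Δ) : Decidable (AtB q n r s x) := by
  unfold AtB
  infer_instance

/-- the structure axioms and the ends -/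
def AxB (Δ : ℕ) (F : Fm) : Prop :=
  (∀ x : Fin Δ, toF Δ F.q (toF Δ F.q x) = x) ∧ (∀ x : Fin Δ, toF Δ F.n (toF Δ F.n x) = x) ∧
  (∀ x : Fin Δ, toF Δ F.r (toF Δ F.r (toF Δ F.r x)) = x) ∧
  (∀ x : Fin Δ, toF Δ F.q x ≠ x → toF Δ F.n x = x) ∧
  (∀ x : Fin Δ, toF Δ F.q x ≠ x → toF Δ F.r x = x) ∧
  (∀ x : Fin Δ, toF Δ F.n x ≠ x → toF Δ F.r x = x) ∧
  ∀ x : Fin Δ, F.mask[x.val]? ≠ some true →
    toF Δ F.q x = x ∧ toF Δ F.n x = x ∧ toF Δ F.r x = x

instance (F : Fm) : Decidable (AxB Δ F) := by
  unfold AxB
  infer_instance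

/-- check all Boolean lists `v ++ acc`, `v` of length `n` -/
def allV (p : List Bool → Bool) : ℕ → List Bool → Bool
  | 0, acc => p acc
  | n + 1, acc => bif allV p n (true :: acc) then allV p n (false :: acc) else false

lemma allV_spec {p : List Bool → Bool} {n : ℕ} {acc : List Bool} (h : allV p n acc = true)
    {v : List Bool} (hv : v.length = n) : p (v ++ acc) = true := by
  induction n generalizing acc v with
  | zero =>
    rw [List.length_eq_zero_iff] at hv
    subst hv
    exact h
  | succ n ih =>
    unfold allV at h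
    rw [Bool.cond_false_right, Bool.and_eq_true] at h
    rcases List.eq_nil_or_concat v with h1 | ⟨v', c, h1⟩
    · rw [h1] at hv
      simp at hv
    · rw [List.concat_eq_append] at h1
      subst h1
      have h2 : (v' ++ [c]) ++ acc = v' ++ (c :: acc) := by simp
      rw [h2]
      have h3 : v'.length = n := by simpa using hv
      cases c
      · exact ih h.2 h3
      · exact ih h.1 h3

/-- forget the values at slots which are not ends -/
def mk (m : List Bool) : ℕ → List Bool → List Bool
  | _, [] => []
  | k, b :: v => (bif b then (m[k]?).getD false else false) :: mk m (k + 1) v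

lemma mk_ofFn (m : List Bool) {n : ℕ} (s : Fin n → Bool) (k : ℕ) :
    mk m k (List.ofFn s) = List.ofFn fun i : Fin n => s i && (m[k + i.val]?).getD false := by
  induction n generalizing k with
  | zero => simp [mk]
  | succ n ih =>
    rw [List.ofFn_succ, List.ofFn_succ]
    unfold mk
    rw [ih]
    congr 1
    · simp [Bool.cond_false_right]
    · congr 1
      funext i
      rw [Fin.val_succ, show k + 1 + i.val = k + (i.val + 1) by omega]

/-- the family is correct -/
def okF (Δ : ℕ) (F : Fm) : Bool :=
  bif decide (AxB Δ F) then allV (fun v =>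
    bif decide (∀ x : Fin Δ, AtB (toF Δ F.q) (toF Δ F.n) (toF Δ F.r)
      (fun k => v.getD k.val false) x) then anyL (mk F.mask 0 v) F.sats else true) Δ []
  else false

theorem okF_spec {F : Fm} (h : okF Δ F = true) : FmOK Δ F := by
  unfold okF at h
  rw [Bool.cond_false_right, Bool.and_eq_true, decide_eq_true_eq] at h
  obtain ⟨⟨h1, h2, h3, h4, h5, h6, h7⟩, h8⟩ := h
  refine ⟨⟨toF Δ F.q, toF Δ F.n, toF Δ F.r, h1, h2, h3, h4, h5, h6⟩, h7, ?_⟩
  intro s hs
  have h9 := allV_spec h8 (v := List.ofFn s) (by simp)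
  rw [List.append_nil] at h9
  have h10 : (fun k : Fin Δ => (List.ofFn s).getD k.val false) = s := by
    funext k
    simp
  rw [h10] at h9
  rw [decide_eq_true (p := ∀ x : Fin Δ, AtB (toF Δ F.q) (toF Δ F.n) (toF Δ F.r) s x) hs,
    cond_true, mk_ofFn] at h9
  simpa using anyL_mem h9

/-- the trivial family -/
def F0 : Fm := ⟨[], [], [], [], []⟩

/-- look up a family -/
def getF (F : Fm) : List Fm → ℕ → Fm
  | [], _ => F
  | G :: L, n => Nat.rec (motive := fun _ => Fm) G (fun k _ => getF F L k) n

lemma getF_mem (F : Fm) (L : List Fm) (n : ℕ) : getF F L n = F ∨ getF F L n ∈ L := by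
  induction L generalizing n with
  | nil => exact Or.inl rfl
  | cons G L ih =>
    cases n with
    | zero => exact Or.inr List.mem_cons_self
    | succ n =>
      have h1 : getF F (G :: L) (n + 1) = getF F L n := rfl
      rw [h1]
      rcases ih n with h | h
      · exact Or.inl h
      · exact Or.inr (List.mem_cons_of_mem _ h)

lemma getF_ok {F : Fm} {L : List Fm} (h1 : okF Δ F = true) (h2 : allL (okF Δ) L = true)
    (n : ℕ) : FmOK Δ (getF F L n) := by
  rcases getF_mem F L n with h | h
  · rw [h]
    exact okF_spec h1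
  · exact okF_spec (allL_mem h2 h)

/-- digit number `x` of `T` in base `2 ^ b = B` -/
def dig (T b B x : ℕ) : ℕ := Nat.mod (Nat.shiftRight T (Nat.mul b x)) B

/-- a large number written in blocks of `b` bits, lowest block first -/
def joinL (b : ℕ) : List ℕ → ℕ
  | [] => 0
  | x :: l => Nat.add x (Nat.shiftLeft (joinL b l) b)

/-- bit number `x` of `T` -/
def bit (T x : ℕ) : Bool := Nat.beq (Nat.mod (Nat.shiftRight T x) 2) 1

/-- the hint: rank of an increasing list -/
def rank (T : ℕ) : ℕ → List ℕ → ℕ
  | _, [] => 0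
  | k, x :: l => Nat.add (dig T 16 65536 (Nat.add (Nat.mul 16 k) x)) (rank T (Nat.add k 1) l)

end Chk

end Pool.Agent.SGM
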