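import Pool.Agent.MEO.Base
import Pool.Agent.MEC.QInv

set_option autoImplicit false

/-! MP_fff3e1_lc, all graphs, every Borel probability measure: reduction to a finite game
(idea row 3344).  Definitions.  Proofs: Blueprint.lean.txt. -/

namespace Pool.Agent.SGM

open MeasureTheory Set Filter
open scoped ENNReal
open Pool.Agent.MEC
open Pool.Agent.MEP
open Pool.Agent.MEO

universe u v

/-! ### The finite game -/

/-- Disjoint blocks of ends: `q` joins the pairs of kind EQ (equal), `n` the pairs of kind NB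
(not both flipped), `r` runs through the triples of kind NAE (not all equal). -/
structure Blk (ι : Type u) where
  q : ι → ι
  n : ι → ι
  r : ι → ι
  q2 : ∀ x, q (q x) = x
  n2 : ∀ x, n (n x) = x
  r3 : ∀ x, r (r (r x)) = x
  qn : ∀ x, q x ≠ x → n x = x
  qr : ∀ x, q x ≠ x → r x = x
  nr : ∀ x, n x ≠ x → r x = x

variable {ι : Type u} {Δ : ℕ}

/-- the set `X` of flipped ends satisfies the block which contains `x` -/
def Blk.At (B : Blk ι) (X : Set ι) (x : ι) : Prop :=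
  (x ∈ X → B.q x ∈ X) ∧ (B.n x ≠ x → x ∈ X → B.n x ∉ X) ∧
  (B.r x ≠ x → ¬ (x ∈ X ∧ B.r x ∈ X ∧ B.r (B.r x) ∈ X) ∧
    (x ∈ X ∨ B.r x ∈ X ∨ B.r (B.r x) ∈ X))

/-- all blocks are inside `E` -/
def Blk.Sup (B : Blk ι) (E : Set ι) : Prop := ∀ x, x ∉ E → B.q x = x ∧ B.n x = x ∧ B.r x = x

open Classical in
/-- exchange `i` and `j` in `M κ` for all `κ ∈ X` -/
noncomputable def fl (i j : Fin Δ) (M : ι → Finset (Fin Δ)) (X : Set ι) (κ : ι) :
    Finset (Fin Δ) :=
  if κ ∈ X then (M κ).map (Equiv.swap i j).toEmbedding else M κ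

/-- the ends of the round `i j`: exactly one of `i`, `j` is in `M κ` -/
def En (i j : Fin Δ) (M : ι → Finset (Fin Δ)) : Set ι := {κ | ¬ (i ∈ M κ ↔ j ∈ M κ)}

/-- distinct representatives of the nonempty sets `M κ` -/
def SDR (M : ι → Finset (Fin Δ)) : Prop :=
  ∃ φ : ι → Fin Δ, (∀ κ, (M κ).Nonempty → φ κ ∈ M κ) ∧
    ∀ κ κ', (M κ).Nonempty → (M κ').Nonempty → φ κ = φ κ' → κ = κ'

open Classical in
/-- remove the set number `κ0` -/
noncomputable def rm (M : ι → Finset (Fin Δ)) (κ0 κ : ι) : Finset (Fin Δ) :=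
  if κ = κ0 then ∅ else M κ

/-- the state `M` is won when the rounds of the word are played one after the other: in every
round the player chooses blocks, the opponent chooses the flipped ends -/
def Win : List (Fin Δ × Fin Δ) → (ι → Finset (Fin Δ)) → Prop
  | [], M => SDR M
  | p :: w, M => ∃ B : Blk ι, B.Sup (En p.1 p.2 M) ∧
      ∀ X : Set ι, (∀ κ, B.At X κ) → Win w (fl p.1 p.2 M X)

/-- a universal word for `Δ` -/
def Univ (Δ : ℕ) (w : List (Fin Δ × Fin Δ)) : Prop :=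
  (∀ p ∈ w, p.1 ≠ p.2) ∧ ∀ M : Fin Δ → Finset (Fin Δ), (∀ κ, (M κ).card = 2) →
    (∃ κ0, SDR (rm M κ0)) → Win w M

/-! ### Strands -/

section

variable {V : Type u}

/-- the graph of three partial matchings -/
def G3 (s t q : V → V) : SimpleGraph V where
  Adj x y := x ≠ y ∧ ((y = s x ∧ x = s y) ∨ (y = t x ∧ x = t y) ∨ (y = q x ∧ x = q y))
  symm := ⟨fun _ _ h => ⟨h.1.symm, h.2.imp And.symm (Or.imp And.symm And.symm)⟩⟩
  loopless := ⟨fun _ h => h.1 rfl⟩

/-- ends: at most one of the three matchings moves `x` -/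
def E3 (s t q : V → V) : Set V :=
  {x | (s x = x ∧ t x = x) ∨ (s x = x ∧ q x = x) ∨ (t x = x ∧ q x = x)}

/-- `O` contains at most one point of every triple and of every link -/
def Own (r l : V → V) (O : Set V) : Prop :=
  ∀ x ∈ O, r x ≠ x ∧ r x ∉ O ∧ r (r x) ∉ O ∧ (l x ≠ x → l x ∉ O)

/-- the triple of `x` is not constant -/
def Nae (r : V → V) (X : Set V) (x : V) : Prop :=
  ¬ (x ∈ X ∧ r x ∈ X ∧ r (r x) ∈ X) ∧ (x ∈ X ∨ r x ∈ X ∨ r (r x) ∈ X)

/-! ### One phase -/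

variable {G H : SimpleGraph V} {m : ℕ}

/-- `G` without the edges at `Z` -/
def off (G : SimpleGraph V) (Z : Set V) : SimpleGraph V where
  Adj x y := G.Adj x y ∧ x ∉ Z ∧ y ∉ Z
  symm := ⟨fun _ _ h => ⟨h.1.symm, h.2.2, h.2.1⟩⟩
  loopless := ⟨fun _ h => h.1.ne rfl⟩

variable [MeasurableSpace V]

/-- almost all edges are coloured -/
def Cov (ν : Measure V) (c : PCol G Δ) : Prop := ∀ᵐ x ∂ν, ∀ y, G.Adj x y → ∃ k, c.S k x = y

/-- the centres of one phase; `e` lists the edges of `G` -/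
structure Cen (e : PCol G m) (Δ : ℕ) (Z : Set V) : Prop where
  meas : MeasurableSet Z
  lab : Lab e
  far : ∀ t ∈ Z, ∀ t' ∈ Z, ¬ G.Adj t t'
  sep : ∀ t ∈ Z, ∀ t' ∈ Z, ∀ v, G.Adj t v → G.Adj t' v → t = t'
  deg : ∀ t ∈ Z, dg G t ≤ Δ
  nb : ∀ t ∈ Z, ∀ v, G.Adj t v → dg G v < Δ

/-- the graph `G` arises from `H` by adding at most one edge at every centre -/
def New (H G : SimpleGraph V) (Z : Set V) : Prop :=
  (∀ x y, G.Adj x y → ¬ H.Adj x y → x ∈ Z ∨ y ∈ Z) ∧
  ∀ t ∈ Z, ∀ y y', G.Adj t y → ¬ H.Adj t y → G.Adj t y' → ¬ H.Adj t y' → y = y'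

/-- local states: `M t κ` are two colours which are missing at the neighbour `e.S κ t` of the
centre `t` -/
structure LS (e : PCol G m) (Z : Set V) (c : PCol (off G Z) Δ)
    (M : V → Fin m → Finset (Fin Δ)) : Prop where
  meas : ∀ a, MeasurableSet {t | M t = a}
  emp : ∀ t κ, t ∉ Z ∨ e.S κ t = t → M t κ = ∅
  two : ∀ t ∈ Z, ∀ κ, e.S κ t ≠ t → (M t κ).card = 2
  mis : ∀ t κ, ∀ k ∈ M t κ, c.S k (e.S κ t) = e.S κ t

end

end Pool.Agent.SGM
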