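import Pool.Agent.SGM.STR

set_option autoImplicit false

/-! MP_fff3e1_lc, the Gamma lemma (idea row 3505): single rounds of a matching win (or the
potential drops) if all but one of the vertices of degree 3 sit over a leaf. -/

namespace Pool.Agent.SGM

open Set

universe u

variable {ι : Type u} {Δ : ℕ}

lemma sw2 {α : Type u} [DecidableEq α] (a b x : α) :
    Equiv.swap a b (Equiv.swap a b x) = x := by
  rw [Equiv.swap_apply_self]

/-! ### Removal of a leaf -/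

lemma rm_self (M : ι → Finset (Fin Δ)) (κ0 : ι) : rm M κ0 κ0 = ∅ := by
  unfold rm
  rw [if_pos rfl]

lemma rm_ne (M : ι → Finset (Fin Δ)) {κ0 κ : ι} (h : κ ≠ κ0) : rm M κ0 κ = M κ := by
  unfold rm
  rw [if_neg h]

lemma flp_rm (τ : Fin Δ → Fin Δ) (M : ι → Finset (Fin Δ)) (X : Set (ι × Fin Δ)) (κ0 : ι) :
    flp τ (rm M κ0) X = rm (flp τ M X) κ0 := by
  classical
  funext κ
  by_cases h : κ = κ0
  · subst h
    rw [rm_self]
    unfold flp
    rw [rm_self, Finset.image_empty]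
  · rw [rm_ne _ h]
    unfold flp
    rw [rm_ne _ h]

lemma pin_rm (τ : Fin Δ → Fin Δ) (M : ι → Finset (Fin Δ)) (κ0 : ι) :
    Pin τ (rm M κ0) ⊆ Pin τ M := by
  rintro ⟨κ, k⟩ ⟨h1, h2⟩
  by_cases h : κ = κ0
  · subst h
    simp only [rm_self] at h1
    exact absurd h1 (Finset.notMem_empty _)
  · simp only [rm_ne _ h] at h1 h2
    exact ⟨h1, h2⟩

lemma sdr_rm {M : ι → Finset (Fin Δ)} {κ0 : ι} {a : Fin Δ} (ha : a ∈ M κ0)
    (hu : ∀ κ, κ ≠ κ0 → a ∉ M κ) (h : SDR (rm M κ0)) : SDR M := by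
  classical
  obtain ⟨φ, h1, h2⟩ := h
  have h3 : ∀ κ, κ ≠ κ0 → (M κ).Nonempty → φ κ ∈ M κ := fun κ hκ hn => by
    have := h1 κ (by rwa [rm_ne _ hκ])
    rwa [rm_ne _ hκ] at this
  have h4 : ∀ κ, κ ≠ κ0 → (M κ).Nonempty → φ κ ≠ a := fun κ hκ hn h =>
    hu κ hκ (h ▸ h3 κ hκ hn)
  refine ⟨fun κ => if κ = κ0 then a else φ κ, fun κ hn => ?_, fun κ κ' hn hn' he => ?_⟩
  · by_cases h : κ = κ0
    · simp only [if_pos h]
      rwa [h]
    · simp only [if_neg h]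
      exact h3 κ h hn
  · simp only at he
    by_cases h : κ = κ0
    · by_cases h' : κ' = κ0
      · rw [h, h']
      · rw [if_pos h, if_neg h'] at he
        exact absurd he.symm (h4 κ' h' hn')
    · by_cases h' : κ' = κ0
      · rw [if_neg h, if_pos h'] at he
        exact absurd he (h4 κ h hn)
      · rw [if_neg h, if_neg h'] at he
        exact h2 κ κ' (by rwa [rm_ne _ h]) (by rwa [rm_ne _ h']) he

lemma flp_leaf {τ : Fin Δ → Fin Δ} (hτ : ∀ k, τ (τ k) = k) {M : ι → Finset (Fin Δ)}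
    {κ0 : ι} {a : Fin Δ} (h : τ a = a) (ha : a ∈ M κ0) (hu : ∀ κ, κ ≠ κ0 → a ∉ M κ)
    (X : Set (ι × Fin Δ)) : a ∈ flp τ M X κ0 ∧ ∀ κ, κ ≠ κ0 → a ∉ flp τ M X κ :=
  ⟨(mem_flp_fix hτ h).2 ha, fun κ hκ h1 => hu κ hκ ((mem_flp_fix hτ h).1 h1)⟩

/-- a leaf which is not touched by the word owns its set -/
lemma win_rm_sdr {w : List (Fin Δ → Fin Δ)} (hw : ∀ τ ∈ w, ∀ k, τ (τ k) = k)
    {a : Fin Δ} (hwa : ∀ τ ∈ w, τ a = a) {M : ι → Finset (Fin Δ)} {κ0 : ι} (ha : a ∈ M κ0)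
    (hu : ∀ κ, κ ≠ κ0 → a ∉ M κ) (H : WinT SDR w (rm M κ0)) : WinT SDR w M := by
  refine WinT.sim (fun M M' => M' = rm M κ0 ∧ a ∈ M κ0 ∧ ∀ κ, κ ≠ κ0 → a ∉ M κ) ?_ ?_ ?_
    ⟨rfl, ha, hu⟩ H
  · rintro τ _ M M' ⟨rfl, _⟩
    exact pin_rm τ M κ0
  · rintro τ hτ M M' ⟨rfl, h1, h2⟩ X
    refine ⟨flp_rm τ M X κ0, ?_⟩
    exact flp_leaf (hw τ hτ) (hwa τ hτ) h1 h2 X
  · rintro M M' ⟨rfl, h1, h2⟩ h3
    exact sdr_rm h1 h2 h3

section degree

variable [Fintype ι]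

lemma deg_pos {M : ι → Finset (Fin Δ)} {k : Fin Δ} (h : 0 < deg M k) : ∃ κ, k ∈ M κ := by
  classical
  unfold deg at h
  obtain ⟨κ, hκ⟩ := Finset.card_pos.1 h
  exact ⟨κ, by simpa using hκ⟩

lemma deg_one {M : ι → Finset (Fin Δ)} {k : Fin Δ} (h : deg M k = 1) :
    ∃ κ0, k ∈ M κ0 ∧ ∀ κ, κ ≠ κ0 → k ∉ M κ := by
  classical
  unfold deg at h
  obtain ⟨κ0, hκ⟩ := Finset.card_eq_one.1 h
  have h1 : ∀ κ, k ∈ M κ ↔ κ = κ0 := fun κ => by
    have : κ ∈ (Finset.univ.filter fun κ => k ∈ M κ) ↔ κ ∈ ({κ0} : Finset ι) := by rw [hκ]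
    simpa using this
  exact ⟨κ0, (h1 κ0).2 rfl, fun κ hne hk => hne ((h1 κ).1 hk)⟩

lemma deg_rm_notMem {M : ι → Finset (Fin Δ)} {κ0 : ι} {k : Fin Δ} (h : k ∉ M κ0) :
    deg (rm M κ0) k = deg M k := by
  classical
  unfold deg
  congr 1
  ext κ
  simp only [Finset.mem_filter, Finset.mem_univ, true_and]
  by_cases hκ : κ = κ0
  · subst hκ
    rw [rm_self]
    simp [h]
  · rw [rm_ne _ hκ]

lemma deg_rm_mem {M : ι → Finset (Fin Δ)} {κ0 : ι} {k : Fin Δ} (h : k ∈ M κ0) :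
    deg (rm M κ0) k + 1 = deg M k := by
  classical
  unfold deg
  have h1 : (Finset.univ.filter fun κ => k ∈ M κ) =
      insert κ0 (Finset.univ.filter fun κ => k ∈ rm M κ0 κ) := by
    ext κ
    simp only [Finset.mem_filter, Finset.mem_univ, true_and, Finset.mem_insert]
    by_cases hκ : κ = κ0
    · subst hκ
      simp [h]
    · rw [rm_ne _ hκ]
      simp [hκ]
  rw [h1, Finset.card_insert_of_notMem]
  rw [Finset.mem_filter, rm_self]
  simp

omit [Fintype ι] in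
lemma Ok.rm {M : ι → Finset (Fin Δ)} (h : Ok M) (κ0 : ι) : Ok (rm M κ0) := by
  intro κ
  by_cases hκ : κ = κ0
  · subst hκ
    rw [rm_self]
    left
    rfl
  · rw [rm_ne _ hκ]
    exact h κ

/-- number of nonempty sets -/
noncomputable def nn (M : ι → Finset (Fin Δ)) : ℕ := ∑ κ, (M κ).card

lemma nn_rm {M : ι → Finset (Fin Δ)} {κ0 : ι} (h : (M κ0).Nonempty) : nn (rm M κ0) < nn M := by
  classical
  unfold nn
  refine Finset.sum_lt_sum (fun κ _ => ?_) ⟨κ0, Finset.mem_univ _, ?_⟩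
  · by_cases hκ : κ = κ0
    · subst hκ
      rw [rm_self]
      simp
    · rw [rm_ne _ hκ]
  · rw [rm_self, Finset.card_empty]
    exact Finset.card_pos.2 h

omit [Fintype ι] in
/-- the second element -/
lemma Ok.other {M : ι → Finset (Fin Δ)} (h : Ok M) {κ0 : ι} {a : Fin Δ} (ha : a ∈ M κ0) :
    ∃ c, c ≠ a ∧ c ∈ M κ0 ∧ ∀ k, k ∈ M κ0 → k = a ∨ k = c := by
  classical
  have h1 : (M κ0).card = 2 := by
    rcases h κ0 with h1 | h1
    · rw [Finset.card_eq_zero] at h1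
      rw [h1] at ha
      exact absurd ha (Finset.notMem_empty _)
    · exact h1
  obtain ⟨x, y, hxy, h2⟩ := Finset.card_eq_two.1 h1
  rw [h2] at ha ⊢
  rcases Finset.mem_insert.1 ha with h3 | h3
  · subst h3
    refine ⟨y, hxy.symm, by simp, fun k hk => ?_⟩
    simpa using hk
  · rw [Finset.mem_singleton] at h3
    subst h3
    refine ⟨x, hxy, by simp, fun k hk => ?_⟩
    have : k = x ∨ k = a := by simpa using hk
    exact this.symm

lemma phi_rm {M : ι → Finset (Fin Δ)} {κ0 : ι} {a c : Fin Δ} (hne : c ≠ a) (ha : a ∈ M κ0)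
    (hc : c ∈ M κ0) (hk : ∀ k, k ∈ M κ0 → k = a ∨ k = c) (h1 : deg M a = 1) :
    Phi M = Phi (rm M κ0) + 2 * deg M c := by
  classical
  unfold Phi
  rw [← Finset.add_sum_erase _ _ (Finset.mem_univ a),
    ← Finset.add_sum_erase _ (fun k => deg M k ^ 2)
      (Finset.mem_erase.2 ⟨hne, Finset.mem_univ c⟩),
    ← Finset.add_sum_erase _ (fun k => deg (rm M κ0) k ^ 2) (Finset.mem_univ a),
    ← Finset.add_sum_erase _ (fun k => deg (rm M κ0) k ^ 2)
      (Finset.mem_erase.2 ⟨hne, Finset.mem_univ c⟩)]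
  have h2 : ∑ k ∈ ((Finset.univ : Finset (Fin Δ)).erase a).erase c, deg M k ^ 2 =
      ∑ k ∈ ((Finset.univ : Finset (Fin Δ)).erase a).erase c, deg (rm M κ0) k ^ 2 := by
    refine Finset.sum_congr rfl fun k hk' => ?_
    rw [deg_rm_notMem]
    intro hh
    rcases hk k hh with h | h
    · subst h
      simp at hk'
    · subst h
      simp at hk'
  rw [h2]
  have h3 := deg_rm_mem ha
  have h4 := deg_rm_mem hc
  have h5 : deg (rm M κ0) a = 0 := by omega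
  rw [h5, h1, ← h4]
  ring

/-- static removal of a leaf -/
lemma win_rm {w : List (Fin Δ → Fin Δ)} (hw : ∀ τ ∈ w, ∀ k, τ (τ k) = k)
    {a c : Fin Δ} (hwa : ∀ τ ∈ w, τ a = a) (hwc : ∀ τ ∈ w, τ c = c)
    {M : ι → Finset (Fin Δ)} {κ0 : ι} (hne : c ≠ a) (ha : a ∈ M κ0) (hc : c ∈ M κ0)
    (hk : ∀ k, k ∈ M κ0 → k = a ∨ k = c) (h1 : deg M a = 1)
    (H : WinT (Tg (Phi (rm M κ0))) w (rm M κ0)) : WinT (Tg (Phi M)) w M := by
  refine WinT.sim (fun M1 M' => M' = rm M1 κ0 ∧ a ∈ M1 κ0 ∧ c ∈ M1 κ0 ∧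
    (∀ k, k ∈ M1 κ0 → k = a ∨ k = c) ∧ deg M1 a = 1 ∧ deg M1 c = deg M c) ?_ ?_ ?_
    ⟨rfl, ha, hc, hk, h1, rfl⟩ H
  · rintro τ _ M1 M' ⟨rfl, _⟩
    exact pin_rm τ M1 κ0
  · rintro τ hτ M1 M' ⟨rfl, h2, h3, h4, h5, h6⟩ X
    have hi := hw τ hτ
    have fa := hwa τ hτ
    have fc := hwc τ hτ
    refine ⟨flp_rm τ M1 X κ0, (mem_flp_fix hi fa).2 h2, (mem_flp_fix hi fc).2 h3, ?_, ?_, ?_⟩
    · intro k hk'
      rcases (mem_flp hi).1 hk' with h7 | h7
      · exact h4 k h7.1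
      · rcases h4 _ h7.1 with h8 | h8
        · left
          rw [← hi k, h8, fa]
        · right
          rw [← hi k, h8, fc]
    · rw [deg_fix hi M1 X fa, h5]
    · rw [deg_fix hi M1 X fc, h6]
  · rintro M1 M' ⟨rfl, h2, h3, h4, h5, h6⟩ h7
    rcases h7 with h7 | h7
    · left
      obtain ⟨κ1, g1, g2⟩ := deg_one h5
      have g3 : κ0 = κ1 := by
        by_contra hh
        exact g2 κ0 hh h2
      subst g3
      exact sdr_rm g1 g2 h7
    · right
      rw [phi_rm hne h2 h3 h4 h5, phi_rm hne ha hc hk h1, h6]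
      omega

/-- all degrees at most 2: finished -/
lemma sdr_of_deg (d : Fin Δ) {M : ι → Finset (Fin Δ)} (hO : Ok M) (hd : ∀ k, deg M k ≤ 2) :
    SDR M := by
  classical
  have h2 : ∀ κ, (M κ).Nonempty → (M κ).card = 2 := fun κ h => by
    rcases hO κ with h1 | h1
    · rw [Finset.card_eq_zero] at h1
      rw [h1] at h
      exact absurd h Finset.not_nonempty_empty
    · exact h1
  have key := (Finset.all_card_le_biUnion_card_iff_exists_injective
    (fun κ : {κ // (M κ).Nonempty} => M κ.1)).1 ?_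
  · obtain ⟨f, hf, hm⟩ := key
    refine ⟨fun κ => if h : (M κ).Nonempty then f ⟨κ, h⟩ else d, fun κ h => ?_,
      fun κ κ' h h' he => ?_⟩
    · simp only [dif_pos h]
      exact hm ⟨κ, h⟩
    · simp only [dif_pos h, dif_pos h'] at he
      exact congrArg Subtype.val (hf he)
  · intro s
    have e1 : 2 * s.card = ∑ κ ∈ s, (M κ.1).card := by
      rw [Finset.sum_congr rfl fun κ (_ : κ ∈ s) => h2 κ.1 κ.2, Finset.sum_const, smul_eq_mul,
        mul_comm]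
    have e2 : ∑ κ ∈ s, (M κ.1).card = ∑ κ ∈ s, ∑ k ∈ s.biUnion fun κ => M κ.1,
        if k ∈ M κ.1 then 1 else 0 := by
      refine Finset.sum_congr rfl fun κ hκ => ?_
      rw [← Finset.card_filter]
      congr 1
      ext k
      rw [Finset.mem_filter]
      constructor
      · intro hk
        exact ⟨Finset.mem_biUnion.2 ⟨κ, hκ, hk⟩, hk⟩
      · exact fun hk => hk.2
    have e3 : ∑ k ∈ s.biUnion (fun κ => M κ.1), ∑ κ ∈ s, (if k ∈ M κ.1 then 1 else 0) ≤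
        ∑ k ∈ s.biUnion (fun κ => M κ.1), 2 := by
      refine Finset.sum_le_sum fun k _ => le_trans ?_ (hd k)
      rw [deg_sum]
      have e4 : ∑ κ ∈ s, (if k ∈ M κ.1 then 1 else 0) =
          ∑ κ ∈ s.map (Function.Embedding.subtype _), if k ∈ M κ then 1 else 0 := by
        rw [Finset.sum_map]
        rfl
      rw [e4]
      exact Finset.sum_le_sum_of_subset (Finset.subset_univ _)
    rw [Finset.sum_comm] at e2
    rw [Finset.sum_const, smul_eq_mul] at e3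
    omega

end degree

/-! ### Blocks on few pins -/

section blocks

variable {E : Type u}

/-- free pins -/
def Blk.free (E : Type u) : Blk E where
  q := id
  n := id
  r := id
  q2 := fun _ => rfl
  n2 := fun _ => rfl
  r3 := fun _ => rfl
  qn := fun _ h => absurd rfl h
  qr := fun _ h => absurd rfl h
  nr := fun _ h => absurd rfl h

/-- a block NB on `c`, `d` and, if `a ≠ b`, a block EQ on `a`, `b` -/
lemma exists_eqnb {a b c d : E} (h1 : a ≠ c) (h2 : a ≠ d) (h3 : b ≠ c) (h4 : b ≠ d)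
    (h5 : c ≠ d) (h6 : a ≠ b) : ∃ B : Blk E,
    (∀ x, x ≠ a → x ≠ b → x ≠ c → x ≠ d → B.q x = x ∧ B.n x = x ∧ B.r x = x) ∧
    ∀ X : Set E, (∀ x, B.At X x) → (a ∈ X ↔ b ∈ X) ∧ ¬ (c ∈ X ∧ d ∈ X) := by
  classical
  refine ⟨⟨Equiv.swap a b, Equiv.swap c d, id, sw2 a b,
    sw2 c d, fun _ => rfl, ?_, fun _ _ => rfl, fun _ _ => rfl⟩, ?_, ?_⟩
  · intro x hx
    by_contra hn
    have g1 : x = a ∨ x = b := by
      by_contra hh
      push Not at hh
      exact hx (Equiv.swap_apply_of_ne_of_ne hh.1 hh.2)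
    have g2 : x = c ∨ x = d := by
      by_contra hh
      push Not at hh
      exact hn (Equiv.swap_apply_of_ne_of_ne hh.1 hh.2)
    rcases g1 with rfl | rfl <;> rcases g2 with rfl | rfl <;> contradiction
  · intro x g1 g2 g3 g4
    exact ⟨Equiv.swap_apply_of_ne_of_ne g1 g2, Equiv.swap_apply_of_ne_of_ne g3 g4, rfl⟩
  · intro X hX
    refine ⟨⟨fun h => ?_, fun h => ?_⟩, fun h => ?_⟩
    · have := (hX a).1 h
      simp only [Equiv.swap_apply_left] at this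
      exact this
    · have := (hX b).1 h
      simp only [Equiv.swap_apply_right] at this
      exact this
    · have := (hX c).2.1
      simp only [Equiv.swap_apply_left] at this
      exact this h5.symm h.1 h.2

/-- a block NB on `c`, `d` -/
lemma exists_nb {c d : E} (h5 : c ≠ d) : ∃ B : Blk E,
    (∀ x, x ≠ c → x ≠ d → B.q x = x ∧ B.n x = x ∧ B.r x = x) ∧
    ∀ X : Set E, (∀ x, B.At X x) → ¬ (c ∈ X ∧ d ∈ X) := by
  classical
  refine ⟨⟨id, Equiv.swap c d, id, fun _ => rfl,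
    sw2 c d, fun _ => rfl, fun _ h => absurd rfl h, fun _ _ => rfl,
    fun _ _ => rfl⟩, ?_, ?_⟩
  · intro x g3 g4
    exact ⟨rfl, Equiv.swap_apply_of_ne_of_ne g3 g4, rfl⟩
  · intro X hX h
    have := (hX c).2.1
    simp only [Equiv.swap_apply_left] at this
    exact this h5.symm h.1 h.2

/-- a block NAE on `a`, `b`, `c` -/
lemma exists_nae {a b c : E} (h1 : a ≠ b) (h2 : b ≠ c) (h3 : a ≠ c) : ∃ B : Blk E,
    (∀ x, x ≠ a → x ≠ b → x ≠ c → B.q x = x ∧ B.n x = x ∧ B.r x = x) ∧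
    ∀ X : Set E, (∀ x, B.At X x) → ¬ (a ∈ X ∧ b ∈ X ∧ c ∈ X) ∧ (a ∈ X ∨ b ∈ X ∨ c ∈ X) := by
  classical
  let r : E → E := fun x => if x = a then b else if x = b then c else if x = c then a else x
  have ra : r a = b := if_pos rfl
  have rb : r b = c := by simp only [r, if_neg h1.symm, if_pos]
  have rc : r c = a := by simp only [r, if_neg h3.symm, if_neg h2.symm, if_pos]
  have rx : ∀ x, x ≠ a → x ≠ b → x ≠ c → r x = x := fun x g1 g2 g3 => by
    simp only [r, if_neg g1, if_neg g2, if_neg g3]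
  refine ⟨⟨id, id, r, fun _ => rfl, fun _ => rfl, fun x => ?_, fun _ _ => rfl,
    fun _ h => absurd rfl h, fun _ h => absurd rfl h⟩, ?_, ?_⟩
  · by_cases g1 : x = a
    · rw [g1, ra, rb, rc]
    · by_cases g2 : x = b
      · rw [g2, rb, rc, ra]
      · by_cases g3 : x = c
        · rw [g3, rc, ra, rb]
        · rw [rx x g1 g2 g3, rx x g1 g2 g3, rx x g1 g2 g3]
  · intro x g1 g2 g3
    exact ⟨rfl, rfl, rx x g1 g2 g3⟩
  · intro X hX
    have := (hX a).2.2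
    simp only [ra, rb] at this
    exact this h1.symm

end blocks

section avoid

variable [Fintype ι]

open Classical in
lemma deg_on {M : ι → Finset (Fin Δ)} {k : Fin Δ} (s : Finset ι) (h : ∀ κ, k ∈ M κ → κ ∈ s) :
    deg M k = ∑ κ ∈ s, if k ∈ M κ then 1 else 0 := by
  rw [deg_sum]
  refine (Finset.sum_subset (Finset.subset_univ s) fun κ _ hκ => ?_).symm
  exact if_neg fun hk => hκ (h κ hk)

lemma deg_three {M : ι → Finset (Fin Δ)} {k : Fin Δ} (h : deg M k = 3) :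
    ∃ a b c, a ≠ b ∧ b ≠ c ∧ a ≠ c ∧ ∀ κ, k ∈ M κ ↔ κ = a ∨ κ = b ∨ κ = c := by
  classical
  unfold deg at h
  obtain ⟨a, b, c, h1, h2, h3, h4⟩ := Finset.card_eq_three.1 h
  refine ⟨a, b, c, h1, h3, h2, fun κ => ?_⟩
  have : κ ∈ (Finset.univ.filter fun κ => k ∈ M κ) ↔ κ ∈ ({a, b, c} : Finset ι) := by rw [h4]
  simpa using this

/-- the pair `i`, `j` has degrees 1 and 3 and `κ0` is at the vertex of degree 3 -/
def Hi (M : ι → Finset (Fin Δ)) (i j : Fin Δ) (κ0 : ι) : Prop :=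
  (deg M i = 3 ∧ deg M j = 1 ∧ i ∈ M κ0) ∨ (deg M j = 3 ∧ deg M i = 1 ∧ j ∈ M κ0)

lemma avoid1 {M : ι → Finset (Fin Δ)} {i j : Fin Δ} {κ0 : ι}
    (hi : deg M i = 1) (hj : deg M j = 3) (h0 : i ∈ M κ0 ∧ j ∉ M κ0) :
    ∃ B : Blk (ι × Fin Δ), B.Sup (Pin (Equiv.swap i j) M) ∧ ∀ X : Set (ι × Fin Δ),
      (∀ p, B.At X p) → (deg (flp (Equiv.swap i j) M X) i = 2 ∧
        deg (flp (Equiv.swap i j) M X) j = 2) ∨ Hi (flp (Equiv.swap i j) M X) i j κ0 := by
  classical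
  have hτ : ∀ k, Equiv.swap i j (Equiv.swap i j k) = k := sw2 i j
  obtain ⟨a, b, c, h1, h2, h3, hk⟩ := deg_three hj
  obtain ⟨κ1, g1, g2⟩ := deg_one hi
  have e0 : κ0 = κ1 := by
    by_contra hh
    exact g2 κ0 hh h0.1
  subst e0
  have n1 : κ0 ≠ a := fun h => h0.2 ((hk κ0).2 (Or.inl h))
  have n2 : κ0 ≠ b := fun h => h0.2 ((hk κ0).2 (Or.inr (Or.inl h)))
  have n3 : κ0 ≠ c := fun h => h0.2 ((hk κ0).2 (Or.inr (Or.inr h)))
  have ja := (hk a).2 (Or.inl rfl)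
  have jb := (hk b).2 (Or.inr (Or.inl rfl))
  have jc := (hk c).2 (Or.inr (Or.inr rfl))
  have ia := g2 a n1.symm
  have ib := g2 b n2.symm
  have ic := g2 c n3.symm
  obtain ⟨B, B1, B2⟩ := exists_nae (a := (a, j)) (b := (b, j)) (c := (c, j))
    (fun h => h1 (congrArg Prod.fst h)) (fun h => h2 (congrArg Prod.fst h))
    (fun h => h3 (congrArg Prod.fst h))
  refine ⟨B, fun x hx => B1 x ?_ ?_ ?_, fun X hX => ?_⟩
  · rintro rfl
    exact hx ⟨ja, by rw [Equiv.swap_apply_right]; exact ia⟩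
  · rintro rfl
    exact hx ⟨jb, by rw [Equiv.swap_apply_right]; exact ib⟩
  · rintro rfl
    exact hx ⟨jc, by rw [Equiv.swap_apply_right]; exact ic⟩
  · have h4 := B2 X hX
    have ei : ∀ κ, i ∈ flp (Equiv.swap i j) M X κ ↔ (i ∈ M κ ∧ ¬ ((κ, i) ∈ X ∧ j ∉ M κ)) ∨
        (j ∈ M κ ∧ (κ, j) ∈ X ∧ i ∉ M κ) := fun κ => by
      rw [mem_flp hτ, Equiv.swap_apply_left]
    have ej : ∀ κ, j ∈ flp (Equiv.swap i j) M X κ ↔ (j ∈ M κ ∧ ¬ ((κ, j) ∈ X ∧ i ∉ M κ)) ∨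
        (i ∈ M κ ∧ (κ, i) ∈ X ∧ j ∉ M κ) := fun κ => by
      rw [mem_flp hτ, Equiv.swap_apply_right]
    have hs : ∀ κ, i ∈ M κ ∨ j ∈ M κ → κ ∈ ({κ0, a, b, c} : Finset ι) := by
      intro κ h5
      simp only [Finset.mem_insert, Finset.mem_singleton]
      rcases h5 with h5 | h5
      · left
        by_contra hh
        exact g2 κ hh h5
      · exact Or.inr ((hk κ).1 h5)
    have di := deg_on (M := flp (Equiv.swap i j) M X) (k := i) {κ0, a, b, c} (by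
      intro κ h5
      rcases (ei κ).1 h5 with h6 | h6
      · exact hs κ (Or.inl h6.1)
      · exact hs κ (Or.inr h6.1))
    have dj := deg_on (M := flp (Equiv.swap i j) M X) (k := j) {κ0, a, b, c} (by
      intro κ h5
      rcases (ej κ).1 h5 with h6 | h6
      · exact hs κ (Or.inr h6.1)
      · exact hs κ (Or.inl h6.1))
    have m1 : κ0 ∉ ({a, b, c} : Finset ι) := by simp [n1, n2, n3]
    have m2 : a ∉ ({b, c} : Finset ι) := by simp [h1, h3]
    have m3 : b ∉ ({c} : Finset ι) := by simp [h2]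
    rw [Finset.sum_insert m1, Finset.sum_insert m2, Finset.sum_insert m3,
      Finset.sum_singleton] at di dj
    have f1 := ei κ0
    have f2 := ei a
    have f3 := ei b
    have f4 := ei c
    have f5 := ej κ0
    have f6 := ej a
    have f7 := ej b
    have f8 := ej c
    unfold Hi
    by_cases x0 : (κ0, i) ∈ X <;> by_cases x1 : (a, j) ∈ X <;> by_cases x2 : (b, j) ∈ X <;>
      by_cases x3 : (c, j) ∈ X <;>
      simp [h0.1, h0.2, ja, jb, jc, ia, ib, ic, x0, x1, x2, x3] at h4 f1 f2 f3 f4 f5 f6 f7 f8 <;>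
      simp [f1, f2, f3, f4, f5, f6, f7, f8] at di dj ⊢ <;> omega

lemma avoid2 {M : ι → Finset (Fin Δ)} {i j : Fin Δ} {κ0 : ι}
    (hi : deg M i = 1) (hj : deg M j = 3) (h0 : j ∈ M κ0 ∧ i ∉ M κ0) :
    ∃ B : Blk (ι × Fin Δ), B.Sup (Pin (Equiv.swap i j) M) ∧ ∀ X : Set (ι × Fin Δ),
      (∀ p, B.At X p) → (deg (flp (Equiv.swap i j) M X) i = 2 ∧
        deg (flp (Equiv.swap i j) M X) j = 2) ∨ Hi (flp (Equiv.swap i j) M X) i j κ0 := by
  classical
  have hτ : ∀ k, Equiv.swap i j (Equiv.swap i j k) = k := sw2 i j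
  obtain ⟨κ1, g1, g2⟩ := deg_one hi
  -- the three sets at `j` are `κ0`, `b`, `c`, and `c` contains `i` if possible
  obtain ⟨b, c, h1, h2, h3, hk, hbi⟩ : ∃ b c, κ0 ≠ b ∧ b ≠ c ∧ κ0 ≠ c ∧
      (∀ κ, j ∈ M κ ↔ κ = κ0 ∨ κ = b ∨ κ = c) ∧ i ∉ M b := by
    obtain ⟨b, c, h1, h2, h3, hk⟩ : ∃ b c, κ0 ≠ b ∧ b ≠ c ∧ κ0 ≠ c ∧
        (∀ κ, j ∈ M κ ↔ κ = κ0 ∨ κ = b ∨ κ = c) := by
      obtain ⟨a, b, c, h1, h2, h3, hk⟩ := deg_three hj
      rcases (hk κ0).1 h0.1 with rfl | rfl | rfl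
      · exact ⟨b, c, h1, h2, h3, hk⟩
      · exact ⟨a, c, h1.symm, h3, h2, fun κ => by rw [hk, or_left_comm]⟩
      · exact ⟨a, b, h3.symm, h1, h2.symm, fun κ => by rw [hk, or_rotate, or_rotate]⟩
    by_cases hb : i ∈ M b
    · have e1 : b = κ1 := by
        by_contra hh
        exact g2 b hh hb
      refine ⟨c, b, h3, h2.symm, h1, fun κ => by rw [hk, or_comm (a := κ = b)], g2 c ?_⟩
      rw [← e1]
      exact h2.symm
    · exact ⟨b, c, h1, h2, h3, hk, hb⟩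
  have j0 := h0.1
  have jb := (hk b).2 (Or.inr (Or.inl rfl))
  have jc := (hk c).2 (Or.inr (Or.inr rfl))
  have i0 := h0.2
  have key : ∃ B : Blk (ι × Fin Δ), B.Sup (Pin (Equiv.swap i j) M) ∧ ∀ X : Set (ι × Fin Δ),
      (∀ p, B.At X p) → ¬ ((κ0, j) ∈ X ∧ (b, j) ∈ X) ∧
        (i ∉ M c → ((κ1, i) ∈ X ↔ (c, j) ∈ X)) := by
    by_cases hc : i ∈ M c
    · obtain ⟨B, B1, B2⟩ := exists_nb (c := (κ0, j)) (d := (b, j))
        (fun h => h1 (congrArg Prod.fst h))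
      refine ⟨B, fun x hx => B1 x ?_ ?_, fun X hX => ⟨B2 X hX, fun h => absurd hc h⟩⟩
      · rintro rfl
        exact hx ⟨j0, by rw [Equiv.swap_apply_right]; exact i0⟩
      · rintro rfl
        exact hx ⟨jb, by rw [Equiv.swap_apply_right]; exact hbi⟩
    · have e0 : κ1 ≠ κ0 := fun h => i0 (h ▸ g1)
      have eb : κ1 ≠ b := fun h => hbi (h ▸ g1)
      have ec : κ1 ≠ c := fun h => hc (h ▸ g1)
      obtain ⟨B, B1, B2⟩ := exists_eqnb (a := (κ1, i)) (b := (c, j)) (c := (κ0, j))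
        (d := (b, j)) (fun h => e0 (congrArg Prod.fst h)) (fun h => eb (congrArg Prod.fst h))
        (fun h => h3 (congrArg Prod.fst h).symm) (fun h => h2 (congrArg Prod.fst h).symm)
        (fun h => h1 (congrArg Prod.fst h)) (fun h => ec (congrArg Prod.fst h))
      refine ⟨B, fun x hx => B1 x ?_ ?_ ?_ ?_, fun X hX =>
        ⟨(B2 X hX).2, fun _ => (B2 X hX).1⟩⟩
      · rintro rfl
        refine hx ⟨g1, ?_⟩
        rw [Equiv.swap_apply_left, hk]
        exact fun h => h.elim e0 fun h => h.elim eb ec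
      · rintro rfl
        exact hx ⟨jc, by rw [Equiv.swap_apply_right]; exact hc⟩
      · rintro rfl
        exact hx ⟨j0, by rw [Equiv.swap_apply_right]; exact i0⟩
      · rintro rfl
        exact hx ⟨jb, by rw [Equiv.swap_apply_right]; exact hbi⟩
  obtain ⟨B, B1, B2⟩ := key
  refine ⟨B, B1, fun X hX => ?_⟩
  have h4 := B2 X hX
  have ei : ∀ κ, i ∈ flp (Equiv.swap i j) M X κ ↔ (i ∈ M κ ∧ ¬ ((κ, i) ∈ X ∧ j ∉ M κ)) ∨
      (j ∈ M κ ∧ (κ, j) ∈ X ∧ i ∉ M κ) := fun κ => by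
    rw [mem_flp hτ, Equiv.swap_apply_left]
  have ej : ∀ κ, j ∈ flp (Equiv.swap i j) M X κ ↔ (j ∈ M κ ∧ ¬ ((κ, j) ∈ X ∧ i ∉ M κ)) ∨
      (i ∈ M κ ∧ (κ, i) ∈ X ∧ j ∉ M κ) := fun κ => by
    rw [mem_flp hτ, Equiv.swap_apply_right]
  have m1 : κ0 ∉ ({b, c} : Finset ι) := by simp [h1, h3]
  have m2 : b ∉ ({c} : Finset ι) := by simp [h2]
  have f1 := ei κ0
  have f2 := ei b
  have f3 := ei c
  have f5 := ej κ0
  have f6 := ej b
  have f7 := ej c
  unfold Hi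
  by_cases hc : i ∈ M c
  · have hs : ∀ κ, i ∈ M κ ∨ j ∈ M κ → κ ∈ ({κ0, b, c} : Finset ι) := by
      intro κ h5
      simp only [Finset.mem_insert, Finset.mem_singleton]
      rcases h5 with h5 | h5
      · right
        right
        have e1 : c = κ1 := by
          by_contra hh
          exact g2 c hh hc
        rw [e1]
        by_contra hh
        exact g2 κ hh h5
      · exact (hk κ).1 h5
    have di := deg_on (M := flp (Equiv.swap i j) M X) (k := i) {κ0, b, c} (by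
      intro κ h5
      rcases (ei κ).1 h5 with h6 | h6
      · exact hs κ (Or.inl h6.1)
      · exact hs κ (Or.inr h6.1))
    have dj := deg_on (M := flp (Equiv.swap i j) M X) (k := j) {κ0, b, c} (by
      intro κ h5
      rcases (ej κ).1 h5 with h6 | h6
      · exact hs κ (Or.inr h6.1)
      · exact hs κ (Or.inl h6.1))
    rw [Finset.sum_insert m1, Finset.sum_insert m2, Finset.sum_singleton] at di dj
    by_cases x0 : (κ0, j) ∈ X <;> by_cases x1 : (b, j) ∈ X <;>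
      simp [i0, hbi, hc, j0, jb, jc, x0, x1] at h4 f1 f2 f3 f5 f6 f7 <;>
      simp [f1, f2, f3, f5, f6, f7] at di dj ⊢ <;> omega
  · have n1 : κ1 ≠ κ0 := fun h => i0 (h ▸ g1)
    have n2 : κ1 ≠ b := fun h => hbi (h ▸ g1)
    have n3 : κ1 ≠ c := fun h => hc (h ▸ g1)
    have j1 : j ∉ M κ1 := by
      rw [hk]
      exact fun h => h.elim n1 fun h => h.elim n2 n3
    have hs : ∀ κ, i ∈ M κ ∨ j ∈ M κ → κ ∈ ({κ1, κ0, b, c} : Finset ι) := by
      intro κ h5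
      simp only [Finset.mem_insert, Finset.mem_singleton]
      rcases h5 with h5 | h5
      · left
        by_contra hh
        exact g2 κ hh h5
      · exact Or.inr ((hk κ).1 h5)
    have di := deg_on (M := flp (Equiv.swap i j) M X) (k := i) {κ1, κ0, b, c} (by
      intro κ h5
      rcases (ei κ).1 h5 with h6 | h6
      · exact hs κ (Or.inl h6.1)
      · exact hs κ (Or.inr h6.1))
    have dj := deg_on (M := flp (Equiv.swap i j) M X) (k := j) {κ1, κ0, b, c} (by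
      intro κ h5
      rcases (ej κ).1 h5 with h6 | h6
      · exact hs κ (Or.inr h6.1)
      · exact hs κ (Or.inl h6.1))
    have m0 : κ1 ∉ ({κ0, b, c} : Finset ι) := by simp [n1, n2, n3]
    rw [Finset.sum_insert m0, Finset.sum_insert m1, Finset.sum_insert m2,
      Finset.sum_singleton] at di dj
    have f4 := ei κ1
    have f8 := ej κ1
    by_cases x0 : (κ0, j) ∈ X <;> by_cases x1 : (b, j) ∈ X <;> by_cases x2 : (c, j) ∈ X <;>
      by_cases x3 : (κ1, i) ∈ X <;>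
      simp [i0, hbi, hc, j0, jb, jc, g1, j1, x0, x1, x2, x3] at h4 f1 f2 f3 f4 f5 f6 f7 f8 <;>
      simp [f1, f2, f3, f4, f5, f6, f7, f8] at di dj ⊢ <;> omega

/-- a play after which `κ0` is not alone, or the degrees are 2, 2 -/
lemma avoid {M : ι → Finset (Fin Δ)} {i j : Fin Δ} {κ0 : ι}
    (h : (deg M i = 1 ∧ deg M j = 3) ∨ (deg M i = 3 ∧ deg M j = 1))
    (h0 : (i ∈ M κ0 ∧ j ∉ M κ0) ∨ (j ∈ M κ0 ∧ i ∉ M κ0)) :
    ∃ B : Blk (ι × Fin Δ), B.Sup (Pin (Equiv.swap i j) M) ∧ ∀ X : Set (ι × Fin Δ),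
      (∀ p, B.At X p) → (deg (flp (Equiv.swap i j) M X) i = 2 ∧
        deg (flp (Equiv.swap i j) M X) j = 2) ∨ Hi (flp (Equiv.swap i j) M X) i j κ0 := by
  rcases h with h | h
  · rcases h0 with h0 | h0
    · exact avoid1 h.1 h.2 h0
    · exact avoid2 h.1 h.2 h0
  · rw [Equiv.swap_comm]
    have hH : ∀ M' : ι → Finset (Fin Δ), Hi M' j i κ0 → Hi M' i j κ0 := fun M' => Or.symm
    rcases h0 with h0 | h0
    · obtain ⟨B, B1, B2⟩ := avoid2 h.2 h.1 h0
      exact ⟨B, B1, fun X hX => (B2 X hX).imp And.symm (hH _)⟩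
    · obtain ⟨B, B1, B2⟩ := avoid1 h.2 h.1 h0
      exact ⟨B, B1, fun X hX => (B2 X hX).imp And.symm (hH _)⟩

end avoid

end Pool.Agent.SGM
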