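import Pool.Agent.SGM.GAM

set_option autoImplicit false

/-! MP_fff3e1_lc, the Gamma lemma (idea row 3505): the words and the theorem. -/

namespace Pool.Agent.SGM

open Set

universe u

variable {ι : Type u} {Δ : ℕ}

/-- the colours of the nodes -/
def On (l : List (Fin Δ × Fin Δ)) (k : Fin Δ) : Prop := ∃ N ∈ l, k = N.1 ∨ k = N.2

/-- disjoint pairs -/
def Nd (l : List (Fin Δ × Fin Δ)) : Prop := l.Nodup ∧ (∀ N ∈ l, N.1 ≠ N.2) ∧
  ∀ N ∈ l, ∀ N' ∈ l, N ≠ N' → N.1 ≠ N'.1 ∧ N.1 ≠ N'.2 ∧ N.2 ≠ N'.1 ∧ N.2 ≠ N'.2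

/-- the letter of a node -/
def sw (N : Fin Δ × Fin Δ) : Fin Δ → Fin Δ := Equiv.swap N.1 N.2

/-- the word `w(A)` -/
def gw : ℕ → List (Fin Δ × Fin Δ) → List (Fin Δ → Fin Δ)
  | 0, _ => []
  | n + 1, l => l.flatMap fun N => sw N :: gw n (l.erase N)

/-- the word `K_M` -/
def KM (l : List (Fin Δ × Fin Δ)) : List (Fin Δ → Fin Δ) :=
  l.sublists.flatMap fun l' => gw l'.length l'

lemma sw_invol (N : Fin Δ × Fin Δ) (k : Fin Δ) : sw N (sw N k) = k := sw2 _ _ _

lemma sw_fix {N : Fin Δ × Fin Δ} {k : Fin Δ} (h1 : k ≠ N.1) (h2 : k ≠ N.2) : sw N k = k :=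
  Equiv.swap_apply_of_ne_of_ne h1 h2

lemma sw_fst (N : Fin Δ × Fin Δ) : sw N N.1 = N.2 := Equiv.swap_apply_left _ _

lemma sw_snd (N : Fin Δ × Fin Δ) : sw N N.2 = N.1 := Equiv.swap_apply_right _ _

lemma gw_mem {n : ℕ} {l : List (Fin Δ × Fin Δ)} {τ : Fin Δ → Fin Δ} (h : τ ∈ gw n l) :
    ∃ N ∈ l, τ = sw N := by
  induction n generalizing l with
  | zero => simp [gw] at h
  | succ n ih =>
    unfold gw at h
    rw [List.mem_flatMap] at h
    obtain ⟨N, hN, h1⟩ := h
    rcases List.mem_cons.1 h1 with h2 | h2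
    · exact ⟨N, hN, h2⟩
    · obtain ⟨N', h3, h4⟩ := ih h2
      exact ⟨N', List.mem_of_mem_erase h3, h4⟩

/-- the letters of `w` are letters of nodes of `l` -/
def Let (l : List (Fin Δ × Fin Δ)) (w : List (Fin Δ → Fin Δ)) : Prop :=
  ∀ τ ∈ w, ∃ N ∈ l, τ = sw N

lemma Let.invol {l : List (Fin Δ × Fin Δ)} {w : List (Fin Δ → Fin Δ)} (h : Let l w) :
    ∀ τ ∈ w, ∀ k, τ (τ k) = k := by
  intro τ hτ k
  obtain ⟨N, _, rfl⟩ := h τ hτ
  exact sw_invol N k

lemma Let.fix {l : List (Fin Δ × Fin Δ)} {w : List (Fin Δ → Fin Δ)} (h : Let l w) {k : Fin Δ}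
    (hk : ¬ On l k) : ∀ τ ∈ w, τ k = k := by
  intro τ hτ
  obtain ⟨N, hN, rfl⟩ := h τ hτ
  exact sw_fix (fun h => hk ⟨N, hN, Or.inl h⟩) (fun h => hk ⟨N, hN, Or.inr h⟩)

lemma gw_let (n : ℕ) (l : List (Fin Δ × Fin Δ)) : Let l (gw n l) := fun _ => gw_mem

lemma Let.mono {l l' : List (Fin Δ × Fin Δ)} (h : ∀ N ∈ l, N ∈ l')
    {w : List (Fin Δ → Fin Δ)} (hw : Let l w) : Let l' w := by
  intro τ hτ
  obtain ⟨N, hN, h1⟩ := hw τ hτ
  exact ⟨N, h N hN, h1⟩

lemma KM_let (l : List (Fin Δ × Fin Δ)) : Let l (KM l) := by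
  intro τ hτ
  unfold KM at hτ
  rw [List.mem_flatMap] at hτ
  obtain ⟨l', h1, h2⟩ := hτ
  obtain ⟨N, h3, h4⟩ := gw_mem h2
  exact ⟨N, (List.mem_sublists.1 h1).subset h3, h4⟩

lemma Nd.erase {l : List (Fin Δ × Fin Δ)} (h : Nd l) (N : Fin Δ × Fin Δ) : Nd (l.erase N) :=
  ⟨h.1.erase N, fun N' h' => h.2.1 N' (List.mem_of_mem_erase h'), fun N1 h1 N2 h2 =>
    h.2.2 N1 (List.mem_of_mem_erase h1) N2 (List.mem_of_mem_erase h2)⟩

lemma Nd.sub {l l' : List (Fin Δ × Fin Δ)} (h : Nd l) (hs : l'.Sublist l) : Nd l' :=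
  ⟨h.1.sublist hs, fun N' h' => h.2.1 N' (hs.subset h'), fun N1 h1 N2 h2 =>
    h.2.2 N1 (hs.subset h1) N2 (hs.subset h2)⟩

section degree

variable [Fintype ι]

/-- a pair (leaf, 3) -/
def LH (M : ι → Finset (Fin Δ)) (N : Fin Δ × Fin Δ) : Prop :=
  (deg M N.1 = 1 ∧ deg M N.2 = 3) ∨ (deg M N.1 = 3 ∧ deg M N.2 = 1)

/-- outside the nodes all degrees are 0 or 2 except for one leaf and one 3, or there are
no exceptions -/
def Out (l : List (Fin Δ × Fin Δ)) (M : ι → Finset (Fin Δ)) : Prop :=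
  (∀ k, ¬ On l k → deg M k = 0 ∨ deg M k = 2) ∨
  ∃ a b, ¬ On l a ∧ ¬ On l b ∧ deg M a = 1 ∧ deg M b = 3 ∧
    ∀ k, ¬ On l k → k ≠ a → k ≠ b → deg M k = 0 ∨ deg M k = 2

lemma phi_swap {M M' : ι → Finset (Fin Δ)} {i j : Fin Δ} (hne : i ≠ j)
    (h : ∀ k, k ≠ i → k ≠ j → deg M' k = deg M k) :
    Phi M' + (deg M i ^ 2 + deg M j ^ 2) = Phi M + (deg M' i ^ 2 + deg M' j ^ 2) := by
  classical
  have e : ∀ f : Fin Δ → ℕ, ∑ k, f k =
      f i + (f j + ∑ k ∈ ((Finset.univ : Finset (Fin Δ)).erase i).erase j, f k) := by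
    intro f
    rw [Finset.add_sum_erase _ _ (Finset.mem_erase.2 ⟨hne.symm, Finset.mem_univ j⟩),
      Finset.add_sum_erase _ _ (Finset.mem_univ i)]
  have h2 : ∑ k ∈ ((Finset.univ : Finset (Fin Δ)).erase i).erase j, deg M' k ^ 2 =
      ∑ k ∈ ((Finset.univ : Finset (Fin Δ)).erase i).erase j, deg M k ^ 2 := by
    refine Finset.sum_congr rfl fun k hk => ?_
    rw [Finset.mem_erase, Finset.mem_erase] at hk
    rw [h k hk.2.1 hk.1]
  unfold Phi
  rw [e fun k => deg M' k ^ 2, e fun k => deg M k ^ 2, h2]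
  ring

/-- the degrees of `M'` are a rearrangement of those of `M` inside the nodes -/
def Rr (l : List (Fin Δ × Fin Δ)) (M M' : ι → Finset (Fin Δ)) : Prop :=
  Ok M' ∧ Phi M' = Phi M ∧ ∃ σ : Equiv.Perm (Fin Δ),
    (∀ N ∈ l, (σ N.1 = N.1 ∧ σ N.2 = N.2) ∨ (σ N.1 = N.2 ∧ σ N.2 = N.1)) ∧
    (∀ k, ¬ On l k → σ k = k) ∧ ∀ k, deg M' k = deg M (σ k)

lemma Rr.refl {l : List (Fin Δ × Fin Δ)} {M : ι → Finset (Fin Δ)} (h : Ok M) : Rr l M M :=
  ⟨h, rfl, 1, fun _ _ => Or.inl ⟨rfl, rfl⟩, fun _ _ => rfl, fun _ => rfl⟩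

/-- balanced play in one round of a node -/
lemma bal_step {l : List (Fin Δ × Fin Δ)} (hl : Nd l) {N : Fin Δ × Fin Δ} (hN : N ∈ l)
    {M0 M : ι → Finset (Fin Δ)} (h : Rr l M0 M) :
    ∃ B : Blk (ι × Fin Δ), B.Sup (Pin (sw N) M) ∧ ∀ X : Set (ι × Fin Δ), (∀ p, B.At X p) →
      Phi (flp (sw N) M X) < Phi M0 ∨ Rr l M0 (flp (sw N) M X) := by
  obtain ⟨h1, h2, σ, h3, h4, h5⟩ := h
  obtain ⟨B, B1, B2⟩ := balanced_phi (sw_invol N) M
  refine ⟨B, B1, fun X hX => ?_⟩
  rcases B2 X hX with g | ⟨g1, g2⟩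
  · left
    rw [← h2]
    exact g
  right
  refine ⟨h1.flp (sw_invol N) X, by rw [g1, h2], ?_⟩
  rcases g2 N.1 with g3 | g3
  · refine ⟨σ, h3, h4, fun k => ?_⟩
    rw [← h5]
    by_cases e1 : k = N.1
    · rw [e1]
      exact g3.1
    · by_cases e2 : k = N.2
      · rw [e2, ← sw_fst]
        exact g3.2
      · exact deg_fix (sw_invol N) M X (sw_fix e1 e2)
  · have hN' := h3 N hN
    refine ⟨σ * Equiv.swap N.1 N.2, fun N' h' => ?_, fun k hk => ?_, fun k => ?_⟩
    · rw [Equiv.Perm.mul_apply, Equiv.Perm.mul_apply]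
      by_cases e : N' = N
      · rw [e, Equiv.swap_apply_left, Equiv.swap_apply_right]
        tauto
      · have hd := hl.2.2 N' h' N hN e
        rw [Equiv.swap_apply_of_ne_of_ne hd.1 hd.2.1,
          Equiv.swap_apply_of_ne_of_ne hd.2.2.1 hd.2.2.2]
        exact h3 N' h'
    · rw [Equiv.Perm.mul_apply, Equiv.swap_apply_of_ne_of_ne
        (fun h => hk ⟨N, hN, Or.inl h⟩) (fun h => hk ⟨N, hN, Or.inr h⟩)]
      exact h4 k hk
    · rw [Equiv.Perm.mul_apply, ← h5]
      by_cases e1 : k = N.1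
      · rw [e1, Equiv.swap_apply_left, g3.1, sw_fst]
      · by_cases e2 : k = N.2
        · have := g3.2
          rw [sw_fst] at this
          rw [e2, Equiv.swap_apply_right, this]
        · rw [Equiv.swap_apply_of_ne_of_ne e1 e2]
          exact deg_fix (sw_invol N) M X (sw_fix e1 e2)

/-- an invariant which every play keeps, together with balanced play -/
lemma bal_word {l : List (Fin Δ × Fin Δ)} (hl : Nd l) {w : List (Fin Δ → Fin Δ)}
    (hw : Let l w) (Q : (ι → Finset (Fin Δ)) → Prop)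
    (hQ : ∀ N ∈ l, ∀ M X, Q M → Q (flp (sw N) M X)) {M0 M : ι → Finset (Fin Δ)}
    (h : Rr l M0 M) (hQM : Q M) :
    WinT (fun M' => Tg (Phi M0) M' ∨ (Rr l M0 M' ∧ Q M')) w M := by
  induction w generalizing M with
  | nil => exact Or.inr ⟨h, hQM⟩
  | cons τ w ih =>
    obtain ⟨N, hN, rfl⟩ := hw τ (by simp)
    have hw' : Let l w := fun σ hσ => hw σ (by simp [hσ])
    obtain ⟨B, B1, B2⟩ := bal_step hl hN h
    refine ⟨B, B1, fun X hX => ?_⟩
    rcases B2 X hX with g | g
    · exact (tg_stay hw'.invol (Or.inr g)).mono fun M' h' => Or.inl h'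
    · exact ih hw' g (hQ N hN M X hQM)

lemma Rr.LH {l : List (Fin Δ × Fin Δ)} {M0 M : ι → Finset (Fin Δ)} (h : Rr l M0 M)
    {N : Fin Δ × Fin Δ} (hN : N ∈ l) (h0 : LH M0 N) : LH M N := by
  obtain ⟨_, _, σ, h3, _, h5⟩ := h
  unfold Pool.Agent.SGM.LH at h0 ⊢
  rw [h5, h5]
  rcases h3 N hN with g | g
  · rw [g.1, g.2]
    exact h0
  · rw [g.1, g.2]
    tauto

lemma Rr.Out {l : List (Fin Δ × Fin Δ)} {M0 M : ι → Finset (Fin Δ)} (h : Rr l M0 M)
    {l' : List (Fin Δ × Fin Δ)} (hl' : ∀ N ∈ l', N ∈ l) (h0 : Out l' M0) : Out l' M := by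
  obtain ⟨_, _, σ, h3, _, h5⟩ := h
  have key : ∀ k, On l' (σ k) → On l' k := by
    rintro k ⟨N, hN, h6⟩
    have hi : ∀ x y, σ x = σ y → x = y := fun x y h => σ.injective h
    rcases h3 N (hl' N hN) with g | g <;> rcases h6 with h6 | h6
    · exact ⟨N, hN, Or.inl (hi _ _ (h6.trans g.1.symm))⟩
    · exact ⟨N, hN, Or.inr (hi _ _ (h6.trans g.2.symm))⟩
    · exact ⟨N, hN, Or.inr (hi _ _ (h6.trans g.2.symm))⟩
    · exact ⟨N, hN, Or.inl (hi _ _ (h6.trans g.1.symm))⟩
  have key' : ∀ k, ¬ On l' k → ¬ On l' (σ k) := fun k h h' => h (key k h')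
  have key2 : ∀ k, ¬ On l' k → ¬ On l' (σ.symm k) := by
    intro k hk h'
    obtain ⟨N, hN, h6⟩ := h'
    apply hk
    rcases h3 N (hl' N hN) with g | g <;> rcases h6 with h6 | h6
    · exact ⟨N, hN, Or.inl (by rw [← g.1, ← h6, Equiv.apply_symm_apply])⟩
    · exact ⟨N, hN, Or.inr (by rw [← g.2, ← h6, Equiv.apply_symm_apply])⟩
    · exact ⟨N, hN, Or.inr (by rw [← g.1, ← h6, Equiv.apply_symm_apply])⟩
    · exact ⟨N, hN, Or.inl (by rw [← g.2, ← h6, Equiv.apply_symm_apply])⟩
  rcases h0 with h0 | ⟨a, b, h1, h2, h6, h7, h8⟩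
  · left
    intro k hk
    rw [h5]
    exact h0 _ (key' k hk)
  · right
    refine ⟨σ.symm a, σ.symm b, key2 a h1, key2 b h2, ?_, ?_, fun k hk h9 h10 => ?_⟩
    · rw [h5, Equiv.apply_symm_apply, h6]
    · rw [h5, Equiv.apply_symm_apply, h7]
    · rw [h5]
      refine h8 _ (key' k hk) (fun h => h9 ?_) (fun h => h10 ?_)
      · rw [← h, Equiv.symm_apply_apply]
      · rw [← h, Equiv.symm_apply_apply]

/-- the thread of the leaf outside the nodes -/
lemma chain {l : List (Fin Δ × Fin Δ)} {w : List (Fin Δ → Fin Δ)} (hw : Let l w)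
    (hA : ∀ M : ι → Finset (Fin Δ), Ok M → (∀ N ∈ l, LH M N) →
      (∀ k, ¬ On l k → deg M k = 0 ∨ deg M k = 2) → WinT (Tg (Phi M)) w M)
    (hC : ∀ M : ι → Finset (Fin Δ), Ok M → (∀ N ∈ l, LH M N) → ∀ a b c κ0, ¬ On l a →
      ¬ On l b → deg M a = 1 → deg M b = 3 →
      (∀ k, ¬ On l k → k ≠ a → k ≠ b → deg M k = 0 ∨ deg M k = 2) → c ≠ a → a ∈ M κ0 →
      c ∈ M κ0 → (∀ k, k ∈ M κ0 → k = a ∨ k = c) → On l c → WinT (Tg (Phi M)) w M) :
    ∀ (m : ℕ) (M : ι → Finset (Fin Δ)), nn M = m → Ok M → (∀ N ∈ l, LH M N) → Out l M →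
      WinT (Tg (Phi M)) w M := by
  intro m
  induction m using Nat.strong_induction_on with
  | _ m ih =>
  intro M hm hO hL hout
  rcases hout with hout | ⟨a, b, ha, hb, h1, h3, hr⟩
  · exact hA M hO hL hout
  obtain ⟨κ0, ha0, hu⟩ := deg_one h1
  obtain ⟨c, hca, hc0, hk⟩ := hO.other ha0
  by_cases hc : On l c
  · exact hC M hO hL a b c κ0 ha hb h1 h3 hr hca ha0 hc0 hk hc
  have hn : ∀ k, k ≠ a → k ≠ c → deg (rm M κ0) k = deg M k := fun k g1 g2 =>
    deg_rm_notMem fun h => (hk k h).elim g1 g2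
  have hda := deg_rm_mem ha0
  have hdc := deg_rm_mem hc0
  have hL' : ∀ N ∈ l, LH (rm M κ0) N := by
    intro N hN
    have g1 : N.1 ≠ a := fun h => ha ⟨N, hN, Or.inl h.symm⟩
    have g2 : N.1 ≠ c := fun h => hc ⟨N, hN, Or.inl h.symm⟩
    have g3 : N.2 ≠ a := fun h => ha ⟨N, hN, Or.inr h.symm⟩
    have g4 : N.2 ≠ c := fun h => hc ⟨N, hN, Or.inr h.symm⟩
    unfold LH
    rw [hn _ g1 g2, hn _ g3 g4]
    exact hL N hN
  have hab : a ≠ b := by
    rintro rfl
    omega
  have hout' : Out l (rm M κ0) := by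
    by_cases hcb : c = b
    · left
      intro k hk'
      by_cases e1 : k = a
      · left
        rw [e1]
        omega
      · by_cases e2 : k = c
        · right
          rw [e2]
          rw [hcb] at hdc ⊢
          omega
        · rw [hn k e1 e2]
          exact hr k hk' e1 (by rw [← hcb]; exact e2)
    · right
      have hc2 : deg M c = 2 := by
        rcases hr c hc hca hcb with g | g
        · omega
        · exact g
      refine ⟨c, b, hc, hb, by omega, ?_, fun k hk' e1 e2 => ?_⟩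
      · rw [hn b hab.symm (Ne.symm hcb)]
        exact h3
      · by_cases e3 : k = a
        · left
          rw [e3]
          omega
        · rw [hn k e3 e1]
          exact hr k hk' e3 e2
  have h5 := ih (nn (rm M κ0)) (hm ▸ nn_rm ⟨a, ha0⟩) (rm M κ0) rfl (hO.rm κ0) hL' hout'
  exact win_rm hw.invol (hw.fix ha) (hw.fix hc) hca ha0 hc0 hk h1 h5

lemma tg_append {c : ℕ} {w w' : List (Fin Δ → Fin Δ)} (hw : ∀ τ ∈ w', ∀ k, τ (τ k) = k)
    {M : ι → Finset (Fin Δ)} (h : WinT (Tg c) w M) : WinT (Tg c) (w ++ w') M := by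
  rw [winT_append]
  exact h.mono fun M' h' => tg_stay hw h'

lemma gamma_main (d : Fin Δ) : ∀ (n : ℕ) (l : List (Fin Δ × Fin Δ)), l.length = n → Nd l →
    ∀ M : ι → Finset (Fin Δ), Ok M → (∀ N ∈ l, LH M N) → Out l M →
      WinT (Tg (Phi M)) (gw n l) M := by
  intro n
  induction n with
  | zero =>
    intro l hlen hl M hO hL hout
    have hl0 : l = [] := List.length_eq_zero_iff.1 hlen
    subst hl0
    refine chain (gw_let 0 []) ?_ ?_ (nn M) M rfl hO hL hout
    · intro M hO _ h
      left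
      refine sdr_of_deg d hO fun k => ?_
      have := h k (by rintro ⟨N, hN, _⟩; simp at hN)
      omega
    · rintro M _ _ a b c κ0 _ _ _ _ _ _ _ _ _ ⟨N, hN, _⟩
      simp at hN
  | succ n ih =>
    intro l hlen hl M hO hL hout
    refine chain (gw_let (n + 1) l) ?_ ?_ (nn M) M rfl hO hL hout
    · intro M hO hL h
      obtain ⟨N, l', rfl⟩ : ∃ N l', l = N :: l' := by
        cases l with
        | nil => simp at hlen
        | cons N l' => exact ⟨N, l', rfl⟩
      have hN : N ∈ N :: l' := by simp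
      have hlen' : ((N :: l').erase N).length = n := by
        rw [List.length_erase_of_mem hN, hlen]
        rfl
      have hmem : ∀ N' ∈ (N :: l').erase N, N' ∈ N :: l' ∧ N' ≠ N := by
        intro N' h'
        rw [hl.1.mem_erase_iff] at h'
        exact ⟨h'.2, h'.1⟩
      unfold gw
      rw [List.flatMap_cons]
      have hinv : ∀ τ ∈ l'.flatMap (fun N' => sw N' :: gw n ((N :: l').erase N')),
          ∀ k, τ (τ k) = k := by
        intro τ hτ
        refine (gw_let (n + 1) (N :: l')).invol τ ?_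
        unfold gw
        rw [List.flatMap_cons]
        exact List.mem_append_right _ hτ
      refine tg_append hinv ?_
      obtain ⟨B, B1, B2⟩ := bal_step hl hN (Rr.refl (l := N :: l') hO)
      refine ⟨B, B1, fun X hX => ?_⟩
      rcases B2 X hX with g | g
      · exact tg_stay (gw_let _ _).invol (Or.inr g)
      · generalize flp (sw N) M X = M1 at g
        have hL1 : ∀ N' ∈ N :: l', LH M1 N' := fun N' h' => g.LH h' (hL N' h')
        have hr1 : ∀ k, ¬ On (N :: l') k → deg M1 k = 0 ∨ deg M1 k = 2 := by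
          intro k hk
          obtain ⟨_, _, σ, _, g4, g5⟩ := g
          rw [g5, g4 k hk]
          exact h k hk
        have hon : ∀ k, ¬ On ((N :: l').erase N) k → k ≠ N.1 → k ≠ N.2 →
            ¬ On (N :: l') k := by
          rintro k hk e1 e2 ⟨N', hN', e3⟩
          by_cases e4 : N' = N
          · subst e4
            exact e3.elim e1 e2
          · exact hk ⟨N', (hl.1.mem_erase_iff).2 ⟨e4, hN'⟩, e3⟩
        have hn1 : ¬ On ((N :: l').erase N) N.1 := by
          rintro ⟨N', hN', e3⟩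
          have h5 := hmem N' hN'
          have h6 := hl.2.2 N hN N' h5.1 h5.2.symm
          exact e3.elim h6.1 h6.2.1
        have hn2 : ¬ On ((N :: l').erase N) N.2 := by
          rintro ⟨N', hN', e3⟩
          have h5 := hmem N' hN'
          have h6 := hl.2.2 N hN N' h5.1 h5.2.symm
          exact e3.elim h6.2.2.1 h6.2.2.2
        have h7 := ih ((N :: l').erase N) hlen' (hl.erase N) M1 g.1
          (fun N' h' => hL1 N' (hmem N' h').1) (by
            right
            rcases hL1 N hN with h8 | h8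
            · exact ⟨N.1, N.2, hn1, hn2, h8.1, h8.2, fun k hk e1 e2 => hr1 k (hon k hk e1 e2)⟩
            · exact ⟨N.2, N.1, hn2, hn1, h8.2, h8.1, fun k hk e1 e2 => hr1 k (hon k hk e2 e1)⟩)
        rwa [g.2.1] at h7
    · intro M hO hL a b c κ0 ha hb h1 h3 hr hca ha0 hc0 hk hc
      obtain ⟨N, hN, hcN⟩ := hc
      obtain ⟨l1, l2, hl12⟩ := List.append_of_mem hN
      have hlen' : (l.erase N).length = n := by
        rw [List.length_erase_of_mem hN, hlen]
        rfl
      have hmem : ∀ N' ∈ l.erase N, N' ∈ l ∧ N' ≠ N := by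
        intro N' h'
        rw [hl.1.mem_erase_iff] at h'
        exact ⟨h'.2, h'.1⟩
      have hword : gw (n + 1) l = l1.flatMap (fun N' => sw N' :: gw n (l.erase N')) ++
          ((sw N :: gw n (l.erase N)) ++ l2.flatMap fun N' => sw N' :: gw n (l.erase N')) := by
        have e : gw (n + 1) l = l.flatMap fun N' => sw N' :: gw n (l.erase N') := rfl
        rw [e]
        conv_lhs =>
          arg 2
          rw [hl12]
        rw [List.flatMap_append, List.flatMap_cons]
      have hLet := gw_let (n + 1) l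
      rw [hword] at hLet ⊢
      have hLet1 : Let l (l1.flatMap fun N' => sw N' :: gw n (l.erase N')) := fun τ hτ =>
        hLet τ (List.mem_append_left _ hτ)
      have hLet2 : Let l (l2.flatMap fun N' => sw N' :: gw n (l.erase N')) := fun τ hτ =>
        hLet τ (List.mem_append_right _ (List.mem_append_right _ hτ))
      have hLet3 : Let l (sw N :: gw n (l.erase N)) := fun τ hτ =>
        hLet τ (List.mem_append_right _ (List.mem_append_left _ hτ))
      rw [winT_append]
      have haN1 : a ≠ N.1 := fun h => ha ⟨N, hN, Or.inl h⟩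
      have haN2 : a ≠ N.2 := fun h => ha ⟨N, hN, Or.inr h⟩
      -- the other end of the thread stays at the node
      let Q : (ι → Finset (Fin Δ)) → Prop := fun M' => a ∈ M' κ0 ∧
        ∃ c', (c' = N.1 ∨ c' = N.2) ∧ c' ∈ M' κ0 ∧ ∀ k, k ∈ M' κ0 → k = a ∨ k = c'
      have hQ : ∀ N' ∈ l, ∀ (M' : ι → Finset (Fin Δ)) X, Q M' → Q (flp (sw N') M' X) := by
        rintro N' hN' M' X ⟨g1, c', g2, g3, g4⟩
        have fa : sw N' a = a := sw_fix (fun h => ha ⟨N', hN', Or.inl h⟩)
          (fun h => ha ⟨N', hN', Or.inr h⟩)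
        refine ⟨(mem_flp_fix (sw_invol N') fa).2 g1, ?_⟩
        have g5 : sw N' c' = N.1 ∨ sw N' c' = N.2 := by
          by_cases e : N' = N
          · subst e
            rcases g2 with g2 | g2
            · right
              rw [g2, sw_fst]
            · left
              rw [g2, sw_snd]
          · have h6 := hl.2.2 N hN N' hN' (Ne.symm e)
            rcases g2 with g2 | g2
            · left
              rw [g2]
              exact sw_fix h6.1 h6.2.1
            · right
              rw [g2]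
              exact sw_fix h6.2.2.1 h6.2.2.2
        by_cases e : (κ0, c') ∈ X ∧ sw N' c' ∉ M' κ0
        · refine ⟨sw N' c', g5, ?_, fun k hk' => ?_⟩
          · rw [mem_flp (sw_invol N'), sw_invol]
            exact Or.inr ⟨g3, e.1, e.2⟩
          · rcases (mem_flp (sw_invol N')).1 hk' with g6 | g6
            · rcases g4 k g6.1 with g7 | g7
              · exact Or.inl g7
              · subst g7
                exact absurd e g6.2
            · rcases g4 _ g6.1 with g7 | g7
              · left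
                rw [← sw_invol N' k, g7, fa]
              · right
                rw [← g7, sw_invol]
        · refine ⟨c', g2, ?_, fun k hk' => ?_⟩
          · rw [mem_flp (sw_invol N')]
            exact Or.inl ⟨g3, e⟩
          · rcases (mem_flp (sw_invol N')).1 hk' with g6 | g6
            · exact g4 k g6.1
            · rcases g4 _ g6.1 with g7 | g7
              · left
                rw [← sw_invol N' k, g7, fa]
              · exfalso
                apply e
                rw [← g7, sw_invol]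
                exact ⟨g6.2.1, g6.2.2⟩
      refine (bal_word hl hLet1 Q hQ (Rr.refl hO) ⟨ha0, c, hcN, hc0, hk⟩).mono fun M1 h5 => ?_
      rcases h5 with h5 | ⟨h5, h6⟩
      · rw [winT_append]
        exact (tg_stay hLet3.invol h5).mono fun M' h' => tg_stay hLet2.invol h'
      refine tg_append hLet2.invol ?_
      have hL1 : ∀ N' ∈ l, LH M1 N' := fun N' h' => h5.LH h' (hL N' h')
      have hout1 : ∀ k, ¬ On l k → deg M1 k = deg M k := by
        intro k hk'
        obtain ⟨_, _, σ, _, g4, g5⟩ := h5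
        rw [g5, g4 k hk']
      have hne : N.1 ≠ N.2 := hl.2.1 N hN
      obtain ⟨B, B1, B2⟩ := avoid (M := M1) (i := N.1) (j := N.2) (κ0 := κ0) (hL1 N hN) (by
        obtain ⟨_, c', g2, g3, g4⟩ := h6
        rcases g2 with g2 | g2
        · left
          rw [g2] at g3 g4
          refine ⟨g3, fun h => ?_⟩
          rcases g4 _ h with g5 | g5
          · exact haN2 g5.symm
          · exact hne g5.symm
        · right
          rw [g2] at g3 g4
          refine ⟨g3, fun h => ?_⟩
          rcases g4 _ h with g5 | g5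
          · exact haN1 g5.symm
          · exact hne g5)
      refine ⟨B, B1, fun X hX => ?_⟩
      have hfix : ∀ k, k ≠ N.1 → k ≠ N.2 → deg (flp (sw N) M1 X) k = deg M1 k :=
        fun k e1 e2 => deg_fix (sw_invol N) M1 X (sw_fix e1 e2)
      have hphi := phi_swap hne hfix
      have hOk2 : Ok (flp (sw N) M1 X) := h5.1.flp (sw_invol N) X
      have hQ2 : Q (flp (sw N) M1 X) := hQ N hN M1 X h6
      have hB := B2 X hX
      have hcast : flp (Equiv.swap N.1 N.2) M1 X = flp (sw N) M1 X := rfl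
      rw [hcast] at hB
      generalize flp (sw N) M1 X = M2 at hfix hphi hOk2 hQ2 hB
      have hLN := hL1 N hN
      rcases hB with hB | hB
      · refine tg_stay (gw_let _ _).invol (Or.inr ?_)
        rw [hB.1, hB.2] at hphi
        rw [← h5.2.1]
        rcases hLN with g | g
        · rw [g.1, g.2] at hphi
          omega
        · rw [g.1, g.2] at hphi
          omega
      -- `h` is the vertex of degree 3, `x` the leaf
      obtain ⟨h, x, hhx, hh3, hx1, hh0, hN1⟩ : ∃ h x, h ≠ x ∧ deg M2 h = 3 ∧ deg M2 x = 1 ∧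
          h ∈ M2 κ0 ∧ ((h = N.1 ∧ x = N.2) ∨ (h = N.2 ∧ x = N.1)) := by
        rcases hB with g | g
        · exact ⟨N.1, N.2, hne, g.1, g.2.1, g.2.2, Or.inl ⟨rfl, rfl⟩⟩
        · exact ⟨N.2, N.1, hne.symm, g.1, g.2.1, g.2.2, Or.inr ⟨rfl, rfl⟩⟩
      have hphi2 : Phi M2 = Phi M := by
        rw [← h5.2.1]
        rcases hLN with g | g <;> rcases hN1 with g' | g' <;> rw [g'.1] at hh3 <;>
          rw [g'.2] at hx1 <;> rw [g.1, g.2] at hphi <;> rw [hh3, hx1] at hphi <;> omega
      obtain ⟨ha2, c', hc'N, hc'0, hk2⟩ := hQ2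
      have hah : h ≠ a := by
        rcases hN1 with g | g
        · rw [g.1]
          exact haN1.symm
        · rw [g.1]
          exact haN2.symm
      have hax : x ≠ a := by
        rcases hN1 with g | g
        · rw [g.2]
          exact haN2.symm
        · rw [g.2]
          exact haN1.symm
      have hhc : h = c' := (hk2 h hh0).resolve_left hah
      subst hhc
      have hn : ∀ k, k ≠ a → k ≠ h → deg (rm M2 κ0) k = deg M2 k := fun k g1 g2 =>
        deg_rm_notMem fun h' => (hk2 k h').elim g1 g2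
      have hda := deg_rm_mem ha2
      have hdh := deg_rm_mem hh0
      have ha1 : deg M2 a = 1 := by
        rw [hfix a haN1 haN2, hout1 a ha, h1]
      have hn1 : ¬ On (l.erase N) N.1 := by
        rintro ⟨N', hN', e3⟩
        have h7 := hmem N' hN'
        have h8 := hl.2.2 N hN N' h7.1 h7.2.symm
        exact e3.elim h8.1 h8.2.1
      have hn2 : ¬ On (l.erase N) N.2 := by
        rintro ⟨N', hN', e3⟩
        have h7 := hmem N' hN'
        have h8 := hl.2.2 N hN N' h7.1 h7.2.symm
        exact e3.elim h8.2.2.1 h8.2.2.2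
      have hnh : ¬ On (l.erase N) h := by
        rcases hN1 with g | g
        · rw [g.1]
          exact hn1
        · rw [g.1]
          exact hn2
      have hnx : ¬ On (l.erase N) x := by
        rcases hN1 with g | g
        · rw [g.2]
          exact hn2
        · rw [g.2]
          exact hn1
      have hsub : ∀ k, ¬ On l k → ¬ On (l.erase N) k := by
        rintro k hk' ⟨N', hN', e3⟩
        exact hk' ⟨N', (hmem N' hN').1, e3⟩
      have hon : ∀ k, ¬ On (l.erase N) k → k ≠ x → k ≠ h → ¬ On l k := by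
        rintro k hk' e1 e2 ⟨N', hN', e3⟩
        by_cases e4 : N' = N
        · subst e4
          rcases hN1 with g | g
          · rcases e3 with e3 | e3
            · exact e2 (e3.trans g.1.symm)
            · exact e1 (e3.trans g.2.symm)
          · rcases e3 with e3 | e3
            · exact e1 (e3.trans g.2.symm)
            · exact e2 (e3.trans g.1.symm)
        · exact hk' ⟨N', (hl.1.mem_erase_iff).2 ⟨e4, hN'⟩, e3⟩
      have hbN1 : b ≠ N.1 := fun h => hb ⟨N, hN, Or.inl h⟩
      have hbN2 : b ≠ N.2 := fun h => hb ⟨N, hN, Or.inr h⟩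
      have hab : a ≠ b := by
        rintro rfl
        omega
      have hbh : b ≠ h := by
        rcases hN1 with g | g
        · rw [g.1]
          exact hbN1
        · rw [g.1]
          exact hbN2
      have h9 := ih (l.erase N) hlen' (hl.erase N) (rm M2 κ0) (hOk2.rm κ0) (by
          intro N' hN'
          have h7 := hmem N' hN'
          have h8 := hl.2.2 N' h7.1 N hN h7.2
          have g1 : N'.1 ≠ a := fun h => ha ⟨N', h7.1, Or.inl h.symm⟩
          have g3 : N'.2 ≠ a := fun h => ha ⟨N', h7.1, Or.inr h.symm⟩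
          have g2 : N'.1 ≠ h := fun e => hnh ⟨N', hN', Or.inl e.symm⟩
          have g4 : N'.2 ≠ h := fun e => hnh ⟨N', hN', Or.inr e.symm⟩
          unfold LH
          rw [hn _ g1 g2, hn _ g3 g4, hfix _ h8.1 h8.2.1, hfix _ h8.2.2.1 h8.2.2.2]
          exact hL1 N' h7.1) (by
          right
          refine ⟨x, b, hnx, hsub b hb, ?_, ?_, fun k hk' e1 e2 => ?_⟩
          · rw [hn x hax hhx.symm, hx1]
          · rw [hn b hab.symm hbh, hfix b hbN1 hbN2, hout1 b hb, h3]
          · by_cases e3 : k = a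
            · left
              rw [e3]
              omega
            · by_cases e4 : k = h
              · right
                rw [e4]
                omega
              · have e5 := hon k hk' e1 e4
                have e6 : k ≠ N.1 := fun h => e5 ⟨N, hN, Or.inl h⟩
                have e7 : k ≠ N.2 := fun h => e5 ⟨N, hN, Or.inr h⟩
                rw [hn k e3 e4, hfix k e6 e7, hout1 k e5]
                exact hr k e5 e3 e2)
      have h10 := win_rm (gw_let n (l.erase N)).invol ((gw_let n (l.erase N)).fix (hsub a ha))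
        ((gw_let n (l.erase N)).fix hnh) hah ha2 hh0 hk2 ha1 h9
      rwa [hphi2] at h10

open Classical in
/-- the Gamma lemma: all but one of the vertices of degree 3 over leaves -/
theorem gamma (d : Fin Δ) {l : List (Fin Δ × Fin Δ)} (hl : Nd l)
    {M : ι → Finset (Fin Δ)} (hO : Ok M) (hout : Out (l.filter fun N => LH M N) M) :
    WinT (Tg (Phi M)) (KM l) M := by
  have hA : (l.filter fun N => LH M N) ∈ l.sublists := List.mem_sublists.2 List.filter_sublist
  generalize hAe : (l.filter fun N => LH M N) = A at hA hout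
  have hAl : ∀ N ∈ A, N ∈ l := fun N hN => (List.mem_sublists.1 hA).subset hN
  obtain ⟨L1, L2, hL⟩ := List.append_of_mem hA
  have hword : KM l = L1.flatMap (fun l' => gw l'.length l') ++
      (gw A.length A ++ L2.flatMap fun l' => gw l'.length l') := by
    unfold KM
    rw [hL, List.flatMap_append, List.flatMap_cons]
  have hLet := KM_let l
  rw [hword] at hLet ⊢
  have hLet1 : Let l (L1.flatMap fun l' => gw l'.length l') := fun τ hτ =>
    hLet τ (List.mem_append_left _ hτ)
  have hLet2 : Let l (L2.flatMap fun l' => gw l'.length l') := fun τ hτ =>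
    hLet τ (List.mem_append_right _ (List.mem_append_right _ hτ))
  rw [winT_append]
  refine (bal_word hl hLet1 (fun _ => True) (fun _ _ _ _ _ => trivial) (Rr.refl hO)
    trivial).mono fun M1 h5 => ?_
  rcases h5 with h5 | ⟨h5, _⟩
  · rw [winT_append]
    exact (tg_stay (gw_let _ _).invol h5).mono fun M' h' => tg_stay hLet2.invol h'
  refine tg_append hLet2.invol ?_
  have h6 := gamma_main d A.length A rfl (hl.sub (List.mem_sublists.1 hA)) M1 h5.1
    (fun N hN => h5.LH (hAl N hN) (by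
      rw [← hAe, List.mem_filter] at hN
      simpa using hN.2)) (h5.Out hAl hout)
  rwa [h5.2.1] at h6

end degree

end Pool.Agent.SGM
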