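import Pool.Agent.SGM.Targets
import Pool.Agent.MEQ.All
import Pool.Agent.MEC.Generators

set_option autoImplicit false

/-! MP_fff3e1_lc, project SGM, target tOWN: every triple owns one of its points, no link is
owned twice. -/

namespace Pool.Agent.SGM

open MeasureTheory Set Filter
open scoped ENNReal
open Pool.Agent.MEC
open Pool.Agent.MEP
open Pool.Agent.MEO

universe u

namespace OWN_

section order

variable {V : Type u} (j : V → ℝ) (r l : V → V)

open Classical in
/-- the least point of the triple of `x` -/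
noncomputable def be (x : V) : V :=
  if j x ≤ j (r x) ∧ j x ≤ j (r (r x)) then x
  else if j (r x) ≤ j (r (r x)) then r x else r (r x)

open Classical in
/-- the least point of the link of `x` -/
noncomputable def la (x : V) : V := if j x ≤ j (l x) then x else l x

/-- a triple and a link which meet -/
def R (x y : V) : Prop :=
  r x ≠ x ∧ be j r x = x ∧ (y = la j l x ∨ y = la j l (r x) ∨ y = la j l (r (r x)))

/-- triples against links -/
def K : SimpleGraph (V × Bool) where
  Adj p q := (p.2 = false ∧ q.2 = true ∧ R j r l p.1 q.1) ∨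
    (p.2 = true ∧ q.2 = false ∧ R j r l q.1 p.1)
  symm := ⟨by
    rintro p q (⟨h1, h2, h3⟩ | ⟨h1, h2, h3⟩)
    · exact Or.inr ⟨h2, h1, h3⟩
    · exact Or.inl ⟨h2, h1, h3⟩⟩
  loopless := ⟨by
    rintro p (⟨h1, h2, -⟩ | ⟨h1, h2, -⟩)
    · rw [h1] at h2
      exact absurd h2 (by decide)
    · rw [h1] at h2
      exact absurd h2 (by decide)⟩

/-- a link with both ends in the triple of `x` -/
def Lp (x : V) : Prop := ∃ z, be j r z = be j r x ∧ l z ≠ z ∧ be j r (l z) = be j r x

variable {j r l}

lemma enc2 {α : Type*} (a b : α) : ({a, b} : Set α).encard ≤ 2 := by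
  refine (encard_insert_le _ _).trans ?_
  rw [encard_singleton]
  norm_num

lemma be_mem (x : V) : be j r x = x ∨ be j r x = r x ∨ be j r x = r (r x) := by
  unfold be
  split_ifs
  · exact Or.inl rfl
  · exact Or.inr (Or.inl rfl)
  · exact Or.inr (Or.inr rfl)

lemma be_le (x : V) :
    j (be j r x) ≤ j x ∧ j (be j r x) ≤ j (r x) ∧ j (be j r x) ≤ j (r (r x)) := by
  unfold be
  split_ifs with h1 h2
  · exact ⟨le_rfl, h1⟩
  · refine ⟨?_, le_rfl, h2⟩
    by_contra h3
    push Not at h3
    exact h1 ⟨h3.le, h3.le.trans h2⟩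
  · push Not at h2
    refine ⟨?_, h2.le, le_rfl⟩
    by_contra h3
    push Not at h3
    exact h1 ⟨h3.le.trans h2.le, h3.le⟩

lemma be_r (hj : Function.Injective j) (h3 : ∀ x, r (r (r x)) = x) (x : V) :
    be j r (r x) = be j r x := by
  apply hj
  apply le_antisymm
  · obtain ⟨h1, h2, h4⟩ := be_le (j := j) (r := r) (r x)
    rw [h3] at h4
    rcases be_mem (j := j) (r := r) x with h | h | h <;> rw [h] <;> assumption
  · obtain ⟨h1, h2, h4⟩ := be_le (j := j) (r := r) x
    rcases be_mem (j := j) (r := r) (r x) with h | h | h <;> rw [h]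
    · exact h2
    · exact h4
    · rw [h3]
      exact h1

lemma be_eq (hj : Function.Injective j) (h3 : ∀ x, r (r (r x)) = x) {x y : V} :
    be j r x = be j r y ↔ y = x ∨ y = r x ∨ y = r (r x) := by
  constructor
  · intro h
    have h4 : y = be j r x ∨ y = r (be j r x) ∨ y = r (r (be j r x)) := by
      rw [h]
      rcases be_mem (j := j) (r := r) y with h5 | h5 | h5 <;> rw [h5]
      · exact Or.inl rfl
      · exact Or.inr (Or.inr (h3 y).symm)
      · exact Or.inr (Or.inl (h3 y).symm)
    rcases be_mem (j := j) (r := r) x with h5 | h5 | h5 <;> rw [h5] at h4 <;>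
      rcases h4 with h4 | h4 | h4 <;> rw [h4] <;> simp [h3]
  · rintro (h | h | h) <;> rw [h]
    · rw [be_r hj h3]
    · rw [be_r hj h3, be_r hj h3]

lemma be_be (hj : Function.Injective j) (h3 : ∀ x, r (r (r x)) = x) (x : V) :
    be j r (be j r x) = be j r x := by
  rcases be_mem (j := j) (r := r) x with h | h | h <;> rw [h]
  · rw [h]
  · rw [be_r hj h3, h]
  · rw [be_r hj h3, be_r hj h3, h]

lemma la_mem (x : V) : la j l x = x ∨ la j l x = l x := by
  unfold la
  split_ifs
  · exact Or.inl rfl
  · exact Or.inr rfl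

lemma la_l (hj : Function.Injective j) (h2 : ∀ x, l (l x) = x) (x : V) :
    la j l (l x) = la j l x := by
  unfold la
  rw [h2]
  split_ifs with h h' h'
  · exact hj (le_antisymm h h')
  · rfl
  · rfl
  · push Not at h h'
    exact absurd (h.trans h') (lt_irrefl _)

lemma la_eq (hj : Function.Injective j) (h2 : ∀ x, l (l x) = x) {x y : V} :
    la j l x = la j l y ↔ y = x ∨ y = l x := by
  constructor
  · intro h
    rcases la_mem (j := j) (l := l) x with h4 | h4 <;>
      rcases la_mem (j := j) (l := l) y with h5 | h5 <;> rw [h4, h5] at h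
    · exact Or.inl h.symm
    · exact Or.inr (by rw [h, h2])
    · exact Or.inr h.symm
    · exact Or.inl (by rw [← h2 y, ← h, h2])
  · rintro (h | h) <;> rw [h]
    rw [la_l hj h2]

lemma ne3 (h3 : ∀ x, r (r (r x)) = x) {x : V} (h : r x ≠ x) :
    r (r x) ≠ x ∧ r (r x) ≠ r x := by
  constructor
  · intro h4
    have h5 := congrArg r h4
    rw [h3] at h5
    exact h h5.symm
  · intro h4
    have h5 := congrArg r h4
    rw [h3, h4] at h5
    exact h h5.symm

lemma r_ne (h3 : ∀ x, r (r (r x)) = x) {x : V} : r (r x) ≠ r x ↔ r x ≠ x := by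
  constructor
  · intro h h4
    exact h (by rw [h4]; exact h4)
  · intro h
    exact (ne3 h3 h).2

lemma act_be (h3 : ∀ x, r (r (r x)) = x) {x : V} (h : r x ≠ x) :
    r (be j r x) ≠ be j r x := by
  rcases be_mem (j := j) (r := r) x with h4 | h4 | h4 <;> rw [h4]
  · exact h
  · exact (r_ne h3).2 h
  · exact (r_ne h3).2 ((r_ne h3).2 h)

lemma adj_l {x : V} {q : V × Bool} : (K j r l).Adj (x, false) q ↔ q.2 = true ∧ R j r l x q.1 := by
  constructor
  · rintro (⟨-, h2, h3⟩ | ⟨h1, -, -⟩)
    · exact ⟨h2, h3⟩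
    · exact absurd h1 (by simp)
  · rintro ⟨h2, h3⟩
    exact Or.inl ⟨rfl, h2, h3⟩

lemma adj_r {y : V} {q : V × Bool} :
    (K j r l).Adj (y, true) q ↔ q.2 = false ∧ R j r l q.1 y := by
  constructor
  · rintro (⟨h1, -, -⟩ | ⟨-, h2, h3⟩)
    · exact absurd h1 (by simp)
    · exact ⟨h2, h3⟩
  · rintro ⟨h2, h3⟩
    exact Or.inr ⟨rfl, h2, h3⟩

/-- neighbours of a link -/
lemma nb_r (hj : Function.Injective j) (h3 : ∀ x, r (r (r x)) = x) (h2 : ∀ x, l (l x) = x)
    {x y : V} (h : R j r l x y) : x = be j r y ∨ x = be j r (l y) := by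
  obtain ⟨-, h5, h6⟩ := h
  have key : ∀ z, be j r z = x → y = la j l z → x = be j r y ∨ x = be j r (l y) := by
    intro z hz hy
    rcases la_mem (j := j) (l := l) z with h7 | h7
    · rw [h7] at hy
      exact Or.inl (by rw [hy, hz])
    · rw [h7] at hy
      exact Or.inr (by rw [hy, h2, hz])
  rcases h6 with h6 | h6 | h6
  · exact key x h5 h6
  · exact key (r x) (by rw [be_r hj h3, h5]) h6
  · exact key (r (r x)) (by rw [be_r hj h3, be_r hj h3, h5]) h6

lemma nbs_l (x : V) : (K j r l).neighborSet (x, false) ⊆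
    {(la j l x, true), (la j l (r x), true), (la j l (r (r x)), true)} := by
  rintro ⟨y, b⟩ h
  obtain ⟨h1, -, -, h2⟩ := adj_l.1 h
  change b = true at h1
  subst h1
  change y = _ ∨ y = _ ∨ y = _ at h2
  simpa using h2

lemma nbs_r (hj : Function.Injective j) (h3 : ∀ x, r (r (r x)) = x) (h2 : ∀ x, l (l x) = x)
    (y : V) : (K j r l).neighborSet (y, true) ⊆
    {(be j r y, false), (be j r (l y), false)} := by
  rintro ⟨x, b⟩ h
  obtain ⟨h1, h4⟩ := adj_r.1 h
  change b = false at h1
  subst h1
  have := nb_r hj h3 h2 h4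
  simpa using this

lemma deg (hj : Function.Injective j) (h3 : ∀ x, r (r (r x)) = x) (h2 : ∀ x, l (l x) = x)
    (p : V × Bool) : ((K j r l).neighborSet p).encard ≤ (3 : ℕ) := by
  obtain ⟨x, b⟩ := p
  cases b
  · refine (encard_le_encard (nbs_l x)).trans ?_
    refine (encard_insert_le _ _).trans ?_
    have := enc2 (la j l (r x), true) (la j l (r (r x)), true)
    calc _ ≤ (2 : ℕ∞) + 1 := by gcongr
      _ = (3 : ℕ) := by norm_num
  · refine (encard_le_encard (nbs_r hj h3 h2 x)).trans ?_
    refine (enc2 _ _).trans ?_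
    exact_mod_cast (by norm_num : 2 ≤ 3)

lemma fin (hj : Function.Injective j) (h3 : ∀ x, r (r (r x)) = x) (h2 : ∀ x, l (l x) = x)
    (p : V × Bool) : ((K j r l).neighborSet p).Finite :=
  finite_of_encard_le_coe (deg hj h3 h2 p)

lemma two_le (hj : Function.Injective j) (h3 : ∀ x, r (r (r x)) = x) (h2 : ∀ x, l (l x) = x)
    {x : V} (h : r x ≠ x) (hb : be j r x = x) : 2 ≤ dg (K j r l) (x, false) := by
  have hn := ne3 h3 h
  have h4 : la j l x ≠ la j l (r x) ∨ la j l x ≠ la j l (r (r x)) := by
    by_contra hcon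
    push Not at hcon
    obtain ⟨h5, h6⟩ := hcon
    rcases (la_eq hj h2).1 h5 with h7 | h7
    · exact h h7
    · rcases (la_eq hj h2).1 h6 with h8 | h8
      · exact hn.1 h8
      · exact hn.2 (by rw [h7] at h8 ⊢; exact h8)
  have hm : ∀ y, (y = la j l x ∨ y = la j l (r x) ∨ y = la j l (r (r x))) →
      (y, true) ∈ (K j r l).neighborSet (x, false) := fun y hy => adj_l.2 ⟨rfl, h, hb, hy⟩
  obtain ⟨a, b, ha, hb', hab⟩ : ∃ a b : V, (a, true) ∈ (K j r l).neighborSet (x, false) ∧
      (b, true) ∈ (K j r l).neighborSet (x, false) ∧ a ≠ b := by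
    rcases h4 with h4 | h4
    · exact ⟨_, _, hm _ (Or.inl rfl), hm _ (Or.inr (Or.inl rfl)), h4⟩
    · exact ⟨_, _, hm _ (Or.inl rfl), hm _ (Or.inr (Or.inr rfl)), h4⟩
  have h5 : ({(a, true), (b, true)} : Set (V × Bool)) ⊆ (K j r l).neighborSet (x, false) := by
    rintro p (rfl | rfl)
    · exact ha
    · exact hb'
  have h6 := ncard_le_ncard h5 (fin hj h3 h2 _)
  rwa [ncard_pair (fun h => hab (congrArg Prod.fst h))] at h6

lemma three_le (hj : Function.Injective j) (h3 : ∀ x, r (r (r x)) = x)
    (h2 : ∀ x, l (l x) = x) {x : V} (h : r x ≠ x) (hb : be j r x = x) (hL : ¬ Lp j r l x) :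
    3 ≤ dg (K j r l) (x, false) := by
  have hn := ne3 h3 h
  have hm : ∀ y, (y = la j l x ∨ y = la j l (r x) ∨ y = la j l (r (r x))) →
      (y, true) ∈ (K j r l).neighborSet (x, false) := fun y hy => adj_l.2 ⟨rfl, h, hb, hy⟩
  have h12 : la j l x ≠ la j l (r x) := by
    intro h5
    rcases (la_eq hj h2).1 h5 with h7 | h7
    · exact h h7
    · exact hL ⟨x, rfl, by rw [← h7]; exact h, by rw [← h7, be_r hj h3]⟩
  have h13 : la j l x ≠ la j l (r (r x)) := by
    intro h5
    rcases (la_eq hj h2).1 h5 with h7 | h7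
    · exact hn.1 h7
    · exact hL ⟨x, rfl, by rw [← h7]; exact hn.1, by rw [← h7, be_r hj h3, be_r hj h3]⟩
  have h23 : la j l (r x) ≠ la j l (r (r x)) := by
    intro h5
    rcases (la_eq hj h2).1 h5 with h7 | h7
    · exact hn.2 h7
    · exact hL ⟨r x, be_r hj h3 x, by rw [← h7]; exact hn.2,
        by rw [← h7, be_r hj h3, be_r hj h3]⟩
  have h5 : ({(la j l x, true), (la j l (r x), true), (la j l (r (r x)), true)} :
      Set (V × Bool)) ⊆ (K j r l).neighborSet (x, false) := by
    rintro p (rfl | rfl | rfl)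
    · exact hm _ (Or.inl rfl)
    · exact hm _ (Or.inr (Or.inl rfl))
    · exact hm _ (Or.inr (Or.inr rfl))
  have h6 := ncard_le_ncard h5 (fin hj h3 h2 _)
  rwa [ncard_eq_three.2 ⟨_, _, _, fun h => h12 (congrArg Prod.fst h),
    fun h => h13 (congrArg Prod.fst h), fun h => h23 (congrArg Prod.fst h), rfl⟩] at h6

/-- the load is at most `n / d` when there are at most `n` neighbours of degree at least `d` -/
lemma ld_le {q : V × Bool} {n d : ℕ} (hn : ((K j r l).neighborSet q).encard ≤ n)
    (hd : ∀ p ∈ (K j r l).neighborSet q, d ≤ dg (K j r l) p) :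
    Pool.Agent.MEQ.ld (K j r l) ∅ 1 q ≤ n * (d : ℝ≥0∞)⁻¹ := by
  unfold Pool.Agent.MEQ.ld
  calc _ ≤ ∑' _ : (K j r l).neighborSet q, ((d : ℝ≥0∞)⁻¹) := by
        refine ENNReal.tsum_le_tsum fun p => ?_
        rw [if_neg (notMem_empty _), one_div]
        exact ENNReal.inv_le_inv.2 (by exact_mod_cast hd p p.2)
    _ = ((K j r l).neighborSet q).encard * (d : ℝ≥0∞)⁻¹ := ENNReal.tsum_set_const _ _
    _ ≤ n * (d : ℝ≥0∞)⁻¹ := by
        gcongr
        have := ENat.toENNReal_le.2 hn
        simpa using this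

lemma ld_one (hj : Function.Injective j) (h3 : ∀ x, r (r (r x)) = x)
    (h2 : ∀ x, l (l x) = x) (y : V) : Pool.Agent.MEQ.ld (K j r l) ∅ 1 (y, true) ≤ 1 := by
  refine (ld_le (n := 2) (d := 2) ?_ ?_).trans ?_
  · refine (encard_le_encard (nbs_r hj h3 h2 y)).trans ?_
    exact (enc2 _ _).trans (by norm_num)
  · rintro ⟨x, b⟩ h
    obtain ⟨h1, h4, h5, -⟩ := adj_r.1 h
    change b = false at h1
    subst h1
    exact two_le hj h3 h2 h4 h5
  · rw [Nat.cast_ofNat, ENNReal.mul_inv_cancel (by simp) (by simp)]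

/-- a link inside a triple has a small load -/
lemma ld_loop (hj : Function.Injective j) (h3 : ∀ x, r (r (r x)) = x)
    (h2 : ∀ x, l (l x) = x) {x : V} (h : r x ≠ x) (hb : be j r x = x) (hL : Lp j r l x) :
    ∃ y, (K j r l).Adj (x, false) (y, true) ∧ Pool.Agent.MEQ.ld (K j r l) ∅ 1 (y, true) < 1 := by
  obtain ⟨z, hz1, hz2, hz3⟩ := hL
  rw [hb] at hz1 hz3
  refine ⟨la j l z, ?_, ?_⟩
  · refine adj_l.2 ⟨rfl, h, hb, ?_⟩
    have h4 : be j r x = be j r z := by rw [hb, hz1]
    rcases (be_eq hj h3).1 h4 with h5 | h5 | h5 <;> simp [h5]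
  · have h4 : (K j r l).neighborSet (la j l z, true) ⊆ {(x, false)} := by
      refine (nbs_r hj h3 h2 _).trans ?_
      have h5 : be j r (la j l z) = x := by
        rcases la_mem (j := j) (l := l) z with h6 | h6 <;> rw [h6]
        · exact hz1
        · exact hz3
      have h6 : be j r (l (la j l z)) = x := by
        rcases la_mem (j := j) (l := l) z with h6 | h6 <;> rw [h6]
        · exact hz3
        · rw [h2]
          exact hz1
      rw [h5, h6]
      simp
    refine (ld_le (n := 1) (d := 2) ?_ ?_).trans_lt ?_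
    · exact (encard_le_encard h4).trans (by simp)
    · intro p hp
      rw [mem_singleton_iff.1 (h4 hp)]
      exact two_le hj h3 h2 h hb
    · simp

/-- there is always some slack near a triple -/
lemma slack (hj : Function.Injective j) (h3 : ∀ x, r (r (r x)) = x)
    (h2 : ∀ x, l (l x) = x) {x : V} (h : r x ≠ x) (hb : be j r x = x) :
    ∃ y, (K j r l).Reachable (x, false) (y, true) ∧
      Pool.Agent.MEQ.ld (K j r l) ∅ 1 (y, true) < 1 := by
  by_cases hL : Lp j r l x
  · obtain ⟨y, h4, h5⟩ := ld_loop hj h3 h2 h hb hL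
    exact ⟨y, h4.reachable, h5⟩
  have ha : (K j r l).Adj (x, false) (la j l x, true) := adj_l.2 ⟨rfl, h, hb, Or.inl rfl⟩
  by_cases hN : ∃ x', (K j r l).Adj (la j l x, true) (x', false) ∧ Lp j r l x'
  · obtain ⟨x', h4, h5⟩ := hN
    obtain ⟨-, h6, h7, -⟩ := adj_r.1 h4
    obtain ⟨y, h8, h9⟩ := ld_loop hj h3 h2 h6 h7 h5
    exact ⟨y, (ha.reachable.trans h4.reachable).trans h8.reachable, h9⟩
  · push Not at hN
    refine ⟨la j l x, ha.reachable, ?_⟩
    refine (ld_le (n := 2) (d := 3) ?_ ?_).trans_lt ?_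
    · refine (encard_le_encard (nbs_r hj h3 h2 _)).trans ?_
      exact (enc2 _ _).trans (by norm_num)
    · rintro ⟨x', b⟩ h4
      obtain ⟨h1, h5, h6, -⟩ := adj_r.1 h4
      change b = false at h1
      subst h1
      exact three_le hj h3 h2 h5 h6 (hN x' h4)
    · rw [← div_eq_mul_inv, ENNReal.div_lt_iff (by simp) (by simp)]
      norm_num

end order

section meas

variable {V : Type u} [MeasurableSpace V] [StandardBorelSpace V] {j : V → ℝ} {r l : V → V}

omit [StandardBorelSpace V] in
lemma m_be (hj : Measurable j) (hr : Measurable r) : Measurable (be j r) := by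
  unfold be
  exact Measurable.ite ((measurableSet_le hj (hj.comp hr)).inter
    (measurableSet_le hj (hj.comp (hr.comp hr)))) measurable_id
    (Measurable.ite (measurableSet_le (hj.comp hr) (hj.comp (hr.comp hr))) hr (hr.comp hr))

omit [StandardBorelSpace V] in
lemma m_la (hj : Measurable j) (hl : Measurable l) : Measurable (la j l) := by
  unfold la
  exact Measurable.ite (measurableSet_le hj (hj.comp hl)) measurable_id hl

lemma m_R (hj : Measurable j) (hr : Measurable r) (hl : Measurable l) :
    MeasurableSet {q : V × V | R j r l q.1 q.2} := by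
  have h1 : Measurable fun q : V × V => r q.1 := hr.comp measurable_fst
  have h2 : Measurable fun q : V × V => be j r q.1 := (m_be hj hr).comp measurable_fst
  have h3 : Measurable fun q : V × V => la j l q.1 := (m_la hj hl).comp measurable_fst
  have h4 : Measurable fun q : V × V => la j l (r q.1) := (m_la hj hl).comp h1
  have h5 : Measurable fun q : V × V => la j l (r (r q.1)) := (m_la hj hl).comp (hr.comp h1)
  exact ((measurableSet_eq_fun h1 measurable_fst).compl.inter
    ((measurableSet_eq_fun h2 measurable_fst).inter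
      ((measurableSet_eq_fun measurable_snd h3).union
        ((measurableSet_eq_fun measurable_snd h4).union
          (measurableSet_eq_fun measurable_snd h5)))))

lemma m_K (hj : Measurable j) (hr : Measurable r) (hl : Measurable l) :
    MeasurableSet {p : (V × Bool) × (V × Bool) | (K j r l).Adj p.1 p.2} := by
  have h0 := m_R hj hr hl
  have ha : Measurable fun p : (V × Bool) × (V × Bool) => (p.1.1, p.2.1) := by fun_prop
  have hb : Measurable fun p : (V × Bool) × (V × Bool) => (p.2.1, p.1.1) := by fun_prop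
  have hc : Measurable fun p : (V × Bool) × (V × Bool) => p.1.2 := by fun_prop
  have hd : Measurable fun p : (V × Bool) × (V × Bool) => p.2.2 := by fun_prop
  exact ((hc (measurableSet_singleton false)).inter
    ((hd (measurableSet_singleton true)).inter (ha h0))).union
    ((hc (measurableSet_singleton true)).inter
    ((hd (measurableSet_singleton false)).inter (hb h0)))

end meas

/-- the owned points -/
def OO {V : Type u} (j : V → ℝ) (r l : V → V) (S : V × Bool → V × Bool) : Set V :=
  {z | r z ≠ z ∧ S (be j r z, false) = (la j l z, true) ∧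
    (be j r (l z) = be j r z → la j l z = z)}

lemma own {V : Type u} {j : V → ℝ} {r l : V → V} {S : V × Bool → V × Bool}
    (hj : Function.Injective j) (h3 : ∀ x, r (r (r x)) = x) (h2 : ∀ x, l (l x) = x)
    (hS : ∀ x, S (S x) = x) : Own r l (OO j r l S) := by
  rintro x ⟨hx1, hx2, hx3⟩
  have key : ∀ y ∈ OO j r l S, be j r y = be j r x → y = x := by
    rintro y ⟨-, hy2, hy3⟩ hy
    rw [hy, hx2] at hy2
    have h4 : la j l x = la j l y := congrArg Prod.fst hy2
    rcases (la_eq hj h2).1 h4 with h5 | h5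
    · exact h5
    · have h6 : be j r (l x) = be j r x := by rw [← h5, hy]
      have h7 : be j r (l y) = be j r y := by rw [h5, h2, ← h5, hy]
      rw [← hy3 h7, ← h4, hx3 h6]
  have hn := ne3 h3 hx1
  refine ⟨hx1, fun h => ?_, fun h => ?_, fun hl h => ?_⟩
  · exact hx1 (key _ h (be_r hj h3 x))
  · exact hn.1 (key _ h (by rw [be_r hj h3, be_r hj h3]))
  · obtain ⟨-, hy2, -⟩ := id h
    rw [la_l hj h2, ← hx2] at hy2
    have h4 := congrArg S hy2
    rw [hS, hS] at h4
    exact hl (key _ h (congrArg Prod.fst h4))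

end OWN_

open OWN_ in
theorem allOWN : tOWN.{u} := by
  intro V _ _ μ _ r l hr hl h3 h2 hlr
  have hj : Function.Injective (embeddingReal V) := (measurableEmbedding_embeddingReal V).injective
  have hjm : Measurable (embeddingReal V) := measurable_embeddingReal V
  have hKm := m_K hjm hr hl
  have hKd := deg (r := r) (l := l) hj h3 h2
  obtain ⟨e, he⟩ := allLAB (V × Bool) (K (embeddingReal V) r l) 3 hKm hKd
  obtain ⟨g⟩ := exists_gen hKm hKd
  have hφ : Measurable fun x : V => (be (embeddingReal V) r x, false) :=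
    (m_be hjm hr).prodMk measurable_const
  have hfin : IsFiniteMeasure (g.nu (μ.map fun x : V => (be (embeddingReal V) r x, false))) :=
    ⟨g.nu_univ_lt_top _⟩
  have hq := g.qinv_nu (μ.map fun x : V => (be (embeddingReal V) r x, false))
  have hC : Gen.CC 3 ≠ ⊤ := by
    unfold Gen.CC
    exact ENNReal.add_ne_top.2 ⟨ENNReal.mul_ne_top (by simp) (by simp), by simp⟩
  obtain ⟨M, hM, -⟩ := Pool.Agent.MEQ.fin_HALL (V × Bool) (K (embeddingReal V) r l) (2 * 3) e
    (g.nu (μ.map fun x : V => (be (embeddingReal V) r x, false))) (Gen.CC 3)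
    {p | p.2 = false} ∅ 1 he hq hC (measurable_snd (measurableSet_singleton false))
    MeasurableSet.empty (empty_subset _) (by
      rintro ⟨x, b⟩ ⟨y, b'⟩ (⟨h1, h2, -⟩ | ⟨h1, h2, -⟩) <;> simp_all)
    one_ne_zero le_rfl (Eventually.of_forall (by
      rintro ⟨y, b⟩ hy
      cases b
      · exact absurd rfl hy
      · exact ld_one hj h3 h2 y)) (Eventually.of_forall fun x hx => absurd hx (notMem_empty x))
  refine ⟨OO (embeddingReal V) r l (M.S 0), ?_, own hj h3 h2 (M.invol 0), ?_⟩
  · have h4 : Measurable fun z : V => (la (embeddingReal V) l z, true) :=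
      (m_la hjm hl).prodMk measurable_const
    have h5 := (measurableSet_eq_fun hr measurable_id).compl
    have h6 := measurableSet_eq_fun ((M.meas 0).comp hφ) h4
    have h7 := (measurableSet_eq_fun ((m_be hjm hr).comp hl) (m_be hjm hr)).compl
    have h8 := measurableSet_eq_fun (m_la hjm hl) measurable_id
    have h9 : OO (embeddingReal V) r l (M.S 0) = {z | r z = id z}ᶜ ∩
        ({z | (M.S 0 ∘ fun x : V => (be (embeddingReal V) r x, false)) z =
          (la (embeddingReal V) l z, true)} ∩
        ({z | (be (embeddingReal V) r ∘ l) z = be (embeddingReal V) r z}ᶜ ∪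
          {z | la (embeddingReal V) l z = id z})) := by
      ext z
      simp only [OO, mem_ofPred_eq, mem_inter_iff, mem_compl_iff, mem_union,
        Function.comp_apply, id]
      tauto
    rw [h9]
    exact h5.inter (h6.inter (h7.union h8))
  · have h4 := Measure.absolutelyContinuous_of_le (g.le_nu
      (μ.map fun x : V => (be (embeddingReal V) r x, false)))
    have h5 := ae_of_ae_map hφ.aemeasurable (h4.ae_le hM)
    filter_upwards [h5] with x hx hrx
    have hb := be_be hj h3 x
    have hrb := act_be (j := embeddingReal V) h3 hrx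
    obtain ⟨y, hy1, hy2⟩ := slack (l := l) hj h3 h2 hrb hb
    have h6 := hx rfl (notMem_empty _) ⟨(y, true), by simp, hy1, hy2⟩
    obtain ⟨h7, -, -, h8⟩ := adj_l.1 (M.adj 0 _ h6)
    -- a point of the triple whose link is matched
    have h9 : ∃ z, be (embeddingReal V) r z = be (embeddingReal V) r x ∧ r z ≠ z ∧
        M.S 0 (be (embeddingReal V) r x, false) = (la (embeddingReal V) l z, true) := by
      have h10 : ∀ z, (M.S 0 (be (embeddingReal V) r x, false)).1 = la (embeddingReal V) l z →
          M.S 0 (be (embeddingReal V) r x, false) = (la (embeddingReal V) l z, true) :=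
        fun z hz => Prod.ext hz h7
      rcases h8 with h8 | h8 | h8
      · exact ⟨_, hb, hrb, h10 _ h8⟩
      · exact ⟨_, by rw [be_r hj h3, hb], (r_ne h3).2 hrb, h10 _ h8⟩
      · exact ⟨_, by rw [be_r hj h3, be_r hj h3, hb], (r_ne h3).2 ((r_ne h3).2 hrb), h10 _ h8⟩
    obtain ⟨z, hz1, hz2, hz3⟩ := h9
    have h11 : ∃ z ∈ OO (embeddingReal V) r l (M.S 0),
        be (embeddingReal V) r x = be (embeddingReal V) r z := by
      by_cases h12 : be (embeddingReal V) r (l z) = be (embeddingReal V) r z ∧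
          la (embeddingReal V) l z ≠ z
      · obtain ⟨h13, h14⟩ := h12
        have h15 : la (embeddingReal V) l z = l z := (la_mem z).resolve_left h14
        refine ⟨l z, ⟨hlr _ ?_, ?_, fun _ => ?_⟩, ?_⟩
        · rw [h2]
          intro h16
          rw [← h16] at h15
          exact h14 h15
        · rw [h13, hz1, hz3, la_l hj h2]
        · rw [la_l hj h2, h15]
        · rw [h13, hz1]
      · refine ⟨z, ⟨hz2, by rw [hz1, hz3], fun h13 => ?_⟩, hz1.symm⟩
        by_contra h14
        exact h12 ⟨h13, h14⟩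
    obtain ⟨z', hz', hz''⟩ := h11
    rcases (be_eq hj h3).1 hz'' with h12 | h12 | h12
    · exact Or.inl (h12 ▸ hz')
    · exact Or.inr (Or.inl (h12 ▸ hz'))
    · exact Or.inr (Or.inr (h12 ▸ hz'))

end Pool.Agent.SGM
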