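import Pool.Agent.SGM.DefsP

set_option autoImplicit false

/-! MP_fff3e1_lc, strategies in the finite game: words which lead to a target, degrees,
the balanced play, finished states stay finished. -/

namespace Pool.Agent.SGM

open Set

universe u

variable {ι : Type u} {Δ : ℕ}

/-- the word is played from the state `M`; at the end `T` must hold -/
def WinT (T : (ι → Finset (Fin Δ)) → Prop) :
    List (Fin Δ → Fin Δ) → (ι → Finset (Fin Δ)) → Prop
  | [], M => T M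
  | τ :: w, M => ∃ B : Blk (ι × Fin Δ), B.Sup (Pin τ M) ∧
      ∀ X : Set (ι × Fin Δ), (∀ p, B.At X p) → WinT T w (flp τ M X)

lemma winT_sdr (w : List (Fin Δ → Fin Δ)) (M : ι → Finset (Fin Δ)) :
    WinT SDR w M ↔ WinP w M := by
  induction w generalizing M with
  | nil => exact Iff.rfl
  | cons τ w ih =>
    unfold WinT WinP
    simp only [ih]

lemma WinT.mono {T T' : (ι → Finset (Fin Δ)) → Prop} (h : ∀ M, T M → T' M)
    {w : List (Fin Δ → Fin Δ)} {M : ι → Finset (Fin Δ)} (H : WinT T w M) : WinT T' w M := by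
  induction w generalizing M with
  | nil => exact h M H
  | cons τ w ih =>
    obtain ⟨B, h1, h2⟩ := H
    exact ⟨B, h1, fun X hX => ih (h2 X hX)⟩

lemma winT_append {T : (ι → Finset (Fin Δ)) → Prop} (w w' : List (Fin Δ → Fin Δ))
    (M : ι → Finset (Fin Δ)) : WinT T (w ++ w') M ↔ WinT (WinT T w') w M := by
  induction w generalizing M with
  | nil => exact Iff.rfl
  | cons τ w ih =>
    rw [List.cons_append]
    unfold WinT
    simp only [ih]

/-- simulation -/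
lemma WinT.sim {T T' : (ι → Finset (Fin Δ)) → Prop}
    (R : (ι → Finset (Fin Δ)) → (ι → Finset (Fin Δ)) → Prop) {w : List (Fin Δ → Fin Δ)}
    (hP : ∀ τ ∈ w, ∀ M M', R M M' → Pin τ M' ⊆ Pin τ M)
    (hR : ∀ τ ∈ w, ∀ M M', R M M' → ∀ X, R (flp τ M X) (flp τ M' X))
    (hT : ∀ M M', R M M' → T M' → T' M) {M M' : ι → Finset (Fin Δ)} (h : R M M')
    (H : WinT T w M') : WinT T' w M := by
  induction w generalizing M M' with
  | nil => exact hT M M' h H
  | cons τ w ih =>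
    obtain ⟨B, h1, h2⟩ := H
    refine ⟨B, fun x hx => h1 x fun hx' => hx (hP τ (by simp) M M' h hx'), fun X hX => ?_⟩
    exact ih (fun σ hσ => hP σ (by simp [hσ])) (fun σ hσ => hR σ (by simp [hσ]))
      (hR τ (by simp) M M' h X) (h2 X hX)

/-! ### Flips -/

lemma mem_flp {τ : Fin Δ → Fin Δ} (hτ : ∀ k, τ (τ k) = k) {M : ι → Finset (Fin Δ)}
    {X : Set (ι × Fin Δ)} {κ : ι} {k : Fin Δ} :
    k ∈ flp τ M X κ ↔ (k ∈ M κ ∧ ¬ ((κ, k) ∈ X ∧ τ k ∉ M κ)) ∨
      (τ k ∈ M κ ∧ (κ, τ k) ∈ X ∧ k ∉ M κ) := by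
  classical
  unfold flp
  rw [Finset.mem_image]
  constructor
  · rintro ⟨l, hl, h⟩
    by_cases hc : (κ, l) ∈ X ∧ τ l ∉ M κ
    · rw [if_pos hc] at h
      have h1 : τ k = l := by rw [← h, hτ]
      right
      rw [h1]
      exact ⟨hl, hc.1, h ▸ hc.2⟩
    · rw [if_neg hc] at h
      subst h
      exact Or.inl ⟨hl, hc⟩
  · rintro (⟨h1, h2⟩ | ⟨h1, h2, h3⟩)
    · exact ⟨k, h1, if_neg h2⟩
    · refine ⟨τ k, h1, ?_⟩
      rw [if_pos ⟨h2, by rw [hτ]; exact h3⟩, hτ]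

lemma mem_flp_fix {τ : Fin Δ → Fin Δ} (hτ : ∀ k, τ (τ k) = k) {M : ι → Finset (Fin Δ)}
    {X : Set (ι × Fin Δ)} {κ : ι} {k : Fin Δ} (h : τ k = k) : k ∈ flp τ M X κ ↔ k ∈ M κ := by
  rw [mem_flp hτ, h]
  tauto

/-- the states which occur -/
def Ok (M : ι → Finset (Fin Δ)) : Prop := ∀ κ, (M κ).card = 0 ∨ (M κ).card = 2

lemma flp_card {τ : Fin Δ → Fin Δ} (hτ : ∀ k, τ (τ k) = k) (M : ι → Finset (Fin Δ))
    (X : Set (ι × Fin Δ)) (κ : ι) : (flp τ M X κ).card = (M κ).card := by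
  classical
  unfold flp
  apply Finset.card_image_of_injOn
  intro a ha b hb hab
  have hi : ∀ x y : Fin Δ, τ x = τ y → x = y := fun x y h => by rw [← hτ x, h, hτ]
  have ha' : a ∈ M κ := by simpa using ha
  have hb' : b ∈ M κ := by simpa using hb
  simp only at hab
  by_cases h1 : (κ, a) ∈ X ∧ τ a ∉ M κ
  · rw [if_pos h1] at hab
    by_cases h2 : (κ, b) ∈ X ∧ τ b ∉ M κ
    · rw [if_pos h2] at hab
      exact hi _ _ hab
    · rw [if_neg h2] at hab
      exact absurd (hab ▸ hb') h1.2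
  · rw [if_neg h1] at hab
    by_cases h2 : (κ, b) ∈ X ∧ τ b ∉ M κ
    · rw [if_pos h2] at hab
      exact absurd (hab ▸ ha') h2.2
    · rwa [if_neg h2] at hab

lemma Ok.flp {τ : Fin Δ → Fin Δ} (hτ : ∀ k, τ (τ k) = k) {M : ι → Finset (Fin Δ)}
    (h : Ok M) (X : Set (ι × Fin Δ)) : Ok (flp τ M X) := by
  intro κ
  rw [flp_card hτ]
  exact h κ

/-! ### Degrees -/

section degree

variable [Fintype ι]

open Classical in
/-- the number of sets which contain `k` -/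
noncomputable def deg (M : ι → Finset (Fin Δ)) (k : Fin Δ) : ℕ :=
  (Finset.univ.filter fun κ => k ∈ M κ).card

/-- the potential -/
noncomputable def Phi (M : ι → Finset (Fin Δ)) : ℕ := ∑ k, deg M k ^ 2

open Classical in
lemma deg_sum (M : ι → Finset (Fin Δ)) (k : Fin Δ) :
    deg M k = ∑ κ, if k ∈ M κ then 1 else 0 := by
  unfold deg
  rw [Finset.card_filter]

lemma deg_fix {τ : Fin Δ → Fin Δ} (hτ : ∀ k, τ (τ k) = k) (M : ι → Finset (Fin Δ))
    (X : Set (ι × Fin Δ)) {k : Fin Δ} (h : τ k = k) : deg (flp τ M X) k = deg M k := by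
  unfold deg
  congr 1
  ext κ
  simp only [Finset.mem_filter, Finset.mem_univ, true_and]
  exact mem_flp_fix hτ h

lemma deg_add {τ : Fin Δ → Fin Δ} (hτ : ∀ k, τ (τ k) = k) (M : ι → Finset (Fin Δ))
    (X : Set (ι × Fin Δ)) (k : Fin Δ) :
    deg (flp τ M X) k + deg (flp τ M X) (τ k) = deg M k + deg M (τ k) := by
  classical
  by_cases h : τ k = k
  · rw [h, deg_fix hτ M X h]
  · rw [deg_sum, deg_sum, deg_sum, deg_sum, ← Finset.sum_add_distrib, ← Finset.sum_add_distrib]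
    refine Finset.sum_congr rfl fun κ _ => ?_
    have h1 := mem_flp hτ (M := M) (X := X) (κ := κ) (k := k)
    have h2 := mem_flp hτ (M := M) (X := X) (κ := κ) (k := τ k)
    rw [hτ] at h2
    by_cases a : k ∈ M κ <;> by_cases b : τ k ∈ M κ <;> by_cases c : (κ, k) ∈ X <;>
      by_cases d : (κ, τ k) ∈ X <;> simp [a, b, c, d] at h1 h2 ⊢ <;> simp [h1, h2]

/-! ### Balanced play -/

/-- a matching of the pins by blocks of kind EQ -/
def Mat (τ : Fin Δ → Fin Δ) (M : ι → Finset (Fin Δ)) (q : ι × Fin Δ → ι × Fin Δ) : Prop :=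
  (∀ p, q (q p) = p) ∧ ∀ p, q p ≠ p → p ∈ Pin τ M ∧ (q p).2 = τ p.2

/-- the blocks of a matching -/
def Mat.blk {τ : Fin Δ → Fin Δ} {M : ι → Finset (Fin Δ)} {q : ι × Fin Δ → ι × Fin Δ}
    (h : Mat τ M q) : Blk (ι × Fin Δ) where
  q := q
  n := id
  r := id
  q2 := h.1
  n2 := fun _ => rfl
  r3 := fun _ => rfl
  qn := fun _ _ => rfl
  qr := fun _ _ => rfl
  nr := fun _ h => absurd rfl h

omit [Fintype ι] in
lemma Mat.sup {τ : Fin Δ → Fin Δ} {M : ι → Finset (Fin Δ)} {q : ι × Fin Δ → ι × Fin Δ}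
    (h : Mat τ M q) : h.blk.Sup (Pin τ M) := by
  intro x hx
  refine ⟨?_, rfl, rfl⟩
  by_contra hne
  exact hx (h.2 x hne).1

omit [Fintype ι] in
lemma Mat.pin {τ : Fin Δ → Fin Δ} {M : ι → Finset (Fin Δ)} {q : ι × Fin Δ → ι × Fin Δ}
    (h : Mat τ M q) {p : ι × Fin Δ} (hp : q p ≠ p) : q p ∈ Pin τ M :=
  (h.2 (q p) fun hh => hp (by rw [h.1] at hh; exact hh.symm)).1

omit [Fintype ι] in
lemma Mat.iff {τ : Fin Δ → Fin Δ} {M : ι → Finset (Fin Δ)} {q : ι × Fin Δ → ι × Fin Δ}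
    (h : Mat τ M q) {X : Set (ι × Fin Δ)} (hX : ∀ p, h.blk.At X p) (p : ι × Fin Δ) :
    q p ∈ X ↔ p ∈ X := by
  constructor
  · intro h1
    have h2 := (hX (q p)).1 h1
    have h3 : h.blk.q (q p) = p := h.1 p
    rwa [h3] at h2
  · exact (hX p).1

/-- there is a maximal matching -/
lemma exists_mat (τ : Fin Δ → Fin Δ) (hτ : ∀ k, τ (τ k) = k) (M : ι → Finset (Fin Δ)) :
    ∃ q : ι × Fin Δ → ι × Fin Δ, Mat τ M q ∧ ∀ k, (∀ κ, (κ, k) ∈ Pin τ M → q (κ, k) ≠ (κ, k)) ∨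
      (∀ κ, (κ, τ k) ∈ Pin τ M → q (κ, τ k) ≠ (κ, τ k)) := by
  classical
  obtain ⟨q, hq, hm⟩ := Finset.exists_max_image
    (Finset.univ.filter fun q : ι × Fin Δ → ι × Fin Δ => Mat τ M q)
    (fun q => (Finset.univ.filter fun p => q p ≠ p).card)
    ⟨id, by
      rw [Finset.mem_filter]
      exact ⟨Finset.mem_univ _, fun _ => rfl, fun p hp => absurd rfl hp⟩⟩
  rw [Finset.mem_filter] at hq
  refine ⟨q, hq.2, fun k => ?_⟩
  by_contra hc
  push Not at hc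
  obtain ⟨⟨κ, h1, h2⟩, κ', h3, h4⟩ := hc
  have hne : ((κ, k) : ι × Fin Δ) ≠ (κ', τ k) := by
    intro h
    have h5 : k = τ k := congrArg Prod.snd h
    exact h1.2 (by
      have := h1.1
      simp only at this
      rwa [← h5])
  have hM := hq.2
  have hqa : ∀ p, q p = (κ, k) → p = (κ, k) := fun p hp => by
    rw [← hM.1 p, hp, h2]
  have hqb : ∀ p, q p = (κ', τ k) → p = (κ', τ k) := fun p hp => by
    rw [← hM.1 p, hp, h4]
  let q' : ι × Fin Δ → ι × Fin Δ := fun p =>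
    if p = (κ, k) then (κ', τ k) else if p = (κ', τ k) then (κ, k) else q p
  have ha : q' (κ, k) = (κ', τ k) := if_pos rfl
  have hb : q' (κ', τ k) = (κ, k) := by
    simp only [q', if_neg hne.symm, if_pos]
  have hr : ∀ p, p ≠ (κ, k) → p ≠ (κ', τ k) → q' p = q p := fun p h5 h6 => by
    simp only [q', if_neg h5, if_neg h6]
  have hM' : Mat τ M q' := by
    refine ⟨fun p => ?_, fun p hp => ?_⟩
    · by_cases h5 : p = (κ, k)
      · rw [h5, ha, hb]
      · by_cases h6 : p = (κ', τ k)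
        · rw [h6, hb, ha]
        · rw [hr p h5 h6, hr (q p) (fun h => h5 (hqa p h)) (fun h => h6 (hqb p h)), hM.1]
    · by_cases h5 : p = (κ, k)
      · rw [h5, ha]
        exact ⟨h1, rfl⟩
      · by_cases h6 : p = (κ', τ k)
        · rw [h6, hb]
          exact ⟨h3, (hτ k).symm⟩
        · rw [hr p h5 h6] at hp ⊢
          exact hM.2 p hp
  have h5 := hm q' (by rw [Finset.mem_filter]; exact ⟨Finset.mem_univ _, hM'⟩)
  refine absurd h5 (not_le.2 (Finset.card_lt_card ?_))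
  rw [Finset.ssubset_iff_of_subset]
  · refine ⟨(κ, k), ?_, ?_⟩
    · rw [Finset.mem_filter, ha]
      exact ⟨Finset.mem_univ _, hne.symm⟩
    · rw [Finset.mem_filter]
      exact fun h => h.2 h2
  · intro p hp
    rw [Finset.mem_filter] at hp ⊢
    refine ⟨Finset.mem_univ _, ?_⟩
    have h6 : p ≠ (κ, k) := fun h => hp.2 (by rw [h]; exact h2)
    have h7 : p ≠ (κ', τ k) := fun h => hp.2 (by rw [h]; exact h4)
    rw [hr p h6 h7]
    exact hp.2

/-- if all pins at `l = τ k` are matched, both new degrees are at most the degree of `k` -/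
lemma Mat.le {τ : Fin Δ → Fin Δ} (hτ : ∀ k, τ (τ k) = k) {M : ι → Finset (Fin Δ)}
    {q : ι × Fin Δ → ι × Fin Δ} (h : Mat τ M q) {X : Set (ι × Fin Δ)}
    (hX : ∀ p, h.blk.At X p) {k l : Fin Δ} (hl : l = τ k)
    (hm : ∀ κ, (κ, l) ∈ Pin τ M → q (κ, l) ≠ (κ, l)) :
    deg (flp τ M X) k ≤ deg M k ∧ deg (flp τ M X) l ≤ deg M k := by
  classical
  have hl' : k = τ l := by rw [hl, hτ]
  have e1 : ∀ κ, k ∈ flp τ M X κ ↔ (k ∈ M κ ∧ ¬ ((κ, k) ∈ X ∧ l ∉ M κ)) ∨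
      (l ∈ M κ ∧ (κ, l) ∈ X ∧ k ∉ M κ) := fun κ => by rw [mem_flp hτ, ← hl]
  have e2 : ∀ κ, l ∈ flp τ M X κ ↔ (l ∈ M κ ∧ ¬ ((κ, l) ∈ X ∧ k ∉ M κ)) ∨
      (k ∈ M κ ∧ (κ, k) ∈ X ∧ l ∉ M κ) := fun κ => by rw [mem_flp hτ, ← hl']
  have hp : ∀ κ, l ∈ M κ → k ∉ M κ → ((q (κ, l)).1, k) = q (κ, l) ∧ k ∈ M (q (κ, l)).1 ∧
      l ∉ M (q (κ, l)).1 := by
    intro κ h1 h2
    have h3 : (κ, l) ∈ Pin τ M := ⟨h1, by rw [← hl']; exact h2⟩
    have h4 := hm κ h3
    have h5 : (q (κ, l)).2 = k := by rw [(h.2 _ h4).2, ← hl']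
    have h6 := h.pin h4
    refine ⟨by rw [← h5], ?_, ?_⟩
    · have := h6.1
      rwa [h5] at this
    · have := h6.2
      rwa [h5, ← hl] at this
  have hi := h.iff hX
  let f : ι → ι := fun κ => if k ∈ M κ then κ else (q (κ, l)).1
  have f1 : ∀ κ, k ∈ M κ → f κ = κ := fun κ hk => if_pos hk
  have f2 : ∀ κ, k ∉ M κ → f κ = (q (κ, l)).1 := fun κ hk => if_neg hk
  have qinj : ∀ p p', q p = q p' → p = p' := fun p p' hh => by rw [← h.1 p, hh, h.1]
  have both : ∀ κ κ', l ∈ M κ → k ∉ M κ → l ∈ M κ' → k ∉ M κ' → f κ = f κ' → κ = κ' := by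
    intro κ κ' h1 h2 h3 h4 h5
    rw [f2 κ h2, f2 κ' h4] at h5
    have h6 : q (κ, l) = q (κ', l) := by
      rw [← (hp κ h1 h2).1, ← (hp κ' h3 h4).1, h5]
    exact congrArg Prod.fst (qinj _ _ h6)
  constructor
  · unfold deg
    refine Finset.card_le_card_of_injOn f ?_ ?_
    · intro κ hκ
      simp only [Finset.coe_filter, Finset.mem_univ, true_and, Set.mem_ofPred_eq] at hκ ⊢
      rcases (e1 κ).1 hκ with h1 | h1
      · rw [f1 κ h1.1]
        exact h1.1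
      · rw [f2 κ h1.2.2]
        exact (hp κ h1.1 h1.2.2).2.1
    · have key : ∀ κ κ', (k ∈ M κ ∧ ¬ ((κ, k) ∈ X ∧ l ∉ M κ)) →
          (l ∈ M κ' ∧ (κ', l) ∈ X ∧ k ∉ M κ') → f κ ≠ f κ' := by
        intro κ κ' h1 h2 h3
        rw [f1 κ h1.1, f2 κ' h2.2.2] at h3
        have h4 := hp κ' h2.1 h2.2.2
        refine h1.2 ⟨?_, ?_⟩
        · rw [h3, h4.1, hi]
          exact h2.2.1
        · rw [h3]
          exact h4.2.2
      intro κ hκ κ' hκ' hf
      simp only [Finset.coe_filter, Finset.mem_univ, true_and, Set.mem_ofPred_eq] at hκ hκ'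
      rcases (e1 κ).1 hκ with h1 | h1
      · rcases (e1 κ').1 hκ' with h2 | h2
        · rwa [f1 κ h1.1, f1 κ' h2.1] at hf
        · exact absurd hf (key κ κ' h1 h2)
      · rcases (e1 κ').1 hκ' with h2 | h2
        · exact absurd hf.symm (key κ' κ h2 h1)
        · exact both κ κ' h1.1 h1.2.2 h2.1 h2.2.2 hf
  · unfold deg
    refine Finset.card_le_card_of_injOn f ?_ ?_
    · intro κ hκ
      simp only [Finset.coe_filter, Finset.mem_univ, true_and, Set.mem_ofPred_eq] at hκ ⊢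
      by_cases hk : k ∈ M κ
      · rw [f1 κ hk]
        exact hk
      · rcases (e2 κ).1 hκ with h1 | h1
        · rw [f2 κ hk]
          exact (hp κ h1.1 hk).2.1
        · exact absurd h1.1 hk
    · have key : ∀ κ κ', l ∈ flp τ M X κ → l ∈ flp τ M X κ' → k ∈ M κ → k ∉ M κ' →
          f κ ≠ f κ' := by
        intro κ κ' h1 h2 h3 h4 h5
        rw [f1 κ h3, f2 κ' h4] at h5
        have h6 : l ∈ M κ' ∧ ¬ ((κ', l) ∈ X ∧ k ∉ M κ') := by
          rcases (e2 κ').1 h2 with h7 | h7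
          · exact h7
          · exact absurd h7.1 h4
        have h7 := hp κ' h6.1 h4
        have h8 : (κ', l) ∉ X := fun h9 => h6.2 ⟨h9, h4⟩
        rcases (e2 κ).1 h1 with h9 | h9
        · rw [h5] at h9
          exact h7.2.2 h9.1
        · apply h8
          rw [← hi, ← h7.1, ← h5]
          exact h9.2.1
      intro κ hκ κ' hκ' hf
      simp only [Finset.coe_filter, Finset.mem_univ, true_and, Set.mem_ofPred_eq] at hκ hκ'
      by_cases hk : k ∈ M κ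
      · by_cases hk' : k ∈ M κ'
        · rwa [f1 κ hk, f1 κ' hk'] at hf
        · exact absurd hf (key κ κ' hκ hκ' hk hk')
      · by_cases hk' : k ∈ M κ'
        · exact absurd hf.symm (key κ' κ hκ' hκ hk' hk)
        · have g1 : l ∈ M κ := by
            rcases (e2 κ).1 hκ with h7 | h7
            · exact h7.1
            · exact absurd h7.1 hk
          have g2 : l ∈ M κ' := by
            rcases (e2 κ').1 hκ' with h7 | h7
            · exact h7.1
            · exact absurd h7.1 hk'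
          exact both κ κ' g1 hk g2 hk' hf

/-- balanced play -/
lemma balanced {τ : Fin Δ → Fin Δ} (hτ : ∀ k, τ (τ k) = k) (M : ι → Finset (Fin Δ)) :
    ∃ B : Blk (ι × Fin Δ), B.Sup (Pin τ M) ∧ ∀ X : Set (ι × Fin Δ), (∀ p, B.At X p) →
      ∀ k, deg (flp τ M X) k ≤ max (deg M k) (deg M (τ k)) := by
  obtain ⟨q, hq, hm⟩ := exists_mat τ hτ M
  refine ⟨hq.blk, hq.sup, fun X hX k => ?_⟩
  rcases hm k with h | h
  · exact ((Mat.le hτ hq hX (k := τ k) (l := k) (hτ k).symm h).2).trans (le_max_right _ _)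
  · exact ((Mat.le hτ hq hX (k := k) (l := τ k) rfl h).1).trans (le_max_left _ _)

/-- the degrees are the same up to the order in the pairs -/
def Sm (τ : Fin Δ → Fin Δ) (M M' : ι → Finset (Fin Δ)) : Prop :=
  ∀ k, (deg M' k = deg M k ∧ deg M' (τ k) = deg M (τ k)) ∨
    (deg M' k = deg M (τ k) ∧ deg M' (τ k) = deg M k)

lemma sq_le {a b c d : ℕ} (h : a + b = c + d) (h1 : a ≤ max c d) (h2 : b ≤ max c d) :
    a ^ 2 + b ^ 2 ≤ c ^ 2 + d ^ 2 := by
  rcases le_total c d with h3 | h3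
  · rw [max_eq_right h3] at h1 h2
    nlinarith
  · rw [max_eq_left h3] at h1 h2
    nlinarith

lemma sq_eq {a b c d : ℕ} (h : a + b = c + d) (h1 : a ^ 2 + b ^ 2 = c ^ 2 + d ^ 2) :
    (a = c ∧ b = d) ∨ (a = d ∧ b = c) := by
  have h2 : (a : ℤ) + b = c + d := by exact_mod_cast h
  have h3 : (a : ℤ) ^ 2 + b ^ 2 = c ^ 2 + d ^ 2 := by exact_mod_cast h1
  have h4 : ((a : ℤ) - c) * (a - d) = 0 := by
    have h5 : (b : ℤ) = c + d - a := by linarith
    rw [h5] at h3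
    nlinarith
  rcases mul_eq_zero.1 h4 with h5 | h5
  · left
    omega
  · right
    omega

/-- balanced play: the potential drops or the degrees are the same up to the order -/
lemma balanced_phi {τ : Fin Δ → Fin Δ} (hτ : ∀ k, τ (τ k) = k) (M : ι → Finset (Fin Δ)) :
    ∃ B : Blk (ι × Fin Δ), B.Sup (Pin τ M) ∧ ∀ X : Set (ι × Fin Δ), (∀ p, B.At X p) →
      Phi (flp τ M X) < Phi M ∨ (Phi (flp τ M X) = Phi M ∧ Sm τ M (flp τ M X)) := by
  obtain ⟨B, h1, h2⟩ := balanced hτ M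
  refine ⟨B, h1, fun X hX => ?_⟩
  have h3 : ∀ k, deg (flp τ M X) k ^ 2 + deg (flp τ M X) (τ k) ^ 2 ≤
      deg M k ^ 2 + deg M (τ k) ^ 2 := by
    intro k
    refine sq_le (deg_add hτ M X k) (h2 X hX k) ?_
    have := h2 X hX (τ k)
    rwa [hτ, max_comm] at this
  have hs : ∀ f : Fin Δ → ℕ, ∑ k, f (τ k) = ∑ k, f k := fun f =>
    Function.Bijective.sum_comp (Function.Involutive.bijective hτ) f
  have e1 : ∑ k, (deg (flp τ M X) k ^ 2 + deg (flp τ M X) (τ k) ^ 2) =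
      2 * Phi (flp τ M X) := by
    rw [Finset.sum_add_distrib, hs fun k => deg (flp τ M X) k ^ 2]
    unfold Phi
    ring
  have e2 : ∑ k, (deg M k ^ 2 + deg M (τ k) ^ 2) = 2 * Phi M := by
    rw [Finset.sum_add_distrib, hs fun k => deg M k ^ 2]
    unfold Phi
    ring
  rcases lt_or_ge (Phi (flp τ M X)) (Phi M) with h4 | h4
  · exact Or.inl h4
  · right
    have h5 := Finset.sum_le_sum fun k (_ : k ∈ (Finset.univ : Finset (Fin Δ))) => h3 k
    rw [e1, e2] at h5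
    have h6 : Phi (flp τ M X) = Phi M := by omega
    refine ⟨h6, fun k => ?_⟩
    have h7 := (Finset.sum_eq_sum_iff_of_le fun k (_ : k ∈ (Finset.univ : Finset (Fin Δ))) =>
      h3 k).1 (by rw [e1, e2, h6]) k (Finset.mem_univ _)
    exact sq_eq (deg_add hτ M X k) h7

end degree

/-! ### Finished states stay finished -/

lemma flp_nonempty (τ : Fin Δ → Fin Δ) (M : ι → Finset (Fin Δ)) (X : Set (ι × Fin Δ)) (κ : ι) :
    (flp τ M X κ).Nonempty ↔ (M κ).Nonempty := by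
  classical
  unfold flp
  exact Finset.image_nonempty

/-- one round from a finished state -/
lemma sdr_step {τ : Fin Δ → Fin Δ} (hτ : ∀ k, τ (τ k) = k) {M : ι → Finset (Fin Δ)}
    (h : SDR M) : ∃ B : Blk (ι × Fin Δ), B.Sup (Pin τ M) ∧ ∀ X : Set (ι × Fin Δ),
      (∀ p, B.At X p) → SDR (flp τ M X) := by
  classical
  obtain ⟨φ, hφ, hi⟩ := h
  -- the owner of a pin
  let O : ι × Fin Δ → Prop := fun p => p ∈ Pin τ M ∧ φ p.1 = p.2
  have Oinj : ∀ p p', O p → O p' → p.2 = p'.2 → p = p' := by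
    intro p p' h1 h2 h3
    have h4 : p.1 = p'.1 := hi p.1 p'.1 ⟨_, h1.1.1⟩ ⟨_, h2.1.1⟩ (by rw [h1.2, h2.2, h3])
    exact Prod.ext h4 h3
  let q : ι × Fin Δ → ι × Fin Δ := fun p =>
    if hp : O p ∧ ∃ κ, O (κ, τ p.2) then (hp.2.choose, τ p.2) else p
  have q1 : ∀ p, O p → ∀ κ, O (κ, τ p.2) → q p = (κ, τ p.2) := by
    intro p h1 κ h2
    have h3 : O p ∧ ∃ κ, O (κ, τ p.2) := ⟨h1, κ, h2⟩
    have h4 : q p = (h3.2.choose, τ p.2) := dif_pos h3
    rw [h4]
    exact Oinj _ _ h3.2.choose_spec h2 rfl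
  have q0 : ∀ p, ¬ (O p ∧ ∃ κ, O (κ, τ p.2)) → q p = p := fun p hp => dif_neg hp
  have hM : Mat τ M q := by
    refine ⟨fun p => ?_, fun p hp => ?_⟩
    · by_cases h1 : O p ∧ ∃ κ, O (κ, τ p.2)
      · obtain ⟨h2, κ, h3⟩ := h1
        rw [q1 p h2 κ h3]
        have h4 := q1 (κ, τ p.2) h3 p.1 (by
          simp only [hτ]
          exact h2)
        rw [h4]
        simp only [hτ]
      · rw [q0 p h1, q0 p h1]
    · by_cases h1 : O p ∧ ∃ κ, O (κ, τ p.2)
      · obtain ⟨h2, κ, h3⟩ := h1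
        rw [q1 p h2 κ h3]
        exact ⟨h2.1, rfl⟩
      · exact absurd (q0 p h1) hp
  refine ⟨hM.blk, hM.sup, fun X hX => ?_⟩
  have hXi := hM.iff hX
  -- flipped owners
  let F : ι → Prop := fun κ => O (κ, φ κ) ∧ (κ, φ κ) ∈ X
  have FF : ∀ κ κ', F κ → O (κ', φ κ') → φ κ' = τ (φ κ) → F κ' := by
    intro κ κ' h1 h2 h3
    refine ⟨h2, ?_⟩
    have h4 := q1 (κ, φ κ) h1.1 κ' (by
      simp only
      rw [← h3]
      exact h2)
    have h5 := (hXi (κ, φ κ)).2 h1.2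
    rw [h4] at h5
    simp only at h5
    rwa [← h3] at h5
  let D : ι → Prop := fun κ => (M κ).Nonempty ∧ τ (φ κ) ∈ M κ ∧ ∃ κ', F κ' ∧ φ κ' = τ (φ κ)
  let ψ : ι → Fin Δ := fun κ => if F κ ∨ D κ then τ (φ κ) else φ κ
  have ψ1 : ∀ κ, F κ ∨ D κ → ψ κ = τ (φ κ) := fun κ h => if_pos h
  have ψ2 : ∀ κ, ¬ (F κ ∨ D κ) → ψ κ = φ κ := fun κ h => if_neg h
  refine ⟨ψ, fun κ hκ => ?_, ?_⟩
  · rw [flp_nonempty] at hκ
    have h1 := hφ κ hκ
    by_cases h2 : F κ ∨ D κ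
    · rw [ψ1 κ h2, mem_flp hτ, hτ]
      rcases h2 with h2 | h2
      · right
        exact ⟨h1, h2.2, h2.1.1.2⟩
      · left
        exact ⟨h2.2.1, fun h3 => h3.2 h1⟩
    · rw [ψ2 κ h2, mem_flp hτ]
      left
      refine ⟨h1, fun h3 => h2 (Or.inl ⟨⟨⟨h1, h3.2⟩, rfl⟩, h3.1⟩)⟩
  · have key : ∀ κ κ', (M κ).Nonempty → (M κ').Nonempty → κ ≠ κ' → ¬ (F κ ∨ D κ) →
        (F κ' ∨ D κ') → ψ κ = ψ κ' → False := by
      intro κ κ' n1 n2 hne h1 h2 h3
      rw [ψ2 κ h1, ψ1 κ' h2] at h3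
      have h4 : φ κ' = τ (φ κ) := by rw [h3, hτ]
      have hneφ : φ κ ≠ φ κ' := fun h => hne (hi _ _ n1 n2 h)
      have h5 : F κ' := by
        rcases h2 with h2 | ⟨_, _, κ'', h5, h6⟩
        · exact h2
        · -- the flipped owner is `κ`
          have h7 : κ'' = κ := hi _ _ ⟨_, h5.1.1.1⟩ n1 (by rw [h6, h3])
          rw [h7] at h5
          exact absurd (Or.inl h5) h1
      by_cases h6 : τ (φ κ) ∈ M κ
      · exact h1 (Or.inr ⟨n1, h6, κ', h5, h4⟩)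
      · exact h1 (Or.inl (FF κ' κ h5 ⟨⟨hφ κ n1, h6⟩, rfl⟩ h3))
    intro κ κ' hκ hκ' h1
    rw [flp_nonempty] at hκ hκ'
    by_contra hne
    by_cases h2 : F κ ∨ D κ
    · by_cases h3 : F κ' ∨ D κ'
      · rw [ψ1 κ h2, ψ1 κ' h3] at h1
        refine hne (hi _ _ hκ hκ' ?_)
        rw [← hτ (φ κ), h1, hτ]
      · exact key κ' κ hκ' hκ (Ne.symm hne) h3 h2 h1.symm
    · by_cases h3 : F κ' ∨ D κ'
      · exact key κ κ' hκ hκ' hne h2 h3 h1
      · rw [ψ2 κ h2, ψ2 κ' h3] at h1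
        exact hne (hi _ _ hκ hκ' h1)

lemma sdr_stay {w : List (Fin Δ → Fin Δ)} (hw : ∀ τ ∈ w, ∀ k, τ (τ k) = k)
    {M : ι → Finset (Fin Δ)} (h : SDR M) : WinT SDR w M := by
  induction w generalizing M with
  | nil => exact h
  | cons τ w ih =>
    obtain ⟨B, h1, h2⟩ := sdr_step (hw τ (by simp)) h
    exact ⟨B, h1, fun X hX => ih (fun σ hσ => hw σ (by simp [hσ])) (h2 X hX)⟩

section degree

variable [Fintype ι]

/-- finished or small potential -/
def Tg (c : ℕ) (M : ι → Finset (Fin Δ)) : Prop := SDR M ∨ Phi M < c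

/-- the target stays -/
lemma tg_stay {c : ℕ} {w : List (Fin Δ → Fin Δ)} (hw : ∀ τ ∈ w, ∀ k, τ (τ k) = k)
    {M : ι → Finset (Fin Δ)} (h : Tg c M) : WinT (Tg c) w M := by
  rcases h with h | h
  · exact (sdr_stay hw h).mono fun M' h' => Or.inl h'
  · induction w generalizing M with
    | nil => exact Or.inr h
    | cons τ w ih =>
      obtain ⟨B, h1, h2⟩ := balanced_phi (hw τ (by simp)) M
      refine ⟨B, h1, fun X hX => ih (fun σ hσ => hw σ (by simp [hσ])) ?_⟩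
      rcases h2 X hX with h3 | h3
      · exact h3.trans h
      · rw [h3.1]
        exact h

end degree

end Pool.Agent.SGM
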