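import Pool.Agent.SGM.Defs

set_option autoImplicit false

/-! MP_fff3e1_lc, reduction to a finite game: exact targets.  Proofs: Blueprint.lean.txt.  Prove
`theorem allXXX : tXXX.{u}` in Pool/Agent/SGM/XXX.lean; other targets are hypotheses. -/

namespace Pool.Agent.SGM

open MeasureTheory Set Filter
open scoped ENNReal
open Pool.Agent.MEC
open Pool.Agent.MEP
open Pool.Agent.MEO

universe u

/-! ### G. The game -/

/-- G1 a universal word also wins with at most `Δ` sets and any index set `Fin m` -/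
def tWIN : Prop := ∀ (Δ : ℕ) (w : List (Fin Δ × Fin Δ)), Univ Δ w →
  ∀ (m : ℕ) (M : Fin m → Finset (Fin Δ)), (∀ κ, (M κ).card = 0 ∨ (M κ).card = 2) →
    {κ | (M κ).Nonempty}.ncard ≤ Δ → (∃ κ0, SDR (rm M κ0)) → Win w M

/-- G2 certificates for small `Δ` -/
def tU3 : Prop := ∃ w, Univ 3 w

def tU4 : Prop := ∃ w, Univ 4 w

def tU5 : Prop := ∃ w, Univ 5 w

/-! ### A. The constraint problem on strands -/

/-- A1 every triple owns one of its points, no link is owned twice -/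
def tOWN : Prop := ∀ (V : Type u) [MeasurableSpace V] [StandardBorelSpace V] (μ : Measure V)
    [IsFiniteMeasure μ] (r l : V → V), Measurable r → Measurable l →
  (∀ x, r (r (r x)) = x) → (∀ x, l (l x) = x) → (∀ x, l x ≠ x → r x ≠ x) →
  ∃ O : Set V, MeasurableSet O ∧ Own r l O ∧
    ∀ᵐ x ∂μ, r x ≠ x → x ∈ O ∨ r x ∈ O ∨ r (r x) ∈ O

/-- A2 labels: links in `E` have equal ends, on the other links not both ends are in `X`,
triples which own a point are not constant -/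
def tLBL : Prop := ∀ (V : Type u) [MeasurableSpace V] [StandardBorelSpace V] (r l : V → V)
    (O E : Set V), Measurable r → Measurable l → (∀ x, r (r (r x)) = x) →
  (∀ x, l (l x) = x) → (∀ x, l x ≠ x → r x ≠ x) → MeasurableSet O → MeasurableSet E →
  (∀ x ∈ E, l x ∈ E) → Own r l O →
  ∃ X ⊆ {x | r x ≠ x}, MeasurableSet X ∧ (∀ x ∈ E, x ∈ X → l x ∈ X) ∧
    (∀ x ∉ E, l x ≠ x → x ∈ X → l x ∉ X) ∧ ∀ x ∈ O, Nae r X x

/-- A3 the other end of a strand -/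
def tPAR : Prop := ∀ (V : Type u) [MeasurableSpace V] [StandardBorelSpace V] (s t q : V → V),
  Measurable s → Measurable t → Measurable q → (∀ x, s (s x) = x) → (∀ x, t (t x) = x) →
  (∀ x, q (q x) = x) → (∀ x, q x ≠ x → s x = x ∨ t x = x) →
  (∃ π : V → V, Measurable π ∧ (∀ x, π (π x) = x) ∧ (∀ x, (G3 s t q).Reachable x (π x)) ∧
    (∀ x, π x ≠ x → x ∈ E3 s t q) ∧
    ∀ x ∈ E3 s t q, ∀ y ∈ E3 s t q, (G3 s t q).Reachable x y → y = x ∨ y = π x) ∧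
  ∀ X, MeasurableSet X → MeasurableSet {x | ∃ y ∈ X, (G3 s t q).Reachable x y}

/-- A4 all constraints can be satisfied by flipping a measurable set of strands -/
def tCSP : Prop := ∀ (V : Type u) [MeasurableSpace V] [StandardBorelSpace V] (μ : Measure V)
    [IsFiniteMeasure μ] (s t : V → V) (B : Blk V), Measurable s → Measurable t →
  (∀ x, s (s x) = x) → (∀ x, t (t x) = x) → Measurable B.q → Measurable B.n →
  Measurable B.r → (∀ x, (B.q x ≠ x ∨ B.n x ≠ x ∨ B.r x ≠ x) → s x = x ∨ t x = x) →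
  ∃ X : Set V, MeasurableSet X ∧ (∀ x ∈ X, s x ∈ X ∧ t x ∈ X) ∧ ∀ᵐ x ∂μ, B.At X x

/-! ### B. Rounds, phases -/

/-- B1 the blocks chosen by all centres -/
def tBLK : Prop := ∀ (V : Type u) [MeasurableSpace V] [StandardBorelSpace V]
    (G : SimpleGraph V) (m Δ : ℕ) (e : PCol G m) (Z : Set V), Cen e Δ Z →
  ∀ (c : PCol (off G Z) Δ) (M : V → Fin m → Finset (Fin Δ)) (i j : Fin Δ)
    (w : List (Fin Δ × Fin Δ)), LS e Z c M →
  ∃ B : Blk V, Measurable B.q ∧ Measurable B.n ∧ Measurable B.r ∧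
    (∀ x, (B.q x ≠ x ∨ B.n x ≠ x ∨ B.r x ≠ x) → c.S i x = x ∨ c.S j x = x) ∧
    ∀ t ∈ Z, Win ((i, j) :: w) (M t) →
      ∀ X : Set V, (∀ κ, e.S κ t ≠ t → B.At X (e.S κ t)) →
        Win w (fl i j (M t) {κ | e.S κ t ∈ X})

/-- B2 flipping a measurable set of `i j`-components -/
def tFLI : Prop := ∀ (V : Type u) [MeasurableSpace V] [StandardBorelSpace V]
    (G : SimpleGraph V) (m Δ : ℕ) (e : PCol G m) (Z : Set V), Cen e Δ Z →
  ∀ (c : PCol (off G Z) Δ) (M : V → Fin m → Finset (Fin Δ)) (i j : Fin Δ), i ≠ j →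
    LS e Z c M → ∀ X : Set V, MeasurableSet X → (∀ x ∈ X, c.S i x ∈ X ∧ c.S j x ∈ X) →
  ∃ c' : PCol (off G Z) Δ, LS e Z c' (fun t => fl i j (M t) {κ | e.S κ t ∈ X}) ∧
    ∀ x y, (∃ k, c.S k x = y) → x ≠ y → ∃ k, c'.S k x = y

/-- B3 one round -/
def tRD1 : Prop := ∀ (V : Type u) [MeasurableSpace V] [StandardBorelSpace V]
    (G : SimpleGraph V) (m Δ : ℕ) (e : PCol G m) (ν : Measure V) [IsFiniteMeasure ν]
    (C : ℝ≥0∞) (Z : Set V), QInv G ν C → C ≠ ⊤ → Cen e Δ Z →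
  ∀ (c : PCol (off G Z) Δ) (M : V → Fin m → Finset (Fin Δ)) (i j : Fin Δ)
    (w : List (Fin Δ × Fin Δ)), i ≠ j → LS e Z c M → Cov ν c →
    (∀ᵐ t ∂ν, t ∈ Z → Win ((i, j) :: w) (M t)) →
  ∃ (c' : PCol (off G Z) Δ) (M' : V → Fin m → Finset (Fin Δ)), LS e Z c' M' ∧ Cov ν c' ∧
    ∀ᵐ t ∂ν, t ∈ Z → Win w (M' t)

/-- B4 the beginning of a phase -/
def tINI : Prop := ∀ (V : Type u) [MeasurableSpace V] [StandardBorelSpace V]
    (H G : SimpleGraph V) (m Δ : ℕ) (e : PCol G m) (ν : Measure V) [IsFiniteMeasure ν]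
    (C : ℝ≥0∞) (Z : Set V), QInv G ν C → C ≠ ⊤ → Cen e Δ Z → 0 < m → 0 < Δ → H ≤ G →
  New H G Z → ∀ c : PCol H Δ, Cov ν c →
  ∃ (c0 : PCol (off G Z) Δ) (M : V → Fin m → Finset (Fin Δ)), LS e Z c0 M ∧ Cov ν c0 ∧
    ∀ᵐ t ∂ν, t ∈ Z → ∃ κ0, SDR (rm (M t) κ0)

/-- B5 the end of a phase -/
def tFIN : Prop := ∀ (V : Type u) [MeasurableSpace V] [StandardBorelSpace V]
    (G : SimpleGraph V) (m Δ : ℕ) (e : PCol G m) (ν : Measure V) [IsFiniteMeasure ν]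
    (C : ℝ≥0∞) (Z : Set V), QInv G ν C → C ≠ ⊤ → Cen e Δ Z →
  ∀ (c : PCol (off G Z) Δ) (M : V → Fin m → Finset (Fin Δ)), LS e Z c M → Cov ν c →
    (∀ᵐ t ∂ν, t ∈ Z → SDR (M t)) → ∃ c' : PCol G Δ, Cov ν c'

/-- B6 one phase -/
def tPHS : Prop := ∀ (Δ : ℕ) (w : List (Fin Δ × Fin Δ)), Univ Δ w →
  ∀ (V : Type u) [MeasurableSpace V] [StandardBorelSpace V]
    (H G : SimpleGraph V) (m : ℕ) (e : PCol G m) (ν : Measure V) [IsFiniteMeasure ν]
    (C : ℝ≥0∞) (Z : Set V), QInv G ν C → C ≠ ⊤ → Cen e Δ Z → 0 < m → 0 < Δ → H ≤ G →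
  New H G Z → ∀ c : PCol H Δ, Cov ν c → ∃ c' : PCol G Δ, Cov ν c'

/-- B7 the sequence of phases -/
def tSEQ : Prop := ∀ (V : Type u) [MeasurableSpace V] [StandardBorelSpace V]
    (G : SimpleGraph V) (Δ : ℕ), 0 < Δ →
  MeasurableSet {p : V × V | G.Adj p.1 p.2} → (∀ x, (G.neighborSet x).encard ≤ Δ) →
  (∀ x y, G.Adj x y → (G.neighborSet x).encard < Δ ∨ (G.neighborSet y).encard < Δ) →
  ∃ (N : ℕ) (H : ℕ → SimpleGraph V) (Z : ℕ → Set V), H 0 = ⊥ ∧ H N = G ∧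
    ∀ k, H k ≤ H (k + 1) ∧ H (k + 1) ≤ G ∧ New (H k) (H (k + 1)) (Z k) ∧
      ∃ e : PCol (H (k + 1)) (2 * Δ), Cen e Δ (Z k)

/-- B8 the reduction -/
def tSGM : Prop := ∀ (Δ : ℕ) (w : List (Fin Δ × Fin Δ)), Univ Δ w →
  ∀ (V : Type u) [MeasurableSpace V] [StandardBorelSpace V] (G : SimpleGraph V)
    (μ : Measure V) [IsFiniteMeasure μ],
  MeasurableSet {p : V × V | G.Adj p.1 p.2} → (∀ x, (G.neighborSet x).encard ≤ Δ) →
  (∀ x y, G.Adj x y → (G.neighborSet x).encard < Δ ∨ (G.neighborSet y).encard < Δ) →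
  ∃ c : PCol G Δ, ∀ᵐ x ∂μ, ∀ y, G.Adj x y → ∃ k, c.S k x = y

end Pool.Agent.SGM
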