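import Pool.Agent.SGM.Targets

set_option autoImplicit false

/-! MP_fff3e1_lc, reduction to a finite game: target `tWIN`.  A universal word also wins when the
sets are indexed by any `Fin m` and at most `Δ` of them are nonempty. -/

namespace Pool.Agent.SGM

namespace WIN_

universe u v

variable {ι : Type u} {ι' : Type v} {Δ : ℕ}

lemma three {α : Type*} [LinearOrder α] {a b c : α} (h1 : a ≠ b) (h2 : b ≠ c) (h3 : a ≠ c) :
    ¬ ((a < b ∧ a < c) ∧ (b < c ∧ b < a) ∧ (c < a ∧ c < b)) ∧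
      ((a < b ∧ a < c) ∨ (b < c ∧ b < a) ∨ (c < a ∧ c < b)) := by
  refine ⟨fun h => lt_asymm h.1.1 h.2.1.2, ?_⟩
  rcases lt_or_gt_of_ne h1 with h | h
  · rcases lt_or_gt_of_ne h3 with h' | h'
    · exact Or.inl ⟨h, h'⟩
    · exact Or.inr (Or.inr ⟨h', h'.trans h⟩)
  · rcases lt_or_gt_of_ne h2 with h' | h'
    · exact Or.inr (Or.inl ⟨h', h⟩)
    · exact Or.inr (Or.inr ⟨h'.trans h, h'⟩)

lemma p1 (p q : Prop) : ¬ (p ∧ q ∧ ¬ p) ∧ (p ∨ q ∨ ¬ p) := by tauto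
lemma p2 (p s : Prop) : ¬ (p ∧ ¬ s ∧ s) ∧ (p ∨ ¬ s ∨ s) := by tauto
lemma p3 (p : Prop) : ¬ (p ∧ ¬ p ∧ ¬ p) ∧ (p ∨ ¬ p ∨ ¬ p) := by tauto
lemma p4 (q s : Prop) : ¬ (¬ q ∧ q ∧ s) ∧ (¬ q ∨ q ∨ s) := by tauto
lemma p5 (q : Prop) : ¬ (¬ q ∧ q ∧ ¬ q) ∧ (¬ q ∨ q ∨ ¬ q) := by tauto
lemma p6 (s : Prop) : ¬ (¬ s ∧ ¬ s ∧ s) ∧ (¬ s ∨ ¬ s ∨ s) := by tauto

/-- the image of `S` -/
def In (f : ι → ι') (S : Set ι) (y : ι') : Prop := ∃ κ ∈ S, f κ = y

/-- the image of `S ∩ X` -/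
def InX (f : ι → ι') (S X : Set ι) (y : ι') : Prop := ∃ κ ∈ S, f κ = y ∧ κ ∈ X

lemma inX_iff {f : ι → ι'} {S : Set ι} (hf : Set.InjOn f S) (X : Set ι) {κ : ι} (h : κ ∈ S) :
    InX f S X (f κ) ↔ κ ∈ X := by
  constructor
  · rintro ⟨κ', h1, h2, h3⟩
    rwa [← hf h1 h h2]
  · exact fun h1 => ⟨κ, h, rfl, h1⟩

open Classical in
/-- the value of the flip outside the image of `S` -/
def mb [LT ι'] (B' : Blk ι') (f : ι → ι') (S X : Set ι) (y : ι') : Prop :=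
  if In f S y then InX f S X y else
  if B'.q y ≠ y then InX f S X (B'.q y) else
  if B'.r y ≠ y then
    (if In f S (B'.r y) then ¬ InX f S X (B'.r y) else
      if In f S (B'.r (B'.r y)) then ¬ InX f S X (B'.r (B'.r y)) else
        (y < B'.r y ∧ y < B'.r (B'.r y)))
  else False

section

variable [LT ι'] {B' : Blk ι'} {f : ι → ι'} {S X : Set ι} {y : ι'}

lemma mb1 (h : In f S y) : mb B' f S X y ↔ InX f S X y := by
  unfold mb
  rw [if_pos h]

lemma mb2 (h : ¬ In f S y) (hq : B'.q y ≠ y) : mb B' f S X y ↔ InX f S X (B'.q y) := by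
  unfold mb
  rw [if_neg h, if_pos hq]

lemma mb3 (h : ¬ In f S y) (hn : B'.n y ≠ y) : ¬ mb B' f S X y := by
  have h1 := B'.nr y hn
  have h2 : B'.q y = y := by
    by_contra h
    exact hn (B'.qn y h)
  unfold mb
  rw [if_neg h, if_neg (not_not.2 h2), if_neg (not_not.2 h1)]
  exact id

lemma rq (B' : Blk ι') {y : ι'} (hr : B'.r y ≠ y) : B'.q y = y := by
  by_contra h
  exact hr (B'.qr y h)

lemma mb4 (h : ¬ In f S y) (hr : B'.r y ≠ y) (h1 : In f S (B'.r y)) :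
    mb B' f S X y ↔ ¬ InX f S X (B'.r y) := by
  unfold mb
  rw [if_neg h, if_neg (not_not.2 (rq B' hr)), if_pos hr, if_pos h1]

lemma mb5 (h : ¬ In f S y) (hr : B'.r y ≠ y) (h1 : ¬ In f S (B'.r y))
    (h2 : In f S (B'.r (B'.r y))) : mb B' f S X y ↔ ¬ InX f S X (B'.r (B'.r y)) := by
  unfold mb
  rw [if_neg h, if_neg (not_not.2 (rq B' hr)), if_pos hr, if_neg h1, if_pos h2]

lemma mb6 (h : ¬ In f S y) (hr : B'.r y ≠ y) (h1 : ¬ In f S (B'.r y))
    (h2 : ¬ In f S (B'.r (B'.r y))) :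
    mb B' f S X y ↔ y < B'.r y ∧ y < B'.r (B'.r y) := by
  unfold mb
  rw [if_neg h, if_neg (not_not.2 (rq B' hr)), if_pos hr, if_neg h1, if_neg h2]

end

/-- blocks on the larger index set, restricted along a partial inverse of `f` -/
lemma exists_blk [LinearOrder ι'] (f : ι → ι') (S : Set ι) (hf : Set.InjOn f S) (B' : Blk ι') :
    ∃ B : Blk ι, (∀ x, x ∉ S → B.q x = x ∧ B.n x = x ∧ B.r x = x) ∧
      (∀ x, B'.q (f x) = f x → B.q x = x) ∧ (∀ x, B'.n (f x) = f x → B.n x = x) ∧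
      (∀ x, B'.r (f x) = f x → B.r x = x) ∧
      ∀ X : Set ι, (∀ κ, B.At X κ) → ∃ X' : Set ι', (∀ y, B'.At X' y) ∧
        ∀ κ ∈ S, (f κ ∈ X' ↔ κ ∈ X) := by
  classical
  let q : ι → ι := fun κ => if h : κ ∈ S ∧ In f S (B'.q (f κ)) then h.2.choose else κ
  let n : ι → ι := fun κ => if h : κ ∈ S ∧ In f S (B'.n (f κ)) then h.2.choose else κ
  let r : ι → ι := fun κ => if h : κ ∈ S ∧ In f S (B'.r (f κ)) ∧
    In f S (B'.r (B'.r (f κ))) then h.2.1.choose else κ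
  have q1 : ∀ κ, κ ∈ S ∧ In f S (B'.q (f κ)) → q κ ∈ S ∧ f (q κ) = B'.q (f κ) := by
    intro κ h
    have h1 : q κ = h.2.choose := dif_pos h
    rw [h1]
    exact h.2.choose_spec
  have q0 : ∀ κ, ¬ (κ ∈ S ∧ In f S (B'.q (f κ))) → q κ = κ := fun κ h => dif_neg h
  have n1 : ∀ κ, κ ∈ S ∧ In f S (B'.n (f κ)) → n κ ∈ S ∧ f (n κ) = B'.n (f κ) := by
    intro κ h
    have h1 : n κ = h.2.choose := dif_pos h
    rw [h1]
    exact h.2.choose_spec
  have n0 : ∀ κ, ¬ (κ ∈ S ∧ In f S (B'.n (f κ))) → n κ = κ := fun κ h => dif_neg h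
  have r1 : ∀ κ, κ ∈ S ∧ In f S (B'.r (f κ)) ∧ In f S (B'.r (B'.r (f κ))) →
      r κ ∈ S ∧ f (r κ) = B'.r (f κ) := by
    intro κ h
    have h1 : r κ = h.2.1.choose := dif_pos h
    rw [h1]
    exact h.2.1.choose_spec
  have r0 : ∀ κ, ¬ (κ ∈ S ∧ In f S (B'.r (f κ)) ∧ In f S (B'.r (B'.r (f κ)))) → r κ = κ :=
    fun κ h => dif_neg h
  have qid : ∀ x, B'.q (f x) = f x → q x = x := by
    intro x hx
    by_cases h : x ∈ S ∧ In f S (B'.q (f x))
    · exact hf (q1 x h).1 h.1 ((q1 x h).2.trans hx)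
    · exact q0 x h
  have nid : ∀ x, B'.n (f x) = f x → n x = x := by
    intro x hx
    by_cases h : x ∈ S ∧ In f S (B'.n (f x))
    · exact hf (n1 x h).1 h.1 ((n1 x h).2.trans hx)
    · exact n0 x h
  have rid : ∀ x, B'.r (f x) = f x → r x = x := by
    intro x hx
    by_cases h : x ∈ S ∧ In f S (B'.r (f x)) ∧ In f S (B'.r (B'.r (f x)))
    · exact hf (r1 x h).1 h.1 ((r1 x h).2.trans hx)
    · exact r0 x h
  have q2 : ∀ x, q (q x) = x := by
    intro x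
    by_cases h : x ∈ S ∧ In f S (B'.q (f x))
    · have h1 := q1 x h
      have h2 := q1 (q x) ⟨h1.1, x, h.1, by rw [h1.2, B'.q2]⟩
      exact hf h2.1 h.1 (by rw [h2.2, h1.2, B'.q2])
    · rw [q0 x h, q0 x h]
  have n2 : ∀ x, n (n x) = x := by
    intro x
    by_cases h : x ∈ S ∧ In f S (B'.n (f x))
    · have h1 := n1 x h
      have h2 := n1 (n x) ⟨h1.1, x, h.1, by rw [h1.2, B'.n2]⟩
      exact hf h2.1 h.1 (by rw [h2.2, h1.2, B'.n2])
    · rw [n0 x h, n0 x h]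
  have rstep : ∀ x, x ∈ S ∧ In f S (B'.r (f x)) ∧ In f S (B'.r (B'.r (f x))) →
      r x ∈ S ∧ In f S (B'.r (f (r x))) ∧ In f S (B'.r (B'.r (f (r x)))) := by
    intro x h
    have h1 := r1 x h
    refine ⟨h1.1, by rw [h1.2]; exact h.2.2, ?_⟩
    rw [h1.2, B'.r3]
    exact ⟨x, h.1, rfl⟩
  have r3 : ∀ x, r (r (r x)) = x := by
    intro x
    by_cases h : x ∈ S ∧ In f S (B'.r (f x)) ∧ In f S (B'.r (B'.r (f x)))
    · have a := rstep x h
      have b := rstep (r x) a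
      have h1 := r1 x h
      have h2 := r1 (r x) a
      have h3 := r1 (r (r x)) b
      exact hf h3.1 h.1 (by rw [h3.2, h2.2, h1.2, B'.r3])
    · rw [r0 x h, r0 x h, r0 x h]
  refine ⟨⟨q, n, r, q2, n2, r3, fun x hx => nid x (B'.qn _ fun h => hx (qid x h)),
    fun x hx => rid x (B'.qr _ fun h => hx (qid x h)),
    fun x hx => rid x (B'.nr _ fun h => hx (nid x h))⟩,
    fun x hx => ⟨q0 x fun h => hx h.1, n0 x fun h => hx h.1, r0 x fun h => hx h.1⟩,
    qid, nid, rid, ?_⟩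
  intro X hX
  have hXq : ∀ κ, κ ∈ X → q κ ∈ X := fun κ => (hX κ).1
  have hXn : ∀ κ, n κ ≠ κ → κ ∈ X → n κ ∉ X := fun κ => (hX κ).2.1
  have hXr : ∀ κ, r κ ≠ κ → ¬ (κ ∈ X ∧ r κ ∈ X ∧ r (r κ) ∈ X) ∧
      (κ ∈ X ∨ r κ ∈ X ∨ r (r κ) ∈ X) := fun κ => (hX κ).2.2
  clear hX
  refine ⟨{y | mb B' f S X y}, ?_, fun κ hκ => ?_⟩
  swap
  · exact (mb1 (⟨κ, hκ, rfl⟩ : In f S (f κ))).trans (inX_iff hf X hκ)
  intro y
  refine ⟨fun h => ?_, fun h1 h2 h3 => ?_, fun h => ?_⟩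
  · change mb B' f S X y at h
    change mb B' f S X (B'.q y)
    by_cases hq : B'.q y = y
    · rwa [hq]
    have hq' : B'.q (B'.q y) ≠ B'.q y := by rw [B'.q2]; exact Ne.symm hq
    by_cases hy : In f S y
    · rw [mb1 hy] at h
      by_cases hz : In f S (B'.q y)
      · rw [mb1 hz]
        obtain ⟨κ, hκ, rfl⟩ := hy
        rw [inX_iff hf X hκ] at h
        have h2 := q1 κ ⟨hκ, hz⟩
        rw [← h2.2, inX_iff hf X h2.1]
        exact hXq κ h
      · rw [mb2 hz hq', B'.q2]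
        exact h
    · rw [mb2 hy hq] at h
      obtain ⟨κ, hκ, h3, h4⟩ := h
      rw [mb1 ⟨κ, hκ, h3⟩]
      exact ⟨κ, hκ, h3, h4⟩
  · change mb B' f S X y at h2
    change mb B' f S X (B'.n y) at h3
    have h1' : B'.n (B'.n y) ≠ B'.n y := by rw [B'.n2]; exact Ne.symm h1
    have hy : In f S y := by
      by_contra hy
      exact mb3 hy h1 h2
    have hz : In f S (B'.n y) := by
      by_contra hz
      exact mb3 hz h1' h3
    rw [mb1 hz] at h3
    rw [mb1 hy] at h2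
    obtain ⟨κ, hκ, rfl⟩ := hy
    rw [inX_iff hf X hκ] at h2
    have h4 := n1 κ ⟨hκ, hz⟩
    rw [← h4.2, inX_iff hf X h4.1] at h3
    exact hXn κ (fun h => h1 (by rw [← h4.2, h])) h2 h3
  · change ¬ (mb B' f S X y ∧ mb B' f S X (B'.r y) ∧ mb B' f S X (B'.r (B'.r y))) ∧
      (mb B' f S X y ∨ mb B' f S X (B'.r y) ∨ mb B' f S X (B'.r (B'.r y)))
    have h3 := B'.r3 y
    have hry : B'.r (B'.r y) ≠ B'.r y := fun h' => h (by rw [h', h'] at h3; exact h3)
    have hrr : y ≠ B'.r (B'.r y) := fun h' => h (by rw [← h'] at h3; exact h3)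
    have h4 : B'.r (B'.r (B'.r y)) ≠ B'.r (B'.r y) := by rw [h3]; exact hrr
    by_cases i1 : In f S y <;> by_cases i2 : In f S (B'.r y) <;>
      by_cases i3 : In f S (B'.r (B'.r y))
    · rw [mb1 i1, mb1 i2, mb1 i3]
      obtain ⟨κ, hκ, rfl⟩ := i1
      have a := rstep κ ⟨hκ, i2, i3⟩
      have h5 := r1 κ ⟨hκ, i2, i3⟩
      have h6 := r1 (r κ) a
      have h7 : B'.r (B'.r (f κ)) = f (r (r κ)) := by rw [h6.2, h5.2]
      rw [h7, ← h5.2, inX_iff hf X hκ, inX_iff hf X h5.1, inX_iff hf X h6.1]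
      exact hXr κ (fun h' => h (by rw [← h5.2, h']))
    · have h5 := mb4 (X := X) i3 h4 (by rw [h3]; exact i1)
      rw [h3] at h5
      rw [mb1 i1, mb1 i2, h5]
      exact p1 _ _
    · rw [mb1 i1, mb1 i3, mb4 i2 hry i3]
      exact p2 _ _
    · have h5 := mb4 (X := X) i3 h4 (by rw [h3]; exact i1)
      rw [h3] at h5
      have h6 := mb5 (X := X) i2 hry i3 (by rw [h3]; exact i1)
      rw [h3] at h6
      rw [mb1 i1, h6, h5]
      exact p3 _
    · rw [mb4 i1 h i2, mb1 i2, mb1 i3]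
      exact p4 _ _
    · have h6 := mb5 (X := X) i3 h4 (by rw [h3]; exact i1) (by rw [h3]; exact i2)
      rw [h3] at h6
      rw [mb4 i1 h i2, mb1 i2, h6]
      exact p5 _
    · rw [mb5 i1 h i2 i3, mb4 i2 hry i3, mb1 i3]
      exact p6 _
    · have h5 := mb6 (X := X) i2 hry i3 (by rw [h3]; exact i1)
      rw [h3] at h5
      have h6 := mb6 (X := X) i3 h4 (by rw [h3]; exact i1) (by rw [h3]; exact i2)
      rw [h3] at h6
      rw [mb6 i1 h i2 i3, h5, h6]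
      exact three (Ne.symm h) (Ne.symm hry) hrr

lemma fl_nonempty (i j : Fin Δ) (M : ι → Finset (Fin Δ)) (X : Set ι) (κ : ι) :
    (fl i j M X κ).Nonempty ↔ (M κ).Nonempty := by
  unfold fl
  split_ifs with h
  · exact Finset.map_nonempty
  · exact Iff.rfl

/-- monotonicity -/
lemma mono [LinearOrder ι'] (f : ι → ι') : ∀ (w : List (Fin Δ × Fin Δ))
    (M : ι → Finset (Fin Δ)) (M' : ι' → Finset (Fin Δ)),
    Set.InjOn f {κ | (M κ).Nonempty} → (∀ κ, (M κ).Nonempty → M' (f κ) = M κ) →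
    Win w M' → Win w M
  | [], M, M', hf, hM, h => by
    obtain ⟨φ, h1, h2⟩ := h
    refine ⟨fun κ => φ (f κ), fun κ hκ => ?_, fun κ κ' hκ hκ' h3 => ?_⟩
    · have := h1 (f κ) (by rw [hM κ hκ]; exact hκ)
      rwa [hM κ hκ] at this
    · exact hf hκ hκ' (h2 _ _ (by rw [hM κ hκ]; exact hκ) (by rw [hM κ' hκ']; exact hκ') h3)
  | p :: w, M, M', hf, hM, h => by
    obtain ⟨B', h1, h2⟩ := h
    obtain ⟨B, b1, b2, b3, b4, b5⟩ := exists_blk f {κ | (M κ).Nonempty} hf B'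
    refine ⟨B, ?_, fun X hX => ?_⟩
    · intro x hx
      by_cases hS : (M x).Nonempty
      · have h3 : f x ∉ En p.1 p.2 M' := by
          intro h4
          refine hx ?_
          simp only [En, Set.mem_ofPred_eq] at h4 ⊢
          rw [hM x hS] at h4
          exact h4
        obtain ⟨c1, c2, c3⟩ := h1 _ h3
        exact ⟨b2 x c1, b3 x c2, b4 x c3⟩
      · exact b1 x hS
    · obtain ⟨X', x1, x2⟩ := b5 X hX
      refine mono f w _ (fl p.1 p.2 M' X') ?_ ?_ (h2 X' x1)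
      · intro κ hκ κ' hκ' hh
        exact hf ((fl_nonempty _ _ _ _ _).1 hκ) ((fl_nonempty _ _ _ _ _).1 hκ') hh
      · intro κ hκ
        have h3 : (M κ).Nonempty := (fl_nonempty _ _ _ _ _).1 hκ
        have h4 := x2 κ h3
        unfold fl
        by_cases h5 : κ ∈ X
        · rw [if_pos h5, if_pos (h4.2 h5), hM κ h3]
        · rw [if_neg h5, if_neg fun h6 => h5 (h4.1 h6), hM κ h3]

end WIN_

open WIN_ in
theorem allWIN : tWIN := by
  classical
  intro Δ w hw m M hM hc hS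
  obtain ⟨κ0, φ, h1, h2⟩ := hS
  rcases Nat.lt_or_ge Δ 2 with hΔ | hΔ
  · have hΔ1 : Δ = 1 := by
      have : 0 < Δ := (φ κ0).pos
      omega
    subst hΔ1
    have he : ∀ κ, ¬ (M κ).Nonempty := by
      intro κ hκ
      rcases hM κ with h | h
      · rw [Finset.card_eq_zero.1 h] at hκ
        exact Finset.not_nonempty_empty hκ
      · have := Finset.card_le_univ (M κ)
        rw [h, Fintype.card_fin] at this
        omega
    rcases w with - | ⟨p, w⟩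
    · exact ⟨fun _ => 0, fun κ hκ => absurd hκ (he κ), fun κ _ hκ => absurd hκ (he κ)⟩
    · exact absurd (Subsingleton.elim p.1 p.2) (hw.1 p (by simp))
  · have : Nontrivial (Fin Δ) := Fin.nontrivial_iff_two_le.2 hΔ
    set S : Set (Fin m) := {κ | (M κ).Nonempty} with hSdef
    have hrm : ∀ κ ∈ S, κ ≠ κ0 → (rm M κ0 κ) = M κ := fun κ _ h => if_neg h
    have hφ1 : ∀ κ ∈ S, κ ≠ κ0 → φ κ ∈ M κ := fun κ hκ h => by
      have := h1 κ (by rw [hrm κ hκ h]; exact hκ)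
      rwa [hrm κ hκ h] at this
    have hφ2 : ∀ κ ∈ S, κ ≠ κ0 → ∀ κ' ∈ S, κ' ≠ κ0 → φ κ = φ κ' → κ = κ' :=
      fun κ hκ h κ' hκ' h' hh => h2 κ κ' (by rw [hrm κ hκ h]; exact hκ)
        (by rw [hrm κ' hκ' h']; exact hκ') hh
    obtain ⟨c0, hc0⟩ : ∃ c0 : Fin Δ, κ0 ∈ S → ∀ κ ∈ S, κ ≠ κ0 → φ κ ≠ c0 := by
      by_cases h0 : κ0 ∈ S
      · have h3 : (S \ {κ0}).ncard < S.ncard := Set.ncard_sdiff_singleton_lt_of_mem h0
        have h4 : (φ '' (S \ {κ0})).ncard ≤ (S \ {κ0}).ncard := Set.ncard_image_le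
        have h5 : φ '' (S \ {κ0}) ≠ Set.univ := by
          intro h
          rw [h, Set.ncard_univ, Nat.card_eq_fintype_card, Fintype.card_fin] at h4
          omega
        obtain ⟨c0, hc0⟩ := (Set.ne_univ_iff_exists_notMem _).1 h5
        exact ⟨c0, fun _ κ hκ h h' => hc0 ⟨κ, ⟨hκ, h⟩, h'⟩⟩
      · exact ⟨⟨0, by omega⟩, fun h => absurd h h0⟩
    set f : Fin m → Fin Δ := fun κ => if κ = κ0 then c0 else φ κ with hfdef
    have f0 : f κ0 = c0 := if_pos rfl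
    have f1 : ∀ κ, κ ≠ κ0 → f κ = φ κ := fun κ h => if_neg h
    have hinj : Set.InjOn f S := by
      intro κ hκ κ' hκ' hh
      by_cases e1 : κ = κ0
      · by_cases e2 : κ' = κ0
        · rw [e1, e2]
        · rw [e1, f0, f1 κ' e2] at hh
          exact absurd hh.symm (hc0 (e1 ▸ hκ) κ' hκ' e2)
      · by_cases e2 : κ' = κ0
        · rw [e2, f0, f1 κ e1] at hh
          exact absurd hh (hc0 (e2 ▸ hκ') κ hκ e1)
        · rw [f1 κ e1, f1 κ' e2] at hh
          exact hφ2 κ hκ e1 κ' hκ' e2 hh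
    choose oth hoth using fun c : Fin Δ => exists_ne c
    set M' : Fin Δ → Finset (Fin Δ) := fun c =>
      if h : ∃ κ, κ ∈ S ∧ f κ = c then M h.choose else {c, oth c} with hM'
    have hM'1 : ∀ κ ∈ S, M' (f κ) = M κ := by
      intro κ hκ
      have h : ∃ κ', κ' ∈ S ∧ f κ' = f κ := ⟨κ, hκ, rfl⟩
      have h3 : M' (f κ) = M h.choose := by simp only [hM']; rw [dif_pos h]
      rw [h3, hinj h.choose_spec.1 hκ h.choose_spec.2]
    have hM'2 : ∀ c, (¬ ∃ κ, κ ∈ S ∧ f κ = c) → M' c = {c, oth c} := by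
      intro c hc
      simp only [hM']
      rw [dif_neg hc]
    have hcard : ∀ c, (M' c).card = 2 := by
      intro c
      by_cases h : ∃ κ, κ ∈ S ∧ f κ = c
      · obtain ⟨κ, hκ, rfl⟩ := h
        rw [hM'1 κ hκ]
        rcases hM κ with h | h
        · have h5 : (M κ).Nonempty := hκ
          rw [Finset.card_eq_zero.1 h] at h5
          exact absurd h5 Finset.not_nonempty_empty
        · exact h
      · rw [hM'2 c h]
        exact Finset.card_pair (hoth c).symm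
    have hmem : ∀ c, c ≠ c0 → c ∈ M' c := by
      intro c hcc
      by_cases h : ∃ κ, κ ∈ S ∧ f κ = c
      · obtain ⟨κ, hκ, rfl⟩ := h
        rw [hM'1 κ hκ]
        have e1 : κ ≠ κ0 := by
          rintro rfl
          exact hcc f0
        rw [f1 κ e1]
        exact hφ1 κ hκ e1
      · rw [hM'2 c h]
        exact Finset.mem_insert_self _ _
    have hW : Win w M' := by
      refine hw.2 M' hcard ⟨c0, id, fun c hcn => ?_, fun c c' _ _ h => h⟩
      by_cases e : c = c0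
      · rw [e, rm, if_pos rfl] at hcn
        exact absurd hcn Finset.not_nonempty_empty
      · have : rm M' c0 c = M' c := if_neg e
        rw [this]
        exact hmem c e
    exact mono f w M M' hinj (fun κ hκ => hM'1 κ hκ) hW

end Pool.Agent.SGM
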